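import Pool.Agent.TightEmb.Emb2

/-!
Absence of towers over the directions with middle dimensional cycles, and the conclusion.
-/

set_option linter.unusedSimpArgs false

namespace Pool.Agent.TightEmb

open Finsupp

namespace Emb

variable {k n : ℕ} (F : Emb k n)

/-- the two coordinate systems in either order. -/
def IsPair (k : ℕ) (X Y : Fin (k + 1) → MM k → ℝ) : Prop :=
  (X = cX k ∧ Y = cY k) ∨ (X = cY k ∧ Y = cX k)

lemma IsPair.symm {X Y : Fin (k + 1) → MM k → ℝ} (h : IsPair k X Y) : IsPair k Y X := by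
  rcases h with ⟨rfl, rfl⟩ | ⟨rfl, rfl⟩
  · exact Or.inr ⟨rfl, rfl⟩
  · exact Or.inl ⟨rfl, rfl⟩

lemma pair_sum {X Y : Fin (k + 1) → MM k → ℝ} (h : IsPair k X Y) :
    ∀ v, ∑ a, X a v ^ 2 = 1 := by
  rcases h with ⟨rfl, rfl⟩ | ⟨rfl, rfl⟩
  · exact cX_sum (k := k)
  · exact cY_sum (k := k)

lemma pair_Dc {X Y : Fin (k + 1) → MM k → ℝ} (h : IsPair k X Y) {s : ℝ} (hs : s ≤ F.s0)
    {x y : MM k} (hxy : F.Dl s x y) : Dc X Y F.del x y := by
  rcases h with ⟨rfl, rfl⟩ | ⟨rfl, rfl⟩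
  · exact F.s0_Dc' hs hxy
  · exact fun a => (F.s0_Dc' hs hxy a).symm

lemma pair_sep {X Y : Fin (k + 1) → MM k → ℝ} (hp : IsPair k X Y) {t : ℝ} {u v : Sp n}
    (h : 2 * t + F.R * dist v (-u) ≤ 3 / 2 * F.m0) {x y : MM k}
    (hx : x ∈ F.Reg t u) (hy : y ∈ F.Reg t v) :
    ∃ a, F.rho ≤ |X a x - X a y| ∨ F.rho ≤ |Y a x - Y a y| := by
  obtain ⟨a, ha⟩ := F.rho_sep (F.Reg_sep h hx hy)
  rcases hp with ⟨rfl, rfl⟩ | ⟨rfl, rfl⟩
  · exact ⟨a, ha⟩
  · exact ⟨a, ha.symm⟩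

lemma pair_iso {X Y : Fin (k + 1) → MM k → ℝ} (hp : IsPair k X Y) {s : ℝ} (hs : s ≤ F.s0) {t : ℝ}
    {u v : Sp n} (h : 2 * t + F.R * dist v (-u) ≤ 3 / 2 * F.m0) {z w : Ch (MM k)}
    (hz : z ∈ CK (Sm (F.Reg t u) (F.Dl s)) (k + 1)) (hw : w ∈ CK (Sm (F.Reg t v) (F.Dl s)) (k + 1))
    (cz : bd z = 0) (cw : bd w = 0) :
    augL (Sop (sgs Y) z) * augL (Sop (sgs X) w) +
      augL (Sop (sgs X) z) * augL (Sop (sgs Y) w) = 0 := by
  have := F.iso hs h hz hw cz cw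
  rcases hp with ⟨rfl, rfl⟩ | ⟨rfl, rfl⟩
  · exact this
  · rw [add_comm]; exact this

lemma del_le4 : F.del ≤ 1 / (4 * ((k : ℝ) + 1)) := by
  have h1 := F.rho_le
  unfold del
  rw [div_le_div_iff₀ (by positivity) (by positivity)]
  have : (0 : ℝ) ≤ (k : ℝ) := by positivity
  nlinarith

/-- small boundaries have value zero. -/
lemma aug_bdry {X Y : Fin (k + 1) → MM k → ℝ} (hp : IsPair k X Y) {y : Ch (MM k)}
    (hy : y ∈ CK (Sm Set.univ (F.Dl F.s0)) (k + 2)) : augL (Sop (sgs X) (bd y)) = 0 := by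
  have hc := ISet.commX' (X := X) (Y := Y) (pair_sum hp) (D' := F.Dl F.s0)
    (fun x y hxy => F.pair_Dc hp le_rfl hxy) F.del_le4 Set.univ
  have e : Sop (sgs X) (bd y) = bd (Sop (sgs X) y) := by
    refine (lSC (MM k)).Comm_sm hc (n := k + 1) (m := 0) (by omega) ?_
    rw [← CK_Sm_eq]; exact hy
  rw [e, augL_bd]

/-- a scale at which cycles with zero values bound. -/
lemma exists_s1 : ∃ s > 0, s ≤ F.s0 ∧ ∀ z ∈ CK (Sm Set.univ (F.Dl s)) (k + 1), bd z = 0 →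
    augL (Sop (sgs (cX k)) z) = 0 → augL (Sop (sgs (cY k)) z) = 0 →
    ∃ y ∈ CK (Sm Set.univ (F.Dl F.s0)) (k + 2), bd y = z := by
  have hk := F.hk
  obtain ⟨δ, hδ, h⟩ := F.fillV F.s0 F.s0_pos
  refine ⟨min δ F.s0, lt_min hδ F.s0_pos, min_le_right _ _, fun z hz hc a1 a2 => ?_⟩
  exact h k (by omega) z (CK_mono (fun l hl => Sm_mono subset_rfl
    (fun x y => F.Dl_mono (min_le_left _ _)) hl) _ hz) hc (fun _ => ⟨a1, a2⟩) (fun h => by omega)

noncomputable def s1 : ℝ := F.exists_s1.choose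
lemma s1_pos : 0 < F.s1 := F.exists_s1.choose_spec.1
lemma s1_le : F.s1 ≤ F.s0 := F.exists_s1.choose_spec.2.1
lemma s1_fill {X Y : Fin (k + 1) → MM k → ℝ} (hp : IsPair k X Y) {z : Ch (MM k)}
    (hz : z ∈ CK (Sm Set.univ (F.Dl F.s1)) (k + 1)) (hc : bd z = 0)
    (h1 : augL (Sop (sgs X) z) = 0) (h2 : augL (Sop (sgs Y) z) = 0) :
    ∃ y ∈ CK (Sm Set.univ (F.Dl F.s0)) (k + 2), bd y = z := by
  rcases hp with ⟨rfl, rfl⟩ | ⟨rfl, rfl⟩
  · exact F.exists_s1.choose_spec.2.2 z hz hc h1 h2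
  · exact F.exists_s1.choose_spec.2.2 z hz hc h2 h1

lemma Sm_Reg_τ {t s : ℝ} {u : Sp n} {l : List (MM k)} (hl : Sm (F.Reg t u) (F.Dl s) l) :
    Sm (F.Reg t (-u)) (F.Dl s) (l.map F.τ) := by
  refine ⟨?_, ?_⟩
  · intro x hx
    rw [List.mem_map] at hx
    obtain ⟨x', hx', rfl⟩ := hx
    exact F.Reg_τ (hl.1 _ hx')
  · intro x hx y hy
    rw [List.mem_map] at hx hy
    obtain ⟨x', hx', rfl⟩ := hx
    obtain ⟨y', hy', rfl⟩ := hy
    exact F.Dl_τ (hl.2 _ hx' _ hy')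

/-- symmetry of the presence of cycles. -/
lemma Pv_neg {X Y : Fin (k + 1) → MM k → ℝ} (hp : IsPair k X Y) {t s : ℝ} (ht : t ≤ F.m0 / 2)
    (hs : s ≤ F.s1) {u : Sp n} (h : F.Pv Y t s u) : F.Pv Y t s (-u) := by
  obtain ⟨z, hz, hc, hv⟩ := h
  have hm := F.m0_pos
  set w := mapL F.τ z with hw
  have hwm : w ∈ CK (Sm (F.Reg t (-u)) (F.Dl s)) (k + 1) :=
    mapL_mem_CK (fun l _ hl => F.Sm_Reg_τ hl) hz
  have hwc : bd w = 0 := by rw [hw, bd_mapL, hc, map_zero]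
  refine ⟨w, hwm, hwc, ?_⟩
  have hi := F.pair_iso hp (hs.trans F.s1_le) (t := t) (u := u) (v := -u)
    (by rw [dist_self, mul_zero]; linarith) hz hwm hc hwc
  rw [hv, one_mul] at hi
  rcases zmod2_cases (augL (Sop (sgs Y) w)) with h0 | h0
  · exfalso
    rw [h0, mul_zero, add_zero] at hi
    obtain ⟨y, hy, hyw⟩ := F.s1_fill hp (z := w)
      (CK_mono (fun l hl => Sm_mono (Set.subset_univ _) (fun x y => F.Dl_mono hs) hl) _ hwm)
      hwc hi h0
    have hτ : mapL F.τ w = z := (lInv F.τ F.ττ).tt z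
    have e : bd (mapL F.τ y) = z := by rw [bd_mapL, hyw, hτ]
    have hy' : mapL F.τ y ∈ CK (Sm Set.univ (F.Dl F.s0)) (k + 2) :=
      mapL_mem_CK (fun l _ hl => F.Sm_τ (Ω := Set.univ) (fun _ _ => trivial) hl) hy
    have := F.aug_bdry hp.symm hy'
    rw [e, hv] at this
    exact absurd this (by decide)
  · exact h0

/-- in the presence of the other class, values are linked. -/
lemma Pv_link {X Y : Fin (k + 1) → MM k → ℝ} (hp : IsPair k X Y) {t s : ℝ} (ht : t ≤ F.m0 / 2)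
    (hs : s ≤ F.s1) {u : Sp n} (h : F.Pv Y t s u) {z : Ch (MM k)}
    (hz : z ∈ CK (Sm (F.Reg t u) (F.Dl s)) (k + 1)) (hc : bd z = 0)
    (hv : augL (Sop (sgs X) z) = 1) : augL (Sop (sgs Y) z) = 1 := by
  obtain ⟨w, hw, hwc, hwv⟩ := F.Pv_neg hp ht hs h
  have hm := F.m0_pos
  have hi := F.pair_iso hp (hs.trans F.s1_le) (t := t) (u := u) (v := -u)
    (by rw [dist_self, mul_zero]; linarith) hz hw hc hwc
  rw [hv, hwv, mul_one] at hi
  rcases zmod2_cases (augL (Sop (sgs Y) z)) with h0 | h0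
  · rw [h0, zero_mul, zero_add] at hi
    exact absurd hi (by decide)
  · exact h0

/-- no towers over the directions where the `Y` value is present. -/
theorem noTowD1 {X Y : Fin (k + 1) → MM k → ℝ} (hp : IsPair k X Y) {t₁ : ℝ} (ht₁ : 0 ≤ t₁)
    (ht₁' : t₁ ≤ F.m0 / 4) : ∃ s' > 0, s' ≤ F.s1 ∧ ∀ s, 0 < s → s ≤ s' →
    ∃ η > 0, ¬ HasTow (fun u : Sp n => -u) (Sm {u | F.Pv Y t₁ s u} (Nr (Sp n) η)) (k + 1) := by
  classical
  have hR := F.R_pos
  have hm := F.m0_pos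
  have hk0 : (0 : ℝ) ≤ (k : ℝ) := by positivity
  set c : ℝ := F.m0 / (8 * ((k : ℝ) + 3)) with hc
  have hc0 : 0 < c := by positivity
  have hck : 8 * ((k : ℝ) + 3) * c = F.m0 := by rw [hc]; field_simp
  set t : ℕ → ℝ := fun j => t₁ + c * (2 * j) with ht
  have ht0 : ∀ j, 0 ≤ t j := fun j => by rw [ht]; positivity
  have htle : ∀ j, j ≤ k + 1 → t j + c ≤ F.m0 / 2 := by
    intro j hj
    have : (j : ℝ) ≤ (k : ℝ) + 1 := by exact_mod_cast hj
    rw [ht]
    simp only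
    nlinarith
  have htmono : ∀ j, j ≤ k + 1 → t j ≤ t (k + 1) := by
    intro j hj
    have : (j : ℝ) ≤ (k : ℝ) + 1 := by exact_mod_cast hj
    rw [ht]
    simp only
    push_cast
    nlinarith
  obtain ⟨e, e1, e2, e3⟩ := back_rec (k + 1)
    (fun j δ ε => δ ≤ ε ∧ ∀ u : Sp n, ∀ m : ℕ, m ≤ 2 * k →
      ∀ z ∈ CK (Sm (F.Reg (t j + c) u) (F.Dl δ)) (m + 1), bd z = 0 →
      (m = k → augL (Sop (sgs (cX k)) z) = 0 ∧ augL (Sop (sgs (cY k)) z) = 0) →
      ∃ y ∈ CK (Sm (F.Reg (t (j + 1)) u) (F.Dl ε)) (m + 2), bd y = z)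
    (by
      intro j hj ε hε
      obtain ⟨δ, hδ, h1, h2⟩ := F.fillR (t := t j + c) (t' := t (j + 1))
        (by linarith [ht0 j]) (htle j hj.le) (by
          rw [ht]; simp only; push_cast; nlinarith) ε hε
      exact ⟨δ, hδ, h1, h2⟩) F.s1 F.s1_pos
  have emono : ∀ j, j ≤ k + 1 → e j ≤ F.s1 := by
    intro j hj
    have : ∀ i, i ≤ k + 1 → e (k + 1 - i) ≤ F.s1 := by
      intro i
      induction i with
      | zero => intro _; rw [Nat.sub_zero, e2]
      | succ i ih =>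
        intro hi
        have h1 := (e3 (k + 1 - (i + 1)) (by omega)).1
        have h2 : k + 1 - (i + 1) + 1 = k + 1 - i := by omega
        rw [h2] at h1
        exact h1.trans (ih (by omega))
    have h1 := this (k + 1 - j) (by omega)
    have h2 : k + 1 - (k + 1 - j) = j := by omega
    rwa [h2] at h1
  refine ⟨e 0, e1 0, emono 0 (by omega), fun s hs hse => ?_⟩
  set D₁ : Set (Sp n) := {u | F.Pv Y t₁ s u} with hD₁
  set η' : ℝ := min (c / (2 * F.R)) (F.m0 / (2 * F.R)) with hη'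
  have hη0 : 0 < η' := lt_min (by positivity) (by positivity)
  have hηR : 2 * F.R * η' ≤ c := by
    have : 2 * F.R * η' ≤ 2 * F.R * (c / (2 * F.R)) :=
      mul_le_mul_of_nonneg_left (min_le_left _ _) (by linarith)
    have h2 : 2 * F.R * (c / (2 * F.R)) = c := by field_simp
    linarith
  have hηR2 : F.R * η' ≤ F.m0 / 2 := by
    have : F.R * η' ≤ F.R * (F.m0 / (2 * F.R)) :=
      mul_le_mul_of_nonneg_left (min_le_right _ _) hR.le
    have h2 : F.R * (F.m0 / (2 * F.R)) = F.m0 / 2 := by field_simp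
    linarith
  have hss1 : s ≤ F.s1 := hse.trans (emono 0 (by omega))
  obtain ⟨Ψ, Ψ0, Ψ1, Ψ2, Ψ3, -⟩ := gcl (U := Sp n) (Q := Ch (MM k)) bd (augL ∘ₗ Sop (sgs Y)) 0
    id (fun u => rfl) LinearMap.id
    (fun z => rfl) (fun z => rfl) (fun z => rfl)
    rfl (Sm D₁ (Nr (Sp n) η')) (Sm_subClosed _ _)
    (by intro l hl; rw [List.map_id]; exact hl)
    Set.univ (Or.inl (fun u => trivial))
    (fun j u => CK (Sm (F.Reg (t j) u) (F.Dl (e j))) (k + j + 1))
    (by intro j u z hz; exact hz)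
    (by
      intro u hu
      obtain ⟨z, hz, hzc, hzv⟩ : F.Pv Y t₁ s u := hu.1 u (by simp)
      refine ⟨z, ?_, hzc, hzv⟩
      refine CK_mono (fun l hl => Sm_mono (F.Reg_mono ?_ u) (fun x y => F.Dl_mono hse) hl) _ hz
      rw [ht]; simp)
    (k + 1)
    (by
      intro j hj u l hl hlen z hz hdz h0
      have hu : F.Pv Y t₁ s u := hl.1 u (by simp)
      have hz' : z ∈ CK (Sm (F.Reg (t j + c) u) (F.Dl (e j))) (k + j + 1) := by
        refine (iSup₂_le (fun v hv => ?_) : (⨆ v ∈ {v | v ∈ u :: l},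
          CK (Sm (F.Reg (t j) v) (F.Dl (e j))) (k + j + 1)) ≤
          CK (Sm (F.Reg (t j + c) u) (F.Dl (e j))) (k + j + 1)) hz
        have hvu : dist v u < η' := hl.2 v hv u (by simp)
        refine CK_mono (fun l hl => Sm_mono (F.Reg_move ?_) (fun _ _ h => h) hl) _
        have : 2 * F.R * dist v u ≤ 2 * F.R * η' := by
          apply mul_le_mul_of_nonneg_left hvu.le (by linarith)
        linarith
      obtain ⟨h1, h3⟩ := e3 j hj
      refine h3 u (k + j) (by omega) z hz' hdz ?_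
      intro hjk
      have hj0 : j = 0 := by omega
      subst hj0
      have hvY : augL (Sop (sgs Y) z) = 0 := h0 rfl
      have hvX : augL (Sop (sgs X) z) = 0 := by
        obtain ⟨w, hw, hwc, hwv⟩ := F.Pv_neg hp (by linarith) hss1 hu
        have hi := F.pair_iso hp ((emono 0 (by omega)).trans F.s1_le) (t := t 0 + c) (u := u)
          (v := -u) (by rw [dist_self, mul_zero]; have := htle 0 (by omega); linarith) hz'
          (CK_mono (fun l hl => Sm_mono (F.Reg_mono (by rw [ht]; simp; linarith) _)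
            (fun x y => F.Dl_mono hse) hl) _ hw) hdz hwc
        rw [hvY, hwv, zero_mul, zero_add, mul_one] at hi
        exact hi
      rcases hp with ⟨rfl, rfl⟩ | ⟨rfl, rfl⟩
      · exact ⟨hvX, hvY⟩
      · exact ⟨hvY, hvX⟩)
  refine noTow_prod F.hk X Y (pair_sum hp) (pair_sum hp.symm) F.rho_pos F.rho_le (δ := F.del) rfl
    (fun u : Sp n => -u) (fun u => neg_neg u) neg_dist (hodd n) hodd_odd D₁
    (fun u hu => F.Pv_neg hp (by linarith) hss1 hu) (fun u => F.Reg (t (k + 1)) u) hη0 Ψ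
    ?_ ?_ ?_ ?_
  · intro j hj u l hl hlen
    refine CK_mono (fun l hl => Sm_mono (F.Reg_mono (htmono j hj) u)
      (fun x y => F.pair_Dc hp ((emono j hj).trans F.s1_le)) hl) _ (Ψ1 j hj u l hl hlen)
  · intro j hj z hz
    exact Ψ2 (j + 1) (by omega) z hz
  · intro u hu
    have hsm : Sm D₁ (Nr (Sp n) η') [u] := by
      refine ⟨?_, ?_⟩
      · intro x hx
        rw [List.mem_singleton] at hx
        subst hx; exact hu
      · intro x hx y hy
        rw [List.mem_singleton] at hx hy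
        subst hx; subst hy
        exact (dist_self _).trans_lt hη0
    refine ⟨?_, Ψ3 u hsm⟩
    rw [Ψ2 0 (by omega) _ (single_mem_CK rfl hsm 1), bd_single_cons, bd_single_nil, map_zero,
      add_zero, Ψ0]
  · intro u hu v hv hd x hx y hy
    refine F.pair_sep hp (t := t (k + 1)) ?_ hx hy
    have h1 := htle (k + 1) le_rfl
    have h2 : F.R * dist v (-u) ≤ F.R * η' := mul_le_mul_of_nonneg_left hd.le hR.le
    linarith

lemma D3_neg {t s : ℝ} (ht : t ≤ F.m0 / 2) (hs : s ≤ F.s1) :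
    ∀ u ∈ F.D3 t s, -u ∈ F.D3 t s := by
  intro u hu
  refine ⟨fun h => hu.1 ?_, fun h => hu.2 ?_⟩
  · have := F.Pv_neg (Or.inr ⟨rfl, rfl⟩ : IsPair k (cY k) (cX k)) ht hs h
    rwa [neg_neg] at this
  · have := F.Pv_neg (Or.inl ⟨rfl, rfl⟩ : IsPair k (cX k) (cY k)) ht hs h
    rwa [neg_neg] at this

lemma Sm_neg {D : Set (Sp n)} (hD : ∀ u ∈ D, -u ∈ D) {η : ℝ} {l : List (Sp n)}
    (hl : Sm D (Nr (Sp n) η) l) : Sm D (Nr (Sp n) η) (l.map fun u => -u) := by
  refine ⟨fun x hx => ?_, fun x hx y hy => ?_⟩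
  · rw [List.mem_map] at hx
    obtain ⟨x', hx', rfl⟩ := hx
    exact hD _ (hl.1 _ hx')
  · rw [List.mem_map] at hx hy
    obtain ⟨x', hx', rfl⟩ := hx
    obtain ⟨y', hy', rfl⟩ := hy
    show dist (-x') (-y') < η
    rw [neg_dist]
    exact hl.2 _ hx' _ hy'

/-- the main bound. -/
theorem main (F : Emb k n) (hn : 2 * k + 2 ≤ n) : False := by
  classical
  have hR := F.R_pos
  have hm := F.m0_pos
  set q := F.m0 / 16 with hq
  have hq0 : 0 < q := by positivity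
  have p1 : IsPair k (cX k) (cY k) := Or.inl ⟨rfl, rfl⟩
  have p2 : IsPair k (cY k) (cX k) := Or.inr ⟨rfl, rfl⟩
  obtain ⟨sY, hsY, hsY1, hY⟩ := F.noTowD1 p1 (t₁ := 3 * q) (by linarith) (by linarith)
  obtain ⟨sX, hsX, hsX1, hX⟩ := F.noTowD1 p2 (t₁ := 3 * q) (by linarith) (by linarith)
  set s := min sX sY with hs
  have hs0 : 0 < s := lt_min hsX hsY
  have hs1 : s ≤ F.s1 := (min_le_left _ _).trans hsX1
  obtain ⟨ηY, hηY, hY⟩ := hY s hs0 (min_le_right _ _)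
  obtain ⟨ηX, hηX, hX⟩ := hX s hs0 (min_le_left _ _)
  obtain ⟨η3, hη3, h3⟩ := F.noTowD3 (F.D3_neg (t := q) (s := s) (by linarith) hs1) hq0
    (by linarith) hs0
  set η := min (min ηX ηY) (min η3 (q / (2 * F.R))) with hη
  have hη0 : 0 < η := lt_min (lt_min hηX hηY) (lt_min hη3 (by positivity))
  have ηX' : η ≤ ηX := (min_le_left _ _).trans (min_le_left _ _)
  have ηY' : η ≤ ηY := (min_le_left _ _).trans (min_le_right _ _)
  have η3' : η ≤ η3 := (min_le_right _ _).trans (min_le_left _ _)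
  have ηq : 2 * F.R * η ≤ q := by
    have h1 : η ≤ q / (2 * F.R) := (min_le_right _ _).trans (min_le_right _ _)
    have h2 : 2 * F.R * η ≤ 2 * F.R * (q / (2 * F.R)) :=
      mul_le_mul_of_nonneg_left h1 (by linarith)
    have h4 : 2 * F.R * (q / (2 * F.R)) = q := by field_simp
    linarith
  set D₁ : Set (Sp n) := {u | F.Pv (cY k) (3 * q) s u} with hD₁
  set D₂ : Set (Sp n) := {u | F.Pv (cX k) (3 * q) s u ∧ ¬ F.Pv (cY k) (3 * q) s u} with hD₂
  have t1 : ∀ u ∈ D₁, -u ∈ D₁ := fun u hu => F.Pv_neg p1 (by linarith) hs1 hu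
  have t2 : ∀ u ∈ D₂, -u ∈ D₂ := by
    intro u hu
    refine ⟨F.Pv_neg p2 (by linarith) hs1 hu.1, fun h => hu.2 ?_⟩
    have := F.Pv_neg p1 (by linarith) hs1 h
    rwa [neg_neg] at this
  have mono : ∀ {D : Set (Sp n)} {η' : ℝ}, η ≤ η' → ∀ l, Sm D (Nr (Sp n) η) l →
      Sm D (Nr (Sp n) η') l := fun h l hl =>
    Sm_mono subset_rfl (fun _ _ h' => lt_of_lt_of_le h' h) hl
  have no1 : ¬ HasTow (fun u : Sp n => -u) (Sm D₁ (Nr (Sp n) η)) (k + 1) := fun h =>
    hY (h.mono le_rfl (mono ηY'))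
  have no2 : ¬ HasTow (fun u : Sp n => -u) (Sm D₂ (Nr (Sp n) η)) (k + 1) := fun h =>
    hX (h.mono le_rfl (fun l hl => mono ηX' l (Sm_mono (fun u hu => hu.1) (fun _ _ h => h) hl)))
  have no12 : ¬ HasTow (fun u : Sp n => -u)
      (fun l => Sm D₁ (Nr (Sp n) η) l ∨ Sm D₂ (Nr (Sp n) η) l) (k + 1) := by
    intro h
    rcases split_tower (Sm_subClosed _ _) (Sm_subClosed _ _) (fun l hl => Sm_neg t1 hl)
      (fun l hl => Sm_neg t2 hl) (fun u h1 h2 => (h2.1 u (by simp)).2 (h1.1 u (by simp))) h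
      with h | h
    · exact no1 h
    · exact no2 h
  have hsub : SubClosed (fun l => Sm D₁ (Nr (Sp n) η) l ∨ Sm D₂ (Nr (Sp n) η) l) := by
    intro l l' hs h
    rcases h with h | h
    · exact Or.inl (Sm_subClosed _ _ _ _ hs h)
    · exact Or.inr (Sm_subClosed _ _ _ _ hs h)
  have move : ∀ {u v : Sp n} {a b : ℝ}, dist u v < η → b - a = q → 2 * F.R * dist u v ≤ b - a := by
    intro u v a b huv hab
    have : 2 * F.R * dist u v ≤ 2 * F.R * η :=
      mul_le_mul_of_nonneg_left huv.le (by linarith)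
    linarith
  have hcov : ∀ l, Sm Set.univ (Nr (Sp n) η) l → l ≠ [] →
      (Sm D₁ (Nr (Sp n) η) l ∨ Sm D₂ (Nr (Sp n) η) l) ∨ Sm (F.D3 q s) (Nr (Sp n) η) l := by
    intro l hl _
    by_cases hl3 : ∀ u ∈ l, u ∈ F.D3 q s
    · exact Or.inr ⟨hl3, hl.2⟩
    · left
      push Not at hl3
      obtain ⟨v, hv, hv3⟩ := hl3
      have hv3' : F.Pv (cX k) q s v ∨ F.Pv (cY k) q s v := by
        by_contra hcon
        push Not at hcon
        exact hv3 hcon
      rcases hv3' with hX' | hY'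
      · have hall : ∀ u ∈ l, F.Pv (cX k) (2 * q) s u := fun u hu =>
          F.Pv_move (move (hl.2 v hv u hu) (by ring)) hX'
        by_cases hex : ∃ u ∈ l, F.Pv (cY k) (3 * q) s u
        · left
          obtain ⟨u, hu, huY⟩ := hex
          obtain ⟨z, hz, hzc, hzv⟩ := hall u hu
          have hz' : z ∈ CK (Sm (F.Reg (3 * q) u) (F.Dl s)) (k + 1) :=
            CK_mono (fun l hl => Sm_mono (F.Reg_mono (by linarith) u) (fun _ _ h => h) hl) _ hz
          have hzY := F.Pv_link p1 (by linarith) hs1 huY hz' hzc hzv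
          have huY2 : F.Pv (cY k) (2 * q) s u := ⟨z, hz, hzc, hzY⟩
          exact ⟨fun w hw => F.Pv_move (move (hl.2 u hu w hw) (by ring)) huY2, hl.2⟩
        · right
          push Not at hex
          exact ⟨fun w hw => ⟨F.Pv_mono (by linarith) le_rfl (hall w hw), hex w hw⟩, hl.2⟩
      · left
        refine ⟨fun w hw => ?_, hl.2⟩
        have : F.Pv (cY k) (2 * q) s w := F.Pv_move (move (hl.2 v hv w hw) (by ring)) hY'
        exact F.Pv_mono (by linarith) le_rfl this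
  have hyes : HasTow (fun u : Sp n => -u) (Sm Set.univ (Nr (Sp n) η)) (k + 1 + (k + 1)) :=
    sphere_tower n _ (by omega) η hη0
  have h3' := dual_tower (fun u : Sp n => neg_neg u) (hodd n) hodd_odd hsub
    (Sm_subClosed _ _) hcov (m := k + 1) (r := k + 1) (by omega) no12 hyes
  exact h3 (h3'.mono le_rfl (mono η3'))

end Emb

end Pool.Agent.TightEmb
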