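import Pool.Agent.TightEmb.Cech

/-!
Chains of finite lists with coefficients modulo two (augmented ordered chain complex).
A list of length n+1 is an n-simplex; the empty list is the simplex of degree -1.
-/

namespace Pool.Agent.TightEmb

open Finsupp

variable {V W X : Type*}

/-- put `x` in front of every list (cone construction). -/
noncomputable def consL (x : V) : Ch V →ₗ[ZMod 2] Ch V :=
  Finsupp.lmapDomain (ZMod 2) (ZMod 2) (List.cons x)

@[simp] lemma consL_single (x : V) (l : List V) (c : ZMod 2) :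
    consL x (single l c) = single (x :: l) c := by
  simp [consL, Finsupp.lmapDomain_apply, Finsupp.mapDomain_single]

/-- boundary of a list. -/
noncomputable def bdL : List V → Ch V
  | [] => 0
  | (x :: l) => single l 1 + consL x (bdL l)

/-- boundary of a chain. -/
noncomputable def bd : Ch V →ₗ[ZMod 2] Ch V :=
  Finsupp.linearCombination (ZMod 2) bdL

/-- push forward. -/
noncomputable def mapL (g : V → W) : Ch V →ₗ[ZMod 2] Ch W :=
  Finsupp.lmapDomain (ZMod 2) (ZMod 2) (List.map g)

@[simp] lemma mapL_single (g : V → W) (l : List V) (c : ZMod 2) :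
    mapL g (single l c) = single (l.map g) c := by
  simp [mapL, Finsupp.lmapDomain_apply, Finsupp.mapDomain_single]

@[simp] lemma bd_single_nil (c : ZMod 2) : bd (single ([] : List V) c) = 0 := by
  simp [bd, bdL]

lemma bd_single_cons (x : V) (l : List V) (c : ZMod 2) :
    bd (single (x :: l) c) = single l c + consL x (bd (single l c)) := by
  simp only [bd, Finsupp.linearCombination_single, bdL, smul_add, Finsupp.smul_single,
    smul_eq_mul, mul_one, map_smul]

/-- extensionality: two linear maps out of `Ch V` agree if they agree on lists. -/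
lemma lin_ext {M : Type*} [AddCommMonoid M] [Module (ZMod 2) M] {f g : Ch V →ₗ[ZMod 2] M}
    (h : ∀ l, f (single l 1) = g (single l 1)) : f = g := by
  apply Finsupp.lhom_ext
  intro a b
  have : single a b = b • single a (1 : ZMod 2) := by simp
  rw [this, map_smul, map_smul, h]

lemma bd_consL (x : V) (z : Ch V) : bd (consL x z) = z + consL x (bd z) := by
  have : bd ∘ₗ consL x = LinearMap.id + consL x ∘ₗ bd := by
    apply lin_ext
    intro l
    simp [bd_single_cons]
  simpa using LinearMap.congr_fun this z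

lemma add_self' {M : Type*} [AddCommGroup M] [Module (ZMod 2) M] (z : M) : z + z = 0 := by
  have : z + z = (2 : ZMod 2) • z := by rw [two_smul]
  rw [this]
  have h2 : (2 : ZMod 2) = 0 := by decide
  rw [h2, zero_smul]

lemma two_ns {M : Type*} [AddCommGroup M] [Module (ZMod 2) M] (z : M) : (2 : ℕ) • z = 0 := by
  rw [two_nsmul, add_self']

lemma two_zs {M : Type*} [AddCommGroup M] [Module (ZMod 2) M] (z : M) : (2 : ℤ) • z = 0 := by
  rw [two_zsmul, add_self']

lemma three_ns {M : Type*} [AddCommGroup M] [Module (ZMod 2) M] (z : M) : (3 : ℕ) • z = z := by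
  rw [show (3 : ℕ) = 2 + 1 from rfl, add_nsmul, two_ns, one_nsmul, zero_add]

lemma three_zs {M : Type*} [AddCommGroup M] [Module (ZMod 2) M] (z : M) : (3 : ℤ) • z = z := by
  rw [show (3 : ℤ) = 2 + 1 from rfl, add_zsmul, two_zs, one_zsmul, zero_add]

lemma four_ns {M : Type*} [AddCommGroup M] [Module (ZMod 2) M] (z : M) : (4 : ℕ) • z = 0 := by
  rw [show (4 : ℕ) = 2 + 2 from rfl, add_nsmul, two_ns, zero_add]

lemma four_zs {M : Type*} [AddCommGroup M] [Module (ZMod 2) M] (z : M) : (4 : ℤ) • z = 0 := by
  rw [show (4 : ℤ) = 2 + 2 from rfl, add_zsmul, two_zs, zero_add]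

lemma eq_of_add_zero {M : Type*} [AddCommGroup M] [Module (ZMod 2) M] {a b : M}
    (h : a + b = 0) : a = b := by
  have : a + b + b = b := by rw [h, zero_add]
  rwa [add_assoc, add_self', add_zero] at this

lemma add_zero_of_eq {M : Type*} [AddCommGroup M] [Module (ZMod 2) M] {a b : M}
    (h : a = b) : a + b = 0 := by rw [h, add_self']

lemma bd_bd (z : Ch V) : bd (bd z) = 0 := by
  have : bd ∘ₗ (bd : Ch V →ₗ[ZMod 2] Ch V) = 0 := by
    apply lin_ext
    intro l
    induction l with
    | nil => simp
    | cons x l ih =>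
      simp only [LinearMap.comp_apply, LinearMap.zero_apply] at ih ⊢
      rw [bd_single_cons, map_add, bd_consL, ih, map_zero, add_zero, add_self']
  simpa using LinearMap.congr_fun this z

lemma mapL_consL (g : V → W) (x : V) (z : Ch V) :
    mapL g (consL x z) = consL (g x) (mapL g z) := by
  have : mapL g ∘ₗ consL x = consL (g x) ∘ₗ mapL g := by
    apply lin_ext; intro l; simp
  simpa using LinearMap.congr_fun this z

lemma bd_mapL (g : V → W) (z : Ch V) : bd (mapL g z) = mapL g (bd z) := by
  have : bd ∘ₗ mapL g = mapL g ∘ₗ bd := by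
    apply lin_ext
    intro l
    induction l with
    | nil => simp
    | cons x l ih =>
      simp only [LinearMap.comp_apply] at ih ⊢
      rw [mapL_single, List.map_cons, bd_single_cons, bd_single_cons, map_add, mapL_consL,
        ← ih, mapL_single]
  simpa using LinearMap.congr_fun this z

lemma mapL_mapL (g : V → W) (f : W → X) (z : Ch V) :
    mapL f (mapL g z) = mapL (f ∘ g) z := by
  have : mapL f ∘ₗ mapL g = mapL (f ∘ g) := by
    apply lin_ext; intro l; simp
  simpa using LinearMap.congr_fun this z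

lemma mapL_id (z : Ch V) : mapL (id : V → V) z = z := by
  have : mapL (id : V → V) = LinearMap.id := by
    apply lin_ext; intro l; simp
  simpa using LinearMap.congr_fun this z

lemma bdList_eq (l : List V) : bdList l = bdL l := by
  induction l with
  | nil => rfl
  | cons x l ih => rw [bdList, bdL, ih]; rfl

lemma bdry_eq (z : Ch V) : bdry z = bd z := by
  unfold bdry bd
  rw [Finsupp.linearCombination_apply]
  apply Finsupp.sum_congr
  intro l _
  rw [bdList_eq]

lemma push_eq (g : V → W) (z : Ch V) : push g z = mapL g z := rfl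

/-! ### prism operator -/

/-- prism operator on lists. -/
noncomputable def prismL (g g' : V → W) : List V → Ch W
  | [] => 0
  | (x :: l) => single (g x :: g' x :: l.map g') 1 + consL (g x) (prismL g g' l)

noncomputable def prism (g g' : V → W) : Ch V →ₗ[ZMod 2] Ch W :=
  Finsupp.linearCombination (ZMod 2) (prismL g g')

@[simp] lemma prism_single_nil (g g' : V → W) (c : ZMod 2) :
    prism g g' (single [] c) = 0 := by simp [prism, prismL]

lemma prism_single_cons (g g' : V → W) (x : V) (l : List V) (c : ZMod 2) :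
    prism g g' (single (x :: l) c) =
      single (g x :: g' x :: l.map g') c + consL (g x) (prism g g' (single l c)) := by
  simp only [prism, Finsupp.linearCombination_single, prismL, smul_add, Finsupp.smul_single,
    smul_eq_mul, mul_one, map_smul]

lemma prism_consL (g g' : V → W) (x : V) (z : Ch V) :
    prism g g' (consL x z) =
      consL (g x) (consL (g' x) (mapL g' z)) + consL (g x) (prism g g' z) := by
  have : prism g g' ∘ₗ consL x =
      consL (g x) ∘ₗ consL (g' x) ∘ₗ mapL g' + consL (g x) ∘ₗ prism g g' := by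
    apply lin_ext; intro l; simp [prism_single_cons]
  simpa using LinearMap.congr_fun this z

lemma prism_formula (g g' : V → W) (z : Ch V) :
    bd (prism g g' z) + prism g g' (bd z) = mapL g z + mapL g' z := by
  have : bd ∘ₗ prism g g' + prism g g' ∘ₗ bd = mapL g + mapL g' := by
    apply lin_ext
    intro l
    induction l with
    | nil => simp [add_self']
    | cons x l ih =>
      simp only [LinearMap.comp_apply, LinearMap.add_apply, mapL_single, List.map_cons] at ih ⊢
      have ih' : bd (prism g g' (single l 1)) =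
          single (l.map g) 1 + single (l.map g') 1 + prism g g' (bd (single l 1)) := by
        rw [← ih, add_assoc, add_self', add_zero]
      rw [prism_single_cons, bd_single_cons x l, map_add, map_add, bd_consL, prism_consL,
        bd_single_cons, bd_single_cons, ih']
      simp only [map_add, consL_single, ← bd_mapL, mapL_single]
      abel_nf
      simp only [two_ns, two_zs, add_zero, zero_add]
  simpa using LinearMap.congr_fun this z

/-! ### supports -/

/-- `P` is inherited by sublists. -/
def SubClosed (P : List V → Prop) : Prop := ∀ l l' : List V, l'.Sublist l → P l → P l'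

/-- chains supported on lists of length `n` satisfying `P`. -/
noncomputable def CK (P : List V → Prop) (n : ℕ) : Submodule (ZMod 2) (Ch V) :=
  Finsupp.supported (ZMod 2) (ZMod 2) {l | l.length = n ∧ P l}

lemma mem_CK {P : List V → Prop} {n : ℕ} {z : Ch V} :
    z ∈ CK P n ↔ ∀ l ∈ z.support, l.length = n ∧ P l := by
  rw [CK, Finsupp.mem_supported]
  rfl

lemma isChain_iff {P : List V → Prop} {n : ℕ} {z : Ch V} : IsChain P n z ↔ z ∈ CK P (n + 1) :=
  mem_CK.symm

lemma single_mem_CK {P : List V → Prop} {n : ℕ} {l : List V} (h1 : l.length = n) (h2 : P l)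
    (c : ZMod 2) : single l c ∈ CK P n :=
  Finsupp.single_mem_supported _ _ ⟨h1, h2⟩

lemma CK_induction {P : List V → Prop} {n : ℕ} {M : Type*} [AddCommMonoid M] [Module (ZMod 2) M]
    (f : Ch V →ₗ[ZMod 2] M) (N : Submodule (ZMod 2) M)
    (h : ∀ l : List V, l.length = n → P l → f (single l 1) ∈ N) {z : Ch V} (hz : z ∈ CK P n) :
    f z ∈ N := by
  rw [CK, Finsupp.supported_eq_span_single] at hz
  have : Submodule.span (ZMod 2) ((fun i => single i (1 : ZMod 2)) '' {l | l.length = n ∧ P l}) ≤
      N.comap f := by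
    rw [Submodule.span_le]
    rintro _ ⟨l, ⟨h1, h2⟩, rfl⟩
    exact h l h1 h2
  exact this hz

lemma CK_eq {P : List V → Prop} {n : ℕ} {M : Type*} [AddCommMonoid M] [Module (ZMod 2) M]
    (f g : Ch V →ₗ[ZMod 2] M)
    (h : ∀ l : List V, l.length = n → P l → f (single l 1) = g (single l 1)) {z : Ch V}
    (hz : z ∈ CK P n) : f z = g z := by
  have := CK_induction LinearMap.id (LinearMap.eqLocus f g) (fun l h1 h2 => h l h1 h2) hz
  exact this

lemma CK_mono {P P' : List V → Prop} (h : ∀ l, P l → P' l) (n : ℕ) : CK P n ≤ CK P' n := by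
  intro z hz
  rw [mem_CK] at hz ⊢
  exact fun l hl => ⟨(hz l hl).1, h l (hz l hl).2⟩

lemma CK_mono' {P P' : List V → Prop} {n : ℕ} (h : ∀ l, l.length = n → P l → P' l) :
    CK P n ≤ CK P' n := by
  intro z hz
  rw [mem_CK] at hz ⊢
  exact fun l hl => ⟨(hz l hl).1, h l (hz l hl).1 (hz l hl).2⟩

lemma consL_mem_CK {P P' : List V → Prop} {n : ℕ} {x : V} (h : ∀ l, l.length = n → P l → P' (x :: l))
    {z : Ch V} (hz : z ∈ CK P n) : consL x z ∈ CK P' (n + 1) := by
  refine CK_induction (consL x) (CK P' (n + 1)) (fun l h1 h2 => ?_) hz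
  rw [consL_single]
  exact single_mem_CK (by simp [h1]) (h l h1 h2) 1

lemma bd_single_mem (l : List V) (c : ZMod 2) :
    ∀ l' ∈ (bd (single l c)).support, l'.length + 1 = l.length ∧ l'.Sublist l := by
  classical
  induction l with
  | nil => simp
  | cons x l ih =>
    intro l' hl'
    rw [bd_single_cons] at hl'
    have h1 := Finsupp.support_add hl'
    rw [Finset.mem_union] at h1
    rcases h1 with h1 | h1
    · have h2 := Finsupp.support_single_subset h1
      rw [Finset.mem_singleton] at h2
      subst h2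
      exact ⟨by simp, List.sublist_cons_self _ _⟩
    · have h2 : l' ∈ Finset.image (List.cons x) (bd (single l c)).support :=
        Finsupp.mapDomain_support h1
      rw [Finset.mem_image] at h2
      obtain ⟨l'', h3, rfl⟩ := h2
      obtain ⟨h4, h5⟩ := ih l'' h3
      exact ⟨by simp [h4], h5.cons_cons x⟩

lemma bd_mem_CK {P : List V → Prop} (hP : SubClosed P) {n : ℕ} {z : Ch V} (hz : z ∈ CK P (n + 1)) :
    bd z ∈ CK P n := by
  refine CK_induction bd (CK P n) (fun l h1 h2 => ?_) hz
  rw [mem_CK]
  intro l' hl'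
  obtain ⟨h3, h4⟩ := bd_single_mem l 1 l' hl'
  exact ⟨by omega, hP l l' h4 h2⟩

lemma mapL_mem_CK {P : List V → Prop} {P' : List W → Prop} {n : ℕ} {g : V → W}
    (h : ∀ l, l.length = n → P l → P' (l.map g)) {z : Ch V} (hz : z ∈ CK P n) :
    mapL g z ∈ CK P' n := by
  refine CK_induction (mapL g) (CK P' n) (fun l h1 h2 => ?_) hz
  rw [mapL_single]
  exact single_mem_CK (by simp [h1]) (h l h1 h2) 1

lemma prism_single_mem (g g' : V → W) (l : List V) (c : ZMod 2) :
    ∀ l' ∈ (prism g g' (single l c)).support, l'.length = l.length + 1 ∧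
      ∀ y ∈ l', ∃ x ∈ l, y = g x ∨ y = g' x := by
  classical
  induction l with
  | nil => simp
  | cons x l ih =>
    intro l' hl'
    rw [prism_single_cons] at hl'
    have h1 := Finsupp.support_add hl'
    rw [Finset.mem_union] at h1
    rcases h1 with h1 | h1
    · have h2 := Finsupp.support_single_subset h1
      rw [Finset.mem_singleton] at h2
      subst h2
      refine ⟨by simp, ?_⟩
      intro y hy
      simp only [List.mem_cons, List.mem_map] at hy
      rcases hy with rfl | rfl | ⟨a, ha, rfl⟩
      · exact ⟨x, by simp, Or.inl rfl⟩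
      · exact ⟨x, by simp, Or.inr rfl⟩
      · exact ⟨a, by simp [ha], Or.inr rfl⟩
    · have h2 : l' ∈ Finset.image (List.cons (g x)) (prism g g' (single l c)).support :=
        Finsupp.mapDomain_support h1
      rw [Finset.mem_image] at h2
      obtain ⟨l'', h3, rfl⟩ := h2
      obtain ⟨h4, h5⟩ := ih l'' h3
      refine ⟨by simp [h4], ?_⟩
      intro y hy
      rw [List.mem_cons] at hy
      rcases hy with rfl | hy
      · exact ⟨x, by simp, Or.inl rfl⟩
      · obtain ⟨a, ha, hb⟩ := h5 y hy
        exact ⟨a, by simp [ha], hb⟩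

lemma prism_mem_CK {P : List V → Prop} {P' : List W → Prop} {n : ℕ} {g g' : V → W}
    (h : ∀ l, l.length = n → P l → ∀ l' : List W, (∀ y ∈ l', ∃ x ∈ l, y = g x ∨ y = g' x) → P' l')
    {z : Ch V} (hz : z ∈ CK P n) : prism g g' z ∈ CK P' (n + 1) := by
  refine CK_induction (prism g g') (CK P' (n + 1)) (fun l h1 h2 => ?_) hz
  rw [mem_CK]
  intro l' hl'
  obtain ⟨h3, h4⟩ := prism_single_mem g g' l 1 l' hl'
  exact ⟨by omega, h l h1 h2 l' h4⟩

/-- lists with all entries in `A` and pairwise related by `D`. -/
def Sm (A : Set V) (D : V → V → Prop) : List V → Prop :=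
  fun l => (∀ x ∈ l, x ∈ A) ∧ ∀ x ∈ l, ∀ y ∈ l, D x y

lemma Sm_subClosed (A : Set V) (D : V → V → Prop) : SubClosed (Sm A D) := by
  intro l l' h hl
  exact ⟨fun x hx => hl.1 x (h.subset hx), fun x hx y hy => hl.2 x (h.subset hx) y (h.subset hy)⟩

lemma Sm_mono {A A' : Set V} {D D' : V → V → Prop} (hA : A ⊆ A') (hD : ∀ x y, D x y → D' x y)
    {l : List V} (h : Sm A D l) : Sm A' D' l :=
  ⟨fun x hx => hA (h.1 x hx), fun x hx y hy => hD _ _ (h.2 x hx y hy)⟩

/-! ### restriction to a sign set and the associated operators -/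

/-- multiply each nonempty list by the value of `h` at its head. -/
noncomputable def mLL (h : V → ZMod 2) : List V → Ch V
  | [] => 0
  | (x :: l) => single (x :: l) (h x)

noncomputable def mL (h : V → ZMod 2) : Ch V →ₗ[ZMod 2] Ch V :=
  Finsupp.linearCombination (ZMod 2) (mLL h)

@[simp] lemma mL_single_nil (h : V → ZMod 2) (c : ZMod 2) : mL h (single [] c) = 0 := by
  simp [mL, mLL]

@[simp] lemma mL_single_cons (h : V → ZMod 2) (x : V) (l : List V) (c : ZMod 2) :
    mL h (single (x :: l) c) = h x • single (x :: l) c := by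
  simp [mL, mLL, mul_comm]

/-- the operator `[bd, mL h]`. -/
noncomputable def lL (h : V → ZMod 2) : Ch V →ₗ[ZMod 2] Ch V :=
  bd ∘ₗ mL h + mL h ∘ₗ bd

lemma lL_apply (h : V → ZMod 2) (z : Ch V) : lL h z = bd (mL h z) + mL h (bd z) := rfl

lemma mL_consL (h : V → ZMod 2) (x : V) (z : Ch V) : mL h (consL x z) = h x • consL x z := by
  have : mL h ∘ₗ consL x = h x • consL x := by
    apply lin_ext; intro l; simp
  simpa using LinearMap.congr_fun this z

lemma lL_single_nil (h : V → ZMod 2) (c : ZMod 2) : lL h (single [] c) = 0 := by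
  simp [lL_apply]

/-- explicit formula: `lL h (x :: l) = h x • l + mL h l`. -/
lemma lL_single_cons (h : V → ZMod 2) (x : V) (l : List V) (c : ZMod 2) :
    lL h (single (x :: l) c) = h x • single l c + mL h (single l c) := by
  rw [lL_apply, mL_single_cons, map_smul, bd_single_cons, map_add, mL_consL, smul_add]
  abel_nf
  simp only [two_ns, two_zs, add_zero, zero_add]

lemma mL_mem_CK {P : List V → Prop} {n : ℕ} (h : V → ZMod 2) {z : Ch V} (hz : z ∈ CK P n) :
    mL h z ∈ CK P n := by
  refine CK_induction (mL h) (CK P n) (fun l h1 h2 => ?_) hz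
  cases l with
  | nil => simp
  | cons x l =>
    rw [mL_single_cons]
    exact Submodule.smul_mem _ _ (single_mem_CK h1 h2 1)

lemma lL_mem_CK {P : List V → Prop} (hP : SubClosed P) {n : ℕ} (h : V → ZMod 2) {z : Ch V}
    (hz : z ∈ CK P (n + 1)) : lL h z ∈ CK P n :=
  Submodule.add_mem _ (bd_mem_CK hP (mL_mem_CK h hz)) (mL_mem_CK h (bd_mem_CK hP hz))

lemma lL_bd (h : V → ZMod 2) (z : Ch V) : lL h (bd z) = bd (lL h z) := by
  simp only [lL_apply, map_add, bd_bd, map_zero, add_zero, zero_add]

/-- `Lw [h₁, …, h_k] = lL h_k ∘ … ∘ lL h₁`. -/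
noncomputable def Lw : List (V → ZMod 2) → (Ch V →ₗ[ZMod 2] Ch V)
  | [] => LinearMap.id
  | (h :: hs) => Lw hs ∘ₗ lL h

/-- `Sop [h₀, h₁, …, h_k] = lL h_k ∘ … ∘ lL h₁ ∘ mL h₀`. -/
noncomputable def Sop : List (V → ZMod 2) → (Ch V →ₗ[ZMod 2] Ch V)
  | [] => LinearMap.id
  | (h :: hs) => Lw hs ∘ₗ mL h

lemma Lw_bd (hs : List (V → ZMod 2)) (z : Ch V) : Lw hs (bd z) = bd (Lw hs z) := by
  induction hs generalizing z with
  | nil => rfl
  | cons h hs ih => simp only [Lw, LinearMap.comp_apply, lL_bd, ih]

lemma bd_Sop (h : V → ZMod 2) (hs : List (V → ZMod 2)) (z : Ch V) :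
    bd (Sop (h :: hs) z) = Sop (h :: hs) (bd z) + Lw (h :: hs) z := by
  simp only [Sop, Lw, LinearMap.comp_apply, lL_apply, map_add, ← Lw_bd]
  abel_nf
  simp only [two_ns, two_zs, add_zero, zero_add]

lemma Lw_append (hs hs' : List (V → ZMod 2)) (z : Ch V) : Lw (hs ++ hs') z = Lw hs' (Lw hs z) := by
  induction hs generalizing z with
  | nil => rfl
  | cons h hs ih => simp only [Lw, LinearMap.comp_apply, List.cons_append, ih]

lemma Lw_mem_CK {P : List V → Prop} (hP : SubClosed P) {n : ℕ} (hs : List (V → ZMod 2)) {z : Ch V}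
    (hz : z ∈ CK P (n + hs.length)) : Lw hs z ∈ CK P n := by
  induction hs generalizing z with
  | nil => exact hz
  | cons h hs ih =>
    simp only [Lw, LinearMap.comp_apply]
    refine ih (lL_mem_CK hP h ?_)
    simpa [add_assoc] using hz

/-! ### homotopies by finitely many small steps -/

lemma homotopy_steps {P : List V → Prop} {A : Set W} {D : W → W → Prop} (g : ℕ → V → W) (L : ℕ)
    (hA : ∀ i, i ≤ L → ∀ l, P l → ∀ x ∈ l, g i x ∈ A)
    (hD : ∀ i, i < L → ∀ l, P l → ∀ x ∈ l, ∀ y ∈ l,
      D (g i x) (g i y) ∧ D (g i x) (g (i+1) y) ∧ D (g (i+1) x) (g i y) ∧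
        D (g (i+1) x) (g (i+1) y))
    {N : ℕ} {z : Ch V} (hz : z ∈ CK P N) (hc : bd z = 0) :
    ∃ y ∈ CK (Sm A D) (N + 1), bd y = mapL (g 0) z + mapL (g L) z := by
  induction L with
  | zero => exact ⟨0, Submodule.zero_mem _, by rw [map_zero, add_self']⟩
  | succ L ih =>
    obtain ⟨y, hy, hyb⟩ := ih (fun i hi => hA i (by omega)) (fun i hi => hD i (by omega))
    refine ⟨y + prism (g L) (g (L+1)) z, Submodule.add_mem _ hy ?_, ?_⟩
    · refine prism_mem_CK (fun l _ hl l' hl' => ⟨?_, ?_⟩) hz
      · intro y hy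
        obtain ⟨x, hx, hxy⟩ := hl' y hy
        rcases hxy with rfl | rfl
        · exact hA L (by omega) l hl x hx
        · exact hA (L+1) le_rfl l hl x hx
      · intro y hy y' hy'
        obtain ⟨x, hx, hxy⟩ := hl' y hy
        obtain ⟨x', hx', hxy'⟩ := hl' y' hy'
        obtain ⟨h1, h2, h3, h4⟩ := hD L (by omega) l hl x hx x' hx'
        rcases hxy with rfl | rfl <;> rcases hxy' with rfl | rfl <;> assumption
    · have h := prism_formula (g L) (g (L+1)) z
      rw [hc, map_zero, add_zero] at h
      rw [map_add, hyb, h]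
      abel_nf
      simp only [two_ns, two_zs, add_zero, zero_add]

end Pool.Agent.TightEmb
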