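import Pool.Agent.TightEmb.Base

/-!
From injectivity in Cech homology to small-scale (Vietoris-Rips) chains.
-/

namespace Pool.Agent.TightEmb

open Finsupp Filter

/-- two vertex maps whose values on every `P`-simplex span only `P'`-simplices are homologous. -/
lemma contig {V W : Type*} {P : List V → Prop} {P' : List W → Prop} {N : ℕ} {g g' : V → W}
    (h : ∀ l, l.length = N → P l → ∀ l' : List W, (∀ y ∈ l', ∃ x ∈ l, y = g x ∨ y = g' x) → P' l')
    {z : Ch V} (hz : z ∈ CK P N) (hc : bd z = 0) :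
    ∃ y ∈ CK P' (N + 1), bd y = mapL g z + mapL g' z := by
  refine ⟨prism g g' z, prism_mem_CK h hz, ?_⟩
  have := prism_formula g g' z
  rwa [hc, map_zero, add_zero] at this

/-- the set of cycles. -/
def cyc {V : Type*} (P : List V → Prop) (n : ℕ) : Set (Ch V) :=
  {z | IsChain P n z ∧ (n ≠ 0 → bdry z = 0)}

lemma mem_cyc_of {V : Type*} {P : List V → Prop} {n : ℕ} {z : Ch V} (hz : z ∈ CK P (n + 1))
    (hc : bd z = 0) : z ∈ cyc P n :=
  ⟨isChain_iff.2 hz, fun _ => by rw [bdry_eq, hc]⟩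

/-- the class of a cycle. -/
def hmk {V : Type*} {P : List V → Prop} {n : ℕ} (z : Ch V) (hz : z ∈ cyc P n) :
    Hom P n := Quot.mk _ ⟨z, hz⟩

lemma homologous_equiv {V : Type*} (P : List V → Prop) (n : ℕ) :
    Equivalence (Homologous P n) := by
  refine ⟨fun z => ⟨0, ?_, ?_⟩, ?_, ?_⟩
  · rw [isChain_iff]; exact Submodule.zero_mem _
  · rw [bdry_eq, map_zero, add_self']
  · rintro z w ⟨y, hy, hyz⟩
    exact ⟨y, hy, by rw [hyz, add_comm]⟩
  · rintro z w v ⟨y, hy, hyz⟩ ⟨y', hy', hyz'⟩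
    refine ⟨y + y', ?_, ?_⟩
    · rw [isChain_iff] at hy hy' ⊢
      exact Submodule.add_mem _ hy hy'
    · rw [bdry_eq] at hyz hyz' ⊢
      rw [map_add, hyz, hyz', add_assoc, ← add_assoc w.1 w.1 v.1, add_self', zero_add]

lemma hmk_eq_iff {V : Type*} {P : List V → Prop} {n : ℕ} {z z' : Ch V} (hz : z ∈ cyc P n)
    (hz' : z' ∈ cyc P n) :
    hmk z hz = hmk z' hz' ↔ ∃ y ∈ CK P (n + 2), bd y = z + z' := by
  constructor
  · intro h
    have h1 := Quot.eqvGen_exact h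
    rw [(homologous_equiv P n).eqvGen_iff] at h1
    obtain ⟨y, hy, hyz⟩ := h1
    exact ⟨y, isChain_iff.1 hy, by rw [← bdry_eq, hyz]⟩
  · rintro ⟨y, hy, hyz⟩
    exact Quot.sound ⟨y, isChain_iff.2 hy, by rw [bdry_eq, hyz]⟩

lemma zero_cyc {V : Type*} (P : List V → Prop) (n : ℕ) : (0 : Ch V) ∈ cyc P n :=
  mem_cyc_of (Submodule.zero_mem _) (map_zero _)

/-- the zero class. -/
def h0 {V : Type*} (P : List V → Prop) (n : ℕ) : Hom P n := hmk 0 (zero_cyc P n)

lemma hmk_eq_zero_iff {V : Type*} {P : List V → Prop} {n : ℕ} {z : Ch V} (hz : z ∈ cyc P n) :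
    hmk z hz = h0 P n ↔ ∃ y ∈ CK P (n + 2), bd y = z := by
  rw [h0, hmk_eq_iff, add_zero]

lemma mapL_mem_cyc {V W : Type*} {P : List V → Prop} {P' : List W → Prop} (g : V → W)
    (h : ∀ l, P l → P' (l.map g)) (n : ℕ) {z : Ch V} (hz : z ∈ cyc P n) :
    mapL g z ∈ cyc P' n := push_cycle h ⟨z, hz⟩

lemma homMap_hmk {V W : Type*} {P : List V → Prop} {P' : List W → Prop} (g : V → W)
    (h : ∀ l, P l → P' (l.map g)) (n : ℕ) {z : Ch V} (hz : z ∈ cyc P n) :
    homMap g h n (hmk z hz) = hmk (mapL g z) (mapL_mem_cyc g h n hz) := rfl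

lemma homMap_h0 {V W : Type*} {P : List V → Prop} {P' : List W → Prop} (g : V → W)
    (h : ∀ l, P l → P' (l.map g)) (n : ℕ) : homMap g h n (h0 P n) = h0 P' n := by
  rw [h0, homMap_hmk, hmk_eq_zero_iff]
  exact ⟨0, Submodule.zero_mem _, by rw [map_zero, map_zero]⟩

/-- the zero thread. -/
def c0 (X : Type*) [TopologicalSpace X] (n : ℕ) : Cech X n :=
  ⟨fun 𝒰 => h0 𝒰.IsSimplex n, fun _ _ p h => homMap_h0 p h.simplex n⟩

lemma finite_CK {V : Type*} [Finite V] (P : List V → Prop) (n : ℕ) : Finite (CK P n) := by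
  have hfin : Set.Finite {l : List V | l.length = n ∧ P l} :=
    (List.finite_length_eq V n).subset (fun l hl => hl.1)
  have : Finite {l : List V | l.length = n ∧ P l} := hfin
  have h2 : Finite ({l : List V | l.length = n ∧ P l} →₀ ZMod 2) :=
    Finite.of_injective (DFunLike.coe : _ → ({l : List V | l.length = n ∧ P l} → ZMod 2))
      DFunLike.coe_injective
  exact Finite.of_injective (Finsupp.supportedEquivFinsupp (M := ZMod 2) (R := ZMod 2)
    {l : List V | l.length = n ∧ P l}) (LinearEquiv.injective _)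

instance finite_Hom {V : Type*} [Finite V] (P : List V → Prop) (n : ℕ) : Finite (Hom P n) := by
  have h1 : Finite (CK P (n + 1)) := finite_CK P (n + 1)
  have h2 : Finite (Cycle P n) :=
    Finite.of_injective (fun z : Cycle P n => (⟨z.1, isChain_iff.1 z.2.1⟩ : CK P (n + 1)))
      (fun z w h => Subtype.ext (by have h3 := congrArg Subtype.val h; exact h3))
  exact Finite.of_surjective (Quot.mk (Homologous P n)) Quot.mk_surjective

section Sel

variable {M : Type*} [MetricSpace M] {A : Set M}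

/-- `c` selects for each point of `A` a member of the cover containing its `δ`-ball in `A`. -/
def Sel (𝒰 : FinCover A) (δ : ℝ) (c : M → Fin 𝒰.m) : Prop :=
  ∀ x (_ : x ∈ A) y (hy : y ∈ A), dist x y < δ → (⟨y, hy⟩ : A) ∈ 𝒰.U (c x)

lemma Sel.mono {𝒰 : FinCover A} {δ δ' : ℝ} {c : M → Fin 𝒰.m} (h : Sel 𝒰 δ c) (hd : δ' ≤ δ) :
    Sel 𝒰 δ' c := fun x hx y hy hxy => h x hx y hy (lt_of_lt_of_le hxy hd)

lemma Sel.refine {𝒱 𝒰 : FinCover A} {δ : ℝ} {c : M → Fin 𝒱.m} (h : Sel 𝒱 δ c)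
    {p : Fin 𝒱.m → Fin 𝒰.m} (hp : FinCover.Refines 𝒱 𝒰 p) : Sel 𝒰 δ (p ∘ c) :=
  fun x hx y hy hxy => hp (c x) (h x hx y hy hxy)

lemma exists_sel [CompactSpace M] (hA : IsClosed A) (hne : A.Nonempty) (𝒰 : FinCover A) :
    ∃ δ > 0, ∃ c : M → Fin 𝒰.m, Sel 𝒰 δ c := by
  classical
  have : CompactSpace A := isCompact_iff_compactSpace.1 hA.isCompact
  obtain ⟨δ, hδ, h⟩ := lebesgue_number_lemma_of_metric (isCompact_univ : IsCompact (Set.univ : Set A))
    𝒰.isOpen (fun x _ => Set.mem_iUnion.2 (𝒰.covers x))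
  obtain ⟨a, ha⟩ := hne
  obtain ⟨i0, -⟩ := 𝒰.covers ⟨a, ha⟩
  choose f hf using h
  refine ⟨δ, hδ, fun x => if hx : x ∈ A then f ⟨x, hx⟩ (Set.mem_univ _) else i0, ?_⟩
  intro x hx y hy hxy
  simp only [hx, dif_pos]
  refine hf ⟨x, hx⟩ (Set.mem_univ _) ?_
  rw [Metric.mem_ball, dist_comm]
  exact hxy

lemma exists_sel' [CompactSpace M] [Nonempty M] (𝒲 : FinCover M) :
    ∃ δ > 0, ∃ c : M → Fin 𝒲.m, ∀ x y, dist x y < δ → y ∈ 𝒲.U (c x) := by
  obtain ⟨δ, hδ, h⟩ := lebesgue_number_lemma_of_metric (isCompact_univ : IsCompact (Set.univ : Set M))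
    𝒲.isOpen (fun x _ => Set.mem_iUnion.2 (𝒲.covers x))
  choose f hf using h
  refine ⟨δ, hδ, fun x => f x (Set.mem_univ _), ?_⟩
  intro x y hxy
  refine hf x (Set.mem_univ _) ?_
  rw [Metric.mem_ball, dist_comm]
  exact hxy

/-- a selection maps small lists to simplices of the nerve. -/
lemma Sel.simplex {𝒰 : FinCover A} {δ : ℝ} {c : M → Fin 𝒰.m} (h : Sel 𝒰 δ c) {n : ℕ}
    (l : List M) (hn : l.length = n + 1) (hl : Sm A (fun x y => dist x y < δ) l) :
    𝒰.IsSimplex (l.map c) := by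
  obtain ⟨a, l', rfl⟩ : ∃ a l', l = a :: l' := by
    cases l with
    | nil => simp at hn
    | cons a l' => exact ⟨a, l', rfl⟩
  refine ⟨⟨a, hl.1 a (by simp)⟩, ?_⟩
  intro i hi
  rw [List.mem_map] at hi
  obtain ⟨y, hy, rfl⟩ := hi
  exact h y (hl.1 y hy) a (hl.1 a (by simp)) (hl.2 y hy a (by simp))

/-- two selections are contiguous. -/
lemma Sel.contig {𝒰 : FinCover A} {δ : ℝ} {c c' : M → Fin 𝒰.m} (h : Sel 𝒰 δ c)
    (h' : Sel 𝒰 δ c') {n : ℕ} {z : Ch M} (hz : z ∈ CK (Sm A (fun x y => dist x y < δ)) (n + 1))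
    (hc : bd z = 0) :
    ∃ y ∈ CK 𝒰.IsSimplex (n + 2), bd y = mapL c z + mapL c' z := by
  refine TightEmb.contig (N := n + 1) (fun l hn hl l' hl' => ?_) hz hc
  obtain ⟨a, l'', rfl⟩ : ∃ a l'', l = a :: l'' := by
    cases l with
    | nil => simp at hn
    | cons a l'' => exact ⟨a, l'', rfl⟩
  refine ⟨⟨a, hl.1 a (by simp)⟩, ?_⟩
  intro i hi
  obtain ⟨y, hy, hyi⟩ := hl' i hi
  rcases hyi with rfl | rfl
  · exact h y (hl.1 y hy) a (hl.1 a (by simp)) (hl.2 y hy a (by simp))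
  · exact h' y (hl.1 y hy) a (hl.1 a (by simp)) (hl.2 y hy a (by simp))

end Sel

/-- a finite cover of a compact set by balls of radius `r`, with centres in the set. -/
lemma exists_ball_cover {M : Type*} [MetricSpace M] [CompactSpace M] {A : Set M} (hA : IsClosed A)
    {r : ℝ} (hr : 0 < r) :
    ∃ (𝒰 : FinCover A) (ctr : Fin 𝒰.m → A), ∀ i, 𝒰.U i = {x : A | dist x (ctr i) < r} := by
  have : CompactSpace A := isCompact_iff_compactSpace.1 hA.isCompact
  obtain ⟨t, ht, hcov⟩ := Metric.totallyBounded_iff.1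
    (isCompact_univ : IsCompact (Set.univ : Set A)).totallyBounded r hr
  have hfin : Finite t := ht
  obtain ⟨m, ⟨e⟩⟩ := Finite.exists_equiv_fin t
  refine ⟨⟨m, fun i => {x : A | dist x (e.symm i) < r}, fun i => Metric.isOpen_ball, ?_⟩,
    fun i => e.symm i, fun i => rfl⟩
  intro x
  have := hcov (Set.mem_univ x)
  simp only [Set.mem_iUnion] at this
  obtain ⟨y, hy, hxy⟩ := this
  refine ⟨e ⟨y, hy⟩, ?_⟩
  simpa using hxy

theorem cech_PI {M : Type*} [MetricSpace M] [CompactSpace M] (A : Set M) (hA : IsClosed A) (n : ℕ)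
    (h : Function.Injective (cechMap (Subtype.val : A → M) continuous_subtype_val n)) :
    ∀ ε > 0, ∃ δ > 0, ∀ z ∈ CK (Sm A (fun x y => dist x y < δ)) (n + 1),
      (∃ y ∈ CK (Sm Set.univ (fun x y => dist x y < δ)) (n + 2), bd y = z) →
      ∃ y ∈ CK (Sm A (fun x y => dist x y < ε)) (n + 2), bd y = z := by
  classical
  intro ε hε
  by_contra hcon
  push Not at hcon
  -- a sequence of bad cycles
  have hseq : ∀ k : ℕ, ∃ z ∈ CK (Sm A (fun x y => dist x y < 1 / ((k : ℝ) + 1))) (n + 1),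
      (∃ y ∈ CK (Sm Set.univ (fun x y => dist x y < 1 / ((k : ℝ) + 1))) (n + 2), bd y = z) ∧
      ∀ y ∈ CK (Sm A (fun x y => dist x y < ε)) (n + 2), bd y ≠ z :=
    fun k => hcon _ Nat.one_div_pos_of_nat
  choose z hz hzy hbad using hseq
  have hcz : ∀ k, bd (z k) = 0 := by
    intro k
    obtain ⟨y, -, hy⟩ := hzy k
    rw [← hy, bd_bd]
  -- A is nonempty
  have hne : A.Nonempty := by
    rw [Set.nonempty_iff_ne_empty]
    rintro rfl
    apply hbad 0 0 (Submodule.zero_mem _)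
    rw [map_zero]
    symm
    have h1 := hz 0
    rw [mem_CK] at h1
    rw [← Finsupp.support_eq_empty, Finset.eq_empty_iff_forall_notMem]
    intro l hl
    obtain ⟨h2, h3⟩ := h1 l hl
    cases l with
    | nil => simp at h2
    | cons a l => exact h3.1 a (by simp)
  have : Nonempty M := ⟨hne.choose⟩
  -- selections
  choose δ hδ c hc using fun 𝒰 : FinCover A => exists_sel hA hne 𝒰
  -- eventually the scale is small
  have hev : ∀ r : ℝ, 0 < r → ∀ᶠ k : ℕ in (hyperfilter ℕ : Filter ℕ), 1 / ((k : ℝ) + 1) < r := by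
    intro r hr
    have h1 : ∀ᶠ k : ℕ in atTop, 1 / ((k : ℝ) + 1) < r :=
      (tendsto_one_div_add_atTop_nhds_zero_nat (𝕜 := ℝ)).eventually (gt_mem_nhds hr)
    exact Nat.hyperfilter_le_atTop h1
  have hmem : ∀ {k : ℕ} {r : ℝ}, 1 / ((k : ℝ) + 1) < r →
      z k ∈ CK (Sm A (fun x y => dist x y < r)) (n + 1) := by
    intro k r hk
    exact CK_mono (fun l hl => Sm_mono subset_rfl (fun x y hxy => lt_trans hxy hk) hl) _ (hz k)
  -- the classes
  have hcyc : ∀ (𝒰 : FinCover A) (k : ℕ), 1 / ((k : ℝ) + 1) < δ 𝒰 →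
      mapL (c 𝒰) (z k) ∈ cyc 𝒰.IsSimplex n := by
    intro 𝒰 k hk
    refine mem_cyc_of (mapL_mem_CK (fun l hn hl => (hc 𝒰).simplex l hn hl) (hmem hk)) ?_
    rw [bd_mapL, hcz, map_zero]
  let cls : ∀ 𝒰 : FinCover A, ℕ → Hom 𝒰.IsSimplex n := fun 𝒰 k =>
    if hk : mapL (c 𝒰) (z k) ∈ cyc 𝒰.IsSimplex n then hmk _ hk else h0 _ n
  have hcls : ∀ (𝒰 : FinCover A) (k : ℕ) (hk : 1 / ((k : ℝ) + 1) < δ 𝒰),
      cls 𝒰 k = hmk _ (hcyc 𝒰 k hk) := by
    intro 𝒰 k hk
    exact dif_pos (hcyc 𝒰 k hk)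
  have hlim : ∀ 𝒰 : FinCover A, ∃ w : Hom 𝒰.IsSimplex n,
      ∀ᶠ k in (hyperfilter ℕ : Filter ℕ), cls 𝒰 k = w := by
    intro 𝒰
    rw [← Ultrafilter.eventually_exists_iff]
    exact Eventually.of_forall (fun k => ⟨_, rfl⟩)
  choose w hw using hlim
  -- compatibility
  have hwc : IsThread w := by
    intro 𝒱 𝒰 p hp
    obtain ⟨k, ⟨⟨hk1, hk2⟩, hk3⟩, hk4⟩ :=
      ((((hw 𝒱).and (hw 𝒰)).and (hev _ (hδ 𝒱))).and (hev _ (hδ 𝒰))).exists
    rw [← hk1, ← hk2, hcls 𝒱 k hk3, hcls 𝒰 k hk4, homMap_hmk, hmk_eq_iff, mapL_mapL]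
    have hk5 : 1 / ((k : ℝ) + 1) < min (δ 𝒱) (δ 𝒰) := lt_min hk3 hk4
    exact (((hc 𝒱).mono (min_le_left _ _)).refine hp).contig ((hc 𝒰).mono (min_le_right _ _))
      (hmem hk5) (hcz k)
  -- the image is zero
  have hzero : cechMap (Subtype.val : A → M) continuous_subtype_val n ⟨w, hwc⟩ = c0 M n := by
    apply Subtype.ext
    funext 𝒲
    show pullHom Subtype.val continuous_subtype_val n 𝒲 (w (𝒲.pull Subtype.val _)) = h0 _ n
    set 𝒰 : FinCover A := 𝒲.pull Subtype.val continuous_subtype_val with h𝒰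
    obtain ⟨δ', hδ', c', hc'⟩ := exists_sel' 𝒲
    obtain ⟨k, ⟨hk1, hk2⟩, hk3⟩ := (((hw 𝒰).and (hev _ (hδ 𝒰))).and (hev _ hδ')).exists
    rw [← hk1, hcls 𝒰 k hk2, pullHom, homMap_hmk, hmk_eq_zero_iff]
    obtain ⟨y, hy, hyz⟩ := hzy k
    -- contiguity with c'
    have hk4 : 1 / ((k : ℝ) + 1) < min (δ 𝒰) δ' := lt_min hk2 hk3
    obtain ⟨y', hy', hyz'⟩ := contig (P' := 𝒲.IsSimplex) (g := fun x => 𝒲.pullIdx Subtype.val
      continuous_subtype_val (c 𝒰 x)) (g' := c') (fun l hn hl l' hl' => by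
        obtain ⟨a, l'', rfl⟩ : ∃ a l'', l = a :: l'' := by
          cases l with
          | nil => simp at hn
          | cons a l'' => exact ⟨a, l'', rfl⟩
        refine ⟨a, ?_⟩
        intro i hi
        obtain ⟨x, hx, hxi⟩ := hl' i hi
        rcases hxi with rfl | rfl
        · exact hc 𝒰 x (hl.1 x hx) a (hl.1 a (by simp))
            (lt_of_lt_of_le (hl.2 x hx a (by simp)) (min_le_left _ _))
        · exact hc' x a (lt_of_lt_of_le (hl.2 x hx a (by simp)) (min_le_right _ _)))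
      (hmem hk4) (hcz k)
    refine ⟨y' + mapL c' y, Submodule.add_mem _ hy' (mapL_mem_CK (fun l hn hl => ?_) hy), ?_⟩
    · obtain ⟨a, l'', rfl⟩ : ∃ a l'', l = a :: l'' := by
        cases l with
        | nil => simp at hn
        | cons a l'' => exact ⟨a, l'', rfl⟩
      refine ⟨a, ?_⟩
      intro i hi
      rw [List.mem_map] at hi
      obtain ⟨x, hx, rfl⟩ := hi
      exact hc' x a (lt_trans (hl.2 x hx a (by simp)) hk3)
    · rw [map_add, hyz', bd_mapL, hyz, mapL_mapL, add_assoc, add_self', add_zero]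
      rfl
  -- the element is zero, a contradiction at scale ε
  have hw0 : w = (c0 A n).1 := by
    have h1 : (⟨w, hwc⟩ : Cech A n) = c0 A n := by
      apply h
      rw [hzero]
      apply Subtype.ext
      funext 𝒲
      exact (homMap_h0 _ _ n).symm
    exact congrArg Subtype.val h1
  obtain ⟨𝒰, ctr, hctr⟩ := exists_ball_cover hA (show 0 < ε / 4 by linarith)
  obtain ⟨k, ⟨hk1, hk2⟩, hk3⟩ := (((hw 𝒰).and (hev _ (hδ 𝒰))).and
    (hev (ε / 4) (by linarith))).exists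
  rw [hw0, hcls 𝒰 k hk2] at hk1
  have hk1' : hmk _ (hcyc 𝒰 k hk2) = h0 _ n := hk1
  rw [hmk_eq_zero_iff] at hk1'
  obtain ⟨y, hy, hyz⟩ := hk1'
  have hk4 : 1 / ((k : ℝ) + 1) < min (δ 𝒰) (ε / 4) := lt_min hk2 hk3
  -- contiguity of ctr ∘ c with the identity
  obtain ⟨y', hy', hyz'⟩ := contig (P' := Sm A (fun x y => dist x y < ε))
    (g := fun x => ((ctr (c 𝒰 x) : A) : M)) (g' := id) (fun l hn hl l' hl' => by
      have hx : ∀ i ∈ l', i ∈ A ∧ ∃ x ∈ l, dist i x < ε / 4 := by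
        intro i hi
        obtain ⟨x, hx, hxi⟩ := hl' i hi
        rcases hxi with rfl | hxi
        · refine ⟨(ctr (c 𝒰 x)).2, x, hx, ?_⟩
          have h2 := hc 𝒰 x (hl.1 x hx) x (hl.1 x hx) (by rw [dist_self]; exact hδ 𝒰)
          rw [hctr] at h2
          rw [dist_comm]
          exact h2
        · have hxi' : i = x := hxi
          rw [hxi']
          exact ⟨hl.1 _ hx, x, hx, by rw [dist_self]; linarith⟩
      refine ⟨fun i hi => (hx i hi).1, fun i hi j hj => ?_⟩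
      obtain ⟨-, x, hx1, hx2⟩ := hx i hi
      obtain ⟨-, x', hx1', hx2'⟩ := hx j hj
      have h3 := lt_of_lt_of_le (hl.2 x hx1 x' hx1') (min_le_right _ _)
      have h4 := dist_triangle4 i x x' j
      rw [dist_comm x' j] at h4
      linarith)
    (hmem hk4) (hcz k)
  refine hbad k (mapL (fun i => ((ctr i : A) : M)) y + y')
    (Submodule.add_mem _ (mapL_mem_CK (fun l hn hl => ?_) hy) hy') ?_
  · obtain ⟨x, hx⟩ := hl
    refine ⟨?_, ?_⟩
    · intro i hi
      rw [List.mem_map] at hi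
      obtain ⟨j, hj, rfl⟩ := hi
      exact (ctr j).2
    · intro i hi i' hi'
      rw [List.mem_map] at hi hi'
      obtain ⟨j, hj, rfl⟩ := hi
      obtain ⟨j', hj', rfl⟩ := hi'
      have h1 := hx j hj
      have h2 := hx j' hj'
      rw [hctr] at h1 h2
      have h1' : dist (x : M) (ctr j) < ε / 4 := h1
      have h2' : dist (x : M) (ctr j') < ε / 4 := h2
      have h3 := dist_triangle ((ctr j : A) : M) x (ctr j')
      rw [dist_comm ((ctr j : A) : M) x] at h3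
      show dist ((ctr j : A) : M) (ctr j') < ε
      linarith
  · rw [map_add, hyz', bd_mapL, hyz, mapL_mapL, mapL_id]
    have h5 : mapL ((fun i => ((ctr i : A) : M)) ∘ c 𝒰) (z k) =
      mapL (fun x => ((ctr (c 𝒰 x) : A) : M)) (z k) := rfl
    rw [h5, ← add_assoc, add_self', zero_add]

end Pool.Agent.TightEmb
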