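import Mathlib

/-!
Finite open covers, their nerves, and Cech homology with coefficients modulo two.
-/

namespace Pool.Agent.TightEmb

/-- Chains modulo two on finite lists; a list of length `n + 1` is an ordered `n`-simplex. -/
abbrev Ch (V : Type*) := List V →₀ ZMod 2

/-- the boundary of a list: the sum of the lists obtained by deleting one entry. -/
noncomputable def bdList {V : Type*} : List V → Ch V
  | [] => 0
  | (x :: l) => Finsupp.single l 1 + (bdList l).mapDomain (List.cons x)

/-- the boundary of a chain. -/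
noncomputable def bdry {V : Type*} (z : Ch V) : Ch V := z.sum fun l a => a • bdList l

/-- push forward of a chain along a map of vertices. -/
noncomputable def push {V W : Type*} (g : V → W) (z : Ch V) : Ch W := z.mapDomain (List.map g)

/-- `z` is a chain on ordered `n`-simplices satisfying `P`. -/
def IsChain {V : Type*} (P : List V → Prop) (n : ℕ) (z : Ch V) : Prop :=
  ∀ l ∈ z.support, l.length = n + 1 ∧ P l

/-- degree `n` cycles of the ordered chain complex whose `n`-simplices are the lists of length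
`n + 1` satisfying `P` (every `0`-chain is a cycle). -/
def Cycle {V : Type*} (P : List V → Prop) (n : ℕ) : Type _ :=
  {z : Ch V // IsChain P n z ∧ (n ≠ 0 → bdry z = 0)}

/-- two cycles are homologous if their difference (which is their sum, modulo two) is a
boundary. -/
def Homologous {V : Type*} (P : List V → Prop) (n : ℕ) (z w : Cycle P n) : Prop :=
  ∃ y : Ch V, IsChain P (n + 1) y ∧ bdry y = z.1 + w.1

/-- degree `n` homology modulo two: classes of homologous cycles. -/
def Hom {V : Type*} (P : List V → Prop) (n : ℕ) : Type _ := Quot (Homologous P n)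

lemma bdList_push {V W : Type*} (g : V → W) (l : List V) :
    bdList (l.map g) = push g (bdList l) := by
  induction l with
  | nil => simp [bdList, push]
  | cons x l ih =>
    rw [List.map_cons, bdList, bdList, ih]
    simp only [push, Finsupp.mapDomain_add, Finsupp.mapDomain_single, ← Finsupp.mapDomain_comp]
    rfl

lemma bdry_push {V W : Type*} (g : V → W) (z : Ch V) : bdry (push g z) = push g (bdry z) := by
  unfold bdry push
  rw [Finsupp.sum_mapDomain_index (by intros; simp) (by intros; rw [add_smul]),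
    Finsupp.mapDomain_sum]
  apply Finsupp.sum_congr
  intro l _
  rw [bdList_push, Finsupp.mapDomain_smul]
  rfl

lemma push_isChain {V W : Type*} {P : List V → Prop} {P' : List W → Prop} {g : V → W}
    (h : ∀ l, P l → P' (l.map g)) {n : ℕ} {z : Ch V} (hz : IsChain P n z) :
    IsChain P' n (push g z) := by
  classical
  intro l hl
  have h1 := Finsupp.mapDomain_support hl
  rw [Finset.mem_image] at h1
  obtain ⟨l', hl', rfl⟩ := h1
  exact ⟨by rw [List.length_map]; exact (hz l' hl').1, h l' (hz l' hl').2⟩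

lemma push_cycle {V W : Type*} {P : List V → Prop} {P' : List W → Prop} {g : V → W}
    (h : ∀ l, P l → P' (l.map g)) {n : ℕ} (z : Cycle P n) :
    IsChain P' n (push g z.1) ∧ (n ≠ 0 → bdry (push g z.1) = 0) := by
  refine ⟨push_isChain h z.2.1, fun hn => ?_⟩
  rw [bdry_push, z.2.2 hn]
  exact Finsupp.mapDomain_zero

/-- push forward of cycles. -/
noncomputable def cycMap {V W : Type*} {P : List V → Prop} {P' : List W → Prop} (g : V → W)
    (h : ∀ l, P l → P' (l.map g)) (n : ℕ) (z : Cycle P n) : Cycle P' n :=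
  ⟨push g z.1, push_cycle h z⟩

lemma cycMap_homologous {V W : Type*} {P : List V → Prop} {P' : List W → Prop} (g : V → W)
    (h : ∀ l, P l → P' (l.map g)) (n : ℕ) (z w : Cycle P n) (hzw : Homologous P n z w) :
    Homologous P' n (cycMap g h n z) (cycMap g h n w) := by
  obtain ⟨y, hy, hyz⟩ := hzw
  refine ⟨push g y, push_isChain h hy, ?_⟩
  rw [bdry_push, hyz]
  exact Finsupp.mapDomain_add

/-- the map induced in homology by a vertex map that takes simplices to simplices. -/
noncomputable def homMap {V W : Type*} {P : List V → Prop} {P' : List W → Prop} (g : V → W)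
    (h : ∀ l, P l → P' (l.map g)) (n : ℕ) : Hom P n → Hom P' n :=
  Quot.map (cycMap g h n) (cycMap_homologous g h n)

/-- a finite open cover, as a family indexed by `Fin m`. -/
structure FinCover (X : Type*) [TopologicalSpace X] where
  m : ℕ
  U : Fin m → Set X
  isOpen : ∀ i, IsOpen (U i)
  covers : ∀ x, ∃ i, x ∈ U i

namespace FinCover

variable {X A : Type*} [TopologicalSpace X] [TopologicalSpace A]

/-- simplices of the nerve: lists of indices whose members have a common point. -/
def IsSimplex (𝒰 : FinCover X) (l : List (Fin 𝒰.m)) : Prop := ∃ x, ∀ i ∈ l, x ∈ 𝒰.U i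

/-- `p` is a refinement projection. -/
def Refines (𝒱 𝒰 : FinCover X) (p : Fin 𝒱.m → Fin 𝒰.m) : Prop := ∀ j, 𝒱.U j ⊆ 𝒰.U (p j)

lemma Refines.simplex {𝒱 𝒰 : FinCover X} {p : Fin 𝒱.m → Fin 𝒰.m} (h : Refines 𝒱 𝒰 p)
    (l : List (Fin 𝒱.m)) (hl : 𝒱.IsSimplex l) : 𝒰.IsSimplex (l.map p) := by
  obtain ⟨x, hx⟩ := hl
  refine ⟨x, ?_⟩
  intro i hi
  rw [List.mem_map] at hi
  obtain ⟨j, hj, rfl⟩ := hi
  exact h j (hx j hj)

lemma pull_isOpen {g : A → X} (hg : Continuous g) (𝒰 : FinCover X) (i : Fin 𝒰.m) :
    IsOpen (g ⁻¹' (𝒰.U i)) := (𝒰.isOpen i).preimage hg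

omit [TopologicalSpace A] in
lemma pull_covers (g : A → X) (𝒰 : FinCover X) (a : A) : ∃ i, a ∈ g ⁻¹' (𝒰.U i) :=
  𝒰.covers (g a)

/-- the pulled back cover. -/
def pull (g : A → X) (hg : Continuous g) (𝒰 : FinCover X) : FinCover A :=
  ⟨𝒰.m, fun i => g ⁻¹' (𝒰.U i), pull_isOpen hg 𝒰, pull_covers g 𝒰⟩

/-- the index map from the pulled back cover to the cover (the identity). -/
def pullIdx (g : A → X) (hg : Continuous g) (𝒰 : FinCover X) :
    Fin (𝒰.pull g hg).m → Fin 𝒰.m := fun i => i

lemma pull_simplex (g : A → X) (hg : Continuous g) (𝒰 : FinCover X)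
    (l : List (Fin (𝒰.pull g hg).m)) (hl : (𝒰.pull g hg).IsSimplex l) :
    𝒰.IsSimplex (l.map (𝒰.pullIdx g hg)) := by
  obtain ⟨x, hx⟩ := hl
  refine ⟨g x, ?_⟩
  intro i hi
  rw [List.mem_map] at hi
  obtain ⟨j, hj, rfl⟩ := hi
  exact hx j hj

end FinCover

/-- a family of homology classes of the nerves is compatible with refinements. -/
def IsThread {X : Type*} [TopologicalSpace X] {n : ℕ} (z : ∀ 𝒰 : FinCover X, Hom 𝒰.IsSimplex n) :
    Prop :=
  ∀ (𝒱 𝒰 : FinCover X) (p : Fin 𝒱.m → Fin 𝒰.m) (h : FinCover.Refines 𝒱 𝒰 p),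
    homMap p h.simplex n (z 𝒱) = z 𝒰

/-- degree `n` Cech homology of `X` with coefficients modulo two: the inverse limit of the
homology of the nerves of the finite open covers along all refinement projections. -/
def Cech (X : Type*) [TopologicalSpace X] (n : ℕ) : Type _ :=
  {z : ∀ 𝒰 : FinCover X, Hom 𝒰.IsSimplex n // IsThread z}

/-- the map `H_n(nerve of the pulled back cover) → H_n(nerve)`. -/
noncomputable def pullHom {A X : Type*} [TopologicalSpace A] [TopologicalSpace X] (g : A → X)
    (hg : Continuous g) (n : ℕ) (𝒰 : FinCover X) :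
    Hom (𝒰.pull g hg).IsSimplex n → Hom 𝒰.IsSimplex n :=
  homMap (𝒰.pullIdx g hg) (FinCover.pull_simplex g hg 𝒰) n

lemma homMap_comp {V W X : Type*} {P : List V → Prop} {P' : List W → Prop} {P'' : List X → Prop}
    (g : V → W) (h : ∀ l, P l → P' (l.map g)) (g' : W → X) (h' : ∀ l, P' l → P'' (l.map g'))
    (f : V → X) (hf : ∀ l, P l → P'' (l.map f)) (hfg : f = g' ∘ g) (n : ℕ) (w : Hom P n) :
    homMap g' h' n (homMap g h n w) = homMap f hf n w := by
  induction w using Quot.ind with
  | mk w =>
    show Quot.mk _ (cycMap g' h' n (cycMap g h n w)) = Quot.mk _ (cycMap f hf n w)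
    congr 1
    apply Subtype.ext
    show push g' (push g w.1) = push f w.1
    unfold push
    rw [← Finsupp.mapDomain_comp, hfg]
    congr 1
    funext l
    simp

lemma cechMap_thread {A X : Type*} [TopologicalSpace A] [TopologicalSpace X] (g : A → X)
    (hg : Continuous g) (n : ℕ) (z : Cech A n) :
    IsThread fun 𝒰 : FinCover X => pullHom g hg n 𝒰 (z.1 (𝒰.pull g hg)) := by
  intro 𝒱 𝒰 p h
  have hp : FinCover.Refines (𝒱.pull g hg) (𝒰.pull g hg) p := fun j a ha => h j ha
  have h1 := z.2 (𝒱.pull g hg) (𝒰.pull g hg) p hp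
  show homMap p h.simplex n (pullHom g hg n 𝒱 (z.1 (𝒱.pull g hg))) =
    pullHom g hg n 𝒰 (z.1 (𝒰.pull g hg))
  rw [← h1, pullHom, pullHom]
  rw [homMap_comp (𝒱.pullIdx g hg) (FinCover.pull_simplex g hg 𝒱) p h.simplex
    (p ∘ 𝒱.pullIdx g hg)
    (fun l hl => by
      have := h.simplex _ (FinCover.pull_simplex g hg 𝒱 l hl)
      rwa [List.map_map] at this) rfl]
  rw [homMap_comp (V := Fin (𝒱.pull g hg).m) (W := Fin (𝒰.pull g hg).m) p hp.simplex
    (𝒰.pullIdx g hg) (FinCover.pull_simplex g hg 𝒰)
    (p ∘ 𝒱.pullIdx g hg)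
    (fun l hl => by
      have := h.simplex _ (FinCover.pull_simplex g hg 𝒱 l hl)
      rwa [List.map_map] at this) rfl]

/-- the map induced by a continuous map in Cech homology. -/
noncomputable def cechMap {A X : Type*} [TopologicalSpace A] [TopologicalSpace X] (g : A → X)
    (hg : Continuous g) (n : ℕ) (z : Cech A n) : Cech X n :=
  ⟨fun 𝒰 => pullHom g hg n 𝒰 (z.1 (𝒰.pull g hg)), cechMap_thread g hg n z⟩

end Pool.Agent.TightEmb
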