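import Pool.Agent.TightEmb.Cech

/-!
Tight, substantial and centrally symmetric maps of a product of two spheres.
-/

namespace Pool.Agent.TightEmb

/-- the product of two unit spheres of dimension `k`. -/
abbrev SpherePair (k : ℕ) : Type :=
  Metric.sphere (0 : EuclideanSpace ℝ (Fin (k + 1))) 1 ×
    Metric.sphere (0 : EuclideanSpace ℝ (Fin (k + 1))) 1

/-- `f` is tight: for every closed half-space `{y | t ≤ ⟪v, y⟫}` the inclusion of its preimage
induces injective maps in Cech homology with coefficients modulo two, in all degrees. -/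
def IsTight {k N : ℕ} (f : SpherePair k → EuclideanSpace ℝ (Fin N)) : Prop :=
  ∀ (v : EuclideanSpace ℝ (Fin N)) (t : ℝ), v ≠ 0 → ∀ m : ℕ,
    Function.Injective (cechMap (Subtype.val : {x : SpherePair k | t ≤ inner ℝ v (f x)} →
      SpherePair k) continuous_subtype_val m)

/-- `f` is substantial: its image lies in no affine hyperplane. -/
def IsSubstantial {k N : ℕ} (f : SpherePair k → EuclideanSpace ℝ (Fin N)) : Prop :=
  ¬ ∃ (v : EuclideanSpace ℝ (Fin N)) (t : ℝ), v ≠ 0 ∧ ∀ x, inner ℝ v (f x) = t

/-- the image of `f` is invariant under the reflection in some point `c`. -/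
def IsCentrallySymmetric {k N : ℕ} (f : SpherePair k → EuclideanSpace ℝ (Fin N)) : Prop :=
  ∃ c : EuclideanSpace ℝ (Fin N), ∀ y ∈ Set.range f, 2 • c - y ∈ Set.range f

end Pool.Agent.TightEmb
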