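import Pool.Agent.TightEmb.Lists

/-!
Cap product with a functional, and the complementary tower.
-/

set_option linter.unusedSimpArgs false

namespace Pool.Agent.TightEmb

open Finsupp

section cap

variable {U : Type*}

/-- cap product with a functional: `ω (front face) • back face`. -/
noncomputable def cap (n : ℕ) (ω : Ch U →ₗ[ZMod 2] ZMod 2) : Ch U →ₗ[ZMod 2] Ch U :=
  Finsupp.linearCombination (ZMod 2)
    (fun l => single (l.drop n) (ω (single (l.take (n + 1)) 1)))

lemma cap_single (n : ℕ) (ω : Ch U →ₗ[ZMod 2] ZMod 2) (l : List U) :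
    cap n ω (single l 1) = single (l.drop n) (ω (single (l.take (n + 1)) 1)) := by
  simp [cap]

lemma cap_add (n : ℕ) (ω ω' : Ch U →ₗ[ZMod 2] ZMod 2) (z : Ch U) :
    cap n (ω + ω') z = cap n ω z + cap n ω' z := by
  have : cap n (ω + ω') = cap n ω + cap n ω' := by
    apply lin_ext
    intro l
    rw [LinearMap.add_apply, cap_single, cap_single, cap_single, LinearMap.add_apply,
      Finsupp.single_add]
  exact LinearMap.congr_fun this z

lemma cap_consL (n : ℕ) (ω : Ch U →ₗ[ZMod 2] ZMod 2) (x : U) (z : Ch U) :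
    cap (n + 1) ω (consL x z) = cap n (ω ∘ₗ consL x) z := by
  have : cap (n + 1) ω ∘ₗ consL x = cap n (ω ∘ₗ consL x) := by
    apply lin_ext
    intro l
    rw [LinearMap.comp_apply, consL_single, cap_single, cap_single]
    simp
  exact LinearMap.congr_fun this z

lemma cap_zero_consL (ω : Ch U →ₗ[ZMod 2] ZMod 2) (x : U) (z : Ch U) :
    cap 0 ω (consL x z) = ω (single [x] 1) • consL x z := by
  have : cap 0 ω ∘ₗ consL x = ω (single [x] 1) • consL x := by
    apply lin_ext
    intro l
    simp [cap_single]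
  exact LinearMap.congr_fun this z

lemma bd_cap_single (n : ℕ) (ω : Ch U →ₗ[ZMod 2] ZMod 2) (l : List U) (hl : n + 2 ≤ l.length) :
    bd (cap n ω (single l 1)) = cap n ω (bd (single l 1)) + cap (n + 1) (ω ∘ₗ bd) (single l 1) := by
  induction n generalizing ω l with
  | zero =>
    obtain ⟨x, y, l, rfl⟩ : ∃ x y l', l = x :: y :: l' := by
      rcases l with _ | ⟨x, _ | ⟨y, l⟩⟩
      · simp at hl
      · simp at hl
      · exact ⟨x, y, l, rfl⟩
    have e1 : cap 0 ω (single (x :: y :: l) 1) = ω (single [x] 1) • single (x :: y :: l) 1 := by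
      have := cap_zero_consL ω x (single (y :: l) 1)
      rwa [consL_single] at this
    have e2 : cap 0 ω (single (y :: l) 1) = ω (single [y] 1) • single (y :: l) 1 := by
      have := cap_zero_consL ω y (single l 1)
      rwa [consL_single] at this
    have e3 : cap (0 + 1) (ω ∘ₗ bd) (single (x :: y :: l) 1) =
        (ω (single [y] 1) + ω (single [x] 1)) • single (y :: l) 1 := by
      rw [cap_single]
      have : bd (single [x, y] (1 : ZMod 2)) = single [y] 1 + single [x] 1 := by
        rw [bd_single_cons, bd_single_cons]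
        simp
      simp only [List.take_succ_cons, List.take_zero, zero_add, List.drop_succ_cons,
        List.drop_zero, LinearMap.comp_apply, this, map_add]
      simp
    rw [e1, map_smul, bd_single_cons x (y :: l), map_add, e2, cap_zero_consL, e3, smul_add,
      add_smul]
    abel_nf
    simp only [two_ns, two_zs, add_zero, zero_add]
  | succ n ih =>
    rcases l with _ | ⟨x, l⟩
    · simp at hl
    have hl' : n + 2 ≤ l.length := by simpa using hl
    have e1 : cap (n + 1) ω (single (x :: l) 1) = cap n (ω ∘ₗ consL x) (single l 1) := by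
      have := cap_consL n ω x (single l 1)
      rwa [consL_single] at this
    have e2 : cap (n + 1 + 1) (ω ∘ₗ bd) (single (x :: l) 1) =
        cap (n + 1) ω (single l 1) + cap (n + 1) ((ω ∘ₗ consL x) ∘ₗ bd) (single l 1) := by
      have := cap_consL (n + 1) (ω ∘ₗ bd) x (single l 1)
      rw [consL_single] at this
      rw [this, ← cap_add]
      congr 2
      apply LinearMap.ext
      intro z
      simp [bd_consL]
    rw [e1, ih (ω ∘ₗ consL x) l hl', e2, bd_single_cons, map_add, cap_consL]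
    abel_nf
    simp only [two_ns, two_zs, add_zero, zero_add]

/-- boundary formula for the cap product. -/
lemma bd_cap {P : List U → Prop} {n N : ℕ} (hN : n + 2 ≤ N) (ω : Ch U →ₗ[ZMod 2] ZMod 2)
    (hω : ∀ l : List U, l.length = n + 2 → ω (bd (single l 1)) = 0) {z : Ch U}
    (hz : z ∈ CK P N) : bd (cap n ω z) = cap n ω (bd z) := by
  refine CK_eq (bd ∘ₗ cap n ω) (cap n ω ∘ₗ bd) (fun l h1 _ => ?_) hz
  simp only [LinearMap.comp_apply]
  rw [bd_cap_single n ω l (by omega), cap_single (n + 1)]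
  have : (l.take (n + 1 + 1)).length = n + 2 := by simp; omega
  rw [LinearMap.comp_apply, hω _ this]
  simp

lemma cap_T {P : List U → Prop} {n N : ℕ} (hN : n + 1 ≤ N) (ω : Ch U →ₗ[ZMod 2] ZMod 2)
    (T : U → U)
    (hω : ∀ l : List U, l.length = n + 1 → ω (single (l.map T) 1) = ω (single l 1)) {z : Ch U}
    (hz : z ∈ CK P N) : cap n ω (mapL T z) = mapL T (cap n ω z) := by
  refine CK_eq (cap n ω ∘ₗ mapL T) (mapL T ∘ₗ cap n ω) (fun l h1 _ => ?_) hz
  simp only [LinearMap.comp_apply]
  rw [mapL_single, cap_single, cap_single, mapL_single, List.map_drop, ← List.map_take, hω]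
  simp
  omega

lemma aug_cap {P : List U → Prop} {n : ℕ} (ω : Ch U →ₗ[ZMod 2] ZMod 2) {z : Ch U}
    (hz : z ∈ CK P (n + 1)) : augL (cap n ω z) = ω z := by
  refine CK_eq (augL ∘ₗ cap n ω) ω (fun l h1 _ => ?_) hz
  simp only [LinearMap.comp_apply]
  rw [cap_single]
  obtain ⟨x, hx⟩ : ∃ x, l.drop n = [x] := List.length_eq_one_iff.1 (by simp; omega)
  have : l.take (n + 1) = l := by rw [List.take_of_length_le]; omega
  rw [hx, augL_single_one, this]

lemma cap_mem {P P' : List U → Prop} (hP' : SubClosed P') {n N : ℕ}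
    (ω : Ch U →ₗ[ZMod 2] ZMod 2)
    (hω : ∀ l : List U, P l → l.length = n + N + 1 → ω (single (l.take (n + 1)) 1) ≠ 0 → P' l)
    {z : Ch U} (hz : z ∈ CK P (n + N + 1)) : cap n ω z ∈ CK P' (N + 1) := by
  refine CK_induction (cap n ω) _ (fun l h1 h2 => ?_) hz
  rw [cap_single]
  by_cases h : ω (single (l.take (n + 1)) 1) = 0
  · rw [h]; simp
  · exact single_mem_CK (by simp; omega) (hP' _ _ (List.drop_sublist n l) (hω l h2 h1 h)) _

end cap

/-! ### towers of lists -/

/-- a tower of lists. -/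
structure LTow {U : Type*} (T : U → U) (P : List U → Prop) (m : ℕ) (b : ℕ → Ch U) : Prop where
  mem : ∀ j, j ≤ m → b j ∈ CK P (j + 1)
  bdry : ∀ j, j < m → bd (b (j + 1)) = b j + mapL T (b j)

/-- there is a tower of length `m` with augmentation one. -/
def HasTow {U : Type*} (T : U → U) (P : List U → Prop) (m : ℕ) : Prop :=
  ∃ b, LTow T P m b ∧ augL (b 0) = 1

lemma HasTow.mono {U : Type*} {T : U → U} {P P' : List U → Prop} {m m' : ℕ}
    (h : HasTow T P m) (hm : m' ≤ m) (hP : ∀ l, P l → P' l) : HasTow T P' m' := by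
  obtain ⟨b, hb, h1⟩ := h
  exact ⟨b, ⟨fun j hj => CK_mono hP _ (hb.mem j (by omega)), fun j hj => hb.bdry j (by omega)⟩, h1⟩

lemma LTow.tower {U : Type*} {T : U → U} (hT : ∀ u, T (T u) = u) {Ω : Set U} {D : U → U → Prop}
    {m : ℕ} {b : ℕ → Ch U} (h : LTow T (Sm Ω D) m b) : (lInv T hT).Tower (SmS Ω D) m b :=
  ⟨fun j hj => by rw [← CK_Sm_eq]; exact h.mem j hj, h.bdry⟩

lemma LTow.bu {U : Type*} {T : U → U} (hT : ∀ u, T (T u) = u) {P : List U → Prop} {Ω : Set U}
    (hPΩ : ∀ l, P l → ∀ x ∈ l, x ∈ Ω)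
    (hs : List (U → ZMod 2)) (ho : ∀ h ∈ hs, ∀ u ∈ Ω, h (T u) = h u + 1) {b : ℕ → Ch U}
    (h : LTow T P hs.length b) : augL (Lw hs (b hs.length)) = augL (b 0) := by
  have h1 : (lInv T hT).Tower {Ω} hs.length b := by
    refine ⟨fun j hj => ?_, h.bdry⟩
    refine (lSC U).gr_le_sm (Set.mem_singleton _) ?_
    exact CK_mono hPΩ _ (h.mem j hj)
  have := Invol.bu (I := lInv T hT) (Ω := Ω) hs ho (𝒮 := {Ω})
    (fun A hA => by rw [Set.mem_singleton_iff] at hA; rw [hA]) h1
  rw [← lSC_L]
  exact this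

lemma zmod2_cases (c : ZMod 2) : c = 0 ∨ c = 1 := by
  fin_cases c
  · left; rfl
  · right; rfl

section duality

variable {U : Type*}

lemma tower_of_invariant {T : U → U} (hT : ∀ u, T (T u) = u) (h : U → ZMod 2)
    (ho : ∀ u, h (T u) = h u + 1) {P : List U → Prop} (hP : SubClosed P) (m : ℕ) {z : Ch U}
    (hz : z ∈ CK P (m + 1)) (hinv : mapL T (bd z) = bd z) :
    ∃ b, LTow T P m b ∧ b m = z := by
  have hn : ∀ n, n ≤ m → (⇑(mL h ∘ₗ bd))^[n] z ∈ CK P (m - n + 1) ∧
      mapL T (bd ((⇑(mL h ∘ₗ bd))^[n] z)) = bd ((⇑(mL h ∘ₗ bd))^[n] z) ∧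
      (1 ≤ n → bd ((⇑(mL h ∘ₗ bd))^[n - 1] z) =
        (⇑(mL h ∘ₗ bd))^[n] z + mapL T ((⇑(mL h ∘ₗ bd))^[n] z)) := by
    intro n
    induction n with
    | zero => intro _; exact ⟨by simpa using hz, by simpa using hinv, by simp⟩
    | succ n ih =>
      intro hn
      obtain ⟨h1, h2, _⟩ := ih (by omega)
      rw [Function.iterate_succ_apply']
      set y := (⇑(mL h ∘ₗ bd))^[n] z with hy
      have hy1 : y ∈ CK P ((m - (n + 1) + 1) + 1) := by
        have : m - (n + 1) + 1 + 1 = m - n + 1 := by omega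
        rw [this]; exact h1
      have hx : bd y ∈ CK P (m - (n + 1) + 1) := bd_mem_CK hP hy1
      have e : bd y = mL h (bd y) + mapL T (mL h (bd y)) := by
        have e1 : mapL T (mL h (bd y)) = mL (h ∘ T) (bd y) := by
          have := mapL_mL T (h ∘ T) (bd y)
          rw [h2] at this
          rw [this]
          congr 3
          funext u
          exact (congrArg h (hT u)).symm
        have e2 : mL (h ∘ T) (bd y) = mL h (bd y) + bd y := by
          have e3 : mL (h ∘ T + h) (bd y) = (1 : ZMod 2) • bd y := by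
            refine mL_const (A := Set.univ) (CK_mono (fun _ _ _ _ => trivial) _ hx) ?_
            intro u _
            rw [Pi.add_apply, Function.comp_apply, ho u, add_assoc, add_comm 1, ← add_assoc,
              add_self', zero_add]
          rw [mL_add, one_smul] at e3
          apply eq_of_add_zero
          rw [← add_assoc, e3, add_self']
        rw [e1, e2]
        abel_nf
        simp only [two_ns, two_zs, add_zero, zero_add]
      refine ⟨mL_mem_CK h hx, ?_, fun _ => e⟩
      have e4 : bd (mL h (bd y)) + mapL T (bd (mL h (bd y))) = 0 := by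
        have := congrArg bd e
        rw [bd_bd, map_add, bd_mapL] at this
        exact this.symm
      exact (eq_of_add_zero e4).symm
  refine ⟨fun j => (⇑(mL h ∘ₗ bd))^[m - j] z, ⟨fun j hj => ?_, fun j hj => ?_⟩, by simp⟩
  · have := (hn (m - j) (by omega)).1
    have e : m - (m - j) + 1 = j + 1 := by omega
    rwa [e] at this
  · have := (hn (m - j) (by omega)).2.2 (by omega)
    have e : m - (j + 1) = m - j - 1 := by omega
    simp only [e]
    exact this

lemma exists_factor {K M N : Type*} [AddCommGroup K] [Module (ZMod 2) K] [AddCommGroup M]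
    [Module (ZMod 2) M] [AddCommGroup N] [Module (ZMod 2) N] (α : K →ₗ[ZMod 2] M)
    (W : K →ₗ[ZMod 2] N) (h : ∀ z, α z = 0 → W z = 0) :
    ∃ g : M →ₗ[ZMod 2] N, ∀ z, g (α z) = W z := by
  obtain ⟨s, hs⟩ := LinearMap.exists_rightInverse_of_surjective α.rangeRestrict
    (by rw [LinearMap.range_rangeRestrict])
  obtain ⟨g, hg⟩ := LinearMap.exists_extend (W ∘ₗ s)
  refine ⟨g, fun z => ?_⟩
  have h1 : g (α z) = (W ∘ₗ s) (α.rangeRestrict z) := by
    rw [← hg]; rfl
  rw [h1, LinearMap.comp_apply]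
  have h2 : α (s (α.rangeRestrict z)) = α z := by
    have := LinearMap.congr_fun hs (α.rangeRestrict z)
    have := congrArg Subtype.val this
    exact this
  have h3 : W (s (α.rangeRestrict z) - z) = 0 := h _ (by rw [map_sub, h2, sub_self])
  rw [map_sub, sub_eq_zero] at h3
  exact h3

/-- if there is no tower then the power of the first class is a coboundary. -/
theorem duality {T : U → U} (hT : ∀ u, T (T u) = u) (h : U → ZMod 2)
    (ho : ∀ u, h (T u) = h u + 1) {P : List U → Prop} (hP : SubClosed P) (m : ℕ)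
    (hno : ¬ HasTow T P m) :
    ∃ c : Ch U →ₗ[ZMod 2] ZMod 2, (∀ z, c (mapL T z) = c z) ∧
      ∀ z ∈ CK P (m + 1), c (bd z) = augL (Lw (List.replicate m h) z) := by
  set R : Submodule (ZMod 2) (Ch U) := LinearMap.range (LinearMap.id + mapL T) with hR
  set α : CK P (m + 1) →ₗ[ZMod 2] (Ch U ⧸ R) := R.mkQ ∘ₗ bd ∘ₗ (CK P (m + 1)).subtype with hα
  set W : CK P (m + 1) →ₗ[ZMod 2] ZMod 2 :=
    augL ∘ₗ Lw (List.replicate m h) ∘ₗ (CK P (m + 1)).subtype with hW
  obtain ⟨g, hg⟩ := exists_factor α W (by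
    intro z hz
    have h1 : bd z.1 ∈ R := (Submodule.Quotient.mk_eq_zero R).1 hz
    obtain ⟨w, hw⟩ := h1
    have h2 : mapL T (bd z.1) = bd z.1 := by
      rw [← hw]
      simp only [LinearMap.add_apply, LinearMap.id_apply, map_add, mapL_mapL]
      have : T ∘ T = id := by funext u; simp [hT]
      rw [this, mapL_id, add_comm]
    obtain ⟨b, hb, hbz⟩ := tower_of_invariant hT h ho hP m z.2 h2
    have h3 := LTow.bu hT (P := P) (Ω := Set.univ) (fun _ _ _ _ => trivial)
      (List.replicate m h)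
      (by
        intro g hg u _
        rw [List.mem_replicate] at hg
        rw [hg.2]; exact ho u) (b := b) (by rw [List.length_replicate]; exact hb)
    rw [List.length_replicate, hbz] at h3
    show augL (Lw (List.replicate m h) z.1) = 0
    rw [h3]
    rcases zmod2_cases (augL (b 0)) with h4 | h4
    · exact h4
    · exact absurd ⟨b, hb, h4⟩ hno)
  refine ⟨g ∘ₗ R.mkQ, fun z => ?_, fun z hz => hg ⟨z, hz⟩⟩
  have : g (R.mkQ (z + mapL T z)) = 0 := by
    have h1 : R.mkQ (z + mapL T z) = 0 := (Submodule.Quotient.mk_eq_zero R).2 ⟨z, rfl⟩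
    rw [h1, map_zero]
  rw [map_add, map_add] at this
  rw [LinearMap.comp_apply, LinearMap.comp_apply]
  exact (eq_of_add_zero this).symm

/-- the complementary tower. -/
theorem dual_tower {T : U → U} (hT : ∀ u, T (T u) = u) (h : U → ZMod 2)
    (ho : ∀ u, h (T u) = h u + 1) {P P₁ P₃ : List U → Prop} (hP₁ : SubClosed P₁)
    (hP₃ : SubClosed P₃) (hcov : ∀ l, P l → l ≠ [] → P₁ l ∨ P₃ l) {m r : ℕ} (hm : 1 ≤ m)
    (hno : ¬ HasTow T P₁ m) (hyes : HasTow T P (m + r)) : HasTow T P₃ r := by
  obtain ⟨c, hc1, hc2⟩ := duality hT h ho hP₁ m hno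
  obtain ⟨b, hb, hb0⟩ := hyes
  set W : Ch U →ₗ[ZMod 2] ZMod 2 := augL ∘ₗ Lw (List.replicate m h) with hW
  set ω : Ch U →ₗ[ZMod 2] ZMod 2 := W + c ∘ₗ bd with hω
  have hlen : (List.replicate m h).length = m := List.length_replicate
  have hodd : ∀ g ∈ List.replicate m h, (lInv T hT).Odd Set.univ g := by
    intro g hg u _
    rw [List.mem_replicate] at hg
    rw [hg.2]; exact ho u
  have hωT : ∀ l : List U, l.length = m + 1 → ω (single (l.map T) 1) = ω (single l 1) := by
    intro l hl
    have e1 : W (single (l.map T) 1) = W (single l 1) := by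
      have hmem : single l (1 : ZMod 2) ∈ (lSC U).gr (0 + (List.replicate m h).length) Set.univ := by
        rw [hlen, zero_add]
        exact single_mem_CK hl (fun _ _ => trivial) 1
      have := Invol.L_t (I := lInv T hT) (List.replicate m h) hodd hmem
      rw [lSC_L] at this
      simp only [lInv_t, mapL_single] at this
      show augL (Lw (List.replicate m h) (single (l.map T) 1)) = _
      rw [this, augL_mapL]
      rfl
    show W (single (l.map T) 1) + c (bd (single (l.map T) 1)) = W (single l 1) + c (bd (single l 1))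
    rw [e1, ← mapL_single, bd_mapL, hc1]
  have hωd : ∀ l : List U, l.length = m + 2 → ω (bd (single l 1)) = 0 := by
    intro l hl
    show W (bd (single l 1)) + c (bd (bd (single l 1))) = 0
    rw [bd_bd, map_zero, add_zero]
    have hmem : single l (1 : ZMod 2) ∈ (lSC U).gr (1 + (List.replicate m h).length) Set.univ := by
      rw [hlen]
      exact single_mem_CK (by omega) (fun _ _ => trivial) 1
    have := (lSC U).aug_L_d (List.replicate m h) hmem
    rw [lSC_L] at this
    exact this
  have hω1 : ∀ l : List U, l.length = m + 1 → P₁ l → ω (single l 1) = 0 := by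
    intro l hl hl1
    show W (single l 1) + c (bd (single l 1)) = 0
    rw [hc2 _ (single_mem_CK hl hl1 1)]
    exact add_self' _
  refine ⟨fun j => cap m ω (b (m + j)), ⟨fun j hj => ?_, fun j hj => ?_⟩, ?_⟩
  · refine cap_mem hP₃ ω (P := P) ?_ (hb.mem (m + j) (by omega))
    intro l hl hlen' hne
    have hlne : l ≠ [] := by rintro rfl; simp at hlen'
    rcases hcov l hl hlne with h1 | h1
    · exfalso
      apply hne
      exact hω1 _ (by simp; omega) (hP₁ _ _ (List.take_sublist _ _) h1)
    · exact h1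
  · show bd (cap m ω (b (m + (j + 1)))) = cap m ω (b (m + j)) + mapL T (cap m ω (b (m + j)))
    rw [bd_cap (N := m + (j + 1) + 1) (by omega) ω hωd (hb.mem (m + (j + 1)) (by omega)),
      ← cap_T (N := m + j + 1) (by omega) ω T hωT (hb.mem (m + j) (by omega)), ← map_add]
    congr 1
    exact hb.bdry (m + j) (by omega)
  · show augL (cap m ω (b (m + 0))) = 1
    rw [add_zero, aug_cap ω (hb.mem m (by omega))]
    show W (b m) + c (bd (b m)) = 1
    obtain ⟨m', rfl⟩ : ∃ m', m = m' + 1 := ⟨m - 1, by omega⟩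
    have e1 : c (bd (b (m' + 1))) = 0 := by
      rw [hb.bdry m' (by omega), map_add, hc1, add_self']
    have h3 := LTow.bu hT (P := P) (Ω := Set.univ) (fun _ _ _ _ => trivial)
      (List.replicate (m' + 1) h) hodd (b := b) (by
        rw [hlen]
        exact ⟨fun j hj => hb.mem j (by omega), fun j hj => hb.bdry j (by omega)⟩)
    rw [hlen] at h3
    rw [e1, add_zero]
    show augL (Lw (List.replicate (m' + 1) h) (b (m' + 1))) = 1
    rw [h3, hb0]

/-- splitting a tower over two disjoint nonadjacent families. -/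
theorem split_tower {T : U → U} {P₁ P₂ : List U → Prop} (hP₁ : SubClosed P₁)
    (hP₂ : SubClosed P₂) (hT₁ : ∀ l, P₁ l → P₁ (l.map T)) (hT₂ : ∀ l, P₂ l → P₂ (l.map T))
    (hd : ∀ u, P₁ [u] → ¬ P₂ [u]) {m : ℕ}
    (h : HasTow T (fun l => P₁ l ∨ P₂ l) m) : HasTow T P₁ m ∨ HasTow T P₂ m := by
  classical
  obtain ⟨b, hb, hb0⟩ := h
  set g : U → ZMod 2 := fun u => if P₁ [u] then 1 else 0 with hg
  have g1 : ∀ l, P₁ l → ∀ x ∈ l, g x = 1 := by
    intro l hl x hx
    rw [hg]
    simp only
    rw [if_pos (hP₁ _ _ (by simpa using hx) hl)]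
  have g2 : ∀ l, P₂ l → ∀ x ∈ l, g x = 0 := by
    intro l hl x hx
    rw [hg]
    simp only
    rw [if_neg (fun h => hd x h (hP₂ _ _ (by simpa using hx) hl))]
  have m1 : ∀ l, P₁ l → l ≠ [] → mL g (single l 1) = single l 1 := by
    intro l hl hne
    rcases l with _ | ⟨x, l⟩
    · exact absurd rfl hne
    · rw [mL_single_cons, g1 _ hl x (by simp), one_smul]
  have m2' : ∀ l, P₂ l → mL g (single l 1) = 0 := by
    intro l hl
    rcases l with _ | ⟨x, l⟩
    · simp
    · rw [mL_single_cons, g2 _ hl x (by simp), zero_smul]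
  have hmem1 : ∀ n z, z ∈ CK (fun l => P₁ l ∨ P₂ l) (n + 1) → mL g z ∈ CK P₁ (n + 1) := by
    intro n z hz
    refine CK_induction (mL g) _ (fun l h1 h2 => ?_) hz
    rcases h2 with h2 | h2
    · rw [m1 l h2 (by rintro rfl; simp at h1)]
      exact single_mem_CK h1 h2 1
    · rw [m2' l h2]; exact Submodule.zero_mem _
  have hmem2 : ∀ n z, z ∈ CK (fun l => P₁ l ∨ P₂ l) (n + 1) → z + mL g z ∈ CK P₂ (n + 1) := by
    intro n z hz
    refine CK_induction (LinearMap.id + mL g) _ (fun l h1 h2 => ?_) hz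
    simp only [LinearMap.add_apply, LinearMap.id_apply]
    rcases h2 with h2 | h2
    · rw [m1 l h2 (by rintro rfl; simp at h1), add_self']
      exact Submodule.zero_mem _
    · rw [m2' l h2, add_zero]; exact single_mem_CK h1 h2 1
  have hbd : ∀ n z, z ∈ CK (fun l => P₁ l ∨ P₂ l) (n + 2) → bd (mL g z) = mL g (bd z) := by
    intro n z hz
    refine CK_eq (bd ∘ₗ mL g) (mL g ∘ₗ bd) (fun l h1 h2 => ?_) hz
    simp only [LinearMap.comp_apply]
    rcases l with _ | ⟨x, l⟩
    · simp at h1
    apply eq_of_add_zero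
    have hh : ∀ c : ZMod 2, (∀ y ∈ x :: l, g y = c) →
        bd (mL g (single (x :: l) 1)) + mL g (bd (single (x :: l) 1)) = 0 := by
      intro c hc
      have := (lSC U).l_const (h := g) (c := c) (A := {y | y ∈ x :: l}) (n := n)
        (z := single (x :: l) 1) (single_mem_CK h1 (fun _ hy => hy) 1) hc
      exact this
    rcases h2 with h2 | h2
    · exact hh 1 (g1 _ h2)
    · exact hh 0 (g2 _ h2)
  have hTg : ∀ n z, z ∈ CK (fun l => P₁ l ∨ P₂ l) (n + 1) → mapL T (mL g z) = mL g (mapL T z) := by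
    intro n z hz
    refine CK_eq (mapL T ∘ₗ mL g) (mL g ∘ₗ mapL T) (fun l h1 h2 => ?_) hz
    simp only [LinearMap.comp_apply, mapL_single]
    rcases h2 with h2 | h2
    · rw [m1 l h2 (by rintro rfl; simp at h1), mapL_single,
        m1 _ (hT₁ l h2) (by intro h; rw [List.map_eq_nil_iff] at h; subst h; simp at h1)]
    · rw [m2' l h2, m2' _ (hT₂ l h2), map_zero]
  have hP : SubClosed (fun l => P₁ l ∨ P₂ l) := by
    intro l l' hs h
    rcases h with h | h
    · exact Or.inl (hP₁ _ _ hs h)
    · exact Or.inr (hP₂ _ _ hs h)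
  have t1 : LTow T P₁ m (fun j => mL g (b j)) := by
    refine ⟨fun j hj => hmem1 j _ (hb.mem j hj), fun j hj => ?_⟩
    rw [hbd j _ (hb.mem (j + 1) (by omega)), hb.bdry j hj, map_add,
      hTg j _ (hb.mem j (by omega))]
  have t2 : LTow T P₂ m (fun j => b j + mL g (b j)) := by
    refine ⟨fun j hj => hmem2 j _ (hb.mem j hj), fun j hj => ?_⟩
    rw [map_add, t1.bdry j hj, hb.bdry j hj, map_add]
    abel
  have e : augL (mL g (b 0)) + augL (b 0 + mL g (b 0)) = 1 := by
    rw [map_add, hb0]
    have : ∀ x : ZMod 2, x + (1 + x) = 1 := by decide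
    exact this _
  rcases zmod2_cases (augL (mL g (b 0))) with h0 | h0
  · right
    refine ⟨_, t2, ?_⟩
    rw [h0, zero_add] at e
    exact e
  · left
    exact ⟨_, t1, h0⟩

end duality

end Pool.Agent.TightEmb
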