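import Pool.Agent.TightEmb.Pairs

/-!
Evaluation of sign operators on products, and the isotropy relation for disjoint cycles.
-/

set_option linter.unusedSimpArgs false

namespace Pool.Agent.TightEmb

open Finsupp TensorProduct

section eval

variable {V W : Type*}

lemma m2_fst (g : V → ZMod 2) {P' : List W → Prop} {b : ℕ} {w : Ch W} (hw : w ∈ CK P' (b + 1))
    (z : Ch V) : m2 (g ∘ Prod.fst) (z ⊗ₜ[ZMod 2] w) = mL g z ⊗ₜ w := by
  have : m2 (g ∘ Prod.fst) ∘ₗ ((TensorProduct.mk (ZMod 2) (Ch V) (Ch W)).flip w) =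
      ((TensorProduct.mk (ZMod 2) (Ch V) (Ch W)).flip w) ∘ₗ mL g := by
    apply lin_ext
    intro σ
    show m2 (g ∘ Prod.fst) (single σ 1 ⊗ₜ[ZMod 2] w) = mL g (single σ 1) ⊗ₜ[ZMod 2] w
    refine CK_eq (m2 (g ∘ Prod.fst) ∘ₗ TensorProduct.mk (ZMod 2) (Ch V) (Ch W) (single σ 1))
      (TensorProduct.mk (ZMod 2) (Ch V) (Ch W) (mL g (single σ 1))) (fun τ h1 _ => ?_) hw
    show m2 (g ∘ Prod.fst) (single σ 1 ⊗ₜ[ZMod 2] single τ 1) =
      mL g (single σ 1) ⊗ₜ[ZMod 2] single τ 1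
    rw [m2_single]
    rcases τ with _ | ⟨y, τ⟩
    · simp at h1
    rcases σ with _ | ⟨x, σ⟩
    · simp [kap]
    · rw [mL_single_cons, ← TensorProduct.smul_tmul']
      rfl
  exact LinearMap.congr_fun this z

lemma m2_fst_bdu (g : V → ZMod 2) {P' : List W → Prop} (hP' : SubClosed P') {b : ℕ} {w : Ch W}
    (hw : w ∈ CK P' (b + 1)) (z : Ch V) :
    m2 (g ∘ Prod.fst) (z ⊗ₜ[ZMod 2] bdu w) = mL g z ⊗ₜ bdu w := by
  rcases b with _ | b
  · rw [bdu_one hw]
    simp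
  · exact m2_fst g (bdu_mem hP' hw) z

lemma l2_fst (g : V → ZMod 2) {P : List V → Prop} {P' : List W → Prop}
    (hP' : SubClosed P') {n b : ℕ} {z : Ch V} {w : Ch W} (hz : z ∈ CK P (n + 2))
    (hw : w ∈ CK P' (b + 1)) :
    (pSC V W).l (g ∘ Prod.fst) (z ⊗ₜ[ZMod 2] w) = lL g z ⊗ₜ w := by
  rw [SC.l_apply, pSC_d, pSC_m, pSC_d, pSC_m, m2_fst g hw, d2_tmul, d2_tmul, map_add,
    m2_fst g hw, m2_fst_bdu g hP' hw, bdu_eq hz, bdu_eq (mL_mem_CK g hz), lL_apply,
    TensorProduct.add_tmul]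
  have : ∀ x y w : Ch2 V W, x + y + (w + y) = x + w + (y + y) := by intros; abel
  rw [this, add_self2, add_zero]

lemma l2_fst_one (g : V → ZMod 2) {P : List V → Prop} {P' : List W → Prop} (hP' : SubClosed P')
    {b : ℕ} {z : Ch V} {w : Ch W} (hz : z ∈ CK P 1)
    (hw : w ∈ CK P' (b + 1)) :
    (pSC V W).l (g ∘ Prod.fst) (z ⊗ₜ[ZMod 2] w) = 0 := by
  rw [SC.l_apply, pSC_d, pSC_m, pSC_d, pSC_m, m2_fst g hw, d2_tmul, d2_tmul, map_add,
    m2_fst g hw, m2_fst_bdu g hP' hw, bdu_one hz, bdu_one (mL_mem_CK g hz), map_zero,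
    TensorProduct.zero_tmul, zero_add, add_self2]

lemma L2_fst (hs : List (V → ZMod 2)) {P : List V → Prop} {P' : List W → Prop}
    (hP : SubClosed P) (hP' : SubClosed P') {n b : ℕ} {z : Ch V} {w : Ch W}
    (hz : z ∈ CK P (n + hs.length + 1)) (hw : w ∈ CK P' (b + 1)) :
    (pSC V W).L (hs.map (· ∘ Prod.fst)) (z ⊗ₜ[ZMod 2] w) = Lw hs z ⊗ₜ w := by
  induction hs generalizing z with
  | nil => rfl
  | cons h hs ih =>
    have hz1 : z ∈ CK P ((n + hs.length) + 2) := by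
      have : n + (h :: hs).length + 1 = n + hs.length + 2 := by simp; omega
      rwa [this] at hz
    rw [List.map_cons, SC.L_cons, l2_fst h hP' hz1 hw, ih (lL_mem_CK hP h hz1)]
    rfl

lemma S2_fst (h : V → ZMod 2) (hs : List (V → ZMod 2)) {P : List V → Prop} {P' : List W → Prop}
    (hP : SubClosed P) (hP' : SubClosed P') {n b : ℕ} {z : Ch V} {w : Ch W}
    (hz : z ∈ CK P (n + hs.length + 1)) (hw : w ∈ CK P' (b + 1)) :
    (pSC V W).S ((h :: hs).map (· ∘ Prod.fst)) (z ⊗ₜ[ZMod 2] w) = Sop (h :: hs) z ⊗ₜ w := by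
  rw [List.map_cons, SC.S_cons, pSC_m, m2_fst h hw, L2_fst hs hP hP' (mL_mem_CK h hz) hw]
  rfl

lemma S2_fst_zero (h h' : V → ZMod 2) (hs : List (V → ZMod 2)) {P : List V → Prop}
    {P' : List W → Prop} (hP' : SubClosed P') {b : ℕ} {z : Ch V} {w : Ch W}
    (hz : z ∈ CK P 1) (hw : w ∈ CK P' (b + 1)) :
    (pSC V W).S ((h :: h' :: hs).map (· ∘ Prod.fst)) (z ⊗ₜ[ZMod 2] w) = 0 := by
  rw [List.map_cons, List.map_cons, SC.S_cons, SC.L_cons, pSC_m, m2_fst h hw,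
    l2_fst_one h' hP' (mL_mem_CK h hz) hw, map_zero]

lemma S2_snd (h : V → ZMod 2) (hs : List (V → ZMod 2)) {P : List V → Prop} {P' : List V → Prop}
    (hP : SubClosed P) (hP' : SubClosed P') {n b : ℕ} {z : Ch V} {w : Ch V}
    (hw : w ∈ CK P' (n + hs.length + 1)) (hz : z ∈ CK P (b + 1)) :
    (pSC V V).S ((h :: hs).map (· ∘ Prod.snd)) (z ⊗ₜ[ZMod 2] w) = z ⊗ₜ Sop (h :: hs) w := by
  have e := Invol.tS (I := pInv V) (h ∘ Prod.fst) (hs.map (· ∘ Prod.fst)) (w ⊗ₜ[ZMod 2] z)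
  have e1 := S2_fst h hs hP' hP hw hz
  rw [List.map_cons] at e1
  rw [e1, pInv_t_tmul, pInv_t_tmul] at e
  rw [e]
  congr 2
  simp only [List.map_cons, List.map_map]
  rfl

lemma S2_snd_zero (h h' : V → ZMod 2) (hs : List (V → ZMod 2)) {P : List V → Prop}
    {P' : List V → Prop} (hP : SubClosed P) {b : ℕ} {z : Ch V} {w : Ch V}
    (hw : w ∈ CK P' 1) (hz : z ∈ CK P (b + 1)) :
    (pSC V V).S ((h :: h' :: hs).map (· ∘ Prod.snd)) (z ⊗ₜ[ZMod 2] w) = 0 := by
  have e := Invol.tS (I := pInv V) (h ∘ Prod.fst) ((h' :: hs).map (· ∘ Prod.fst)) (w ⊗ₜ[ZMod 2] z)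
  have e1 := S2_fst_zero h h' hs hP hw hz
  rw [List.map_cons] at e1
  rw [e1, pInv_t_tmul, map_zero] at e
  rw [e]
  congr 2
  simp only [List.map_cons, List.map_map]
  rfl

lemma Sop_mem_CK {P : List V → Prop} (hP : SubClosed P) {n : ℕ} (h : V → ZMod 2)
    (hs : List (V → ZMod 2)) {z : Ch V} (hz : z ∈ CK P (n + hs.length)) :
    Sop (h :: hs) z ∈ CK P n := Lw_mem_CK hP hs (mL_mem_CK h hz)

end eval

/-! ### flipping all signs -/

namespace SC

variable {V Q : Type*} [AddCommGroup Q] [Module (ZMod 2) Q] (C : SC V Q)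

lemma L_flip (hs : List (V → ZMod 2)) {n : ℕ} {z : Q} (hz : z ∈ C.gr (n + hs.length) Set.univ) :
    C.L (hs.map (1 + ·)) z = C.L hs z := by
  induction hs generalizing z with
  | nil => rfl
  | cons h hs ih =>
    have hz1 : z ∈ C.gr ((n + hs.length) + 1) Set.univ := by simpa [add_assoc] using hz
    rw [List.map_cons, L_cons, L_cons, l_add, C.l_const hz1 (h := 1) (c := 1) (fun _ _ => rfl),
      zero_add, ih (C.l_mem h hz1)]

lemma HEq_flip (𝒜 : Set (Set V)) (h0 h1 : V → ZMod 2) (hs : List (V → ZMod 2)) :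
    C.HEq 𝒜 (hs.length + 1) (C.S (h0 :: h1 :: hs)) (C.S ((h0 :: h1 :: hs).map (1 + ·))) := by
  refine ⟨C.S (h1 :: hs), C.Loc1_S h1 hs, ?_⟩
  intro n m hm A hA z hz
  have hz0 : z ∈ C.gr n Set.univ := C.gr_mono (Set.subset_univ A) hz
  rw [List.map_cons, S_cons, S_cons, C.m_add, C.m_const hz0 (h := 1) (c := 1) (fun _ _ => rfl),
    one_smul]
  have e := C.L_flip (h1 :: hs) (n := m) (z := z + C.m h0 z) (by
    have : m + (h1 :: hs).length = n := by simpa using hm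
    rw [this]
    exact Submodule.add_mem _ hz0 (C.m_mem h0 hz0))
  rw [e, map_add, d_S]
  abel_nf
  simp only [two_ns, two_zs, add_zero, zero_add]

end SC

/-! ### coordinate sign functions -/

/-- sign function of a real function. -/
noncomputable def sgn {V : Type*} (f : V → ℝ) : V → ZMod 2 := fun v => if 0 ≤ f v then 1 else 0

/-- list of the coordinate sign functions. -/
noncomputable def sgs {V : Type*} {k : ℕ} (X : Fin (k + 1) → V → ℝ) : List (V → ZMod 2) :=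
  List.ofFn fun a => sgn (X a)

lemma sgn_adp {V : Type*} (f : V → ℝ) {c : ℝ} (hc : 0 < c) (A : Set V) :
    SC.Adp (sgn f) f c A := by
  intro v _
  refine ⟨fun h => ?_, fun h => ?_⟩
  · rw [sgn, if_pos (by linarith)]
  · rw [sgn, if_neg (by linarith)]

lemma sgs_length {V : Type*} {k : ℕ} (X : Fin (k + 1) → V → ℝ) : (sgs X).length = k + 1 := by
  simp [sgs]

lemma sgs_cons {V : Type*} {k : ℕ} (X : Fin (k + 1) → V → ℝ) :
    ∃ h hs, sgs X = h :: hs ∧ hs.length = k := by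
  rw [sgs, List.ofFn_succ]
  exact ⟨_, _, rfl, by simp⟩

/-- one of the functions has constant sign on each small set. -/
lemma cst_of_nz {V : Type*} {k : ℕ} {A : Set V} {ρ : ℝ} (f : Fin (k + 1) → V → ℝ)
    (h : Fin (k + 1) → V → ZMod 2) (hρ : 0 < ρ)
    (hh : ∀ i, SC.Adp (h i) (f i) (ρ / 2) A)
    (var : ∀ i, ∀ a ∈ A, ∀ b ∈ A, |f i a - f i b| < ρ / 4)
    (nz : ∀ a ∈ A, ∃ i, ρ ≤ |f i a|) :
    ∃ g ∈ List.ofFn h, ∃ c : ZMod 2, ∀ a ∈ A, g a = c := by
  by_cases hA : ∃ a, a ∈ A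
  · obtain ⟨a, ha⟩ := hA
    obtain ⟨i, hi⟩ := nz a ha
    refine ⟨h i, by rw [List.mem_ofFn]; exact ⟨i, rfl⟩, ?_⟩
    rcases le_abs.1 hi with h3 | h3
    · refine ⟨1, fun b hb => ?_⟩
      have hv := abs_lt.1 (var i a ha b hb)
      exact (hh i b hb).1 (by linarith)
    · refine ⟨0, fun b hb => ?_⟩
      have hv := abs_lt.1 (var i a ha b hb)
      exact (hh i b hb).2 (by linarith)
  · refine ⟨h 0, by rw [List.mem_ofFn]; exact ⟨0, rfl⟩, 0, fun b hb => absurd ⟨b, hb⟩ hA⟩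

/-- a point of the unit sphere has a large coordinate. -/
lemma big_coord {k : ℕ} (x : Fin (k + 1) → ℝ) (hx : ∑ a, x a ^ 2 = 1) :
    ∃ a, 1 / ((k : ℝ) + 1) ≤ |x a| := by
  by_contra hcon
  push Not at hcon
  have h1 : ∀ a, x a ^ 2 < 1 / ((k : ℝ) + 1) := by
    intro a
    have h2 := hcon a
    have h3 : 1 / ((k : ℝ) + 1) ≤ 1 := by
      rw [div_le_one (by positivity)]
      have : (0 : ℝ) ≤ k := by positivity
      linarith
    have h4 : 0 ≤ |x a| := abs_nonneg _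
    have h5 : x a ^ 2 = |x a| * |x a| := by rw [← sq, sq_abs]
    rw [h5]
    nlinarith
  have h2 : ∑ a : Fin (k + 1), x a ^ 2 < ∑ a : Fin (k + 1), 1 / ((k : ℝ) + 1) :=
    Finset.sum_lt_sum_of_nonempty ⟨0, Finset.mem_univ _⟩ (fun a _ => h1 a)
  rw [hx, Finset.sum_const, Finset.card_univ, Fintype.card_fin, nsmul_eq_mul] at h2
  push_cast at h2
  rw [mul_one_div_cancel (by positivity)] at h2
  exact lt_irrefl _ h2

/-- quantitative nonvanishing of `x - s y` on the sphere. -/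
lemma line_nz {k : ℕ} (x y : Fin (k + 1) → ℝ) (hx : ∑ a, x a ^ 2 = 1) (hy : ∑ a, y a ^ 2 = 1)
    {ρ : ℝ} (hxy : ∃ a, ρ ≤ |x a - y a|) (hρ : 0 < ρ) {s : ℝ} (h0 : 0 ≤ s) (h1 : s ≤ 1) :
    ∃ a, ρ / (4 * ((k : ℝ) + 1)) ≤ |x a - s * y a| := by
  by_contra hcon
  push Not at hcon
  have hk : (0 : ℝ) < (k : ℝ) + 1 := by positivity
  have hk0 : (0 : ℝ) ≤ (k : ℝ) := by positivity
  have bx : ∀ a, |x a| ≤ 1 := by
    intro a
    have : x a ^ 2 ≤ 1 := by
      rw [← hx]; exact Finset.single_le_sum (f := fun a => x a ^ 2) (fun i _ => sq_nonneg _)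
        (Finset.mem_univ a)
    exact (sq_le_one_iff_abs_le_one _).1 this
  have byy : ∀ a, |y a| ≤ 1 := by
    intro a
    have : y a ^ 2 ≤ 1 := by
      rw [← hy]; exact Finset.single_le_sum (f := fun a => y a ^ 2) (fun i _ => sq_nonneg _)
        (Finset.mem_univ a)
    exact (sq_le_one_iff_abs_le_one _).1 this
  have e1 : 1 - s ^ 2 = ∑ a, (x a - s * y a) * (x a + s * y a) := by
    have : ∀ a, (x a - s * y a) * (x a + s * y a) = x a ^ 2 - s ^ 2 * y a ^ 2 := fun a => by ring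
    simp_rw [this]
    rw [Finset.sum_sub_distrib, ← Finset.mul_sum, hx, hy, mul_one]
  have e2 : ∀ a, (x a - s * y a) * (x a + s * y a) ≤ ρ / (4 * ((k : ℝ) + 1)) * 2 := by
    intro a
    have h2 := hcon a
    have h3 : |x a + s * y a| ≤ 2 := by
      calc |x a + s * y a| ≤ |x a| + |s * y a| := abs_add_le _ _
        _ = |x a| + s * |y a| := by rw [abs_mul, abs_of_nonneg h0]
        _ ≤ 1 + 1 * 1 := by
            have := byy a
            have := bx a
            nlinarith [abs_nonneg (y a)]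
        _ = 2 := by norm_num
    calc (x a - s * y a) * (x a + s * y a) ≤ |(x a - s * y a) * (x a + s * y a)| := le_abs_self _
      _ = |x a - s * y a| * |x a + s * y a| := abs_mul _ _
      _ ≤ ρ / (4 * ((k : ℝ) + 1)) * 2 := by
          apply mul_le_mul h2.le h3 (abs_nonneg _)
          positivity
  have e3 : 1 - s ^ 2 ≤ ρ / 2 := by
    rw [e1]
    calc ∑ a, (x a - s * y a) * (x a + s * y a) ≤
        ∑ a : Fin (k + 1), ρ / (4 * ((k : ℝ) + 1)) * 2 := Finset.sum_le_sum (fun a _ => e2 a)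
      _ = ρ / 2 := by
        rw [Finset.sum_const, Finset.card_univ, Fintype.card_fin, nsmul_eq_mul]
        push_cast
        field_simp
        ring
  have e4 : 1 - s ≤ ρ / 2 := by nlinarith
  obtain ⟨a, ha⟩ := hxy
  have h2 := hcon a
  have e5 : |x a - y a| ≤ |x a - s * y a| + (1 - s) := by
    have : x a - y a = (x a - s * y a) + (-((1 - s) * y a)) := by ring
    rw [this]
    calc |(x a - s * y a) + (-((1 - s) * y a))| ≤ |x a - s * y a| + |(-((1 - s) * y a))| :=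
          abs_add_le _ _
      _ = |x a - s * y a| + (1 - s) * |y a| := by
          rw [abs_neg, abs_mul, abs_of_nonneg (by linarith : (0 : ℝ) ≤ 1 - s)]
      _ ≤ |x a - s * y a| + (1 - s) := by
          have := byy a
          nlinarith [abs_nonneg (y a)]
  have e6 : ρ / (4 * ((k : ℝ) + 1)) ≤ ρ / 4 := by
    apply div_le_div_of_nonneg_left hρ.le (by norm_num)
    nlinarith
  linarith

end Pool.Agent.TightEmb
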