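import Pool.Agent.TightEmb.Base

/-!
Homology of (a shell in a Euclidean space) times Y at small scale.
-/

namespace Pool.Agent.TightEmb

open Finsupp

universe u

/-- the shell of inner radius `r` (sup norm) times `Y`. -/
def shell (a : ℕ) (r : ℝ) (Y : Type*) : Set ((Fin (a+1) → ℝ) × Y) :=
  {p | r ≤ ‖p.1‖ ∧ ‖p.1‖ ≤ 1}

/-- the sign functions of the coordinates. -/
noncomputable def coords (a : ℕ) (Y : Type*) : List ((Fin (a+1) → ℝ) × Y → ZMod 2) :=
  List.ofFn fun i : Fin (a+1) => fun p => if 0 ≤ p.1 i then 1 else 0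

/-! ### algebra -/

lemma mL_mapL {V W : Type*} (h : W → ZMod 2) (g : V → W) (z : Ch V) :
    mL h (mapL g z) = mapL g (mL (h ∘ g) z) := by
  have : mL h ∘ₗ mapL g = mapL g ∘ₗ mL (h ∘ g) := by
    apply lin_ext
    intro l
    cases l with
    | nil => simp
    | cons x l => simp
  simpa using LinearMap.congr_fun this z

lemma lL_mapL {V W : Type*} (h : W → ZMod 2) (g : V → W) (z : Ch V) :
    lL h (mapL g z) = mapL g (lL (h ∘ g) z) := by
  rw [lL_apply, lL_apply, bd_mapL, mL_mapL, mL_mapL, bd_mapL, map_add]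

lemma Lw_mapL {V W : Type*} (hs : List (W → ZMod 2)) (g : V → W) (z : Ch V) :
    Lw hs (mapL g z) = mapL g (Lw (hs.map (· ∘ g)) z) := by
  induction hs generalizing z with
  | nil => rfl
  | cons h hs ih =>
    simp only [Lw, LinearMap.comp_apply, List.map_cons]
    rw [lL_mapL, ih]

lemma Sop_mapL {V W : Type*} (hs : List (W → ZMod 2)) (g : V → W) (z : Ch V) :
    Sop hs (mapL g z) = mapL g (Sop (hs.map (· ∘ g)) z) := by
  cases hs with
  | nil => rfl
  | cons h hs =>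
    simp only [Sop, LinearMap.comp_apply, List.map_cons]
    rw [mL_mapL, Lw_mapL]

lemma Sop_step {V : Type*} (h0 h1 : V → ZMod 2) (hs : List (V → ZMod 2)) (z : Ch V) :
    Sop (h1 :: hs) (bd (mL h0 z)) =
      Sop (h0 :: h1 :: hs) z + bd (Lw hs (mL h1 (mL h0 z))) := by
  simp only [Sop, Lw, LinearMap.comp_apply, lL_apply, map_add, Lw_bd]
  abel_nf
  simp only [two_zs, zero_add]

lemma lL_zero_CK {V : Type*} {P : List V → Prop} (h : V → ZMod 2) {z : Ch V}
    (hz : z ∈ CK P 0) : lL h z = 0 := by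
  have := CK_eq (lL h) 0 (fun l h1 _ => by
    rw [List.length_eq_zero_iff] at h1
    subst h1
    simp [lL_single_nil]) hz
  simpa using this

lemma Lw_mem_CK' {V : Type*} {P : List V → Prop} (hP : SubClosed P) (hs : List (V → ZMod 2)) :
    ∀ {n : ℕ} {z : Ch V}, z ∈ CK P n → Lw hs z ∈ CK P (n - hs.length) := by
  induction hs with
  | nil => intro n z hz; exact hz
  | cons h hs ih =>
    intro n z hz
    simp only [Lw, LinearMap.comp_apply]
    cases n with
    | zero =>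
      rw [lL_zero_CK h hz, map_zero]
      exact Submodule.zero_mem _
    | succ n =>
      have := ih (lL_mem_CK hP h hz)
      simpa using this

/-- the last coordinates. -/
def tl {a : ℕ} {Y : Type*} (p : (Fin (a+1+1) → ℝ) × Y) : (Fin (a+1) → ℝ) × Y :=
  (fun i => p.1 i.succ, p.2)

/-- put a zero coordinate in front. -/
def emb {a : ℕ} {Y : Type*} (p : (Fin (a+1) → ℝ) × Y) : (Fin (a+1+1) → ℝ) × Y :=
  (Fin.cons 0 p.1, p.2)

/-- the sign of the first coordinate. -/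
noncomputable def sg (a : ℕ) (Y : Type*) (p : (Fin (a+1) → ℝ) × Y) : ZMod 2 :=
  if 0 ≤ p.1 0 then 1 else 0

lemma coords_zero (Y : Type*) : coords 0 Y = [sg 0 Y] := by
  unfold coords
  rw [List.ofFn_succ, List.ofFn_zero]
  rfl

lemma coords_succ (a : ℕ) (Y : Type*) :
    coords (a+1) Y = sg (a+1) Y :: (coords a Y).map (· ∘ tl) := by
  unfold coords
  rw [List.ofFn_succ, List.map_ofFn]
  rfl

lemma coords_cons (a : ℕ) (Y : Type*) :
    ∃ hs : List ((Fin (a+1) → ℝ) × Y → ZMod 2), hs.length = a ∧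
      coords a Y = sg a Y :: hs := by
  refine ⟨(coords a Y).tail, by simp [coords], ?_⟩
  unfold coords
  rw [List.ofFn_succ]
  rfl

/-! ### metric facts -/

lemma dist_lt_iff' {a : ℕ} {Y : Type*} [PseudoMetricSpace Y] {ε : ℝ} (hε : 0 < ε)
    (p q : (Fin (a+1) → ℝ) × Y) :
    dist p q < ε ↔ (∀ i, |p.1 i - q.1 i| < ε) ∧ dist p.2 q.2 < ε := by
  rw [Prod.dist_eq, max_lt_iff, dist_pi_lt_iff hε]
  simp only [Real.dist_eq]

lemma mem_shell_iff {a : ℕ} {r : ℝ} (hr : 0 < r) {Y : Type*} (p : (Fin (a+1) → ℝ) × Y) :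
    p ∈ shell a r Y ↔ (∃ i, r ≤ |p.1 i|) ∧ ∀ i, |p.1 i| ≤ 1 := by
  unfold shell
  show (r ≤ ‖p.1‖ ∧ ‖p.1‖ ≤ 1) ↔ _
  refine and_congr ?_ ?_
  · constructor
    · intro h
      by_contra hc
      push Not at hc
      have := (pi_norm_lt_iff hr (x := p.1)).2 (fun i => by
        rw [Real.norm_eq_abs]; exact hc i)
      linarith
    · rintro ⟨i, hi⟩
      have := norm_le_pi_norm p.1 i
      rw [Real.norm_eq_abs] at this
      linarith
  · rw [pi_norm_le_iff_of_nonneg (by norm_num)]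
    simp only [Real.norm_eq_abs]

/-- change the first component to `q`. -/
def cst {a : ℕ} {Y : Type*} (q : Fin (a+1) → ℝ) (p : (Fin (a+1) → ℝ) × Y) :
    (Fin (a+1) → ℝ) × Y := (q, p.2)

/-- straight line homotopy to the constant `q`. -/
lemma straight {a : ℕ} {Y : Type*} [PseudoMetricSpace Y] (q : Fin (a+1) → ℝ)
    (B A : Set ((Fin (a+1) → ℝ) × Y)) (hq : ∀ i, |q i| ≤ 1)
    (hB : ∀ p ∈ B, ∀ i, |p.1 i| ≤ 1)
    (hA : ∀ p ∈ B, ∀ s : ℝ, 0 ≤ s → s ≤ 1 → ((fun i => (1 - s) * p.1 i + s * q i, p.2) :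
      (Fin (a+1) → ℝ) × Y) ∈ A) {ε' ε : ℝ} (hε' : 0 < ε') (hε : ε' < ε) {N : ℕ}
    {z : Ch ((Fin (a+1) → ℝ) × Y)}
    (hz : z ∈ CK (Sm B (fun x y => dist x y < ε')) N) (hc : bd z = 0) :
    ∃ y ∈ CK (Sm A (fun x y => dist x y < ε)) (N + 1), bd y = z + mapL (cst q) z := by
  obtain ⟨L, hL⟩ := exists_nat_gt (2 / (ε - ε'))
  have hpos : 0 < ε - ε' := by linarith
  have hL0 : (0 : ℝ) < L := lt_trans (div_pos two_pos hpos) hL
  have hL1 : 2 / (L : ℝ) < ε - ε' := by
    rw [div_lt_iff₀ hL0]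
    rw [div_lt_iff₀ hpos] at hL
    linarith
  let g : ℕ → ((Fin (a+1) → ℝ) × Y) → ((Fin (a+1) → ℝ) × Y) :=
    fun k p => (fun i => (1 - (k : ℝ) / L) * p.1 i + ((k : ℝ) / L) * q i, p.2)
  have hs0 : ∀ k : ℕ, 0 ≤ (k : ℝ) / L := fun k => by positivity
  have hs1 : ∀ k : ℕ, k ≤ L → (k : ℝ) / L ≤ 1 := fun k hk => by
    rw [div_le_one hL0]; exact_mod_cast hk
  have hεpos : 0 < ε := by linarith
  -- one estimate covers all four inequalities
  have key : ∀ k m : ℕ, k ≤ L → m ≤ L → |(k : ℝ) / L - (m : ℝ) / L| ≤ 1 / L →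
      ∀ x ∈ B, ∀ y ∈ B, dist x y < ε' → dist (g k x) (g m y) < ε := by
    intro k m hk hm hkm x hx y hy hxy
    rw [dist_lt_iff' hε'] at hxy
    rw [dist_lt_iff' hεpos]
    refine ⟨fun i => ?_, lt_trans hxy.2 hε⟩
    show |((1 - (k : ℝ) / L) * x.1 i + ((k : ℝ) / L) * q i) -
      ((1 - (m : ℝ) / L) * y.1 i + ((m : ℝ) / L) * q i)| < ε
    have h1 := hxy.1 i
    have h2 := hB y hy i
    have h3 := hq i
    have e : ((1 - (k : ℝ) / L) * x.1 i + ((k : ℝ) / L) * q i) -
      ((1 - (m : ℝ) / L) * y.1 i + ((m : ℝ) / L) * q i) =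
      (1 - (k : ℝ) / L) * (x.1 i - y.1 i) + ((k : ℝ) / L - (m : ℝ) / L) * (q i - y.1 i) := by
      ring
    rw [e]
    have h4 : |(1 - (k : ℝ) / L) * (x.1 i - y.1 i)| ≤ ε' := by
      rw [abs_mul]
      have : |1 - (k : ℝ) / L| ≤ 1 := by
        rw [abs_le]
        have := hs0 k
        have := hs1 k hk
        constructor <;> linarith
      calc |1 - (k : ℝ) / L| * |x.1 i - y.1 i| ≤ 1 * |x.1 i - y.1 i| :=
            mul_le_mul_of_nonneg_right this (abs_nonneg _)
        _ ≤ ε' := by rw [one_mul]; exact h1.le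
    have h5 : |((k : ℝ) / L - (m : ℝ) / L) * (q i - y.1 i)| ≤ 2 / L := by
      rw [abs_mul]
      have h6 : |q i - y.1 i| ≤ 2 := by
        rw [abs_le] at *
        constructor <;> linarith [h2.1, h2.2, h3.1, h3.2]
      calc |(k : ℝ) / L - (m : ℝ) / L| * |q i - y.1 i| ≤ (1 / L) * 2 :=
            mul_le_mul hkm h6 (abs_nonneg _) (by positivity)
        _ = 2 / L := by ring
    calc _ ≤ _ := abs_add_le _ _
      _ ≤ ε' + 2 / L := add_le_add h4 h5
      _ < ε := by linarith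
  have hstep : ∀ k : ℕ, |(k : ℝ) / L - ((k + 1 : ℕ) : ℝ) / L| ≤ 1 / L := by
    intro k
    have : (k : ℝ) / L - ((k + 1 : ℕ) : ℝ) / L = - (1 / L) := by
      push_cast; ring
    rw [this, abs_neg, abs_of_nonneg (by positivity)]
  have hstep' : ∀ k : ℕ, |((k + 1 : ℕ) : ℝ) / L - (k : ℝ) / L| ≤ 1 / L := by
    intro k
    rw [abs_sub_comm]; exact hstep k
  have hsame : ∀ k : ℕ, |(k : ℝ) / L - (k : ℝ) / L| ≤ 1 / L := by
    intro k
    rw [sub_self, abs_zero]; positivity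
  obtain ⟨y, hy, hyb⟩ := homotopy_steps (P := Sm B (fun x y => dist x y < ε')) (A := A)
    (D := fun x y => dist x y < ε) g L
    (fun k hk l hl x hx => hA x (hl.1 x hx) _ (hs0 k) (hs1 k hk))
    (fun k hk l hl x hx y hy => by
      have hx' := hl.1 x hx
      have hy' := hl.1 y hy
      have hxy := hl.2 x hx y hy
      exact ⟨key k k hk.le hk.le (hsame k) x hx' y hy' hxy,
        key k (k+1) hk.le hk (hstep k) x hx' y hy' hxy,
        key (k+1) k hk hk.le (hstep' k) x hx' y hy' hxy,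
        key (k+1) (k+1) hk hk (hsame (k+1)) x hx' y hy' hxy⟩)
    hz hc
  refine ⟨y, hy, ?_⟩
  have h0 : g 0 = id := by
    funext p
    apply Prod.ext
    · funext i
      show (1 - ((0 : ℕ) : ℝ) / L) * p.1 i + (((0 : ℕ) : ℝ) / L) * q i = p.1 i
      simp
    · rfl
  have h1 : g L = cst q := by
    funext p
    apply Prod.ext
    · funext i
      show (1 - (L : ℝ) / L) * p.1 i + ((L : ℝ) / L) * q i = q i
      rw [div_self hL0.ne']; ring
    · rfl
  rw [hyb, h0, h1, mapL_id]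

/-! ### membership of the parts -/

lemma mL_mem_of {V : Type*} {P P' : List V → Prop} {n : ℕ} (h : V → ZMod 2)
    (H : ∀ x l, P (x :: l) → h x ≠ 0 → P' (x :: l)) {z : Ch V} (hz : z ∈ CK P n) :
    mL h z ∈ CK P' n := by
  refine CK_induction (mL h) (CK P' n) (fun l h1 h2 => ?_) hz
  cases l with
  | nil => simp
  | cons x l =>
    rw [mL_single_cons]
    by_cases hx : h x = 0
    · rw [hx, zero_smul]; exact Submodule.zero_mem _
    · exact Submodule.smul_mem _ _ (single_mem_CK h1 (H x l h2 hx) 1)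

lemma zmod_two_cases (c : ZMod 2) : c = 0 ∨ c = 1 := by
  revert c; decide

lemma add_mL_mem_of {V : Type*} {P P' : List V → Prop} {n : ℕ} (h : V → ZMod 2)
    (H : ∀ x l, P (x :: l) → h x ≠ 1 → P' (x :: l)) {z : Ch V} (hz : z ∈ CK P (n + 1)) :
    z + mL h z ∈ CK P' (n + 1) := by
  refine CK_induction (LinearMap.id + mL h) (CK P' (n+1)) (fun l h1 h2 => ?_) hz
  cases l with
  | nil => simp at h1
  | cons x l =>
    rw [LinearMap.add_apply, mL_single_cons, LinearMap.id_apply]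
    by_cases hx : h x = 1
    · rw [hx, one_smul, add_self']; exact Submodule.zero_mem _
    · have h3 := single_mem_CK h1 (H x l h2 hx) 1
      exact Submodule.add_mem _ h3 (Submodule.smul_mem _ _ h3)

lemma lL_mem_of {V : Type*} {P P' : List V → Prop} {n : ℕ} (h : V → ZMod 2)
    (H0 : P' []) (H : ∀ x y l, P (x :: y :: l) → h x ≠ h y → P' (y :: l)) {z : Ch V}
    (hz : z ∈ CK P (n + 1)) : lL h z ∈ CK P' n := by
  refine CK_induction (lL h) (CK P' n) (fun l h1 h2 => ?_) hz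
  cases l with
  | nil => simp at h1
  | cons x l =>
    rw [lL_single_cons]
    cases l with
    | nil =>
      rw [mL_single_nil, add_zero]
      exact Submodule.smul_mem _ _ (single_mem_CK (by simp at h1 ⊢; omega) H0 1)
    | cons y l =>
      rw [mL_single_cons, ← add_smul]
      by_cases hx : h x = h y
      · rw [hx, add_self', zero_smul]; exact Submodule.zero_mem _
      · exact Submodule.smul_mem _ _ (single_mem_CK (by simpa using h1) (H x y l h2 hx) 1)

lemma eq_single_nil {V : Type*} {n : ℕ} {z : Ch V}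
    (hz : z ∈ CK (fun l => l = []) n) : z = single [] (z []) := by
  rw [← Finsupp.support_subset_singleton]
  intro l hl
  rw [mem_CK] at hz
  rw [Finset.mem_singleton]
  exact (hz l hl).2

lemma eq_zero_of_mapL_nil {V W : Type*} {n : ℕ} (g : V → W) {z : Ch V}
    (hz : z ∈ CK (fun l => l = []) n) (h : mapL g z = 0) : z = 0 := by
  have h1 := eq_single_nil hz
  rw [h1, mapL_single, List.map_nil, Finsupp.single_eq_zero] at h
  rw [h1, h, Finsupp.single_zero]

lemma CK_zero_le {V : Type*} (P : List V → Prop) : CK P 0 ≤ CK (fun l => l = []) 0 :=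
  CK_mono' (fun _ h1 _ => List.length_eq_zero_iff.1 h1)

/-- lifting a chain of `Y` to `{q} × Y`. -/
lemma lift_mem {a : ℕ} {Y : Type*} [PseudoMetricSpace Y] {q : Fin (a+1) → ℝ}
    {A : Set ((Fin (a+1) → ℝ) × Y)} (hA : ∀ y : Y, (q, y) ∈ A) {δ ε : ℝ} (hδε : δ ≤ ε) {N : ℕ}
    {y : Ch Y} (hy : y ∈ CK (Sm Set.univ (fun x y => dist x y < δ)) N) :
    mapL (fun y : Y => ((q, y) : (Fin (a+1) → ℝ) × Y)) y ∈
      CK (Sm A (fun x y => dist x y < ε)) N := by
  refine mapL_mem_CK (fun l _ hl => ⟨?_, ?_⟩) hy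
  · intro x hx
    rw [List.mem_map] at hx
    obtain ⟨y, _, rfl⟩ := hx
    exact hA y
  · intro x hx x' hx'
    rw [List.mem_map] at hx hx'
    obtain ⟨y, hy, rfl⟩ := hx
    obtain ⟨y', hy', rfl⟩ := hx'
    have := hl.2 y hy y' hy'
    rw [Prod.dist_eq]
    show max (dist q q) (dist y y') < ε
    rw [dist_self]
    exact max_lt (lt_of_le_of_lt dist_nonneg (lt_of_lt_of_le this hδε)) (lt_of_lt_of_le this hδε)

lemma mapL_cst {a : ℕ} {Y : Type*} (q : Fin (a+1) → ℝ) (z : Ch ((Fin (a+1) → ℝ) × Y)) :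
    mapL (cst q) z = mapL (fun y : Y => ((q, y) : (Fin (a+1) → ℝ) × Y)) (mapL Prod.snd z) := by
  rw [mapL_mapL]; rfl

/-- the vector with the entry `c` at `j` and zeros elsewhere. -/
def ax {a : ℕ} (c : ℝ) (j : Fin (a+1)) : Fin (a+1) → ℝ := fun i => if i = j then c else 0

lemma ax_le {a : ℕ} {c : ℝ} (hc : |c| ≤ 1) (j i : Fin (a+1)) : |ax c j i| ≤ 1 := by
  unfold ax
  split_ifs
  · exact hc
  · simp

lemma ax_mem_shell {a : ℕ} {c : ℝ} (hc : |c| = 1) (j : Fin (a+1)) {r : ℝ} (hr : 0 < r)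
    (hr1 : r ≤ 1) {Y : Type*} (y : Y) : ((ax c j, y) : (Fin (a+1) → ℝ) × Y) ∈ shell a r Y := by
  rw [mem_shell_iff hr]
  refine ⟨⟨j, ?_⟩, fun i => ax_le hc.le j i⟩
  show r ≤ |ax c j j|
  simp [ax, hc, hr1]

/-- moving a half of the shell to a pole. -/
lemma half_part {a : ℕ} {Y : Type*} [PseudoMetricSpace Y] {σ : ℝ} (hσ : σ = 1 ∨ σ = -1)
    {ρ δ : ℝ} (hρ : 0 < ρ) (hρ1 : ρ ≤ 1) (hδρ : δ ≤ ρ) (hδ4 : δ ≤ 1/4) (hδ0 : 0 < δ)
    {ε' ε : ℝ} (hε' : 0 < ε') (hε : ε' < ε) {N : ℕ}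
    {u : Ch ((Fin (a+1) → ℝ) × Y)}
    (hu : u ∈ CK (Sm {p | p ∈ shell a ρ Y ∧ -δ < σ * p.1 0} (fun x y => dist x y < ε')) N)
    (hc : bd u = 0) :
    ∃ y ∈ CK (Sm (shell a (ρ/4) Y) (fun x y => dist x y < ε)) (N + 1),
      bd y = u + mapL (cst (ax σ 0)) u := by
  have hσ2 : σ * σ = 1 := by rcases hσ with rfl | rfl <;> norm_num
  have hσa : |σ| = 1 := by rcases hσ with rfl | rfl <;> norm_num
  refine straight (ax σ 0) {p | p ∈ shell a ρ Y ∧ -δ < σ * p.1 0} (shell a (ρ/4) Y)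
    (ax_le hσa.le 0) (fun p hp => ((mem_shell_iff hρ p).1 hp.1).2) ?_ hε' hε hu hc
  rintro p ⟨hp, hp0⟩ s hs0 hs1
  rw [mem_shell_iff hρ] at hp
  rw [mem_shell_iff (by positivity)]
  obtain ⟨⟨i, hi⟩, hp1⟩ := hp
  have h1s : 0 ≤ 1 - s := by linarith
  have z0 : |(1 - s) * p.1 0 + s * ax (a := a) σ 0 0| = |(1 - s) * (σ * p.1 0) + s| := by
    have : (1 - s) * (σ * p.1 0) + s = σ * ((1 - s) * p.1 0 + s * σ) := by
      have : σ * ((1 - s) * p.1 0 + s * σ) = (1 - s) * (σ * p.1 0) + s * (σ * σ) := by ring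
      rw [this, hσ2, mul_one]
    rw [this, abs_mul, hσa, one_mul]
    simp [ax]
  constructor
  · by_cases hi0 : i = 0
    · subst hi0
      refine ⟨0, ?_⟩
      show ρ / 4 ≤ |(1 - s) * p.1 0 + s * ax σ 0 0|
      rw [z0]
      have h2 : ρ ≤ σ * p.1 0 := by
        have h3 : |σ * p.1 0| = |p.1 0| := by rw [abs_mul, hσa, one_mul]
        rw [← h3] at hi
        rcases le_abs.1 hi with h4 | h4
        · exact h4
        · linarith
      refine le_trans ?_ (le_abs_self _)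
      have : (1 - s) * ρ ≤ (1 - s) * (σ * p.1 0) := mul_le_mul_of_nonneg_left h2 h1s
      have : s * ρ ≤ s := by nlinarith
      nlinarith
    · by_cases hs : s ≤ 1/2
      · refine ⟨i, ?_⟩
        show ρ / 4 ≤ |(1 - s) * p.1 i + s * ax σ 0 i|
        have : ax σ 0 i = 0 := by simp [ax, hi0]
        rw [this, mul_zero, add_zero, abs_mul, abs_of_nonneg h1s]
        nlinarith
      · refine ⟨0, ?_⟩
        show ρ / 4 ≤ |(1 - s) * p.1 0 + s * ax σ 0 0|
        rw [z0]
        refine le_trans ?_ (le_abs_self _)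
        push Not at hs
        have : (1 - s) * (-δ) ≤ (1 - s) * (σ * p.1 0) := mul_le_mul_of_nonneg_left hp0.le h1s
        nlinarith
  · intro j
    show |(1 - s) * p.1 j + s * ax σ 0 j| ≤ 1
    calc |(1 - s) * p.1 j + s * ax σ 0 j| ≤ |(1 - s) * p.1 j| + |s * ax σ 0 j| := abs_add_le _ _
      _ = (1 - s) * |p.1 j| + s * |ax σ 0 j| := by
          rw [abs_mul, abs_mul, abs_of_nonneg h1s, abs_of_nonneg hs0]
      _ ≤ (1 - s) * 1 + s * 1 := by
          refine add_le_add (mul_le_mul_of_nonneg_left (hp1 j) h1s)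
            (mul_le_mul_of_nonneg_left (ax_le hσa.le 0 j) hs0)
      _ = 1 := by ring

/-- from a pole to another axis. -/
lemma pole_part {a : ℕ} {Y : Type*} [PseudoMetricSpace Y] {σ : ℝ} (hσ : σ = 1 ∨ σ = -1)
    {ρ : ℝ} (hρ : 0 < ρ) (hρ1 : ρ ≤ 1)
    {ε' ε : ℝ} (hε' : 0 < ε') (hε : ε' < ε) {N : ℕ}
    {u : Ch ((Fin (a+1+1) → ℝ) × Y)} {B : Set ((Fin (a+1+1) → ℝ) × Y)}
    (hu : u ∈ CK (Sm B (fun x y => dist x y < ε')) N)
    (hc : bd u = 0) :
    ∃ y ∈ CK (Sm (shell (a+1) (ρ/4) Y) (fun x y => dist x y < ε)) (N + 1),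
      bd y = mapL (cst (ax σ 0)) u + mapL (cst (ax 1 1)) u := by
  have hσa : |σ| = 1 := by rcases hσ with rfl | rfl <;> norm_num
  have hu' : mapL (cst (ax σ 0)) u ∈
      CK (Sm {p | p.1 = ax σ 0} (fun x y => dist x y < ε')) N := by
    refine mapL_mem_CK (fun l _ hl => ⟨?_, ?_⟩) hu
    · intro x hx
      rw [List.mem_map] at hx
      obtain ⟨y, _, rfl⟩ := hx
      rfl
    · intro x hx x' hx'
      rw [List.mem_map] at hx hx'
      obtain ⟨y, hy, rfl⟩ := hx
      obtain ⟨y', hy', rfl⟩ := hx'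
      have this : dist y y' < ε' := hl.2 y hy y' hy'
      rw [Prod.dist_eq, max_lt_iff] at this
      rw [Prod.dist_eq]
      show max (dist (ax (a := a+1) σ 0) (ax σ 0)) (dist y.2 y'.2) < ε'
      rw [dist_self]
      exact max_lt hε' this.2
  obtain ⟨y, hy, hyb⟩ := straight (ax 1 1) {p : (Fin (a+1+1) → ℝ) × Y | p.1 = ax σ 0}
    (shell (a+1) (ρ/4) Y)
    (ax_le (by norm_num) 1) (fun p hp i => by
      have hp' : p.1 = ax σ 0 := hp
      rw [hp']; exact ax_le hσa.le 0 i) (by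
      intro p hp s hs0 hs1
      have hp' : p.1 = ax σ 0 := hp
      rw [mem_shell_iff (by positivity)]
      have h10 : (1 : Fin (a+1+1)) ≠ 0 := by simp
      have h1s : 0 ≤ 1 - s := by linarith
      constructor
      · by_cases hs : s ≤ 1/2
        · refine ⟨0, ?_⟩
          show ρ / 4 ≤ |(1 - s) * p.1 0 + s * ax 1 1 0|
          have : ax (a := a+1) 1 1 0 = 0 := by simp [ax]
          rw [this, hp', mul_zero, add_zero, abs_mul, abs_of_nonneg h1s]
          have : |ax (a := a+1) σ 0 0| = 1 := by simp [ax, hσa]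
          rw [this]
          nlinarith
        · refine ⟨1, ?_⟩
          show ρ / 4 ≤ |(1 - s) * p.1 1 + s * ax 1 1 1|
          have : ax (a := a+1) 1 1 1 = 1 := by simp [ax]
          rw [this, hp']
          have : ax (a := a+1) σ 0 1 = 0 := by simp [ax]
          rw [this, mul_zero, zero_add, mul_one, abs_of_nonneg hs0]
          nlinarith
      · intro j
        show |(1 - s) * p.1 j + s * ax 1 1 j| ≤ 1
        rw [hp']
        calc |(1 - s) * ax σ 0 j + s * ax 1 1 j| ≤ |(1 - s) * ax σ 0 j| + |s * ax 1 1 j| :=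
              abs_add_le _ _
          _ = (1 - s) * |ax σ 0 j| + s * |ax 1 1 j| := by
              rw [abs_mul, abs_mul, abs_of_nonneg h1s, abs_of_nonneg hs0]
          _ ≤ (1 - s) * 1 + s * 1 := by
              refine add_le_add (mul_le_mul_of_nonneg_left (ax_le hσa.le 0 j) h1s)
                (mul_le_mul_of_nonneg_left (ax_le (by norm_num) 1 j) hs0)
          _ = 1 := by ring) hε' hε hu' (by rw [bd_mapL, hc, map_zero])
  refine ⟨y, hy, ?_⟩
  rw [hyb, mapL_mapL]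
  rfl

/-! ### the main statement -/

lemma fill_zero {a : ℕ} {Y : Type*} [PseudoMetricSpace Y] {q : Fin (a+1) → ℝ}
    {A : Set ((Fin (a+1) → ℝ) × Y)} (hA : ∀ y : Y, (q, y) ∈ A) {δ ε : ℝ} (hδε : δ ≤ ε)
    {P : List ((Fin (a+1) → ℝ) × Y) → Prop} {z : Ch ((Fin (a+1) → ℝ) × Y)} (hz : z ∈ CK P 0)
    (h : ∃ y ∈ CK (Sm Set.univ (fun x y => dist x y < δ)) (0 + 1), bd y = mapL Prod.snd z) :
    ∃ y ∈ CK (Sm A (fun x y => dist x y < ε)) (0 + 1), bd y = z := by
  obtain ⟨y, hy, hyb⟩ := h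
  refine ⟨mapL (fun y : Y => ((q, y) : (Fin (a+1) → ℝ) × Y)) y, lift_mem hA hδε hy, ?_⟩
  rw [bd_mapL, hyb, eq_single_nil (CK_zero_le P hz)]
  simp

lemma sg_ne_zero {a : ℕ} {Y : Type*} {p : (Fin (a+1) → ℝ) × Y} (h : sg a Y p ≠ 0) :
    0 ≤ p.1 0 := by
  unfold sg at h
  by_contra hc
  rw [if_neg hc] at h
  exact h rfl

lemma sg_ne_one {a : ℕ} {Y : Type*} {p : (Fin (a+1) → ℝ) × Y} (h : sg a Y p ≠ 1) :
    p.1 0 < 0 := by
  unfold sg at h
  by_contra hc
  rw [if_pos (not_lt.1 hc)] at h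
  exact h rfl

/-- entries of a small list on which the sign is not constant. -/
lemma sg_ne {a : ℕ} {Y : Type*} [PseudoMetricSpace Y] {δ : ℝ} (hδ : 0 < δ)
    {p q w : (Fin (a+1) → ℝ) × Y} (h : sg a Y p ≠ sg a Y q) (hp : dist p w < δ)
    (hq : dist q w < δ) : |w.1 0| < δ := by
  rw [dist_lt_iff' hδ] at hp hq
  have h1 := abs_lt.1 (hp.1 0)
  have h2 := abs_lt.1 (hq.1 0)
  unfold sg at h
  rw [abs_lt]
  by_cases h3 : 0 ≤ p.1 0 <;> by_cases h4 : 0 ≤ q.1 0
  · rw [if_pos h3, if_pos h4] at h; exact absurd rfl h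
  · push Not at h4; constructor <;> linarith
  · push Not at h3; constructor <;> linarith
  · rw [if_neg h3, if_neg h4] at h; exact absurd rfl h

theorem sphere_fill_zero (r : ℝ) (hr : 0 < r) (hr1 : r ≤ 1) :
    ∀ (Y : Type u) [PseudoMetricSpace Y], ∀ ε > 0, ∃ δ > 0, ∀ N : ℕ,
    ∀ z ∈ CK (Sm (shell 0 r Y) (fun x y => dist x y < δ)) N, bd z = 0 →
      (∃ y ∈ CK (Sm Set.univ (fun x y => dist x y < δ)) (N + 1), bd y = mapL Prod.snd z) →
      (∃ y ∈ CK (Sm Set.univ (fun x y => dist x y < δ)) (N + 1 - 0),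
          bd y = mapL Prod.snd (Sop (coords 0 Y) z)) →
      ∃ y ∈ CK (Sm (shell 0 (r/4) Y) (fun x y => dist x y < ε)) (N + 1), bd y = z := by
  intro Y _ ε hε
  have hr4 : 0 < r/4 := by positivity
  have hr41 : r/4 ≤ 1 := by linarith
  refine ⟨min (r/4) (ε/2), by positivity, ?_⟩
  set δ := min (r/4) (ε/2) with hδdef
  have hδ0 : 0 < δ := by positivity
  have hδr : δ ≤ r/4 := min_le_left _ _
  have hδε : δ ≤ ε/2 := min_le_right _ _
  intro N z hz hbz h1 h2
  cases N with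
  | zero =>
    exact fill_zero (q := ax 1 0) (fun y => ax_mem_shell (by norm_num) 0 hr4 hr41 y)
      (by linarith : δ ≤ ε) hz h1
  | succ M =>
    obtain ⟨y1, hy1, hy1b⟩ := h1
    obtain ⟨y2, hy2, hy2b⟩ := h2
    rw [coords_zero] at hy2b
    have hS : Sop [sg 0 Y] z = mL (sg 0 Y) z := rfl
    rw [hS] at hy2b
    -- the boundary of the positive part vanishes
    have ht : bd (mL (sg 0 Y) z) = 0 := by
      have e : bd (mL (sg 0 Y) z) = lL (sg 0 Y) z := by
        rw [lL_apply, hbz, map_zero, add_zero]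
      have m : lL (sg 0 Y) z ∈ CK (fun l => l = []) M := by
        refine lL_mem_of (P' := fun l => l = []) (sg 0 Y) rfl ?_ hz
        intro x y l hl hxy
        exfalso
        have hy : y ∈ x :: y :: l := by simp
        have hx : x ∈ x :: y :: l := by simp
        have h3 := sg_ne hδ0 hxy (hl.2 x hx y hy) (hl.2 y hy y hy)
        have h4 := ((mem_shell_iff hr y).1 (hl.1 y hy)).1
        obtain ⟨i, hi⟩ := h4
        have : i = 0 := by fin_cases i; rfl
        subst this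
        linarith
      rw [e]
      refine eq_zero_of_mapL_nil Prod.snd m ?_
      rw [← e, ← bd_mapL, ← hy2b, bd_bd]
    have hbm : bd (z + mL (sg 0 Y) z) = 0 := by rw [map_add, hbz, ht, add_zero]
    have hup : mL (sg 0 Y) z ∈
        CK (Sm {p | p ∈ shell 0 r Y ∧ -δ < 1 * p.1 0} (fun x y => dist x y < δ)) (M+1) := by
      refine mL_mem_of (sg 0 Y) ?_ hz
      intro x l hl hx
      refine ⟨?_, hl.2⟩
      intro w hw
      refine ⟨hl.1 w hw, ?_⟩
      have h3 := sg_ne_zero hx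
      have h4 := abs_lt.1 (((dist_lt_iff' hδ0 _ _).1 (hl.2 x (by simp) w hw)).1 0)
      linarith [h4.1, h4.2]
    have hum : z + mL (sg 0 Y) z ∈
        CK (Sm {p | p ∈ shell 0 r Y ∧ -δ < (-1) * p.1 0} (fun x y => dist x y < δ)) (M+1) := by
      refine add_mL_mem_of (sg 0 Y) ?_ hz
      intro x l hl hx
      refine ⟨?_, hl.2⟩
      intro w hw
      refine ⟨hl.1 w hw, ?_⟩
      have h3 := sg_ne_one hx
      have h4 := abs_lt.1 (((dist_lt_iff' hδ0 _ _).1 (hl.2 x (by simp) w hw)).1 0)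
      linarith [h4.1, h4.2]
    obtain ⟨w1, hw1, hw1b⟩ := half_part (Or.inl rfl) hr hr1 (by linarith) (by linarith) hδ0 hδ0
      (by linarith : δ < ε) hup ht
    obtain ⟨w2, hw2, hw2b⟩ := half_part (Or.inr rfl) hr hr1 (by linarith) (by linarith) hδ0 hδ0
      (by linarith : δ < ε) hum hbm
    have hδε' : δ ≤ ε := by linarith
    have l1 := lift_mem (a := 0) (q := ax 1 0)
      (fun y : Y => ax_mem_shell (by norm_num) 0 hr4 hr41 y) hδε' hy2
    have l2 := lift_mem (a := 0) (q := ax (-1) 0)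
      (fun y : Y => ax_mem_shell (by norm_num) 0 hr4 hr41 y) hδε'
      (Submodule.add_mem _ hy1 hy2)
    refine ⟨w1 + w2 + (_ + _), Submodule.add_mem _ (Submodule.add_mem _ hw1 hw2)
      (Submodule.add_mem _ l1 l2), ?_⟩
    simp only [map_add, hw1b, hw2b, bd_mapL, hy1b, hy2b, mapL_cst]
    abel_nf
    simp only [two_zs, add_zero, zero_add]

/-- the projection to the hyperplane where the first coordinate vanishes. -/
def pj {a : ℕ} {Y : Type*} (p : (Fin (a+1+1) → ℝ) × Y) : (Fin (a+1+1) → ℝ) × Y :=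
  (Fin.cons 0 (fun i => p.1 i.succ), p.2)

lemma emb_tl {a : ℕ} {Y : Type*} : (emb ∘ tl : (Fin (a+1+1) → ℝ) × Y → _) = pj := rfl

theorem sphere_fill_succ (a : ℕ)
    (IH : ∀ r : ℝ, 0 < r → r ≤ 1 → ∃ r' : ℝ, 0 < r' ∧ r' ≤ r ∧
      ∀ (Y : Type u) [PseudoMetricSpace Y], ∀ ε > 0, ∃ δ > 0, ∀ N : ℕ,
      ∀ z ∈ CK (Sm (shell a r Y) (fun x y => dist x y < δ)) N, bd z = 0 →
        (∃ y ∈ CK (Sm Set.univ (fun x y => dist x y < δ)) (N + 1), bd y = mapL Prod.snd z) →
        (∃ y ∈ CK (Sm Set.univ (fun x y => dist x y < δ)) (N + 1 - a),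
            bd y = mapL Prod.snd (Sop (coords a Y) z)) →
        ∃ y ∈ CK (Sm (shell a r' Y) (fun x y => dist x y < ε)) (N + 1), bd y = z)
    (r : ℝ) (hr : 0 < r) (hr1 : r ≤ 1) : ∃ r' : ℝ, 0 < r' ∧ r' ≤ r ∧
    ∀ (Y : Type u) [PseudoMetricSpace Y], ∀ ε > 0, ∃ δ > 0, ∀ N : ℕ,
    ∀ z ∈ CK (Sm (shell (a+1) r Y) (fun x y => dist x y < δ)) N, bd z = 0 →
      (∃ y ∈ CK (Sm Set.univ (fun x y => dist x y < δ)) (N + 1), bd y = mapL Prod.snd z) →
      (∃ y ∈ CK (Sm Set.univ (fun x y => dist x y < δ)) (N + 1 - (a+1)),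
          bd y = mapL Prod.snd (Sop (coords (a+1) Y) z)) →
      ∃ y ∈ CK (Sm (shell (a+1) r' Y) (fun x y => dist x y < ε)) (N + 1), bd y = z := by
  obtain ⟨ρ, hρ, hρr, IH⟩ := IH r hr hr1
  have hρ1 : ρ ≤ 1 := by linarith
  have hρ4 : 0 < ρ/4 := by positivity
  have hρ41 : ρ/4 ≤ 1 := by linarith
  refine ⟨ρ/4, hρ4, by linarith, ?_⟩
  intro Y _ ε hε
  obtain ⟨δ', hδ', IH⟩ := IH Y (ε/2) (by positivity)
  refine ⟨min δ' (min (ρ/4) (ε/2)), by positivity, ?_⟩
  set δ := min δ' (min (ρ/4) (ε/2)) with hδdef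
  have hδ0 : 0 < δ := by positivity
  have hδδ' : δ ≤ δ' := min_le_left _ _
  have hδr : δ ≤ ρ/4 := (min_le_right _ _).trans (min_le_left _ _)
  have hδε : δ ≤ ε/2 := (min_le_right _ _).trans (min_le_right _ _)
  intro N z hz hbz h1 h2
  cases N with
  | zero =>
    exact fill_zero (q := ax 1 0) (fun y => ax_mem_shell (by norm_num) 0 hρ4 hρ41 y)
      (by linarith : δ ≤ ε) hz h1
  | succ M =>
    obtain ⟨y1, hy1, hy1b⟩ := h1
    obtain ⟨y2, hy2, hy2b⟩ := h2
    have hsnd : ∀ {A : Set ((Fin (a+1+1) → ℝ) × Y)} {K : ℕ} {w : Ch ((Fin (a+1+1) → ℝ) × Y)},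
        w ∈ CK (Sm A (fun x y => dist x y < δ)) K →
        mapL Prod.snd w ∈ CK (Sm Set.univ (fun x y => dist x y < δ)) K := by
      intro A K w hw
      refine mapL_mem_CK (fun l _ hl => ⟨fun _ _ => trivial, ?_⟩) hw
      intro x hx y hy
      rw [List.mem_map] at hx hy
      obtain ⟨p, hp, rfl⟩ := hx
      obtain ⟨q, hq, rfl⟩ := hy
      exact ((dist_lt_iff' hδ0 _ _).1 (hl.2 p hp q hq)).2
    have hP := Sm_subClosed (shell (a+1) r Y) (fun x y => dist x y < δ)
    -- the positive part and its boundary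
    set zp := mL (sg (a+1) Y) z with hzp
    set t := bd zp with ht
    have e : t = lL (sg (a+1) Y) z := by
      rw [ht, hzp, lL_apply, hbz, map_zero, add_zero]
    have hzpm : zp ∈ CK (Sm (shell (a+1) r Y) (fun x y => dist x y < δ)) (M+1) :=
      mL_mem_CK _ hz
    have htm : t ∈ CK (Sm {p | p ∈ shell (a+1) r Y ∧ |p.1 0| < δ} (fun x y => dist x y < δ)) M := by
      rw [e]
      refine lL_mem_of (sg (a+1) Y) ⟨by simp, by simp⟩ ?_ hz
      intro x y l hl hxy
      have hy : y ∈ x :: y :: l := by simp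
      have hx : x ∈ x :: y :: l := by simp
      refine ⟨fun w hw => ?_, fun w hw w' hw' =>
        hl.2 w (List.mem_cons_of_mem _ hw) w' (List.mem_cons_of_mem _ hw')⟩
      have hw' := List.mem_cons_of_mem x hw
      exact ⟨hl.1 w hw', sg_ne hδ0 hxy (hl.2 x hx w hw') (hl.2 y hy w hw')⟩
    have hbt : bd t = 0 := bd_bd _
    -- one prism step to the hyperplane
    set Q := prism id pj t with hQ
    have hQb : bd Q = t + mapL pj t := by
      have := prism_formula id pj t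
      rw [hbt, map_zero, add_zero, mapL_id] at this
      exact this
    have hshell_pj : ∀ p : (Fin (a+1+1) → ℝ) × Y, p ∈ shell (a+1) r Y → |p.1 0| < δ →
        pj p ∈ shell (a+1) r Y := by
      intro p hp hp0
      rw [mem_shell_iff hr] at hp ⊢
      obtain ⟨⟨i, hi⟩, hp1⟩ := hp
      refine ⟨⟨i, ?_⟩, ?_⟩
      · refine Fin.cases (fun hi => ?_) (fun j hi => ?_) i hi
        · linarith
        · exact hi
      · intro j
        refine Fin.cases ?_ (fun j => ?_) j
        · show |(0:ℝ)| ≤ 1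
          simp
        · exact hp1 j.succ
    have hQm : Q ∈ CK (Sm {p | p ∈ shell (a+1) ρ Y ∧ |p.1 0| < δ}
        (fun x y => dist x y < ε/2)) (M+1) := by
      refine CK_mono (P := Sm {p | p ∈ shell (a+1) r Y ∧ |p.1 0| < δ}
        (fun x y => dist x y < δ)) ?_ _ ?_
      · intro l hl
        refine Sm_mono ?_ (fun x y h => lt_of_lt_of_le h hδε) hl
        rintro p ⟨hp, hp0⟩
        exact ⟨⟨hρr.trans hp.1, hp.2⟩, hp0⟩
      refine prism_mem_CK (fun l _ hl l' hl' => ⟨?_, ?_⟩) htm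
      · intro w hw
        obtain ⟨x, hx, hxw⟩ := hl' w hw
        obtain ⟨hx1, hx2⟩ := hl.1 x hx
        rcases hxw with rfl | rfl
        · exact ⟨hx1, hx2⟩
        · refine ⟨hshell_pj x hx1 hx2, ?_⟩
          show |(0:ℝ)| < δ
          simpa using hδ0
      · intro w hw w' hw'
        obtain ⟨x, hx, hxw⟩ := hl' w hw
        obtain ⟨x', hx', hxw'⟩ := hl' w' hw'
        have hxx := (dist_lt_iff' hδ0 _ _).1 (hl.2 x hx x' hx')
        obtain ⟨_, hx2⟩ := hl.1 x hx
        obtain ⟨_, hx2'⟩ := hl.1 x' hx'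
        show dist w w' < δ
        rw [dist_lt_iff' hδ0]
        rcases hxw with rfl | rfl <;> rcases hxw' with rfl | rfl
        · exact hxx
        · refine ⟨fun i => ?_, hxx.2⟩
          refine Fin.cases ?_ (fun j => hxx.1 j.succ) i
          show |w.1 0 - 0| < δ
          simpa using hx2
        · refine ⟨fun i => ?_, hxx.2⟩
          refine Fin.cases ?_ (fun j => hxx.1 j.succ) i
          show |0 - w'.1 0| < δ
          simpa using hx2'
        · refine ⟨fun i => ?_, hxx.2⟩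
          refine Fin.cases ?_ (fun j => hxx.1 j.succ) i
          show |(0:ℝ) - 0| < δ
          simpa using hδ0
    -- the tail
    have htl : mapL tl t ∈ CK (Sm (shell a r Y) (fun x y => dist x y < δ')) M := by
      refine mapL_mem_CK (fun l _ hl => ⟨?_, ?_⟩) htm
      · intro w hw
        rw [List.mem_map] at hw
        obtain ⟨p, hp, rfl⟩ := hw
        obtain ⟨hp1, hp2⟩ := hl.1 p hp
        rw [mem_shell_iff hr] at hp1 ⊢
        obtain ⟨⟨i, hi⟩, hp1⟩ := hp1
        refine ⟨?_, fun j => hp1 j.succ⟩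
        refine Fin.cases (fun hi => ?_) (fun j hi => ⟨j, hi⟩) i hi
        linarith
      · intro w hw w' hw'
        rw [List.mem_map] at hw hw'
        obtain ⟨p, hp, rfl⟩ := hw
        obtain ⟨p', hp', rfl⟩ := hw'
        have := (dist_lt_iff' hδ0 _ _).1 (hl.2 p hp p' hp')
        rw [dist_lt_iff' hδ']
        exact ⟨fun i => lt_of_lt_of_le (this.1 i.succ) hδδ', lt_of_lt_of_le this.2 hδδ'⟩
    have hmono : ∀ {K : ℕ} {w : Ch Y}, w ∈ CK (Sm Set.univ (fun x y => dist x y < δ)) K →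
        w ∈ CK (Sm Set.univ (fun x y => dist x y < δ')) K := by
      intro K w hw
      exact CK_mono (fun l hl => Sm_mono (le_refl _) (fun x y h => lt_of_lt_of_le h hδδ') hl) _ hw
    obtain ⟨hs, hhs, hcoord⟩ := coords_cons a Y
    obtain ⟨r0, hr0, hr0b⟩ := IH M (mapL tl t) htl (by rw [bd_mapL, hbt, map_zero])
      ⟨mapL Prod.snd zp, hmono (hsnd hzpm), by
        rw [bd_mapL, ← ht, mapL_mapL]; rfl⟩
      (by
        have hc1 : (coords a Y).map (· ∘ tl) =
            (sg a Y ∘ tl) :: hs.map (· ∘ (tl : (Fin (a+1+1) → ℝ) × Y → _)) := by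
          rw [hcoord]; rfl
        set w := Lw (hs.map (· ∘ (tl : (Fin (a+1+1) → ℝ) × Y → _))) (mL (sg a Y ∘ tl) zp) with hw
        have hwm : w ∈ CK (Sm (shell (a+1) r Y) (fun x y => dist x y < δ)) (M + 1 - a) := by
          have := Lw_mem_CK' hP (hs.map (· ∘ (tl : (Fin (a+1+1) → ℝ) × Y → _)))
            (mL_mem_CK (sg a Y ∘ tl) hzpm)
          rw [List.length_map, hhs] at this
          exact this
        refine ⟨y2 + mapL Prod.snd w, Submodule.add_mem _ (hmono ?_) (hmono (hsnd hwm)), ?_⟩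
        · have : M + 1 + 1 - (a + 1) = M + 1 - a := by omega
          rw [this] at hy2
          exact hy2
        · rw [Sop_mapL, hc1, ht, hzp, Sop_step, mapL_mapL, map_add, hy2b, coords_succ, hc1,
            map_add, bd_mapL]
          rfl)
    -- embed back
    have hR0 : mapL emb r0 ∈ CK (Sm {p | p ∈ shell (a+1) ρ Y ∧ |p.1 0| < δ}
        (fun x y => dist x y < ε/2)) (M+1) := by
      refine mapL_mem_CK (fun l _ hl => ⟨?_, ?_⟩) hr0
      · intro w hw
        rw [List.mem_map] at hw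
        obtain ⟨p, hp, rfl⟩ := hw
        refine ⟨?_, ?_⟩
        · have := hl.1 p hp
          rw [mem_shell_iff hρ] at this ⊢
          obtain ⟨⟨i, hi⟩, h1⟩ := this
          refine ⟨⟨i.succ, hi⟩, fun j => ?_⟩
          refine Fin.cases ?_ (fun j => h1 j) j
          show |(0:ℝ)| ≤ 1
          simp
        · show |(0:ℝ)| < δ
          simpa using hδ0
      · intro w hw w' hw'
        rw [List.mem_map] at hw hw'
        obtain ⟨p, hp, rfl⟩ := hw
        obtain ⟨p', hp', rfl⟩ := hw'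
        have hε2 : 0 < ε/2 := by positivity
        have := (dist_lt_iff' hε2 _ _).1 (hl.2 p hp p' hp')
        rw [dist_lt_iff' hε2]
        refine ⟨fun i => ?_, this.2⟩
        refine Fin.cases ?_ (fun j => this.1 j) i
        show |(0:ℝ) - 0| < ε/2
        simpa using hε2
    have hR0b : bd (mapL emb r0) = mapL pj t := by
      rw [bd_mapL, hr0b, mapL_mapL, emb_tl]
    -- the two cycles
    have hR : Q + mapL emb r0 ∈ CK (Sm {p | p ∈ shell (a+1) ρ Y ∧ |p.1 0| < δ}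
        (fun x y => dist x y < ε/2)) (M+1) := Submodule.add_mem _ hQm hR0
    have hRb : bd (Q + mapL emb r0) = t := by
      rw [map_add, hQb, hR0b]
      abel_nf
      simp only [two_zs, add_zero]
    have hup : zp + (Q + mapL emb r0) ∈
        CK (Sm {p | p ∈ shell (a+1) ρ Y ∧ -δ < 1 * p.1 0} (fun x y => dist x y < ε/2)) (M+1) := by
      refine Submodule.add_mem _ ?_ (CK_mono (fun l hl => Sm_mono ?_ (fun x y h => h) hl) _ hR)
      · refine mL_mem_of (sg (a+1) Y) ?_ hz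
        intro x l hl hx
        refine ⟨?_, fun w hw w' hw' => lt_of_lt_of_le (hl.2 w hw w' hw') hδε⟩
        intro w hw
        refine ⟨⟨hρr.trans (hl.1 w hw).1, (hl.1 w hw).2⟩, ?_⟩
        have h3 := sg_ne_zero hx
        have h4 := abs_lt.1 (((dist_lt_iff' hδ0 _ _).1 (hl.2 x (by simp) w hw)).1 0)
        linarith [h4.1, h4.2]
      · rintro p ⟨hp, hp0⟩
        refine ⟨hp, ?_⟩
        linarith [(abs_lt.1 hp0).1]
    have hum : (z + zp) + (Q + mapL emb r0) ∈
        CK (Sm {p | p ∈ shell (a+1) ρ Y ∧ -δ < (-1) * p.1 0} (fun x y => dist x y < ε/2))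
          (M+1) := by
      refine Submodule.add_mem _ ?_ (CK_mono (fun l hl => Sm_mono ?_ (fun x y h => h) hl) _ hR)
      · refine add_mL_mem_of (sg (a+1) Y) ?_ hz
        intro x l hl hx
        refine ⟨?_, fun w hw w' hw' => lt_of_lt_of_le (hl.2 w hw w' hw') hδε⟩
        intro w hw
        refine ⟨⟨hρr.trans (hl.1 w hw).1, (hl.1 w hw).2⟩, ?_⟩
        have h3 := sg_ne_one hx
        have h4 := abs_lt.1 (((dist_lt_iff' hδ0 _ _).1 (hl.2 x (by simp) w hw)).1 0)
        linarith [h4.1, h4.2]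
      · rintro p ⟨hp, hp0⟩
        refine ⟨hp, ?_⟩
        linarith [(abs_lt.1 hp0).2]
    have hbp : bd (zp + (Q + mapL emb r0)) = 0 := by
      rw [map_add, hRb, ← ht, add_self']
    have hbm : bd ((z + zp) + (Q + mapL emb r0)) = 0 := by
      rw [map_add, map_add, hbz, hRb, ← ht, zero_add, add_self']
    have hε2 : 0 < ε/2 := by positivity
    have hε2' : ε/2 < ε := by linarith
    obtain ⟨w1, hw1, hw1b⟩ := half_part (Or.inl rfl) hρ hρ1 (by linarith) (by linarith) hδ0 hε2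
      hε2' hup hbp
    obtain ⟨w2, hw2, hw2b⟩ := half_part (Or.inr rfl) hρ hρ1 (by linarith) (by linarith) hδ0 hε2
      hε2' hum hbm
    obtain ⟨w3, hw3, hw3b⟩ := pole_part (Or.inl rfl) hρ hρ1 hε2 hε2' hup hbp
    obtain ⟨w4, hw4, hw4b⟩ := pole_part (Or.inr rfl) hρ hρ1 hε2 hε2' hum hbm
    have l1 := lift_mem (q := ax 1 1)
      (fun y : Y => ax_mem_shell (a := a+1) (by norm_num) 1 hρ4 hρ41 y) (by linarith : δ ≤ ε) hy1
    refine ⟨w1 + w2 + (w3 + w4) + _, Submodule.add_mem _ (Submodule.add_mem _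
      (Submodule.add_mem _ hw1 hw2) (Submodule.add_mem _ hw3 hw4)) l1, ?_⟩
    rw [map_add, map_add, map_add, map_add, hw1b, hw2b, hw3b, hw4b, bd_mapL, hy1b, ← mapL_cst]
    simp only [map_add]
    abel_nf
    simp only [two_zs, add_zero, zero_add]

/-- Homology of (shell in `ℝ^{a+1}`) × Y at small scale: a cycle bounds, at a slightly larger
scale in a slightly larger shell, as soon as its projection to `Y` and the projection of its cap
product with the sphere class bound in `Y`. -/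
theorem sphere_fill (a : ℕ) : ∀ r : ℝ, 0 < r → r ≤ 1 → ∃ r' : ℝ, 0 < r' ∧ r' ≤ r ∧
    ∀ (Y : Type u) [PseudoMetricSpace Y], ∀ ε > 0, ∃ δ > 0, ∀ N : ℕ,
    ∀ z ∈ CK (Sm (shell a r Y) (fun x y => dist x y < δ)) N, bd z = 0 →
      (∃ y ∈ CK (Sm Set.univ (fun x y => dist x y < δ)) (N + 1), bd y = mapL Prod.snd z) →
      (∃ y ∈ CK (Sm Set.univ (fun x y => dist x y < δ)) (N + 1 - a),
          bd y = mapL Prod.snd (Sop (coords a Y) z)) →
      ∃ y ∈ CK (Sm (shell a r' Y) (fun x y => dist x y < ε)) (N + 1), bd y = z := by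
  induction a with
  | zero =>
    intro r hr hr1
    exact ⟨r/4, by positivity, by linarith, sphere_fill_zero r hr hr1⟩
  | succ a IH =>
    intro r hr hr1
    exact sphere_fill_succ a IH r hr hr1

end Pool.Agent.TightEmb
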