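import Pool.Agent.TightEmb.Soft
import Pool.Agent.TightEmb.SphereFill
import Pool.Agent.TightEmb.Iso

/-!
Small scale homology of the sphere and of a product of two spheres.
-/

set_option linter.unusedSimpArgs false
set_option linter.unusedVariables false

namespace Pool.Agent.TightEmb

open Finsupp

universe u

/-- the unit sphere. -/
abbrev Sp (n : ℕ) := Metric.sphere (0 : EuclideanSpace ℝ (Fin (n+1))) 1

/-- coordinate functions on the sphere. -/
def cS (n : ℕ) (a : Fin (n+1)) (x : Sp n) : ℝ := x.1 a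

/-- coordinate functions of the first factor. -/
def cX (k : ℕ) (a : Fin (k+1)) (x : Sp k × Sp k) : ℝ := x.1.1 a

/-- coordinate functions of the second factor. -/
def cY (k : ℕ) (a : Fin (k+1)) (x : Sp k × Sp k) : ℝ := x.2.1 a

/-- coordinate functions on the sphere times `Y`. -/
def cP (n : ℕ) (Y : Type*) (a : Fin (n+1)) (p : Sp n × Y) : ℝ := p.1.1 a

/-! ### algebra -/

lemma Lw_zero_of_short {V : Type*} {P : List V → Prop} (hP : SubClosed P)
    (hs : List (V → ZMod 2)) :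
    ∀ {n : ℕ} {z : Ch V}, z ∈ CK P n → n < hs.length → Lw hs z = 0 := by
  induction hs with
  | nil => intro n z _ hn; simp at hn
  | cons h hs ih =>
    intro n z hz hn
    simp only [Lw, LinearMap.comp_apply]
    cases n with
    | zero => rw [lL_zero_CK h hz, map_zero]
    | succ n => exact ih (lL_mem_CK hP h hz) (by simpa using hn)

lemma lL_const {V : Type*} {P : List V → Prop} (h : V → ZMod 2) {c : ZMod 2}
    (hc : ∀ l, P l → ∀ x ∈ l, h x = c) {n : ℕ} {z : Ch V} (hz : z ∈ CK P (n + 2)) :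
    lL h z = 0 := by
  have := CK_eq (lL h) 0 (fun l h1 h2 => by
    match l, h1 with
    | x :: y :: l, _ =>
      rw [lL_single_cons, mL_single_cons, hc _ h2 x (by simp), hc _ h2 y (by simp), add_self']
      rfl) hz
  simpa using this

lemma Lw_const {V : Type*} {P : List V → Prop} (hP : SubClosed P) (hs : List (V → ZMod 2))
    (hc : ∃ h ∈ hs, ∃ c : ZMod 2, ∀ l, P l → ∀ x ∈ l, h x = c) :
    ∀ {n : ℕ} {z : Ch V}, z ∈ CK P n → hs.length + 1 ≤ n → Lw hs z = 0 := by
  induction hs with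
  | nil => obtain ⟨h, hh, _⟩ := hc; simp at hh
  | cons h hs ih =>
    intro n z hz hn
    simp only [Lw, LinearMap.comp_apply]
    simp only [List.length_cons] at hn
    obtain ⟨m, rfl⟩ : ∃ m, n = m + 2 := ⟨n - 2, by omega⟩
    obtain ⟨g, hg, c, hcg⟩ := hc
    rcases List.mem_cons.1 hg with rfl | hg
    · rw [lL_const g hcg hz, map_zero]
    · exact ih ⟨g, hg, c, hcg⟩ (lL_mem_CK hP h hz) (by omega)

/-- if on every small list one of the functions is constant, `Lw` kills long small chains. -/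
lemma Lw_null {V : Type*} {P : List V → Prop} (hs : List (V → ZMod 2))
    (hc : ∀ l, P l → ∃ h ∈ hs, ∃ c : ZMod 2, ∀ x ∈ l, h x = c)
    {n : ℕ} {z : Ch V} (hz : z ∈ CK P n) (hn : hs.length + 1 ≤ n) : Lw hs z = 0 := by
  have := CK_eq (Lw hs) 0 (fun l h1 h2 => by
    obtain ⟨h, hh, c, hc⟩ := hc l h2
    have hP : SubClosed (fun l' : List V => ∀ x ∈ l', x ∈ l) := by
      intro a b hab ha x hx
      exact ha x (hab.subset hx)
    have := Lw_const hP hs ⟨h, hh, c, fun l' hl' x hx => hc x (hl' x hx)⟩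
      (z := single l 1) (n := n) (single_mem_CK h1 (fun x hx => hx) 1) hn
    simpa using this) hz
  simpa using this

lemma eq_zero_of_augL {V : Type*} {P : List V → Prop} {w : Ch V} (hP : SubClosed P)
    (hw : w ∈ CK P 1) (h : augL w = 0) : bd w = 0 := by
  have h0 : bd w ∈ CK P 0 := bd_mem_CK hP hw
  ext l
  rw [mem_CK] at h0
  by_cases hl : l ∈ (bd w).support
  · have := (h0 l hl).1
    rw [List.length_eq_zero_iff] at this
    subst this
    exact h
  · simpa using hl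

lemma bd_zero_len {V : Type*} {P : List V → Prop} {w : Ch V} (hw : w ∈ CK P 0) : bd w = 0 := by
  have := CK_eq bd 0 (fun l h1 _ => by
    rw [List.length_eq_zero_iff] at h1
    subst h1
    simp) hw
  simpa using this

/-! ### the sphere -/

lemma sum_sq_sphere {n : ℕ} (x : Sp n) : ∑ a, x.1 a ^ 2 = 1 := by
  have h := x.2
  rw [mem_sphere_zero_iff_norm] at h
  have h2 := EuclideanSpace.real_norm_sq_eq x.1
  rw [h] at h2
  rw [← h2]
  norm_num

lemma coord_dist {n : ℕ} (x y : EuclideanSpace ℝ (Fin (n+1))) (a : Fin (n+1)) :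
    |x a - y a| ≤ dist x y := by
  have h := PiLp.norm_apply_le (x - y) a
  rw [dist_eq_norm]
  simpa using h

/-- on each small set one coordinate has constant sign. -/
lemma small_cst {V : Type*} {n : ℕ} (X : Fin (n+1) → V → ℝ) (D : V → V → Prop)
    (hX : ∀ v, ∑ a, X a v ^ 2 = 1)
    (hD : ∀ x y, D x y → ∀ a, |X a x - X a y| < 1 / ((n : ℝ) + 1)) (A : Set V)
    (l : List V) (hl : Sm A D l) : ∃ h ∈ sgs X, ∃ c : ZMod 2, ∀ x ∈ l, h x = c := by
  cases l with
  | nil =>
    exact ⟨sgn (X 0), by rw [sgs, List.mem_ofFn]; exact ⟨0, rfl⟩, 0, by simp⟩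
  | cons v l =>
    obtain ⟨a, ha⟩ := big_coord (fun a => X a v) (hX v)
    refine ⟨sgn (X a), by rw [sgs, List.mem_ofFn]; exact ⟨a, rfl⟩, ?_⟩
    rcases le_abs.1 ha with h | h
    · refine ⟨1, fun y hy => ?_⟩
      have := abs_lt.1 (hD v y (hl.2 v (by simp) y hy) a)
      rw [sgn, if_pos]
      linarith [this.2]
    · refine ⟨0, fun y hy => ?_⟩
      have := abs_lt.1 (hD v y (hl.2 v (by simp) y hy) a)
      rw [sgn, if_neg]
      push Not
      linarith [this.1]

/-! ### embedding in the shell and retraction -/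

/-- embedding in the ambient space. -/
def eP {n : ℕ} {Y : Type*} (p : Sp n × Y) : (Fin (n+1) → ℝ) × Y := (fun a => p.1.1 a, p.2)

/-- a base point of the sphere. -/
noncomputable def base (n : ℕ) : Sp n :=
  ⟨EuclideanSpace.single 0 1, by simp⟩

open Classical in
/-- radial retraction. -/
noncomputable def rS (n : ℕ) (x : Fin (n+1) → ℝ) : Sp n :=
  if h : WithLp.toLp 2 x = (0 : EuclideanSpace ℝ (Fin (n+1))) then base n
  else ⟨(‖(WithLp.toLp 2 x : EuclideanSpace ℝ (Fin (n+1)))‖)⁻¹ • WithLp.toLp 2 x, by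
    rw [mem_sphere_zero_iff_norm, norm_smul, norm_inv, norm_norm,
      inv_mul_cancel₀ (norm_ne_zero_iff.2 h)]⟩

lemma rS_val {n : ℕ} {x : Fin (n+1) → ℝ} (hx : x ≠ 0) :
    (rS n x).1 = (‖(WithLp.toLp 2 x : EuclideanSpace ℝ (Fin (n+1)))‖)⁻¹ • WithLp.toLp 2 x := by
  have : ¬ (WithLp.toLp 2 x = (0 : EuclideanSpace ℝ (Fin (n+1)))) := by
    intro h
    apply hx
    have := congrArg (fun z : EuclideanSpace ℝ (Fin (n+1)) => z.ofLp) h
    simpa using this
  rw [rS, dif_neg this]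

lemma rS_cont (n : ℕ) {r : ℝ} (hr : 0 < r) :
    ContinuousOn (rS n) {x : Fin (n+1) → ℝ | r ≤ ‖x‖ ∧ ‖x‖ ≤ 1} := by
  have h0 : ∀ x ∈ {x : Fin (n+1) → ℝ | r ≤ ‖x‖ ∧ ‖x‖ ≤ 1}, x ≠ 0 := by
    intro x hx h
    rw [h] at hx
    have := hx.1
    rw [norm_zero] at this
    linarith
  rw [Topology.IsInducing.subtypeVal.continuousOn_iff]
  have hc : ContinuousOn (fun x : Fin (n+1) → ℝ =>
      (‖(WithLp.toLp 2 x : EuclideanSpace ℝ (Fin (n+1)))‖)⁻¹ •
        (WithLp.toLp 2 x : EuclideanSpace ℝ (Fin (n+1))))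
      {x : Fin (n+1) → ℝ | r ≤ ‖x‖ ∧ ‖x‖ ≤ 1} := by
    have hl : Continuous (fun x : Fin (n+1) → ℝ =>
        (WithLp.toLp 2 x : EuclideanSpace ℝ (Fin (n+1)))) := PiLp.continuous_toLp 2 _
    have hi : ContinuousOn (fun x : Fin (n+1) → ℝ =>
        (‖(WithLp.toLp 2 x : EuclideanSpace ℝ (Fin (n+1)))‖)⁻¹)
        {x : Fin (n+1) → ℝ | r ≤ ‖x‖ ∧ ‖x‖ ≤ 1} := by
      refine ContinuousOn.inv₀ hl.norm.continuousOn ?_
      intro x hx h
      rw [norm_eq_zero] at h
      apply h0 x hx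
      have := congrArg (fun z : EuclideanSpace ℝ (Fin (n+1)) => z.ofLp) h
      simpa using this
    exact hi.smul hl.continuousOn
  refine hc.congr ?_
  intro x hx
  exact rS_val (h0 x hx)

/-- retraction of the shell. -/
noncomputable def rP {n : ℕ} {Y : Type*} (p : (Fin (n+1) → ℝ) × Y) : Sp n × Y := (rS n p.1, p.2)

lemma rS_eP {n : ℕ} (x : Sp n) : rS n (fun a => x.1 a) = x := by
  have hx0 : (fun a => x.1 a) ≠ (0 : Fin (n+1) → ℝ) := by
    intro h
    have h1 := sum_sq_sphere x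
    have h2 : ∀ a, x.1 a = 0 := fun a => congrFun h a
    simp [h2] at h1
  apply Subtype.ext
  rw [rS_val hx0]
  have h1 : (WithLp.toLp 2 (fun a => x.1 a) : EuclideanSpace ℝ (Fin (n+1))) = x.1 := rfl
  have h2 := x.2
  rw [mem_sphere_zero_iff_norm] at h2
  rw [h1, h2, inv_one, one_smul]

lemma rP_eP {n : ℕ} {Y : Type*} : (rP ∘ eP : Sp n × Y → Sp n × Y) = id := by
  funext p
  show (rS n (fun a => p.1.1 a), p.2) = p
  rw [rS_eP]

lemma eP_shell {n : ℕ} {Y : Type*} (p : Sp n × Y) :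
    eP p ∈ shell n (1 / ((n : ℝ) + 1)) Y := by
  rw [mem_shell_iff (by positivity)]
  refine ⟨big_coord (fun a => p.1.1 a) (sum_sq_sphere p.1), fun i => ?_⟩
  have h := PiLp.norm_apply_le p.1.1 i
  have h2 := p.1.2
  rw [mem_sphere_zero_iff_norm] at h2
  rw [h2] at h
  exact h

lemma eP_lip {n : ℕ} {Y : Type*} [PseudoMetricSpace Y] {δ : ℝ} (hδ : 0 < δ) {p q : Sp n × Y}
    (h : dist p q < δ) : dist (eP p) (eP q) < δ := by
  rw [dist_lt_iff' hδ]
  rw [Prod.dist_eq, max_lt_iff] at h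
  exact ⟨fun i => lt_of_le_of_lt (coord_dist p.1.1 q.1.1 i) h.1, h.2⟩

lemma coords_eP (n : ℕ) (Y : Type*) :
    (coords n Y).map (· ∘ (eP : Sp n × Y → _)) = sgs (cP n Y) := by
  unfold coords sgs
  rw [List.map_ofFn]
  rfl

/-- relative version over a space `Y`. -/
theorem fill_prod (n : ℕ) (Y : Type u) [PseudoMetricSpace Y] : ∀ ε > 0, ∃ δ > 0, ∀ N : ℕ,
    ∀ z ∈ CK (Sm (Set.univ : Set (Sp n × Y)) (fun x y => dist x y < δ)) N, bd z = 0 →
      (∃ y ∈ CK (Sm Set.univ (fun x y => dist x y < δ)) (N + 1), bd y = mapL Prod.snd z) →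
      (∃ y ∈ CK (Sm Set.univ (fun x y => dist x y < δ)) (N + 1 - n),
          bd y = mapL Prod.snd (Sop (sgs (cP n Y)) z)) →
      ∃ y ∈ CK (Sm (Set.univ : Set (Sp n × Y)) (fun x y => dist x y < ε)) (N + 1), bd y = z := by
  intro ε hε
  obtain ⟨r', hr', hr'1, H⟩ := sphere_fill.{u} n (1 / ((n : ℝ) + 1)) (by positivity) (by
    rw [div_le_one (by positivity)]
    have : (0 : ℝ) ≤ n := by positivity
    linarith)
  have hcomp : IsCompact {x : Fin (n+1) → ℝ | r' ≤ ‖x‖ ∧ ‖x‖ ≤ 1} := by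
    refine Metric.isCompact_of_isClosed_isBounded ?_ ?_
    · exact (isClosed_le continuous_const continuous_norm).inter
        (isClosed_le continuous_norm continuous_const)
    · refine (Metric.isBounded_closedBall (x := (0 : Fin (n+1) → ℝ)) (r := 1)).subset ?_
      intro x hx
      rw [mem_closedBall_zero_iff]
      exact hx.2
  have hu := hcomp.uniformContinuousOn_of_continuous (rS_cont n hr')
  rw [Metric.uniformContinuousOn_iff] at hu
  obtain ⟨η, hη, hu⟩ := hu ε hε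
  obtain ⟨δ, hδ, H⟩ := H Y (min η ε) (lt_min hη hε)
  refine ⟨δ, hδ, fun N z hz hbz h1 h2 => ?_⟩
  have hz' : mapL eP z ∈ CK (Sm (shell n (1 / ((n : ℝ) + 1)) Y) (fun x y => dist x y < δ)) N := by
    refine mapL_mem_CK (fun l _ hl => ⟨?_, ?_⟩) hz
    · intro w hw
      rw [List.mem_map] at hw
      obtain ⟨p, hp, rfl⟩ := hw
      exact eP_shell p
    · intro w hw w' hw'
      rw [List.mem_map] at hw hw'
      obtain ⟨p, hp, rfl⟩ := hw
      obtain ⟨p', hp', rfl⟩ := hw'
      exact eP_lip hδ (hl.2 p hp p' hp')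
  obtain ⟨y, hy, hyb⟩ := H N (mapL eP z) hz'
    (by rw [bd_mapL, hbz, map_zero]) (by
      obtain ⟨y, hy, hyb⟩ := h1
      exact ⟨y, hy, by rw [hyb, mapL_mapL]; rfl⟩) (by
      obtain ⟨y, hy, hyb⟩ := h2
      refine ⟨y, hy, ?_⟩
      rw [hyb, mapL_Sop, coords_eP, mapL_mapL]
      rfl)
  refine ⟨mapL rP y, mapL_mem_CK ?_ hy, ?_⟩
  · intro l _ hl
    refine ⟨fun _ _ => trivial, ?_⟩
    intro w hw w' hw'
    rw [List.mem_map] at hw hw'
    obtain ⟨p, hp, rfl⟩ := hw
    obtain ⟨p', hp', rfl⟩ := hw'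
    have h : dist p p' < min η ε := hl.2 p hp p' hp'
    rw [lt_min_iff] at h
    have ha := h.1
    have hb := h.2
    rw [Prod.dist_eq, max_lt_iff] at ha hb
    show dist (rP p) (rP p') < ε
    rw [Prod.dist_eq, max_lt_iff]
    exact ⟨hu _ (hl.1 p hp) _ (hl.1 p' hp') ha.1, hb.2⟩
  · rw [bd_mapL, hyb, mapL_mapL, rP_eP, mapL_id]

/-- small cycles of the sphere bound. -/
theorem fill_sphere (n : ℕ) : ∀ ε > 0, ∃ δ > 0, ∀ m : ℕ,
    ∀ z ∈ CK (Sm (Set.univ : Set (Sp n)) (fun x y => dist x y < δ)) (m + 1), bd z = 0 →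
    (m = n → augL (Sop (sgs (cS n)) z) = 0) →
    ∃ y ∈ CK (Sm (Set.univ : Set (Sp n)) (fun x y => dist x y < ε)) (m + 2), bd y = z := by
  intro ε hε
  obtain ⟨δ, hδ, H⟩ := fill_prod n PUnit.{1} ε hε
  refine ⟨min δ (1 / ((n : ℝ) + 1)), lt_min hδ (by positivity), fun m z hz hbz haug => ?_⟩
  set ι : Sp n → Sp n × PUnit.{1} := fun x => (x, PUnit.unit) with hι
  have hP0 : SubClosed (Sm (Set.univ : Set PUnit.{1}) (fun x y => dist x y < δ)) :=
    Sm_subClosed _ _
  have hcone : ∀ {K : ℕ} {w : Ch PUnit.{1}}, w ∈ CK (Sm Set.univ (fun x y => dist x y < δ)) K →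
      bd w = 0 → ∃ y ∈ CK (Sm (Set.univ : Set PUnit.{1}) (fun x y => dist x y < δ)) (K + 1),
        bd y = w := by
    intro K w hw hbw
    refine ⟨consL PUnit.unit w, consL_mem_CK ?_ hw, ?_⟩
    · intro l _ _
      refine ⟨fun _ _ => trivial, ?_⟩
      intro x _ y _
      show dist x y < δ
      rw [Subsingleton.elim x y, dist_self]
      exact hδ
    · rw [bd_consL, hbw, map_zero, add_zero]
  have hsnd : ∀ {K : ℕ} {w : Ch (Sp n)}, w ∈ CK (Sm Set.univ
      (fun x y => dist x y < min δ (1 / ((n : ℝ) + 1)))) K →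
      mapL (fun _ => PUnit.unit.{1}) w ∈ CK (Sm Set.univ (fun x y => dist x y < δ)) K := by
    intro K w hw
    refine mapL_mem_CK (fun l _ _ => ⟨fun _ _ => trivial, ?_⟩) hw
    intro x _ y _
    show dist x y < δ
    rw [Subsingleton.elim x y, dist_self]
    exact hδ
  have hιz : mapL ι z ∈ CK (Sm (Set.univ : Set (Sp n × PUnit.{1})) (fun x y => dist x y < δ))
      (m + 1) := by
    refine mapL_mem_CK (fun l _ hl => ⟨fun _ _ => trivial, ?_⟩) hz
    intro w hw w' hw'
    rw [List.mem_map] at hw hw'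
    obtain ⟨p, hp, rfl⟩ := hw
    obtain ⟨p', hp', rfl⟩ := hw'
    have h := lt_min_iff.1 (hl.2 p hp p' hp')
    show dist (ι p) (ι p') < δ
    rw [Prod.dist_eq, max_lt_iff]
    exact ⟨h.1, by simpa [hι] using hδ⟩
  have hS : Sop (sgs (cP n PUnit.{1})) (mapL ι z) = mapL ι (Sop (sgs (cS n)) z) := by
    rw [mapL_Sop]
    congr 2
    unfold sgs
    rw [List.map_ofFn]
    rfl
  have hSm : Sop (sgs (cS n)) z ∈ CK (Sm Set.univ
      (fun x y => dist x y < min δ (1 / ((n : ℝ) + 1)))) (m + 1 - n) := by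
    obtain ⟨h, hs, h1, h2⟩ := sgs_cons (cS n)
    rw [h1]
    simp only [Sop, LinearMap.comp_apply]
    have := Lw_mem_CK' (Sm_subClosed _ _) hs (mL_mem_CK h hz)
    rwa [h2] at this
  have hbS : bd (Sop (sgs (cS n)) z) = 0 := by
    obtain ⟨h, hs, h1, h2⟩ := sgs_cons (cS n)
    rcases lt_trichotomy m n with hm | hm | hm
    · have : m + 1 - n = 0 := by omega
      rw [this] at hSm
      exact bd_zero_len hSm
    · have h3 : m + 1 - n = 1 := by omega
      rw [h3] at hSm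
      exact eq_zero_of_augL (Sm_subClosed _ _) hSm (haug hm)
    · rw [h1, bd_Sop, hbz, map_zero, zero_add, ← h1]
      refine Lw_null (sgs (cS n)) (fun l hl => ?_) hz (by rw [sgs_length]; omega)
      refine small_cst (cS n) _ sum_sq_sphere (fun x y hxy a => ?_) _ l hl
      exact lt_of_le_of_lt (coord_dist x.1 y.1 a) (lt_min_iff.1 hxy).2
  obtain ⟨y, hy, hyb⟩ := H (m + 1) (mapL ι z) hιz (by rw [bd_mapL, hbz, map_zero])
    (by
      rw [mapL_mapL]
      exact hcone (hsnd hz) (by rw [bd_mapL, hbz, map_zero]))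
    (by
      rw [hS, mapL_mapL]
      rcases Nat.lt_or_ge (m + 1) n with hmn | hmn
      · have h0 : Sop (sgs (cS n)) z = 0 := by
          obtain ⟨h, hs, h1, h2⟩ := sgs_cons (cS n)
          rw [h1]
          simp only [Sop, LinearMap.comp_apply]
          exact Lw_zero_of_short (Sm_subClosed _ _) hs (mL_mem_CK h hz) (by omega)
        exact ⟨0, Submodule.zero_mem _, by rw [h0, map_zero, map_zero]⟩
      · have : m + 1 + 1 - n = (m + 1 - n) + 1 := by omega
        rw [this]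
        exact hcone (hsnd hSm) (by rw [bd_mapL, hbS, map_zero]))
  refine ⟨mapL Prod.fst y, mapL_mem_CK ?_ hy, ?_⟩
  · intro l _ hl
    refine ⟨fun _ _ => trivial, ?_⟩
    intro w hw w' hw'
    rw [List.mem_map] at hw hw'
    obtain ⟨p, hp, rfl⟩ := hw
    obtain ⟨p', hp', rfl⟩ := hw'
    have h : dist p p' < ε := hl.2 p hp p' hp'
    rw [Prod.dist_eq, max_lt_iff] at h
    exact h.1
  · rw [bd_mapL, hyb, mapL_mapL]
    exact mapL_id z

/-- small cycles of a product of two spheres bound. -/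
theorem fill_M (k : ℕ) (hk : 1 ≤ k) : ∀ ε > 0, ∃ δ > 0, ∀ m : ℕ,
    ∀ z ∈ CK (Sm (Set.univ : Set (Sp k × Sp k)) (fun x y => dist x y < δ)) (m + 1), bd z = 0 →
    (m = k → augL (Sop (sgs (cX k)) z) = 0 ∧ augL (Sop (sgs (cY k)) z) = 0) →
    (m = 2 * k → augL (Sop (sgs (cY k)) (Sop (sgs (cX k)) z)) = 0) →
    ∃ y ∈ CK (Sm (Set.univ : Set (Sp k × Sp k)) (fun x y => dist x y < ε)) (m + 2), bd y = z := by
  intro ε hε
  obtain ⟨δ₁, hδ₁, H1⟩ := fill_prod k (Sp k) ε hε
  obtain ⟨δ₂, hδ₂, H2⟩ := fill_sphere k δ₁ hδ₁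
  set δ := min (min δ₁ δ₂) (1 / ((k : ℝ) + 1)) with hδdef
  have hδ0 : 0 < δ := lt_min (lt_min hδ₁ hδ₂) (by positivity)
  have hd1 : δ ≤ δ₁ := (min_le_left _ _).trans (min_le_left _ _)
  have hd2 : δ ≤ δ₂ := (min_le_left _ _).trans (min_le_right _ _)
  have hd3 : δ ≤ 1 / ((k : ℝ) + 1) := min_le_right _ _
  refine ⟨δ, hδ0, fun m z hz hbz hk1 hk2 => ?_⟩
  have hXY : sgs (cX k) = sgs (cP k (Sp k)) := rfl
  have hSY : (sgs (cS k)).map (· ∘ (Prod.snd : Sp k × Sp k → Sp k)) = sgs (cY k) := by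
    unfold sgs
    rw [List.map_ofFn]
    rfl
  have hsnd : ∀ {K : ℕ} {w : Ch (Sp k × Sp k)}, w ∈ CK (Sm Set.univ (fun x y => dist x y < δ)) K →
      mapL Prod.snd w ∈ CK (Sm (Set.univ : Set (Sp k)) (fun x y => dist x y < δ₂)) K := by
    intro K w hw
    refine mapL_mem_CK (fun l _ hl => ⟨fun _ _ => trivial, ?_⟩) hw
    intro w hw w' hw'
    rw [List.mem_map] at hw hw'
    obtain ⟨p, hp, rfl⟩ := hw
    obtain ⟨p', hp', rfl⟩ := hw'
    have h : dist p p' < δ := hl.2 p hp p' hp'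
    rw [Prod.dist_eq, max_lt_iff] at h
    exact lt_of_lt_of_le h.2 hd2
  have hSm : Sop (sgs (cX k)) z ∈ CK (Sm Set.univ (fun x y => dist x y < δ)) (m + 1 - k) := by
    obtain ⟨h, hs, h1, h2⟩ := sgs_cons (cX k)
    rw [h1]
    simp only [Sop, LinearMap.comp_apply]
    have := Lw_mem_CK' (Sm_subClosed _ _) hs (mL_mem_CK h hz)
    rwa [h2] at this
  have hbS : bd (Sop (sgs (cX k)) z) = 0 := by
    obtain ⟨h, hs, h1, h2⟩ := sgs_cons (cX k)
    rcases lt_trichotomy m k with hm | hm | hm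
    · have : m + 1 - k = 0 := by omega
      rw [this] at hSm
      exact bd_zero_len hSm
    · have h3 : m + 1 - k = 1 := by omega
      rw [h3] at hSm
      exact eq_zero_of_augL (Sm_subClosed _ _) hSm (hk1 hm).1
    · rw [h1, bd_Sop, hbz, map_zero, zero_add, ← h1]
      refine Lw_null (sgs (cX k)) (fun l hl => ?_) hz (by rw [sgs_length]; omega)
      refine small_cst (cX k) _ (fun p => sum_sq_sphere p.1) (fun x y hxy a => ?_) _ l hl
      rw [Prod.dist_eq, max_lt_iff] at hxy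
      exact lt_of_le_of_lt (coord_dist x.1.1 y.1.1 a) (lt_of_lt_of_le hxy.1 hd3)
  refine H1 (m + 1) z (CK_mono (fun l hl => Sm_mono (le_refl _)
    (fun x y h => lt_of_lt_of_le h hd1) hl) _ hz) hbz ?_ ?_
  · refine H2 m (mapL Prod.snd z) (hsnd hz) (by rw [bd_mapL, hbz, map_zero]) (fun hm => ?_)
    rw [mapL_Sop, hSY, augL_mapL]
    exact (hk1 hm).2
  · rw [← hXY]
    rcases Nat.lt_or_ge m k with hmk | hmk
    · rcases Nat.lt_or_ge (m + 1) k with hmk' | hmk'
      · have h0 : Sop (sgs (cX k)) z = 0 := by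
          obtain ⟨h, hs, h1, h2⟩ := sgs_cons (cX k)
          rw [h1]
          simp only [Sop, LinearMap.comp_apply]
          exact Lw_zero_of_short (Sm_subClosed _ _) hs (mL_mem_CK h hz) (by omega)
        exact ⟨0, Submodule.zero_mem _, by rw [h0, map_zero, map_zero]⟩
      · have e1 : m + 1 + 1 - k = 0 + 1 := by omega
        have e2 : m + 1 - k = 0 := by omega
        rw [e2] at hSm
        rw [e1]
        refine ⟨consL (base k) (mapL Prod.snd (Sop (sgs (cX k)) z)),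
          consL_mem_CK ?_ (hsnd hSm), ?_⟩
        · intro l hl _
          refine ⟨fun _ _ => trivial, ?_⟩
          rw [List.length_eq_zero_iff] at hl
          subst hl
          intro x hx y hy
          simp only [List.mem_singleton] at hx hy
          subst hx hy
          show dist _ _ < δ₁
          rw [dist_self]
          exact hδ₁
        · rw [bd_consL, bd_mapL, hbS, map_zero, map_zero, add_zero]
    · have e1 : m + 1 + 1 - k = (m - k) + 2 := by omega
      have e2 : m + 1 - k = (m - k) + 1 := by omega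
      rw [e2] at hSm
      rw [e1]
      refine H2 (m - k) _ (hsnd hSm) (by rw [bd_mapL, hbS, map_zero]) (fun hm => ?_)
      rw [mapL_Sop, hSY, augL_mapL]
      exact hk2 (by omega)

end Pool.Agent.TightEmb
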