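import Pool.Agent.TightEmb.SphereFill
import Pool.Agent.TightEmb.SphereCor

/-!
Cycles of degree larger than `k` in the complement of a point of a product of two spheres of
dimension `k` bound at a slightly larger scale (Mayer-Vietoris).
-/

set_option autoImplicit false

namespace Pool.Agent.TightEmb

open Finsupp

/-! ### pulling a punctured sphere to the antipode of the puncture -/

section pull

variable {k : ℕ}

/-- the straight line from `x` to the antipode of `p`. -/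
noncomputable def pv (p : Sp k) (s : ℝ) (x : Sp k) : EuclideanSpace ℝ (Fin (k+1)) :=
  (1 - s) • x.1 - s • p.1

lemma sp_norm (x : Sp k) : ‖x.1‖ = 1 := by
  have := x.2
  rw [mem_sphere_zero_iff_norm] at this
  exact this

lemma pv_ne {p x : Sp k} (hx : x ≠ p) {s : ℝ} (h0 : 0 ≤ s) (h1 : s ≤ 1) : pv p s x ≠ 0 := by
  intro h
  have h2 : (1 - s) • x.1 = s • p.1 := by
    rw [pv, sub_eq_zero] at h
    exact h
  have h3 := congrArg norm h2
  rw [norm_smul, norm_smul, sp_norm, sp_norm, mul_one, mul_one, Real.norm_eq_abs,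
    Real.norm_eq_abs, abs_of_nonneg h0, abs_of_nonneg (by linarith)] at h3
  have h4 : s = 1/2 := by linarith
  rw [h4] at h2
  have h5 : (1/2 : ℝ) • x.1 = (1/2 : ℝ) • p.1 := by
    convert h2 using 2
    norm_num
  apply hx
  apply Subtype.ext
  exact smul_right_injective _ (by norm_num : (1/2 : ℝ) ≠ 0) h5

open Classical in
/-- the normalized straight line from `x` to the antipode of `p`. -/
noncomputable def pull (p : Sp k) (s : ℝ) (x : Sp k) : Sp k :=
  if h : pv p s x = 0 then x else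
    ⟨‖pv p s x‖⁻¹ • pv p s x, by
      rw [mem_sphere_zero_iff_norm, norm_smul, norm_inv, norm_norm,
        inv_mul_cancel₀ (norm_ne_zero_iff.2 h)]⟩

lemma pull_val {p : Sp k} {s : ℝ} {x : Sp k} (h : pv p s x ≠ 0) :
    (pull p s x).1 = ‖pv p s x‖⁻¹ • pv p s x := by
  rw [pull, dif_neg h]

lemma pull_zero (p x : Sp k) : pull p 0 x = x := by
  have e : pv p 0 x = x.1 := by simp [pv]
  have h : pv p 0 x ≠ 0 := by
    rw [e]
    intro h
    have := sp_norm x
    rw [h, norm_zero] at this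
    norm_num at this
  apply Subtype.ext
  rw [pull_val h, e, sp_norm, inv_one, one_smul]

/-- the antipode. -/
noncomputable def anti (p : Sp k) : Sp k :=
  ⟨-p.1, by rw [mem_sphere_zero_iff_norm, norm_neg, sp_norm]⟩

lemma pull_one (p x : Sp k) : pull p 1 x = anti p := by
  have e : pv p 1 x = -p.1 := by simp [pv]
  have h : pv p 1 x ≠ 0 := by
    rw [e]
    intro h
    have := sp_norm p
    rw [neg_eq_zero] at h
    rw [h, norm_zero] at this
    norm_num at this
  apply Subtype.ext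
  rw [pull_val h, e, norm_neg, sp_norm, inv_one, one_smul]
  rfl

lemma dist_sq_sp (x p : Sp k) : dist x p ^ 2 = 2 - 2 * inner ℝ x.1 p.1 := by
  have : dist x p = ‖x.1 - p.1‖ := by
    rw [Subtype.dist_eq, dist_eq_norm]
  rw [this, norm_sub_sq_real, sp_norm, sp_norm]
  ring

lemma dist_anti (p : Sp k) : dist (anti p) p = 2 := by
  have h := dist_sq_sp (anti p) p
  have : inner ℝ (anti p).1 p.1 = -1 := by
    show inner ℝ (-p.1) p.1 = -1
    rw [inner_neg_left, real_inner_self_eq_norm_sq, sp_norm]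
    norm_num
  rw [this] at h
  have h2 : dist (anti p) p ^ 2 = 2 ^ 2 := by rw [h]; norm_num
  exact (pow_left_inj₀ dist_nonneg (by norm_num) (by norm_num)).1 h2

lemma pull_inner_le {p x : Sp k} {s : ℝ} (h0 : 0 ≤ s) (h1 : s ≤ 1) :
    inner ℝ (pull p s x).1 p.1 ≤ inner ℝ x.1 p.1 := by
  by_cases hv : pv p s x = 0
  · rw [pull, dif_pos hv]
  rw [pull_val hv]
  set c := inner ℝ x.1 p.1 with hc
  set N := ‖pv p s x‖ with hN
  have hN0 : 0 < N := norm_pos_iff.2 hv
  have hc1 : |c| ≤ 1 := by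
    have := abs_real_inner_le_norm x.1 p.1
    rw [sp_norm, sp_norm, mul_one] at this
    exact this
  have e1 : inner ℝ (pv p s x) p.1 = (1 - s) * c - s := by
    rw [pv, inner_sub_left, real_inner_smul_left, real_inner_smul_left,
      real_inner_self_eq_norm_sq, sp_norm, ← hc]
    ring
  have e2 : N ^ 2 = (1 - s) ^ 2 - 2 * s * (1 - s) * c + s ^ 2 := by
    rw [hN, pv, norm_sub_sq_real, norm_smul, norm_smul, sp_norm, sp_norm,
      real_inner_smul_left, real_inner_smul_right, ← hc, mul_one, mul_one, Real.norm_eq_abs,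
      Real.norm_eq_abs, sq_abs, sq_abs]
    ring
  rw [real_inner_smul_left, e1, inv_mul_le_iff₀ hN0]
  obtain ⟨hc2, hc3⟩ := abs_le.1 hc1
  rcases le_or_gt 0 c with h | h
  · rcases le_or_gt ((1 - s) * c - s) 0 with h2 | h2
    · exact h2.trans (mul_nonneg hN0.le h)
    · refine le_of_sq_le_sq ?_ (mul_nonneg hN0.le h)
      rw [mul_pow, e2]
      have h3 : 0 ≤ s * (1 - c ^ 2) * (2 * ((1 - s) * c - s) + s) := by
        have : 0 ≤ 1 - c ^ 2 := by nlinarith
        positivity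
      nlinarith
  · have hN1 : N ≤ 1 := by
      have := norm_sub_le ((1 - s) • x.1) (s • p.1)
      rw [norm_smul, norm_smul, sp_norm, sp_norm, mul_one, mul_one, Real.norm_eq_abs,
        Real.norm_eq_abs, abs_of_nonneg h0, abs_of_nonneg (by linarith)] at this
      rw [hN, pv]
      linarith
    nlinarith

lemma le_dist_pull {p x : Sp k} {s r : ℝ} (h0 : 0 ≤ s) (h1 : s ≤ 1) (h : r ≤ dist x p) :
    r ≤ dist (pull p s x) p := by
  refine h.trans ?_
  refine le_of_sq_le_sq ?_ dist_nonneg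
  rw [dist_sq_sp, dist_sq_sp]
  linarith [pull_inner_le (p := p) (x := x) h0 h1]

lemma pull_cont {r : ℝ} (hr : 0 < r) (p : Sp k) :
    ContinuousOn (fun q : ℝ × Sp k => pull p q.1 q.2) (Set.Icc 0 1 ×ˢ {x | r ≤ dist x p}) := by
  have hne : ∀ q ∈ (Set.Icc (0:ℝ) 1 ×ˢ {x : Sp k | r ≤ dist x p}), pv p q.1 q.2 ≠ 0 := by
    rintro ⟨s, x⟩ ⟨⟨h0, h1⟩, hx⟩
    refine pv_ne ?_ h0 h1
    rintro rfl
    have : r ≤ dist x x := hx
    rw [dist_self] at this
    linarith
  rw [Topology.IsInducing.subtypeVal.continuousOn_iff]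
  have hpv : Continuous (fun q : ℝ × Sp k => pv p q.1 q.2) := by
    unfold pv
    fun_prop
  refine ContinuousOn.congr (f := fun q : ℝ × Sp k => ‖pv p q.1 q.2‖⁻¹ • pv p q.1 q.2) ?_ ?_
  · refine ContinuousOn.smul (ContinuousOn.inv₀ hpv.norm.continuousOn ?_) hpv.continuousOn
    intro q hq
    exact norm_ne_zero_iff.2 (hne q hq)
  · intro q hq
    exact pull_val (hne q hq)

end pull

/-! ### algebra -/

/-- a constant chain of positive degree bounds. -/
lemma const_bds {V W : Type*} {P : List V → Prop} {P' : List W → Prop} (a : W)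
    (ha : ∀ l : List W, (∀ y ∈ l, y = a) → P' l) {z : Ch V} (hz : z ∈ CA P) (hb : bd z = 0) :
    Bds P' (mapL (fun _ => a) z) := by
  refine ⟨consL a (mapL (fun _ => a) z), ?_, ?_⟩
  · refine CA_induction (consL a ∘ₗ mapL (fun _ => a)) _ (fun l _ => ?_) hz
    rw [LinearMap.comp_apply, mapL_single, consL_single]
    refine single_mem_CA (ha _ ?_) 1
    intro y hy
    rw [List.mem_cons, List.mem_map] at hy
    rcases hy with rfl | ⟨_, _, rfl⟩ <;> rfl
  · rw [bd_consL, bd_mapL, hb, map_zero, map_zero, add_zero]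

lemma CK_inter {V : Type*} {P P' Q : List V → Prop} {n : ℕ} {z : Ch V} (h : z ∈ CK P n)
    (h' : z ∈ CK P' n) (hQ : ∀ l, P l → P' l → Q l) : z ∈ CK Q n := by
  rw [mem_CK] at h h' ⊢
  exact fun l hl => ⟨(h l hl).1, hQ l (h l hl).2 (h' l hl).2⟩

/-- the part of the product where the first coordinate is far from `p`. -/
def far1 {k : ℕ} (p : Sp k) (r : ℝ) : Set (Sp k × Sp k) := {x | r ≤ dist x.1 p}
/-- the part of the product where the second coordinate is far from `q`. -/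
def far2 {k : ℕ} (q : Sp k) (r : ℝ) : Set (Sp k × Sp k) := {x | r ≤ dist x.2 q}

lemma far1_closed {k : ℕ} (p : Sp k) (r : ℝ) : IsClosed (far1 p r) :=
  isClosed_le continuous_const (by fun_prop)

lemma far2_closed {k : ℕ} (q : Sp k) (r : ℝ) : IsClosed (far2 q r) :=
  isClosed_le continuous_const (by fun_prop)

/-- a cycle of degree larger than `k` in `far1` bounds. -/
lemma fill_far1 (k : ℕ) (p : Sp k) {r : ℝ} (hr : 0 < r) (hr2 : r ≤ 2) : ∀ ε > 0, ∃ δ > 0,
    ∀ m : ℕ, k < m → ∀ z ∈ CK (Sd (far1 p r) δ) (m + 1), bd z = 0 → Bds (Sd (far1 p r) ε) z := by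
  intro ε hε
  have hH : ContinuousOn (fun q : ℝ × (Sp k × Sp k) =>
      ((pull p q.1 q.2.1, q.2.2) : Sp k × Sp k)) (Set.Icc 0 1 ×ˢ far1 p r) := by
    refine ContinuousOn.prodMk ?_ (by fun_prop)
    refine (pull_cont hr p).comp (f := fun q : ℝ × (Sp k × Sp k) => (q.1, q.2.1))
      (by fun_prop) ?_
    rintro ⟨s, x⟩ ⟨h1, h2⟩
    exact ⟨h1, h2⟩
  obtain ⟨δ1, hδ1, h1⟩ := soft_homotopy (far1_closed p r).isCompact
    (fun s x => ((pull p s x.1, x.2) : Sp k × Sp k)) hH (B := far1 p r)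
    (fun s hs x hx => le_dist_pull hs.1 hs.2 hx) hε
  obtain ⟨δ2, hδ2, h2⟩ := fill_sphere k ε hε
  refine ⟨min δ1 δ2, lt_min hδ1 hδ2, fun m hm z hz hb => ?_⟩
  obtain ⟨y1, hy1, hy1b⟩ := h1 z (CA_mono (fun l hl => Sd_mono subset_rfl (min_le_left _ _) hl)
    (CK_le_CA hz)) hb
  obtain ⟨y2, hy2, hy2b⟩ := h2 m (mapL Prod.snd z) (by
      refine mapL_mem_CK (fun l _ hl => ⟨fun _ _ => trivial, ?_⟩) hz
      intro x hx y hy
      rw [List.mem_map] at hx hy
      obtain ⟨x', hx', rfl⟩ := hx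
      obtain ⟨y', hy', rfl⟩ := hy
      have := hl.2 x' hx' y' hy'
      have h3 : dist x' y' < min δ1 δ2 := this
      rw [Prod.dist_eq, max_lt_iff] at h3
      exact lt_of_lt_of_le h3.2 (min_le_right _ _))
    (by rw [bd_mapL, hb, map_zero]) (fun h => absurd h (by omega))
  refine ⟨y1 + mapL (fun y => (anti p, y)) y2, Submodule.add_mem _ hy1 ?_, ?_⟩
  · refine mapL_mem_CA (fun l hl => ⟨?_, ?_⟩) (CK_le_CA hy2)
    · intro x hx
      rw [List.mem_map] at hx
      obtain ⟨x', hx', rfl⟩ := hx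
      show r ≤ dist (anti p) p
      rw [dist_anti]
      exact hr2
    · intro x hx y hy
      rw [List.mem_map] at hx hy
      obtain ⟨x', hx', rfl⟩ := hx
      obtain ⟨y', hy', rfl⟩ := hy
      rw [Prod.dist_eq]
      simp only [dist_self]
      exact max_lt hε (hl.2 x' hx' y' hy')
  · rw [map_add, hy1b, bd_mapL, hy2b, mapL_mapL]
    have e0 : (fun x : Sp k × Sp k => ((pull p 0 x.1, x.2) : Sp k × Sp k)) = id := by
      funext x
      rw [pull_zero]; rfl
    have e1 : (fun x : Sp k × Sp k => ((pull p 1 x.1, x.2) : Sp k × Sp k)) =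
        (fun y => (anti p, y)) ∘ Prod.snd := by
      funext x
      rw [pull_one]; rfl
    rw [e0, e1, mapL_id, add_assoc, add_self', add_zero]

/-- a cycle of degree larger than `k` in `far2` bounds. -/
lemma fill_far2 (k : ℕ) (q : Sp k) {r : ℝ} (hr : 0 < r) (hr2 : r ≤ 2) : ∀ ε > 0, ∃ δ > 0,
    ∀ m : ℕ, k < m → ∀ z ∈ CK (Sd (far2 q r) δ) (m + 1), bd z = 0 → Bds (Sd (far2 q r) ε) z := by
  intro ε hε
  obtain ⟨δ, hδ, h⟩ := fill_far1 k q hr hr2 ε hε
  refine ⟨δ, hδ, fun m hm z hz hb => ?_⟩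
  have hsw : ∀ (A A' : Set (Sp k × Sp k)) (ρ : ℝ) (hA : ∀ x ∈ A, x.swap ∈ A') (l : List _),
      Sd A ρ l → Sd A' ρ (l.map Prod.swap) := by
    intro A A' ρ hA l hl
    refine ⟨?_, ?_⟩
    · intro x hx
      rw [List.mem_map] at hx
      obtain ⟨x', hx', rfl⟩ := hx
      exact hA _ (hl.1 _ hx')
    · intro x hx y hy
      rw [List.mem_map] at hx hy
      obtain ⟨x', hx', rfl⟩ := hx
      obtain ⟨y', hy', rfl⟩ := hy
      have : dist x' y' < ρ := hl.2 x' hx' y' hy'
      rw [Prod.dist_eq, max_lt_iff] at this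
      show dist x'.swap y'.swap < ρ
      rw [Prod.dist_eq, max_lt_iff]
      exact ⟨this.2, this.1⟩
  have h1 := h m hm (mapL Prod.swap z)
    (mapL_mem_CK (fun l _ hl => hsw (far2 q r) (far1 q r) δ (fun _ hx => hx) l hl) hz)
    (by rw [bd_mapL, hb, map_zero])
  have h2 := Bds.map (g := Prod.swap) (hsw (far1 q r) (far2 q r) ε (fun _ hx => hx)) h1
  rw [mapL_mapL, Prod.swap_swap_eq, mapL_id] at h2
  exact h2

/-- a cycle in `far1 ∩ far2` bounds there. -/
lemma fill_far12 (k : ℕ) (p q : Sp k) {r : ℝ} (hr : 0 < r) (hr2 : r ≤ 2) : ∀ ε > 0, ∃ δ > 0,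
    ∀ z ∈ CA (Sd (far1 p r ∩ far2 q r) δ), bd z = 0 → Bds (Sd (far1 p r ∩ far2 q r) ε) z := by
  intro ε hε
  have hH : ContinuousOn (fun t : ℝ × (Sp k × Sp k) =>
      ((pull p t.1 t.2.1, pull q t.1 t.2.2) : Sp k × Sp k))
      (Set.Icc 0 1 ×ˢ (far1 p r ∩ far2 q r)) := by
    refine ContinuousOn.prodMk ?_ ?_
    · refine (pull_cont hr p).comp (f := fun t : ℝ × (Sp k × Sp k) => (t.1, t.2.1))
        (by fun_prop) ?_
      rintro ⟨s, x⟩ ⟨h1, h2, h3⟩
      exact ⟨h1, h2⟩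
    · refine (pull_cont hr q).comp (f := fun t : ℝ × (Sp k × Sp k) => (t.1, t.2.2))
        (by fun_prop) ?_
      rintro ⟨s, x⟩ ⟨h1, h2, h3⟩
      exact ⟨h1, h3⟩
  obtain ⟨δ1, hδ1, h1⟩ := soft_homotopy
    ((far1_closed p r).isCompact.inter_right (far2_closed q r))
    (fun s x => ((pull p s x.1, pull q s x.2) : Sp k × Sp k)) hH
    (B := far1 p r ∩ far2 q r)
    (fun s hs x hx => ⟨le_dist_pull hs.1 hs.2 hx.1, le_dist_pull hs.1 hs.2 hx.2⟩) hε
  refine ⟨δ1, hδ1, fun z hz hb => ?_⟩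
  have hy := h1 z hz hb
  have e0 : (fun x : Sp k × Sp k => ((pull p 0 x.1, pull q 0 x.2) : Sp k × Sp k)) = id := by
    funext x
    rw [pull_zero, pull_zero]; rfl
  have e1 : (fun x : Sp k × Sp k => ((pull p 1 x.1, pull q 1 x.2) : Sp k × Sp k)) =
      fun _ => (anti p, anti q) := by
    funext x
    rw [pull_one, pull_one]
  have hc : Bds (Sd (far1 p r ∩ far2 q r) ε)
      (mapL (fun _ : Sp k × Sp k => ((anti p, anti q) : Sp k × Sp k)) z) := by
    refine const_bds _ (fun l hl => ⟨?_, ?_⟩) hz hb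
    · intro y hy
      rw [hl y hy]
      refine ⟨?_, ?_⟩
      · show r ≤ dist (anti p) p
        rw [dist_anti]; exact hr2
      · show r ≤ dist (anti q) q
        rw [dist_anti]; exact hr2
    · intro y hy y' hy'
      rw [hl y hy, hl y' hy', dist_self]
      exact hε
  rw [e0, e1, mapL_id] at hy
  have := Bds.add hy hc
  rwa [add_assoc, add_self', add_zero] at this

open Classical in
theorem fill_punct (k : ℕ) (hk : 1 ≤ k) (x0 : Sp k × Sp k) : ∀ r > 0, ∃ r' > 0, r' ≤ r ∧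
    ∀ ε > 0, ∃ δ > 0, ∀ m : ℕ, k < m →
    ∀ z ∈ CK (Sm {x : Sp k × Sp k | r ≤ dist x x0} (fun x y => dist x y < δ)) (m + 1), bd z = 0 →
    ∃ y ∈ CK (Sm {x : Sp k × Sp k | r' ≤ dist x x0} (fun x y => dist x y < ε)) (m + 2),
      bd y = z := by
  intro r hr
  obtain ⟨p, q⟩ := x0
  set ρ := min (r/2) 2 with hρ
  have hρ0 : 0 < ρ := lt_min (by positivity) (by norm_num)
  have hρ2 : ρ ≤ 2 := min_le_right _ _
  have hρr : ρ ≤ r/2 := min_le_left _ _
  refine ⟨ρ, hρ0, by linarith, ?_⟩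
  intro ε hε
  obtain ⟨δ1, hδ1, h1⟩ := fill_far1 k p hρ0 hρ2 ε hε
  obtain ⟨δ2, hδ2, h2⟩ := fill_far2 k q hρ0 hρ2 ε hε
  obtain ⟨δ3, hδ3, h3⟩ := fill_far12 k p q hρ0 hρ2 (min δ1 δ2) (lt_min hδ1 hδ2)
  set δ := min (min δ3 (r/2)) (min δ1 δ2) with hδ
  have hδ0 : 0 < δ := lt_min (lt_min hδ3 (by positivity)) (lt_min hδ1 hδ2)
  have hδr : δ ≤ r/2 := (min_le_left _ _).trans (min_le_right _ _)
  refine ⟨δ, hδ0, fun m hm z hz hb => ?_⟩
  set h : Sp k × Sp k → ZMod 2 := fun x => if r ≤ dist x.1 p then 1 else 0 with hh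
  have hz1 : mL h z ∈ CK (Sd (far1 p ρ) δ) (m + 1) := by
    refine mL_mem_of h ?_ hz
    intro x l hl hx
    have hx1 : r ≤ dist x.1 p := by
      by_contra hc
      exact hx (if_neg hc)
    refine ⟨fun y hy => ?_, hl.2⟩
    have hxy : dist x y < δ := hl.2 x (by simp) y hy
    rw [Prod.dist_eq, max_lt_iff] at hxy
    show ρ ≤ dist y.1 p
    have := dist_triangle x.1 y.1 p
    linarith [hxy.1]
  have hz2 : z + mL h z ∈ CK (Sd (far2 q ρ) δ) (m + 1) := by
    refine add_mL_mem_of h ?_ hz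
    intro x l hl hx
    have hx1 : ¬ r ≤ dist x.1 p := by
      intro hc
      exact hx (if_pos hc)
    have hx2 : r ≤ dist x.2 q := by
      have : r ≤ dist x (p, q) := hl.1 x (by simp)
      rw [Prod.dist_eq, le_max_iff] at this
      exact this.resolve_left hx1
    refine ⟨fun y hy => ?_, hl.2⟩
    have hxy : dist x y < δ := hl.2 x (by simp) y hy
    rw [Prod.dist_eq, max_lt_iff] at hxy
    show ρ ≤ dist y.2 q
    have := dist_triangle x.2 y.2 q
    linarith [hxy.2]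
  have hbe : bd (z + mL h z) = bd (mL h z) := by rw [map_add, hb, zero_add]
  have hc1 : bd (mL h z) ∈ CK (Sd (far1 p ρ) δ) m := bd_mem_CK (Sd_sub _ _) hz1
  have hc2 : bd (mL h z) ∈ CK (Sd (far2 q ρ) δ) m := by
    rw [← hbe]
    exact bd_mem_CK (Sd_sub _ _) hz2
  have hc : bd (mL h z) ∈ CK (Sd (far1 p ρ ∩ far2 q ρ) δ3) m :=
    CK_inter hc1 hc2 (fun l hl hl' => ⟨fun x hx => ⟨hl.1 x hx, hl'.1 x hx⟩,
      fun x hx y hy => lt_of_lt_of_le (hl.2 x hx y hy)
        ((min_le_left _ _).trans (min_le_left _ _))⟩)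
  obtain ⟨w, hw, hwb⟩ := Bds.pure hc (h3 _ (CK_le_CA hc) (bd_bd _))
  have a1 : mL h z + w ∈ CK (Sd (far1 p ρ) δ1) (m + 1) := by
    refine Submodule.add_mem _ (CK_mono (fun l hl => Sd_mono subset_rfl ?_ hl) _ hz1)
      (CK_mono (fun l hl => Sd_mono Set.inter_subset_left (min_le_left _ _) hl) _ hw)
    exact (min_le_right _ _).trans (min_le_left _ _)
  have a2 : (z + mL h z) + w ∈ CK (Sd (far2 q ρ) δ2) (m + 1) := by
    refine Submodule.add_mem _ (CK_mono (fun l hl => Sd_mono subset_rfl ?_ hl) _ hz2)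
      (CK_mono (fun l hl => Sd_mono Set.inter_subset_right (min_le_right _ _) hl) _ hw)
    exact (min_le_right _ _).trans (min_le_right _ _)
  have b1 := h1 m hm _ a1 (by rw [map_add, hwb, add_self'])
  have b2 := h2 m hm _ a2 (by rw [map_add, hbe, hwb, add_self'])
  have b3 : Bds (Sd {x : Sp k × Sp k | ρ ≤ dist x (p, q)} ε)
      ((mL h z + w) + ((z + mL h z) + w)) := by
    refine Bds.add (Bds.mono (fun l hl => Sd_mono ?_ le_rfl hl) b1)
      (Bds.mono (fun l hl => Sd_mono ?_ le_rfl hl) b2)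
    · intro x hx
      show ρ ≤ dist x (p, q)
      rw [Prod.dist_eq]
      exact le_max_of_le_left hx
    · intro x hx
      show ρ ≤ dist x (p, q)
      rw [Prod.dist_eq]
      exact le_max_of_le_right hx
  have e : (mL h z + w) + ((z + mL h z) + w) = z := by
    abel_nf
    simp only [two_zs, zero_add]
  rw [e] at b3
  exact Bds.pure hz b3

end Pool.Agent.TightEmb
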