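import Pool.Agent.TightEmb.Index
import Pool.Agent.TightEmb.Bridge
import Pool.Agent.TightEmb.Punct

/-!
Setting: a centrally symmetric tight substantial embedding of a product of two spheres.
-/

set_option linter.unusedSimpArgs false

namespace Pool.Agent.TightEmb

open Finsupp

/-- product of two spheres. -/
abbrev MM (k : ℕ) := Sp k × Sp k

/-- a centrally symmetric (with centre the origin), tight, nondegenerate embedding. -/
structure Emb (k n : ℕ) where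
  g : MM k → EuclideanSpace ℝ (Fin (n + 1))
  hk : 1 ≤ k
  cont : Continuous g
  inj : Function.Injective g
  sym : ∀ x, ∃ y, g y = - g x
  nd : ∀ u : Sp n, ∃ x, inner ℝ u.1 (g x) ≠ 0
  tight : ∀ (u : Sp n) (t : ℝ) (m : ℕ),
    Function.Injective (cechMap (Subtype.val : {x : MM k | t ≤ inner ℝ u.1 (g x)} → MM k)
      continuous_subtype_val m)

namespace Emb

variable {k n : ℕ} (F : Emb k n)

/-- the involution. -/
noncomputable def τ (x : MM k) : MM k := (F.sym x).choose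

lemma gτ (x : MM k) : F.g (F.τ x) = - F.g x := (F.sym x).choose_spec

lemma ττ (x : MM k) : F.τ (F.τ x) = x := F.inj (by rw [gτ, gτ, neg_neg])

/-- closeness in the image. -/
def Dl (s : ℝ) (x y : MM k) : Prop := ‖F.g x - F.g y‖ < s

lemma Dl_τ {s : ℝ} {x y : MM k} (h : F.Dl s x y) : F.Dl s (F.τ x) (F.τ y) := by
  unfold Dl at h ⊢
  rw [gτ, gτ]
  have : -F.g x - -F.g y = -(F.g x - F.g y) := by abel
  rw [this, norm_neg]
  exact h

lemma Dl_mono {s t : ℝ} (h : s ≤ t) {x y : MM k} (hs : F.Dl s x y) : F.Dl t x y :=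
  lt_of_lt_of_le hs h

instance sph_nonempty (k : ℕ) : Nonempty (Sp k) :=
  (NormedSpace.sphere_nonempty (E := EuclideanSpace ℝ (Fin (k + 1)))).2 zero_le_one |>.to_subtype

lemma unif1 : ∀ ε > 0, ∃ δ > 0, ∀ x y : MM k, dist x y < δ → F.Dl ε x y := by
  intro ε hε
  have h := CompactSpace.uniformContinuous_of_continuous F.cont
  rw [Metric.uniformContinuous_iff] at h
  obtain ⟨δ, hδ, h⟩ := h ε hε
  refine ⟨δ, hδ, fun x y hxy => ?_⟩
  have := h hxy
  rwa [dist_eq_norm] at this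

/-- a positive continuous function on a compact set of pairs is bounded below. -/
lemma unif2 : ∀ ε > 0, ∃ δ > 0, ∀ x y : MM k, F.Dl δ x y → dist x y < ε := by
  intro ε hε
  by_contra hcon
  push Not at hcon
  have hK : IsCompact {p : MM k × MM k | ε ≤ dist p.1 p.2} :=
    (isClosed_le continuous_const (continuous_fst.dist continuous_snd)).isCompact
  by_cases hne : ({p : MM k × MM k | ε ≤ dist p.1 p.2}).Nonempty
  · obtain ⟨p, hp, hmin⟩ := hK.exists_isMinOn hne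
      (f := fun p : MM k × MM k => ‖F.g p.1 - F.g p.2‖)
      ((F.cont.comp continuous_fst).sub (F.cont.comp continuous_snd)).norm.continuousOn
    have hpos : 0 < ‖F.g p.1 - F.g p.2‖ := by
      rw [norm_pos_iff, sub_ne_zero]
      intro he
      have := F.inj he
      have hp' : ε ≤ dist p.1 p.2 := hp
      rw [this, dist_self] at hp'
      linarith
    obtain ⟨x, y, hxy, hd⟩ := hcon _ hpos
    have := hmin (show (x, y) ∈ {p : MM k × MM k | ε ≤ dist p.1 p.2} from hd)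
    simp only [Set.mem_ofPred_eq] at this
    unfold Dl at hxy
    exact absurd hxy (not_lt.2 this)
  · obtain ⟨x, y, hxy, hd⟩ := hcon 1 one_pos
    exact hne ⟨(x, y), hd⟩

/-- bound for the embedding. -/
lemma exists_R : ∃ R : ℝ, 0 < R ∧ ∀ x, ‖F.g x‖ ≤ R := by
  obtain ⟨x, -, hx⟩ := isCompact_univ.exists_isMaxOn (s := (Set.univ : Set (MM k)))
    Set.univ_nonempty (f := fun x => ‖F.g x‖) F.cont.norm.continuousOn
  exact ⟨‖F.g x‖ + 1, by positivity, fun y => by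
    have := hx (Set.mem_univ y)
    simp only [Set.mem_ofPred_eq] at this
    linarith⟩

/-- the bound. -/
noncomputable def R : ℝ := F.exists_R.choose

lemma R_pos : 0 < F.R := F.exists_R.choose_spec.1
lemma g_le (x : MM k) : ‖F.g x‖ ≤ F.R := F.exists_R.choose_spec.2 x

/-- height function. -/
noncomputable def ht (u : Sp n) (x : MM k) : ℝ := inner ℝ u.1 (F.g x)

lemma ht_cont (u : Sp n) : Continuous (F.ht u) := by
  unfold ht
  exact continuous_const.inner F.cont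

lemma ht_τ (u : Sp n) (x : MM k) : F.ht u (F.τ x) = - F.ht u x := by
  unfold ht
  rw [gτ, inner_neg_right]

lemma ht_neg (u : Sp n) (x : MM k) : F.ht (-u) x = - F.ht u x := by
  unfold ht
  have : (-u : Sp n).1 = -u.1 := rfl
  rw [this, inner_neg_left]

lemma ht_lip (u v : Sp n) (x : MM k) : |F.ht u x - F.ht v x| ≤ F.R * dist u v := by
  unfold ht
  rw [← inner_sub_left]
  calc |inner ℝ (u.1 - v.1) (F.g x)| ≤ ‖u.1 - v.1‖ * ‖F.g x‖ := abs_real_inner_le_norm _ _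
    _ ≤ dist u v * F.R := by
        rw [Subtype.dist_eq, dist_eq_norm]
        exact mul_le_mul_of_nonneg_left (F.g_le x) (norm_nonneg _)
    _ = F.R * dist u v := mul_comm _ _

lemma exists_max (u : Sp n) : ∃ x, ∀ y, F.ht u y ≤ F.ht u x := by
  obtain ⟨x, -, hx⟩ := isCompact_univ.exists_isMaxOn (s := (Set.univ : Set (MM k)))
    Set.univ_nonempty (f := F.ht u) (F.ht_cont u).continuousOn
  exact ⟨x, fun y => hx (Set.mem_univ y)⟩

/-- a highest point. -/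
noncomputable def top (u : Sp n) : MM k := (F.exists_max u).choose

/-- maximal height. -/
noncomputable def m (u : Sp n) : ℝ := F.ht u (F.top u)

lemma le_m (u : Sp n) (x : MM k) : F.ht u x ≤ F.m u := (F.exists_max u).choose_spec x

lemma m_neg (u : Sp n) : F.m (-u) = F.m u := by
  apply le_antisymm
  · have : F.m (-u) = F.ht u (F.τ (F.top (-u))) := by
      rw [ht_τ, ← ht_neg]; rfl
    rw [this]; exact F.le_m _ _
  · have : F.m u = F.ht (-u) (F.τ (F.top u)) := by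
      rw [ht_τ, ht_neg, neg_neg]; rfl
    rw [this]; exact F.le_m _ _

lemma m_lip (u v : Sp n) : |F.m u - F.m v| ≤ F.R * dist u v := by
  rw [abs_le]
  constructor
  · have h1 := F.ht_lip u v (F.top v)
    have h2 := F.le_m u (F.top v)
    have h3 := (abs_le.1 h1).1
    have h4 : F.ht v (F.top v) = F.m v := rfl
    linarith
  · have h1 := F.ht_lip u v (F.top u)
    have h2 := F.le_m v (F.top u)
    have h3 := (abs_le.1 h1).2
    have h4 : F.ht u (F.top u) = F.m u := rfl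
    linarith

lemma m_pos (u : Sp n) : 0 < F.m u := by
  obtain ⟨x, hx⟩ := F.nd u
  have h1 := F.le_m u x
  have h2 := F.le_m u (F.τ x)
  rw [ht_τ] at h2
  have hx' : F.ht u x ≠ 0 := hx
  rcases lt_or_gt_of_ne hx' with h | h <;> linarith

lemma m_cont : Continuous F.m := by
  rw [Metric.continuous_iff]
  intro u ε hε
  refine ⟨ε / F.R, div_pos hε F.R_pos, fun v hv => ?_⟩
  rw [Real.dist_eq]
  refine lt_of_le_of_lt (F.m_lip v u) ?_
  rw [lt_div_iff₀ F.R_pos] at hv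
  linarith

lemma exists_m0 : ∃ c : ℝ, 0 < c ∧ ∀ u, c ≤ F.m u := by
  obtain ⟨u, -, hu⟩ := isCompact_univ.exists_isMinOn (s := (Set.univ : Set (Sp n)))
    Set.univ_nonempty (f := F.m) F.m_cont.continuousOn
  exact ⟨F.m u, F.m_pos u, fun v => hu (Set.mem_univ v)⟩

/-- uniform lower bound for the maximal heights. -/
noncomputable def m0 : ℝ := F.exists_m0.choose

lemma m0_pos : 0 < F.m0 := F.exists_m0.choose_spec.1
lemma m0_le (u : Sp n) : F.m0 ≤ F.m u := F.exists_m0.choose_spec.2 u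

/-- top regions. -/
def Reg (t : ℝ) (u : Sp n) : Set (MM k) := {x | F.m u - t ≤ F.ht u x}

lemma Reg_mono {t t' : ℝ} (h : t ≤ t') (u : Sp n) : F.Reg t u ⊆ F.Reg t' u := by
  intro x hx
  have : F.m u - t ≤ F.ht u x := hx
  show F.m u - t' ≤ F.ht u x
  linarith

lemma Reg_move {t t' : ℝ} {u v : Sp n} (h : 2 * F.R * dist u v ≤ t' - t) :
    F.Reg t u ⊆ F.Reg t' v := by
  intro x hx
  have h1 : F.m u - t ≤ F.ht u x := hx
  have h2 := (abs_le.1 (F.ht_lip u v x)).2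
  have h3 := (abs_le.1 (F.m_lip u v)).1
  show F.m v - t' ≤ F.ht v x
  linarith

lemma Reg_τ {t : ℝ} {u : Sp n} {x : MM k} (hx : x ∈ F.Reg t u) : F.τ x ∈ F.Reg t (-u) := by
  have h1 : F.m u - t ≤ F.ht u x := hx
  show F.m (-u) - t ≤ F.ht (-u) (F.τ x)
  rw [m_neg, ht_neg, ht_τ, neg_neg]
  exact h1

lemma Reg_closed (t : ℝ) (u : Sp n) : IsClosed (F.Reg t u) :=
  isClosed_le continuous_const (F.ht_cont u)

lemma Reg_norm {t : ℝ} (hth : t ≤ F.m0 / 2) {u : Sp n} {x : MM k} (hx : x ∈ F.Reg t u) :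
    F.m0 / 2 ≤ ‖F.g x‖ := by
  have h1 : F.m u - t ≤ F.ht u x := hx
  have h2 := F.m0_le u
  have h3 : F.ht u x ≤ ‖F.g x‖ := by
    unfold ht
    calc inner ℝ u.1 (F.g x) ≤ ‖u.1‖ * ‖F.g x‖ := real_inner_le_norm _ _
      _ = ‖F.g x‖ := by
        have : ‖u.1‖ = 1 := by simp
        rw [this, one_mul]
  linarith

/-- separation of regions in nearly opposite directions. -/
lemma Reg_sep {t : ℝ} {u v : Sp n} (h : 2 * t + F.R * dist v (-u) ≤ 3 / 2 * F.m0) {x y : MM k}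
    (hx : x ∈ F.Reg t u) (hy : y ∈ F.Reg t v) : ¬ F.Dl (F.m0 / 2) x y := by
  have h1 : F.m u - t ≤ F.ht u x := hx
  have h2 : F.m v - t ≤ F.ht v y := hy
  have h3 := F.m0_le u
  have h4 := F.m0_le v
  have h5 := (abs_le.1 (F.ht_lip v (-u) y)).2
  rw [ht_neg] at h5
  have h6 : F.ht u x - F.ht u y ≤ ‖F.g x - F.g y‖ := by
    unfold ht
    rw [← inner_sub_right]
    calc inner ℝ u.1 (F.g x - F.g y) ≤ ‖u.1‖ * ‖F.g x - F.g y‖ := real_inner_le_norm _ _
      _ = ‖F.g x - F.g y‖ := by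
        have : ‖u.1‖ = 1 := by simp
        rw [this, one_mul]
  unfold Dl
  rw [not_lt]
  linarith

/-! ### coordinates -/

lemma cX_sum (x : MM k) : ∑ a, cX k a x ^ 2 = 1 := by
  have h : ‖x.1.1‖ = 1 := by simp
  have h2 := EuclideanSpace.norm_eq x.1.1
  rw [h] at h2
  have h3 : (1 : ℝ) = ∑ i, ‖x.1.1 i‖ ^ 2 := by
    have := congrArg (· ^ 2) h2
    simp only [one_pow] at this
    rw [this, Real.sq_sqrt (Finset.sum_nonneg fun i _ => sq_nonneg _)]
  rw [h3]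
  apply Finset.sum_congr rfl
  intro a _
  rw [Real.norm_eq_abs, sq_abs]
  rfl

lemma cY_sum (x : MM k) : ∑ a, cY k a x ^ 2 = 1 := cX_sum (k := k) (x.2, x.1)

lemma coord_le {j : ℕ} (x y : Sp j) (a : Fin (j + 1)) : |x.1 a - y.1 a| ≤ dist x y := by
  rw [Subtype.dist_eq, dist_eq_norm]
  have := EuclideanSpace.norm_eq (x.1 - y.1)
  rw [this, ← Real.sqrt_sq_eq_abs]
  apply Real.sqrt_le_sqrt
  have h : (x.1 a - y.1 a) ^ 2 = ‖(x.1 - y.1) a‖ ^ 2 := by
    rw [Real.norm_eq_abs, sq_abs]; rfl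
  rw [h]
  exact Finset.single_le_sum (f := fun i => ‖(x.1 - y.1) i‖ ^ 2) (fun i _ => sq_nonneg _)
    (Finset.mem_univ a)

lemma dist_le_coord {j : ℕ} (x y : Sp j) {ρ : ℝ} (hρ : 0 < ρ) (h : ∀ a, |x.1 a - y.1 a| < ρ) :
    dist x y ≤ ((j : ℝ) + 1) * ρ := by
  have hj : (0 : ℝ) ≤ (j : ℝ) := by positivity
  rw [Subtype.dist_eq, dist_eq_norm, EuclideanSpace.norm_eq]
  apply Real.sqrt_le_iff.2
  refine ⟨by positivity, ?_⟩
  calc ∑ i, ‖(x.1 - y.1) i‖ ^ 2 ≤ ∑ i : Fin (j + 1), ρ ^ 2 := by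
        apply Finset.sum_le_sum
        intro i _
        have h1 : ‖(x.1 - y.1) i‖ = |x.1 i - y.1 i| := by rw [Real.norm_eq_abs]; rfl
        rw [h1]
        exact pow_le_pow_left₀ (abs_nonneg _) (h i).le 2
    _ = ((j : ℝ) + 1) * ρ ^ 2 := by simp
    _ ≤ (((j : ℝ) + 1) * ρ) ^ 2 := by
        rw [mul_pow]
        apply mul_le_mul_of_nonneg_right _ (sq_nonneg ρ)
        nlinarith

lemma unif3 : ∀ δ > 0, ∃ s > 0, ∀ x y : MM k, F.Dl s x y → Dc (cX k) (cY k) δ x y := by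
  intro δ hδ
  obtain ⟨s, hs, h⟩ := F.unif2 δ hδ
  refine ⟨s, hs, fun x y hxy a => ?_⟩
  have h1 := h x y hxy
  rw [Prod.dist_eq, max_lt_iff] at h1
  exact ⟨lt_of_le_of_lt (coord_le x.1 y.1 a) h1.1, lt_of_le_of_lt (coord_le x.2 y.2 a) h1.2⟩

lemma unif4 : ∀ c > 0, ∃ ρ > 0, ∀ x y : MM k, ¬ F.Dl c x y →
    ∃ a, ρ ≤ |cX k a x - cX k a y| ∨ ρ ≤ |cY k a x - cY k a y| := by
  intro c hc
  obtain ⟨δ, hδ, h⟩ := F.unif1 c hc
  have hk : (0 : ℝ) ≤ (k : ℝ) := by positivity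
  refine ⟨δ / (2 * ((k : ℝ) + 1)), by positivity, fun x y hxy => ?_⟩
  by_contra hcon
  push Not at hcon
  apply hxy
  apply h
  have hρ : 0 < δ / (2 * ((k : ℝ) + 1)) := by positivity
  have e : ((k : ℝ) + 1) * (δ / (2 * ((k : ℝ) + 1))) = δ / 2 := by field_simp
  rw [Prod.dist_eq, max_lt_iff]
  constructor
  · have := dist_le_coord x.1 y.1 hρ (fun a => (hcon a).1)
    linarith
  · have := dist_le_coord x.2 y.2 hρ (fun a => (hcon a).2)
    linarith

/-! ### filling in the manifold -/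

lemma fillV : ∀ ε > 0, ∃ δ > 0, ∀ m : ℕ, m ≤ 2 * k →
    ∀ z ∈ CK (Sm Set.univ (F.Dl δ)) (m + 1), bd z = 0 →
    (m = k → augL (Sop (sgs (cX k)) z) = 0 ∧ augL (Sop (sgs (cY k)) z) = 0) →
    (m = 2 * k → augL (Sop (sgs (cY k)) (Sop (sgs (cX k)) z)) = 0) →
    ∃ y ∈ CK (Sm Set.univ (F.Dl ε)) (m + 2), bd y = z := by
  intro ε hε
  obtain ⟨ε', hε', h1⟩ := F.unif1 ε hε
  obtain ⟨δ', hδ', h2⟩ := fill_M k F.hk ε' hε'
  obtain ⟨δ, hδ, h3⟩ := F.unif2 δ' hδ'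
  refine ⟨δ, hδ, fun m hm z hz hc c1 c2 => ?_⟩
  obtain ⟨y, hy, hyz⟩ := h2 m z (CK_mono (fun l hl => Sm_mono subset_rfl (fun x y => h3 x y) hl) _ hz)
    hc c1 c2
  exact ⟨y, CK_mono (fun l hl => Sm_mono subset_rfl (fun x y => h1 x y) hl) _ hy, hyz⟩

/-- consequence of tightness. -/
lemma bridge1 (u : Sp n) (t : ℝ) (m : ℕ) : ∀ ε > 0, ∃ δ > 0,
    ∀ z ∈ CK (Sm (F.Reg t u) (F.Dl δ)) (m + 1),
      (∃ y ∈ CK (Sm Set.univ (F.Dl δ)) (m + 2), bd y = z) →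
      ∃ y ∈ CK (Sm (F.Reg t u) (F.Dl ε)) (m + 2), bd y = z := by
  intro ε hε
  obtain ⟨ε', hε', h1⟩ := F.unif1 ε hε
  obtain ⟨δ', hδ', h2⟩ := cech_PI (F.Reg t u) (F.Reg_closed t u) m
    (F.tight u (F.m u - t) m) ε' hε'
  obtain ⟨δ, hδ, h3⟩ := F.unif2 δ' hδ'
  refine ⟨δ, hδ, fun z hz hb => ?_⟩
  obtain ⟨y, hy, hyz⟩ := h2 z (CK_mono (fun l hl => Sm_mono subset_rfl (fun x y => h3 x y) hl) _ hz)
    (by
      obtain ⟨y, hy, hyz⟩ := hb
      exact ⟨y, CK_mono (fun l hl => Sm_mono subset_rfl (fun x y => h3 x y) hl) _ hy, hyz⟩)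
  exact ⟨y, CK_mono (fun l hl => Sm_mono subset_rfl (fun x y => h1 x y) hl) _ hy, hyz⟩

lemma bridge (u : Sp n) (t : ℝ) (M : ℕ) : ∀ ε > 0, ∃ δ > 0, ∀ m : ℕ, m ≤ M →
    ∀ z ∈ CK (Sm (F.Reg t u) (F.Dl δ)) (m + 1),
      (∃ y ∈ CK (Sm Set.univ (F.Dl δ)) (m + 2), bd y = z) →
      ∃ y ∈ CK (Sm (F.Reg t u) (F.Dl ε)) (m + 2), bd y = z := by
  intro ε hε
  induction M with
  | zero =>
    obtain ⟨δ, hδ, h⟩ := F.bridge1 u t 0 ε hε
    refine ⟨δ, hδ, fun m hm => ?_⟩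
    have : m = 0 := by omega
    subst this
    exact h
  | succ M ih =>
    obtain ⟨δ, hδ, h⟩ := ih
    obtain ⟨δ', hδ', h'⟩ := F.bridge1 u t (M + 1) ε hε
    refine ⟨min δ δ', lt_min hδ hδ', fun m hm z hz hb => ?_⟩
    have key : ∀ δ'', min δ δ' ≤ δ'' → z ∈ CK (Sm (F.Reg t u) (F.Dl δ'')) (m + 1) ∧
        ∃ y ∈ CK (Sm Set.univ (F.Dl δ'')) (m + 2), bd y = z := by
      intro δ'' hδ''
      refine ⟨CK_mono (fun l hl => Sm_mono subset_rfl (fun x y => F.Dl_mono hδ'') hl) _ hz, ?_⟩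
      obtain ⟨y, hy, hyz⟩ := hb
      exact ⟨y, CK_mono (fun l hl => Sm_mono subset_rfl (fun x y => F.Dl_mono hδ'') hl) _ hy, hyz⟩
    rcases Nat.lt_or_ge m (M + 1) with hm' | hm'
    · exact h m (by omega) z (key δ (min_le_left _ _)).1 (key δ (min_le_left _ _)).2
    · have : m = M + 1 := by omega
      subst this
      exact h' z (key δ' (min_le_right _ _)).1 (key δ' (min_le_right _ _)).2

/-- uniform version over all directions. -/
lemma bridgeU {t t' : ℝ} (htt : t < t') (M : ℕ) : ∀ ε > 0, ∃ δ > 0, ∀ u : Sp n, ∀ m : ℕ, m ≤ M →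
    ∀ z ∈ CK (Sm (F.Reg t u) (F.Dl δ)) (m + 1),
      (∃ y ∈ CK (Sm Set.univ (F.Dl δ)) (m + 2), bd y = z) →
      ∃ y ∈ CK (Sm (F.Reg t' u) (F.Dl ε)) (m + 2), bd y = z := by
  intro ε hε
  have hR := F.R_pos
  have key := isCompact_univ.induction_on (s := (Set.univ : Set (Sp n)))
    (p := fun S => ∃ δ > 0, ∀ u ∈ S, ∀ m : ℕ, m ≤ M →
      ∀ z ∈ CK (Sm (F.Reg t u) (F.Dl δ)) (m + 1),
      (∃ y ∈ CK (Sm Set.univ (F.Dl δ)) (m + 2), bd y = z) →
      ∃ y ∈ CK (Sm (F.Reg t' u) (F.Dl ε)) (m + 2), bd y = z)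
    ⟨1, one_pos, fun u hu => absurd hu (Set.notMem_empty u)⟩
    (fun S S' hSS' ⟨δ, hδ, h⟩ => ⟨δ, hδ, fun u hu => h u (hSS' hu)⟩)
    (fun S S' ⟨δ, hδ, h⟩ ⟨δ', hδ', h'⟩ => by
      refine ⟨min δ δ', lt_min hδ hδ', fun u hu m hm z hz hb => ?_⟩
      have key : ∀ δ'', min δ δ' ≤ δ'' → z ∈ CK (Sm (F.Reg t u) (F.Dl δ'')) (m + 1) ∧
          ∃ y ∈ CK (Sm Set.univ (F.Dl δ'')) (m + 2), bd y = z := by
        intro δ'' hδ''
        refine ⟨CK_mono (fun l hl => Sm_mono subset_rfl (fun x y => F.Dl_mono hδ'') hl) _ hz, ?_⟩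
        obtain ⟨y, hy, hyz⟩ := hb
        exact ⟨y, CK_mono (fun l hl => Sm_mono subset_rfl (fun x y => F.Dl_mono hδ'') hl) _ hy,
          hyz⟩
      rcases hu with hu | hu
      · exact h u hu m hm z (key δ (min_le_left _ _)).1 (key δ (min_le_left _ _)).2
      · exact h' u hu m hm z (key δ' (min_le_right _ _)).1 (key δ' (min_le_right _ _)).2)
    (fun v _ => by
      obtain ⟨δ, hδ, h⟩ := F.bridge v ((t + t') / 2) M ε hε
      have hr : 0 < (t' - t) / (4 * F.R) := div_pos (by linarith) (by linarith)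
      refine ⟨Metric.ball v ((t' - t) / (4 * F.R)),
        mem_nhdsWithin_of_mem_nhds (Metric.ball_mem_nhds v hr),
        δ, hδ, fun u hu m hm z hz hb => ?_⟩
      have hd : 4 * F.R * dist u v < t' - t := by
        have : dist u v < (t' - t) / (4 * F.R) := hu
        rw [lt_div_iff₀ (by linarith)] at this
        linarith
      have s1 : F.Reg t u ⊆ F.Reg ((t + t') / 2) v := F.Reg_move (by linarith)
      have s2 : F.Reg ((t + t') / 2) v ⊆ F.Reg t' u := F.Reg_move (by rw [dist_comm]; linarith)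
      obtain ⟨y, hy, hyz⟩ := h m hm z (CK_mono (fun l hl => Sm_mono s1 (fun _ _ h => h) hl) _ hz) hb
      exact ⟨y, CK_mono (fun l hl => Sm_mono s2 (fun _ _ h => h) hl) _ hy, hyz⟩)
  obtain ⟨δ, hδ, h⟩ := key
  exact ⟨δ, hδ, fun u => h u (Set.mem_univ u)⟩

/-! ### constants for the isotropy relation -/

lemma exists_rho : ∃ ρ : ℝ, 0 < ρ ∧ ρ ≤ 1 ∧ ∀ x y : MM k, ¬ F.Dl (F.m0 / 2) x y →
    ∃ a, ρ ≤ |cX k a x - cX k a y| ∨ ρ ≤ |cY k a x - cY k a y| := by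
  obtain ⟨ρ, hρ, h⟩ := F.unif4 (F.m0 / 2) (by linarith [F.m0_pos])
  refine ⟨min ρ 1, lt_min hρ one_pos, min_le_right _ _, fun x y hxy => ?_⟩
  obtain ⟨a, ha | ha⟩ := h x y hxy
  · exact ⟨a, Or.inl ((min_le_left _ _).trans ha)⟩
  · exact ⟨a, Or.inr ((min_le_left _ _).trans ha)⟩

/-- separation constant. -/
noncomputable def rho : ℝ := F.exists_rho.choose
lemma rho_pos : 0 < F.rho := F.exists_rho.choose_spec.1
lemma rho_le : F.rho ≤ 1 := F.exists_rho.choose_spec.2.1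
lemma rho_sep {x y : MM k} (h : ¬ F.Dl (F.m0 / 2) x y) :
    ∃ a, F.rho ≤ |cX k a x - cX k a y| ∨ F.rho ≤ |cY k a x - cY k a y| :=
  F.exists_rho.choose_spec.2.2 x y h

/-- coordinate scale. -/
noncomputable def del : ℝ := F.rho / (64 * ((k : ℝ) + 1))
lemma del_pos : 0 < F.del := by
  have := F.rho_pos
  unfold del
  positivity

/-- scale at which the isotropy relation holds. -/
noncomputable def s0 : ℝ := (F.unif3 F.del F.del_pos).choose
lemma s0_pos : 0 < F.s0 := (F.unif3 F.del F.del_pos).choose_spec.1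
lemma s0_Dc {x y : MM k} (h : F.Dl F.s0 x y) : Dc (cX k) (cY k) F.del x y :=
  (F.unif3 F.del F.del_pos).choose_spec.2 x y h

lemma s0_Dc' {s : ℝ} (hs : s ≤ F.s0) {x y : MM k} (h : F.Dl s x y) :
    Dc (cX k) (cY k) F.del x y := F.s0_Dc (F.Dl_mono hs h)

/-- isotropy relation for cycles in opposite regions. -/
lemma iso {s : ℝ} (hs : s ≤ F.s0) {t : ℝ} {u v : Sp n}
    (h : 2 * t + F.R * dist v (-u) ≤ 3 / 2 * F.m0) {z w : Ch (MM k)}
    (hz : z ∈ CK (Sm (F.Reg t u) (F.Dl s)) (k + 1)) (hw : w ∈ CK (Sm (F.Reg t v) (F.Dl s)) (k + 1))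
    (cz : bd z = 0) (cw : bd w = 0) :
    augL (Sop (sgs (cY k)) z) * augL (Sop (sgs (cX k)) w) +
      augL (Sop (sgs (cX k)) z) * augL (Sop (sgs (cY k)) w) = 0 := by
  refine iso_kk F.hk (cX k) (cY k) (cX_sum (k := k)) (cY_sum (k := k)) F.rho_pos F.rho_le
    (δ := F.del) rfl (A := F.Reg t u) (B := F.Reg t v) ?_ ?_ ?_ cz cw
  · intro x hx y hy
    exact F.rho_sep (F.Reg_sep h hx hy)
  · exact CK_mono (fun l hl => Sm_mono subset_rfl (fun x y => F.s0_Dc' hs) hl) _ hz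
  · exact CK_mono (fun l hl => Sm_mono subset_rfl (fun x y => F.s0_Dc' hs) hl) _ hw

/-- vanishing of the degree. -/
lemma top_zero {s : ℝ} (hs : s ≤ F.s0) {t : ℝ} (ht0 : 0 ≤ t) (ht1 : t ≤ F.m0 / 2) {u : Sp n}
    {z : Ch (MM k)} (hz : z ∈ CK (Sm (F.Reg t u) (F.Dl s)) (2 * k + 1)) (cz : bd z = 0) :
    augL (Sop (sgs (cY k)) (Sop (sgs (cX k)) z)) = 0 := by
  refine iso_top F.hk (cY k) (cX k) (cY_sum (k := k)) (cX_sum (k := k)) F.rho_pos F.rho_le
    (δ := F.del) rfl (A := F.Reg t u) (F.top (-u)) ?_ ?_ cz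
  · intro x hx
    have htop : F.top (-u) ∈ F.Reg t (-u) := by
      show F.m (-u) - t ≤ F.ht (-u) (F.top (-u))
      have : F.m (-u) = F.ht (-u) (F.top (-u)) := rfl
      linarith
    have hm := F.m0_pos
    obtain ⟨a, ha⟩ := F.rho_sep (F.Reg_sep (t := t) (u := u) (v := -u) (by
      rw [dist_self, mul_zero]; linarith) hx htop)
    exact ⟨a, ha.symm⟩
  · exact CK_mono (fun l hl => Sm_mono subset_rfl
      (fun x y h a => (F.s0_Dc' hs h a).symm) hl) _ hz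

/-- filling in regions. -/
theorem fillR {t t' : ℝ} (ht0 : 0 ≤ t) (ht1 : t ≤ F.m0 / 2) (htt : t < t') :
    ∀ ε > 0, ∃ δ > 0, δ ≤ ε ∧ ∀ u : Sp n, ∀ m : ℕ, m ≤ 2 * k →
      ∀ z ∈ CK (Sm (F.Reg t u) (F.Dl δ)) (m + 1), bd z = 0 →
      (m = k → augL (Sop (sgs (cX k)) z) = 0 ∧ augL (Sop (sgs (cY k)) z) = 0) →
      ∃ y ∈ CK (Sm (F.Reg t' u) (F.Dl ε)) (m + 2), bd y = z := by
  intro ε hε
  obtain ⟨δ₁, hδ₁, h1⟩ := F.bridgeU htt (2 * k) ε hε
  obtain ⟨δ₂, hδ₂, h2⟩ := F.fillV δ₁ hδ₁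
  refine ⟨min (min δ₁ δ₂) (min F.s0 ε), ?_, ?_, ?_⟩
  · exact lt_min (lt_min hδ₁ hδ₂) (lt_min F.s0_pos hε)
  · exact (min_le_right _ _).trans (min_le_right _ _)
  · intro u m hm z hz hc hmk
    have l1 : min (min δ₁ δ₂) (min F.s0 ε) ≤ δ₁ := (min_le_left _ _).trans (min_le_left _ _)
    have l2 : min (min δ₁ δ₂) (min F.s0 ε) ≤ δ₂ := (min_le_left _ _).trans (min_le_right _ _)
    have l3 : min (min δ₁ δ₂) (min F.s0 ε) ≤ F.s0 := (min_le_right _ _).trans (min_le_left _ _)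
    refine h1 u m hm z (CK_mono (fun l hl => Sm_mono subset_rfl (fun _ _ => F.Dl_mono l1) hl) _ hz)
      (h2 m hm z (CK_mono (fun l hl => Sm_mono (Set.subset_univ _)
        (fun _ _ => F.Dl_mono l2) hl) _ hz) hc hmk ?_)
    intro hm2
    subst hm2
    exact F.top_zero l3 ht0 ht1 hz hc

end Emb

end Pool.Agent.TightEmb
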