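import Pool.Agent.TightEmb.Emb

/-!
Towers: extension, absence in the manifold, absence over the parts of the sphere of directions.
-/

set_option linter.unusedSimpArgs false

namespace Pool.Agent.TightEmb

open Finsupp

/-- choosing scales backwards. -/
lemma back_rec (J : ℕ) (Q : ℕ → ℝ → ℝ → Prop) (h : ∀ n < J, ∀ ε > 0, ∃ δ > 0, Q n δ ε) (ε₀ : ℝ)
    (hε₀ : 0 < ε₀) : ∃ e : ℕ → ℝ, (∀ n, 0 < e n) ∧ e J = ε₀ ∧ ∀ n < J, Q n (e n) (e (n + 1)) := by
  induction J generalizing ε₀ with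
  | zero => exact ⟨fun _ => ε₀, fun _ => hε₀, rfl, fun n hn => absurd hn (by omega)⟩
  | succ J ih =>
    obtain ⟨δ, hδ, hQ⟩ := h J (by omega) ε₀ hε₀
    obtain ⟨e, e1, e2, e3⟩ := ih (fun n hn => h n (by omega)) δ hδ
    refine ⟨fun n => if n ≤ J then e n else ε₀, fun n => ?_, by simp, fun n hn => ?_⟩
    · simp only
      split_ifs
      · exact e1 n
      · exact hε₀
    · simp only
      rcases Nat.lt_or_ge n J with h' | h'
      · rw [if_pos (by omega), if_pos (by omega)]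
        exact e3 n h'
      · have : n = J := by omega
        subst this
        rw [if_pos le_rfl, if_neg (by omega), e2]
        exact hQ

section ext

variable {V : Type*}

lemma mapL_CK0 {P : List V → Prop} (T : V → V) {z : Ch V} (hz : z ∈ CK P 0) : mapL T z = z := by
  refine CK_eq (mapL T) LinearMap.id (fun l h1 _ => ?_) hz
  have : l = [] := List.eq_nil_of_length_eq_zero h1
  subst this
  simp

lemma tow_cycle {T : V → V} (hT : ∀ v, T (T v) = v) {P : List V → Prop} (hP : SubClosed P)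
    {m : ℕ} {b : ℕ → Ch V} (hb : LTow T P m b) : bd (b m + mapL T (b m)) = 0 := by
  rw [map_add, bd_mapL]
  cases m with
  | zero =>
    rw [mapL_CK0 T (bd_mem_CK hP (hb.mem 0 le_rfl)), add_self']
  | succ m =>
    have hTT : mapL T (mapL T (b m)) = b m := (lInv T hT).tt (b m)
    rw [hb.bdry m (by omega), map_add, hTT, add_comm (mapL T (b m)), add_self']

lemma extend_one {T : V → V} (hT : ∀ v, T (T v) = v) {P P' : List V → Prop} (hP : SubClosed P)
    (hPT : ∀ l, P l → P (l.map T)) (hPP' : ∀ l, P l → P' l) {m : ℕ}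
    (fill : ∀ z ∈ CK P (m + 1), bd z = 0 → ∃ y ∈ CK P' (m + 2), bd y = z)
    (h : HasTow T P m) : HasTow T P' (m + 1) := by
  obtain ⟨b, hb, hb0⟩ := h
  obtain ⟨y, hy, hyz⟩ := fill (b m + mapL T (b m))
    (Submodule.add_mem _ (hb.mem m le_rfl)
      (mapL_mem_CK (fun l _ hl => hPT l hl) (hb.mem m le_rfl))) (tow_cycle hT hP hb)
  refine ⟨fun j => if j ≤ m then b j else y, ⟨fun j hj => ?_, fun j hj => ?_⟩, ?_⟩
  · split_ifs with h
    · exact CK_mono hPP' _ (hb.mem j h)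
    · have : j = m + 1 := by omega
      subst this
      exact hy
  · rcases Nat.lt_or_ge j m with h' | h'
    · rw [if_pos (by omega), if_pos (by omega)]
      exact hb.bdry j h'
    · have : j = m := by omega
      subst this
      rw [if_pos le_rfl, if_neg (by omega)]
      exact hyz
  · simp only
    rw [if_pos (by omega)]
    exact hb0

end ext

/-- towers on the sphere. -/
lemma sphere_tower (n r : ℕ) (hr : r ≤ n) : ∀ η > 0,
    HasTow (fun u : Sp n => -u) (Sm Set.univ (Nr (Sp n) η)) r := by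
  induction r with
  | zero =>
    intro η hη
    obtain ⟨u⟩ := Emb.sph_nonempty n
    refine ⟨fun _ => single [u] 1, ⟨fun j hj => ?_, fun j hj => absurd hj (by omega)⟩, by simp⟩
    have : j = 0 := by omega
    subst this
    refine single_mem_CK rfl ⟨fun _ _ => trivial, ?_⟩ 1
    intro x hx y hy
    rw [List.mem_singleton] at hx hy
    subst hx; subst hy
    exact (dist_self _).trans_lt hη
  | succ r ih =>
    intro η hη
    obtain ⟨δ, hδ, h⟩ := fill_sphere n η hη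
    refine extend_one (fun u => neg_neg u) (P := Sm Set.univ (Nr (Sp n) (min δ η)))
      (Sm_subClosed _ _) ?_ ?_ ?_ (ih (by omega) (min δ η) (lt_min hδ hη))
    · intro l hl
      refine ⟨fun _ _ => trivial, ?_⟩
      intro x hx y hy
      rw [List.mem_map] at hx hy
      obtain ⟨x', hx', rfl⟩ := hx
      obtain ⟨y', hy', rfl⟩ := hy
      show dist (-x') (-y') < _
      rw [Subtype.dist_eq]
      have : dist (-x' : Sp n).1 (-y' : Sp n).1 = dist x'.1 y'.1 := dist_neg_neg _ _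
      rw [this]
      exact hl.2 _ hx' _ hy'
    · intro l hl
      exact Sm_mono subset_rfl (fun x y h => lt_of_lt_of_le h (min_le_right _ _)) hl
    · intro z hz hc
      refine h r z (CK_mono (fun l hl => Sm_mono subset_rfl
        (fun x y h => lt_of_lt_of_le h (min_le_left _ _)) hl) _ hz) hc ?_
      intro hh; omega

namespace Emb

variable {k n : ℕ} (F : Emb k n)

/-- points at distance at least `s` from the centre. -/
def Om (s : ℝ) : Set (MM k) := {x | s ≤ ‖F.g x‖}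

lemma Om_τ {s : ℝ} {x : MM k} (hx : x ∈ F.Om s) : F.τ x ∈ F.Om s := by
  show s ≤ ‖F.g (F.τ x)‖
  rw [gτ, norm_neg]; exact hx

lemma Sm_τ {Ω : Set (MM k)} (hΩ : ∀ x ∈ Ω, F.τ x ∈ Ω) {s : ℝ} {l : List (MM k)}
    (hl : Sm Ω (F.Dl s) l) : Sm Ω (F.Dl s) (l.map F.τ) := by
  refine ⟨fun x hx => ?_, fun x hx y hy => ?_⟩
  · rw [List.mem_map] at hx
    obtain ⟨x', hx', rfl⟩ := hx
    exact hΩ _ (hl.1 _ hx')
  · rw [List.mem_map] at hx hy
    obtain ⟨x', hx', rfl⟩ := hx
    obtain ⟨y', hy', rfl⟩ := hy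
    exact F.Dl_τ (hl.2 _ hx' _ hy')

/-- filling above the middle dimension away from the centre. -/
lemma fillOm : ∀ s > 0, ∃ s' > 0, ∀ ε > 0, ∃ δ > 0, ∀ m : ℕ, k < m → m < 2 * k →
    ∀ z ∈ CK (Sm (F.Om s) (F.Dl δ)) (m + 1), bd z = 0 →
    ∃ y ∈ CK (Sm (F.Om s') (F.Dl ε)) (m + 2), bd y = z := by
  intro s hs
  by_cases hx : ∃ x0, F.g x0 = 0
  · obtain ⟨x0, hx0⟩ := hx
    obtain ⟨r, hr, h1⟩ := F.unif1 s hs
    obtain ⟨r', hr', -, h2⟩ := fill_punct k F.hk x0 r hr
    obtain ⟨s', hs', h3⟩ := F.unif2 r' hr'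
    refine ⟨s', hs', fun ε hε => ?_⟩
    obtain ⟨ε', hε', h4⟩ := F.unif1 ε hε
    obtain ⟨δ', hδ', h5⟩ := h2 ε' hε'
    obtain ⟨δ, hδ, h6⟩ := F.unif2 δ' hδ'
    refine ⟨δ, hδ, fun m hm1 _ z hz hc => ?_⟩
    have sub1 : F.Om s ⊆ {x : MM k | r ≤ dist x x0} := by
      intro x hx
      show r ≤ dist x x0
      by_contra hcon
      push Not at hcon
      have := h1 x x0 hcon
      unfold Dl at this
      rw [hx0, sub_zero] at this
      exact absurd this (not_lt.2 hx)
    have sub2 : {x : MM k | r' ≤ dist x x0} ⊆ F.Om s' := by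
      intro x hx
      show s' ≤ ‖F.g x‖
      by_contra hcon
      push Not at hcon
      have : dist x x0 < r' := h3 x x0 (by unfold Dl; rw [hx0, sub_zero]; exact hcon)
      exact absurd this (not_lt.2 hx)
    obtain ⟨y, hy, hyz⟩ := h5 m hm1 z
      (CK_mono (fun l hl => Sm_mono sub1 (fun x y => h6 x y) hl) _ hz) hc
    exact ⟨y, CK_mono (fun l hl => Sm_mono sub2 (fun x y => h4 x y) hl) _ hy, hyz⟩
  · push Not at hx
    obtain ⟨x, -, hmin⟩ := isCompact_univ.exists_isMinOn (s := (Set.univ : Set (MM k)))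
      Set.univ_nonempty (f := fun x => ‖F.g x‖) F.cont.norm.continuousOn
    refine ⟨‖F.g x‖, norm_pos_iff.2 (hx x), fun ε hε => ?_⟩
    obtain ⟨δ, hδ, h⟩ := F.fillV ε hε
    refine ⟨δ, hδ, fun m hm1 hm2 z hz hc => ?_⟩
    obtain ⟨y, hy, hyz⟩ := h m (by omega) z (CK_mono (fun l hl => Sm_mono (Set.subset_univ _)
      (fun _ _ h => h) hl) _ hz) hc (fun h => by omega) (fun h => by omega)
    refine ⟨y, CK_mono (fun l hl => Sm_mono ?_ (fun _ _ h => h) hl) _ hy, hyz⟩
    intro y _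
    exact hmin (Set.mem_univ y)

lemma ext_tower (r : ℕ) (hr : k + 1 + r ≤ 2 * k) : ∃ s > 0, ∀ ε > 0, ∃ δ > 0,
    HasTow F.τ (Sm (F.Om (F.m0 / 2)) (F.Dl δ)) (k + 1) →
    HasTow F.τ (Sm (F.Om s) (F.Dl ε)) (k + 1 + r) := by
  induction r with
  | zero => exact ⟨F.m0 / 2, by linarith [F.m0_pos], fun ε hε => ⟨ε, hε, fun h => h⟩⟩
  | succ r ih =>
    obtain ⟨s, hs, h⟩ := ih (by omega)
    obtain ⟨s', hs', h'⟩ := F.fillOm s hs
    refine ⟨min s s', lt_min hs hs', fun ε hε => ?_⟩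
    obtain ⟨δ₁, hδ₁, h1⟩ := h' ε hε
    obtain ⟨δ, hδ, h2⟩ := h (min δ₁ ε) (lt_min hδ₁ hε)
    refine ⟨δ, hδ, fun hT => ?_⟩
    refine extend_one F.ττ (P := Sm (F.Om s) (F.Dl (min δ₁ ε))) (Sm_subClosed _ _) ?_ ?_ ?_ (h2 hT)
    · exact fun l hl => F.Sm_τ (fun x hx => F.Om_τ hx) hl
    · intro l hl
      refine Sm_mono ?_ (fun x y => F.Dl_mono (min_le_right _ _)) hl
      exact fun x hx => le_trans (min_le_left s s') (show s ≤ ‖F.g x‖ from hx)
    · intro z hz hc
      obtain ⟨y, hy, hyz⟩ := h1 (k + 1 + r) (by omega) (by omega) z (CK_mono (fun l hl =>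
        Sm_mono subset_rfl (fun x y => F.Dl_mono (min_le_left _ _)) hl) _ hz) hc
      refine ⟨y, CK_mono (fun l hl => Sm_mono ?_ (fun _ _ h => h) hl) _ hy, hyz⟩
      exact fun x hx => le_trans (min_le_right s s') (show s' ≤ ‖F.g x‖ from hx)

/-- there are no towers of length `k+1` away from the centre. -/
theorem noTowV : ∃ ε > 0, ¬ HasTow F.τ (Sm (F.Om (F.m0 / 2)) (F.Dl ε)) (k + 1) := by
  have hk := F.hk
  obtain ⟨s, hs, h⟩ : ∃ s > 0, ∀ ε > 0, ∃ δ > 0,
      HasTow F.τ (Sm (F.Om (F.m0 / 2)) (F.Dl δ)) (k + 1) →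
      HasTow F.τ (Sm (F.Om s) (F.Dl ε)) (2 * k) := by
    rcases Nat.lt_or_ge k 2 with hk2 | hk2
    · have hk1 : k = 1 := by omega
      refine ⟨F.m0 / 2, by linarith [F.m0_pos], fun ε hε => ⟨ε, hε, fun h => ?_⟩⟩
      have : 2 * k = k + 1 := by omega
      rw [this]; exact h
    · obtain ⟨s, hs, h⟩ := F.ext_tower (k - 1) (by omega)
      refine ⟨s, hs, fun ε hε => ?_⟩
      obtain ⟨δ, hδ, h'⟩ := h ε hε
      refine ⟨δ, hδ, fun hT => ?_⟩
      have : 2 * k = k + 1 + (k - 1) := by omega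
      rw [this]; exact h' hT
  obtain ⟨ρ', hρ', hsep⟩ := F.unif4 s hs
  set ρ := min ρ' (1 / (2 * ((k : ℝ) + 1))) with hρ
  have hρ0 : 0 < ρ := lt_min hρ' (by positivity)
  set δ : ℝ := ρ / (64 * ((k : ℝ) + 1)) with hδ
  have hδ0 : 0 < δ := by positivity
  obtain ⟨ε₂, hε₂, h2⟩ := F.unif3 δ hδ0
  obtain ⟨ε₁', hε₁', h1⟩ := F.fillV ε₂ hε₂
  set ε₁ := min ε₁' ε₂ with hε₁
  have hε₁0 : 0 < ε₁ := lt_min hε₁' hε₂
  have I : ISet (cX k) (cY k) F.τ (F.Om s) (F.Dl ε₁) ρ δ := by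
    refine ⟨hk, cX_sum (k := k), cY_sum (k := k), F.ττ, fun x hx => F.Om_τ hx,
      fun x y h => F.Dl_τ h, fun x y h => h2 x y (F.Dl_mono (min_le_right _ _) h), hρ0,
      min_le_right _ _, hδ, ?_⟩
    intro x hx
    have hnd : ¬ F.Dl s x (F.τ x) := by
      unfold Dl
      rw [gτ, sub_neg_eq_add, ← two_smul ℝ, norm_smul, not_lt]
      have : s ≤ ‖F.g x‖ := hx
      norm_num
      linarith
    obtain ⟨a, ha | ha⟩ := hsep x _ hnd
    · exact ⟨a, Or.inl ((min_le_left _ _).trans ha)⟩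
    · exact ⟨a, Or.inr ((min_le_left _ _).trans ha)⟩
  have key := I.index (D' := F.Dl ε₂) (fun x y h => h2 x y h)
    (fun z hz hc a1 a2 => h1 k (by omega) z (CK_mono (fun l hl => Sm_mono subset_rfl
      (fun x y => F.Dl_mono (min_le_left _ _)) hl) _ hz) hc (fun _ => ⟨a1, a2⟩)
      (fun h => by omega))
    (fun x y h => F.Dl_τ h)
  obtain ⟨δ', hδ', h3⟩ := h ε₁ hε₁0
  exact ⟨δ', hδ', fun hT => key (h3 hT)⟩

/-- there is a middle dimensional cycle near the top with value one. -/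
def Pv (Z : Fin (k + 1) → MM k → ℝ) (t s : ℝ) (u : Sp n) : Prop :=
  ∃ z ∈ CK (Sm (F.Reg t u) (F.Dl s)) (k + 1), bd z = 0 ∧ augL (Sop (sgs Z) z) = 1

lemma Pv_mono {Z : Fin (k + 1) → MM k → ℝ} {t t' s s' : ℝ} (ht : t ≤ t') (hs : s ≤ s') {u : Sp n}
    (h : F.Pv Z t s u) : F.Pv Z t' s' u := by
  obtain ⟨z, hz, h1, h2⟩ := h
  exact ⟨z, CK_mono (fun l hl => Sm_mono (F.Reg_mono ht u) (fun x y => F.Dl_mono hs) hl) _ hz,
    h1, h2⟩

lemma Pv_move {Z : Fin (k + 1) → MM k → ℝ} {t t' s : ℝ} {u v : Sp n}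
    (h : 2 * F.R * dist u v ≤ t' - t) (hP : F.Pv Z t s u) : F.Pv Z t' s v := by
  obtain ⟨z, hz, h1, h2⟩ := hP
  exact ⟨z, CK_mono (fun l hl => Sm_mono (F.Reg_move h) (fun _ _ h => h) hl) _ hz, h1, h2⟩

/-- directions without middle dimensional cycles. -/
def D3 (t s : ℝ) : Set (Sp n) := {u | ¬ F.Pv (cX k) t s u ∧ ¬ F.Pv (cY k) t s u}

lemma neg_dist (u v : Sp n) : dist (-u) (-v) = dist u v := by
  rw [Subtype.dist_eq, Subtype.dist_eq]
  exact dist_neg_neg _ _

lemma neg_ne (u : Sp n) : -u ≠ u := by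
  intro h
  have h1 : -u.1 = u.1 := congrArg Subtype.val h
  have h2 : u.1 = 0 := by
    have h4 : (2 : ℝ) • u.1 = 0 := by
      rw [two_smul]
      nth_rewrite 1 [← h1]
      exact neg_add_cancel _
    rcases smul_eq_zero.1 h4 with h5 | h5
    · norm_num at h5
    · exact h5
  have h3 : ‖u.1‖ = 1 := by simp
  rw [h2, norm_zero] at h3
  exact zero_ne_one h3

/-- an odd function on the sphere. -/
noncomputable def hodd (n : ℕ) : Sp n → ZMod 2 := osgn (fun u => -u) (fun u => u.1 0)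

lemma hodd_odd (u : Sp n) : hodd n (-u) = hodd n u + 1 :=
  osgn_odd (fun u => -u) (fun u : Sp n => u.1 0) u (neg_neg u) (neg_ne u) rfl

lemma hodd_iff (u : Sp n) : u ∈ {u : Sp n | hodd n u = 1} ↔ -u ∉ {u : Sp n | hodd n u = 1} := by
  simp only [Set.mem_ofPred_eq, hodd_odd]
  rcases zmod2_cases (hodd n u) with h1 | h1 <;> rw [h1] <;> decide

/-- no towers over `D3`. -/
theorem noTowD3 {tb s : ℝ} (hinv : ∀ u ∈ F.D3 tb s, -u ∈ F.D3 tb s) (htb : 0 < tb)
    (htb1 : tb ≤ F.m0 / 2) (hs : 0 < s) :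
    ∃ η > 0, ¬ HasTow (fun u : Sp n => -u) (Sm (F.D3 tb s) (Nr (Sp n) η)) (k + 1) := by
  classical
  have hR := F.R_pos
  have hk0 : (0 : ℝ) ≤ (k : ℝ) := by positivity
  obtain ⟨ε₀, hε₀, hno⟩ := F.noTowV
  set c : ℝ := tb / (2 * ((k : ℝ) + 3)) with hc
  have hc0 : 0 < c := by positivity
  have hck : 2 * ((k : ℝ) + 3) * c = tb := by rw [hc]; field_simp
  set t : ℕ → ℝ := fun j => c * (2 * j) with ht
  have ht0 : ∀ j, 0 ≤ t j := fun j => by rw [ht]; positivity
  have htle : ∀ j, j ≤ k + 1 → t j + c ≤ tb := by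
    intro j hj
    have : (j : ℝ) ≤ (k : ℝ) + 1 := by exact_mod_cast hj
    rw [ht]
    simp only
    nlinarith
  obtain ⟨e, e1, e2, e3⟩ := back_rec (k + 1)
    (fun j δ ε => δ ≤ ε ∧ δ ≤ s ∧ ∀ u : Sp n, ∀ m : ℕ, m ≤ 2 * k →
      ∀ z ∈ CK (Sm (F.Reg (t j + c) u) (F.Dl δ)) (m + 1), bd z = 0 →
      (m = k → augL (Sop (sgs (cX k)) z) = 0 ∧ augL (Sop (sgs (cY k)) z) = 0) →
      ∃ y ∈ CK (Sm (F.Reg (t (j + 1)) u) (F.Dl ε)) (m + 2), bd y = z)
    (by
      intro j hj ε hε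
      obtain ⟨δ, hδ, h1, h2⟩ := F.fillR (t := t j + c) (t' := t (j + 1))
        (by linarith [ht0 j]) (by linarith [htle j hj.le]) (by
          rw [ht]; simp only; push_cast; nlinarith) ε hε
      refine ⟨min δ s, lt_min hδ hs, (min_le_left _ _).trans h1, min_le_right _ _, ?_⟩
      intro u m hm z hz hc hv
      exact h2 u m hm z (CK_mono (fun l hl => Sm_mono subset_rfl
        (fun x y => F.Dl_mono (min_le_left _ _)) hl) _ hz) hc hv) ε₀ hε₀
  have emono : ∀ j, j ≤ k + 1 → e j ≤ ε₀ := by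
    intro j hj
    have : ∀ i, i ≤ k + 1 → e (k + 1 - i) ≤ ε₀ := by
      intro i
      induction i with
      | zero => intro _; rw [Nat.sub_zero, e2]
      | succ i ih =>
        intro hi
        have h1 := (e3 (k + 1 - (i + 1)) (by omega)).1
        have h2 : k + 1 - (i + 1) + 1 = k + 1 - i := by omega
        rw [h2] at h1
        exact h1.trans (ih (by omega))
    have h1 := this (k + 1 - j) (by omega)
    have h2 : k + 1 - (k + 1 - j) = j := by omega
    rwa [h2] at h1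
  set η : ℝ := c / (2 * F.R) with hη
  have hη0 : 0 < η := by positivity
  have hηR : 2 * F.R * η = c := by rw [hη]; field_simp
  refine ⟨η, hη0, ?_⟩
  rintro ⟨b, hb, hb0⟩
  obtain ⟨Φ, Φ1, Φ2, Φ3, Φ4, Φ5⟩ := gcl (U := Sp n) (Q := Ch (MM k)) bd augL (single [] 1)
    (fun u => -u) (fun u => neg_neg u) (mapL F.τ)
    (fun z => (lInv F.τ F.ττ).tt z) (fun z => (bd_mapL F.τ z).symm) (augL_mapL F.τ)
    (by rw [mapL_single]; rfl) (Sm (F.D3 tb s) (Nr (Sp n) η)) (Sm_subClosed _ _)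
    (by
      intro l hl
      refine ⟨fun x hx => ?_, fun x hx y hy => ?_⟩
      · rw [List.mem_map] at hx
        obtain ⟨x', hx', rfl⟩ := hx
        exact hinv _ (hl.1 _ hx')
      · rw [List.mem_map] at hx hy
        obtain ⟨x', hx', rfl⟩ := hx
        obtain ⟨y', hy', rfl⟩ := hy
        show dist (-x') (-y') < η
        rw [neg_dist]
        exact hl.2 _ hx' _ hy')
    {u | hodd n u = 1} (Or.inr (fun u _ => hodd_iff u))
    (fun j u => CK (Sm (F.Reg (t j) u) (F.Dl (e j))) (j + 1))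
    (by
      intro j u z hz
      refine mapL_mem_CK (fun l _ hl => ⟨?_, ?_⟩) hz
      · intro x hx
        rw [List.mem_map] at hx
        obtain ⟨x', hx', rfl⟩ := hx
        exact F.Reg_τ (hl.1 _ hx')
      · intro x hx y hy
        rw [List.mem_map] at hx hy
        obtain ⟨x', hx', rfl⟩ := hx
        obtain ⟨y', hy', rfl⟩ := hy
        exact F.Dl_τ (hl.2 _ hx' _ hy'))
    (by
      intro u _
      refine ⟨single [F.top u] 1, ?_, by rw [bd_single_cons]; simp, by simp⟩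
      refine single_mem_CK rfl ⟨?_, ?_⟩ 1
      · intro x hx
        rw [List.mem_singleton] at hx
        subst hx
        show F.m u - t 0 ≤ F.ht u (F.top u)
        have h1 : F.m u = F.ht u (F.top u) := rfl
        have := ht0 0
        linarith
      · intro x hx y hy
        rw [List.mem_singleton] at hx hy
        subst hx; subst hy
        show ‖_ - _‖ < e 0
        rw [sub_self, norm_zero]
        exact e1 0)
    (k + 1)
    (by
      intro j hj u l hl hlen z hz hdz _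
      have hu : u ∈ F.D3 tb s := hl.1 u (by simp)
      have hz' : z ∈ CK (Sm (F.Reg (t j + c) u) (F.Dl (e j))) (j + 1) := by
        refine (iSup₂_le (fun v hv => ?_) : (⨆ v ∈ {v | v ∈ u :: l},
          CK (Sm (F.Reg (t j) v) (F.Dl (e j))) (j + 1)) ≤
          CK (Sm (F.Reg (t j + c) u) (F.Dl (e j))) (j + 1)) hz
        have hvu : dist v u < η := hl.2 v hv u (by simp)
        refine CK_mono (fun l hl => Sm_mono (F.Reg_move ?_) (fun _ _ h => h) hl) _
        have : 2 * F.R * dist v u ≤ 2 * F.R * η := by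
          apply mul_le_mul_of_nonneg_left hvu.le (by linarith)
        linarith
      obtain ⟨h1, h2, h3⟩ := e3 j hj
      refine h3 u j (by have := F.hk; omega) z hz' hdz ?_
      intro hjk
      subst hjk
      have hz'' : z ∈ CK (Sm (F.Reg tb u) (F.Dl s)) (j + 1) :=
        CK_mono (fun l hl => Sm_mono (F.Reg_mono (htle j (by omega)) u)
          (fun x y => F.Dl_mono h2) hl) _ hz'
      constructor
      · rcases zmod2_cases (augL (Sop (sgs (cX j)) z)) with h | h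
        · exact h
        · exact absurd ⟨z, hz'', hdz, h⟩ hu.1
      · rcases zmod2_cases (augL (Sop (sgs (cY j)) z)) with h | h
        · exact h
        · exact absurd ⟨z, hz'', hdz, h⟩ hu.2)
  have Φ5' := Φ5 (fun u _ => hodd_iff u)
  apply hno
  refine ⟨fun j => Φ (b j), ⟨fun j hj => ?_, fun j hj => ?_⟩, ?_⟩
  · refine CK_induction Φ _ (fun l h1 h2 => ?_) (hb.mem j hj)
    rcases l with _ | ⟨u, l⟩
    · simp at h1
    have h3 := Φ2 j hj u l h2 (by simpa using h1)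
    refine CK_mono (fun l hl => Sm_mono ?_ (fun x y => F.Dl_mono (emono j hj)) hl) _ h3
    intro x hx
    refine F.Reg_norm (t := t j) ?_ hx
    linarith [htle j hj]
  · show bd (Φ (b (j + 1))) = Φ (b j) + mapL F.τ (Φ (b j))
    rw [Φ3 (j + 1) (by omega) _ (hb.mem (j + 1) (by omega)), hb.bdry j hj, map_add,
      Φ5' j (by omega) _ (hb.mem j (by omega))]
  · show augL (Φ (b 0)) = 1
    rw [← hb0]
    refine CK_eq (augL ∘ₗ Φ) augL (fun l h1 h2 => ?_) (hb.mem 0 (by omega))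
    obtain ⟨u, rfl⟩ : ∃ u, l = [u] := List.length_eq_one_iff.1 h1
    rw [LinearMap.comp_apply, Φ4 u h2, augL_single_one]

end Emb

end Pool.Agent.TightEmb
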