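import Pool.Agent.TightEmb.Prod

/-!
Index lemma: no long towers for involutions of products of two spheres.
-/

set_option linter.unusedSimpArgs false

namespace Pool.Agent.TightEmb

open Finsupp

namespace Invol

variable {V Q : Type*} [AddCommGroup Q] [Module (ZMod 2) Q] {C : SC V Q} (I : Invol C)

/-- transfer of an operator. -/
def tr (f : Q →ₗ[ZMod 2] Q) : Q →ₗ[ZMod 2] Q := f + I.t ∘ₗ f ∘ₗ I.t

lemma tr_apply (f : Q →ₗ[ZMod 2] Q) (z : Q) : I.tr f z = f z + I.t (f (I.t z)) := rfl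

lemma tr_t (f : Q →ₗ[ZMod 2] Q) (z : Q) : I.tr f (I.t z) = I.t (I.tr f z) := by
  rw [tr_apply, tr_apply, map_add, I.tt, I.tt, add_comm]

lemma image_TT (A : Set V) : I.T '' (I.T '' A) = A := by
  ext x
  constructor
  · rintro ⟨_, ⟨y, hy, rfl⟩, rfl⟩
    rwa [I.TT]
  · intro hx
    exact ⟨I.T x, ⟨x, hx, rfl⟩, I.TT x⟩

lemma t_mem' {n : ℕ} {A : Set V} {z : Q} (hz : z ∈ C.gr n (I.T '' A)) : I.t z ∈ C.gr n A := by
  have := I.t_mem hz
  rwa [I.image_TT] at this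

lemma tr_loc0 {k : ℕ} {f : Q →ₗ[ZMod 2] Q} (hf : C.Loc0 k f) : C.Loc0 k (I.tr f) := by
  intro n m A z h hz
  exact Submodule.add_mem _ (hf n m A z h hz) (I.t_mem' (hf n m _ _ h (I.t_mem hz)))

lemma tr_loc1 {k : ℕ} {f : Q →ₗ[ZMod 2] Q} (hf : C.Loc1 k f) : C.Loc1 k (I.tr f) := by
  intro n m A z h hz
  exact Submodule.add_mem _ (hf n m A z h hz) (I.t_mem' (hf n m _ _ h (I.t_mem hz)))

lemma tr_comm {𝒮 : Set (Set V)} (h𝒮 : ∀ A ∈ 𝒮, I.T '' A ∈ 𝒮) {k : ℕ} {f : Q →ₗ[ZMod 2] Q}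
    (hf : C.Comm 𝒮 k f) : C.Comm 𝒮 k (I.tr f) := by
  intro n m h A hA z hz
  have h1 := hf n m h A hA z hz
  have h2 := hf n m h _ (h𝒮 A hA) _ (I.t_mem hz)
  rw [tr_apply, tr_apply, I.td, h1, h2, map_add, I.td]

lemma tr_heq {𝒜 : Set (Set V)} (h𝒜 : ∀ A ∈ 𝒜, I.T '' A ∈ 𝒜) {k : ℕ} {f g E : Q →ₗ[ZMod 2] Q}
    (h : ∀ (n m : ℕ), m + k = n → ∀ A ∈ 𝒜, ∀ z ∈ C.gr n A, f z + g z = C.d (E z) + E (C.d z)) :
    ∀ (n m : ℕ), m + k = n → ∀ A ∈ 𝒜, ∀ z ∈ C.gr n A,
      I.tr f z + I.tr g z = C.d (I.tr E z) + I.tr E (C.d z) := by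
  intro n m hn A hA z hz
  have h1 := h n m hn A hA z hz
  have h2 := h n m hn _ (h𝒜 A hA) _ (I.t_mem hz)
  have e : I.tr f z + I.tr g z = (f z + g z) + I.t (f (I.t z) + g (I.t z)) := by
    rw [tr_apply, tr_apply, map_add]; abel
  rw [e, h1, h2, tr_apply, tr_apply, map_add, map_add, I.td, I.td]
  abel

lemma lsG_t {f₁ f₂ E₁ E₂ : Q →ₗ[ZMod 2] Q} (hf₁ : ∀ z, f₁ (I.t z) = I.t (f₁ z))
    (hf₂ : ∀ z, f₂ (I.t z) = I.t (f₂ z)) (hE₁ : ∀ z, E₁ (I.t z) = I.t (E₁ z))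
    (hE₂ : ∀ z, E₂ (I.t z) = I.t (E₂ z)) (z : Q) :
    C.lsG f₁ f₂ E₁ E₂ (I.t z) = I.t (C.lsG f₁ f₂ E₁ E₂ z) := by
  simp only [SC.lsG, SC.rem_apply, LinearMap.add_apply, LinearMap.comp_apply, map_add, hf₁, hf₂,
    hE₁, hE₂, ← I.td]

/-- if the functions are odd, the transfer of the sign operator is the Borsuk-Ulam operator. -/
lemma tr_S_odd {Ω : Set V} (h0 : V → ZMod 2) (hs : List (V → ZMod 2))
    (ho : ∀ h ∈ h0 :: hs, I.Odd Ω h) {n : ℕ} {z : Q}
    (hz : z ∈ C.gr (n + hs.length) Ω) : I.tr (C.S (h0 :: hs)) z = C.L hs z := by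
  have hL : ∀ (hs : List (V → ZMod 2)), (∀ h ∈ hs, I.Odd Ω h) → ∀ (n : ℕ) (z : Q),
      z ∈ C.gr (n + hs.length) Ω → C.L (hs.map (· ∘ I.T)) z = C.L hs z := by
    intro hs
    induction hs with
    | nil => intro _ _ _ _; rfl
    | cons h hs ih =>
      intro ho n z hz
      have hz1 : z ∈ C.gr ((n + hs.length) + 1) Ω := by simpa [add_assoc] using hz
      rw [List.map_cons, SC.L_cons, SC.L_cons, l_odd (ho h (by simp)) hz1]
      exact ih (fun g hg => ho g (by simp [hg])) n _ (C.l_mem h hz1)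
  rw [tr_apply, tS, I.tt, List.map_cons, SC.S_cons, SC.S_cons]
  have e : C.m (h0 ∘ I.T) z = C.m h0 z + z := by
    have h3 : C.m (h0 ∘ I.T) z + C.m h0 z = z := by
      rw [← C.m_add, C.m_const hz (c := 1), one_smul]
      intro a ha
      rw [Pi.add_apply, Function.comp_apply, ho h0 (by simp) a ha, add_assoc, add_comm 1,
        ← add_assoc, add_self', zero_add]
    apply eq_of_add_zero
    rw [← add_assoc, h3, add_self']
  rw [e, hL hs (fun g hg => ho g (by simp [hg])) n _ (Submodule.add_mem _ (C.m_mem h0 hz) hz),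
    map_add, ← add_assoc, add_self', zero_add]

end Invol

section

variable {V : Type*} {k : ℕ}

/-- the setting of the index lemma. -/
structure ISet (X Y : Fin (k + 1) → V → ℝ) (τ : V → V) (Ω : Set V) (D : V → V → Prop)
    (ρ δ : ℝ) : Prop where
  hk : 1 ≤ k
  hX : ∀ v, ∑ a, X a v ^ 2 = 1
  hY : ∀ v, ∑ a, Y a v ^ 2 = 1
  hτ : ∀ v, τ (τ v) = v
  hΩ : ∀ v ∈ Ω, τ v ∈ Ω
  hD : ∀ x y, D x y → D (τ x) (τ y)
  hDc : ∀ x y, D x y → Dc X Y δ x y
  hρ : 0 < ρ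
  hρ1 : ρ ≤ 1 / (2 * ((k : ℝ) + 1))
  hδ : δ = ρ / (64 * ((k : ℝ) + 1))
  free : ∀ x ∈ Ω, ∃ a, ρ ≤ |X a x - X a (τ x)| ∨ ρ ≤ |Y a x - Y a (τ x)|

lemma ISet.symm {X Y : Fin (k + 1) → V → ℝ} {τ : V → V} {Ω : Set V} {D : V → V → Prop}
    {ρ δ : ℝ} (h : ISet X Y τ Ω D ρ δ) : ISet Y X τ Ω D ρ δ :=
  ⟨h.hk, h.hY, h.hX, h.hτ, h.hΩ, h.hD, fun x y hxy a => (h.hDc x y hxy a).symm, h.hρ, h.hρ1, h.hδ,
    fun x hx => by obtain ⟨a, ha⟩ := h.free x hx; exact ⟨a, ha.symm⟩⟩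

/-- odd functions attached to the coordinates. -/
noncomputable def odf (X : Fin (k + 1) → V → ℝ) (τ : V → V) (a : Fin (k + 1)) : V → ZMod 2 :=
  osgn τ (fun x => X a x - X a (τ x))

/-- the list of odd functions. -/
noncomputable def odl (X : Fin (k + 1) → V → ℝ) (τ : V → V) : List (V → ZMod 2) :=
  List.ofFn fun a : Fin k => odf X τ a.succ

namespace ISet

variable {X Y : Fin (k + 1) → V → ℝ} {τ : V → V} {Ω : Set V} {D : V → V → Prop} {ρ δ : ℝ}

/-- the involution of the list complex. -/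
noncomputable def I (h : ISet X Y τ Ω D ρ δ) : Invol (lSC V) := lInv τ h.hτ

lemma δ_pos (h : ISet X Y τ Ω D ρ δ) : 0 < δ := by
  have := h.hρ
  rw [h.hδ]; positivity

lemma δ_le (h : ISet X Y τ Ω D ρ δ) : ((k : ℝ) + 1) * δ = ρ / 64 := by
  rw [h.hδ]; field_simp

lemma δ_le' (h : ISet X Y τ Ω D ρ δ) : δ ≤ ρ / 64 := by
  have h1 := h.δ_le
  have h2 := h.δ_pos
  have hk0 : (0 : ℝ) ≤ (k : ℝ) := by positivity
  nlinarith

lemma ne (h : ISet X Y τ Ω D ρ δ) {x : V} (hx : x ∈ Ω) : τ x ≠ x := by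
  intro he
  obtain ⟨a, ha | ha⟩ := h.free x hx
  · rw [he, sub_self, abs_zero] at ha
    linarith [h.hρ]
  · rw [he, sub_self, abs_zero] at ha
    linarith [h.hρ]

lemma odf_odd (h : ISet X Y τ Ω D ρ δ) (a : Fin (k + 1)) : h.I.Odd Ω (odf X τ a) := by
  intro x hx
  exact osgn_odd τ _ x (h.hτ x) (h.ne hx) (by rw [h.hτ]; ring)

/-- sets where the `X` coordinates are moved. -/
def MX (_ : ISet X Y τ Ω D ρ δ) : Set (Set V) :=
  {A | A ∈ SmS Ω D ∧ ∀ x ∈ A, ∃ a, ρ / 2 ≤ |X a x - X a (τ x)|}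

/-- sets where the `X` coordinates are almost fixed. -/
def VX (_ : ISet X Y τ Ω D ρ δ) : Set (Set V) :=
  {A | A ∈ SmS Ω D ∧ ∀ x ∈ A, ∀ a, |X a x - X a (τ x)| < ρ}

lemma small_T (h : ISet X Y τ Ω D ρ δ) {A : Set V} (hA : A ∈ SmS Ω D) : τ '' A ∈ SmS Ω D := by
  refine ⟨?_, ?_⟩
  · rintro _ ⟨x, hx, rfl⟩
    exact h.hΩ x (hA.1 hx)
  · rintro _ ⟨x, hx, rfl⟩ _ ⟨y, hy, rfl⟩
    exact h.hD x y (hA.2 x hx y hy)

lemma MX_T (h : ISet X Y τ Ω D ρ δ) : ∀ A ∈ h.MX, h.I.T '' A ∈ h.MX := by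
  intro A hA
  refine ⟨h.small_T hA.1, ?_⟩
  rintro _ ⟨x, hx, rfl⟩
  obtain ⟨a, ha⟩ := hA.2 x hx
  refine ⟨a, ?_⟩
  show ρ / 2 ≤ |X a (τ x) - X a (τ (τ x))|
  rw [h.hτ, abs_sub_comm]; exact ha

lemma VX_T (h : ISet X Y τ Ω D ρ δ) : ∀ A ∈ h.VX, h.I.T '' A ∈ h.VX := by
  intro A hA
  refine ⟨h.small_T hA.1, ?_⟩
  rintro _ ⟨x, hx, rfl⟩ a
  show |X a (τ x) - X a (τ (τ x))| < ρ
  rw [h.hτ, abs_sub_comm]; exact hA.2 x hx a

lemma cov1 (h : ISet X Y τ Ω D ρ δ) : ∀ A ∈ SmS Ω D, A ∈ h.VX ∨ A ∈ h.MX := by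
  intro A hA
  by_cases hc : ∀ x ∈ A, ∀ a, |X a x - X a (τ x)| < ρ
  · exact Or.inl ⟨hA, hc⟩
  · right
    push Not at hc
    obtain ⟨x, hx, a, ha⟩ := hc
    refine ⟨hA, fun y hy => ⟨a, ?_⟩⟩
    have h1 := abs_lt.1 (h.hDc x y (hA.2 x hx y hy) a).1
    have h2 := abs_lt.1 (h.hDc _ _ (h.hD x y (hA.2 x hx y hy)) a).1
    have h3 := h.δ_le'
    rcases le_abs.1 ha with h4 | h4
    · refine le_trans ?_ (le_abs_self _); linarith [h.hρ]
    · refine le_trans ?_ (neg_le_abs _); linarith [h.hρ]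

lemma cov2 (h : ISet X Y τ Ω D ρ δ) : ∀ A ∈ SmS Ω D, A ∈ h.symm.MX ∨ A ∈ h.MX := by
  intro A hA
  by_cases hne : ∃ x, x ∈ A
  · obtain ⟨x, hx⟩ := hne
    have h3 := h.δ_le'
    obtain ⟨a, ha | ha⟩ := h.free x (hA.1 hx)
    · right
      refine ⟨hA, fun y hy => ⟨a, ?_⟩⟩
      have h1 := abs_lt.1 (h.hDc x y (hA.2 x hx y hy) a).1
      have h2 := abs_lt.1 (h.hDc _ _ (h.hD x y (hA.2 x hx y hy)) a).1
      rcases le_abs.1 ha with h4 | h4
      · refine le_trans ?_ (le_abs_self _); linarith [h.hρ]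
      · refine le_trans ?_ (neg_le_abs _); linarith [h.hρ]
    · left
      refine ⟨hA, fun y hy => ⟨a, ?_⟩⟩
      have h1 := abs_lt.1 (h.hDc x y (hA.2 x hx y hy) a).2
      have h2 := abs_lt.1 (h.hDc _ _ (h.hD x y (hA.2 x hx y hy)) a).2
      rcases le_abs.1 ha with h4 | h4
      · refine le_trans ?_ (le_abs_self _); linarith [h.hρ]
      · refine le_trans ?_ (neg_le_abs _); linarith [h.hρ]
  · exact Or.inr ⟨hA, fun y hy => absurd ⟨y, hy⟩ hne⟩

/-- the sign operator of the odd functions. -/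
noncomputable def Sod (X : Fin (k + 1) → V → ℝ) (τ : V → V) : Ch V →ₗ[ZMod 2] Ch V :=
  (lSC V).S (List.ofFn (odf X τ))

lemma odl_length : (odl X τ).length = k := by simp [odl]

lemma Sod_eq : Sod X τ = (lSC V).S (odf X τ 0 :: odl X τ) := by
  rw [Sod, List.ofFn_succ]; rfl

lemma PX_eq (h : ISet X Y τ Ω D ρ δ) {n m : ℕ} (hn : m + k = n) {A : Set V} (hA : A ∈ SmS Ω D)
    {z : Ch V} (hz : z ∈ (lSC V).gr n A) :
    h.I.tr (Sod X τ) z = (lSC V).L (odl X τ) z := by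
  rw [Sod_eq]
  refine h.I.tr_S_odd (Ω := Ω) (n := m) _ _ ?_ ?_
  · intro g hg
    rw [List.mem_cons] at hg
    rcases hg with rfl | hg
    · exact h.odf_odd 0
    · rw [odl, List.mem_ofFn] at hg
      obtain ⟨a, rfl⟩ := hg
      exact h.odf_odd _
  · rw [odl_length, hn]
    exact (lSC V).gr_mono hA.1 hz

/-- homotopy on the moved part. -/
lemma null_MX (h : ISet X Y τ Ω D ρ δ) : ∃ E : Ch V →ₗ[ZMod 2] Ch V, (lSC V).Loc1 k E ∧
    (∀ z, E (h.I.t z) = h.I.t (E z)) ∧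
    ∀ (n m : ℕ), m + k = n → ∀ A ∈ h.MX, ∀ z ∈ (lSC V).gr n A,
      (h.I.tr (Sop (sgs X)) + h.I.tr (Sod X τ)) z = bd (E z) + E (bd z) := by
  have hk0 : (0 : ℝ) ≤ (k : ℝ) := by positivity
  have hδ1 := h.δ_le
  have hδ2 := h.δ_pos
  have hρ := h.hρ
  set ρ₁ : ℝ := (ρ / 2) / (4 * ((k : ℝ) + 1)) with hρ₁
  have hp : 0 < ρ₁ := by positivity
  have h8 : δ = ρ₁ / 8 := by rw [h.hδ, hρ₁]; field_simp; norm_num
  have key : (lSC V).HEq h.MX k ((lSC V).S (List.ofFn fun a => sgn (X a)))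
      ((lSC V).S (List.ofFn (odf X τ))) := by
    refine SC.HEq_line (lSC V) X (fun a x => X a x - X a (τ x)) _ _ hp (K := 1) ?_ ?_ ?_ ?_ ?_ ?_
    · intro A hA i
      exact sgn_adp (X i) (by positivity) A
    · intro A hA i
      exact osgn_adp _ _ (by positivity) A
    · intro A hA i x hx y hy
      have := (h.hDc x y (hA.1.2 x hx y hy) i).1
      linarith
    · intro A hA i x hx y hy
      have h1 := abs_lt.1 (h.hDc x y (hA.1.2 x hx y hy) i).1
      have h2 := abs_lt.1 (h.hDc _ _ (h.hD x y (hA.1.2 x hx y hy)) i).1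
      rw [abs_lt]
      constructor <;> linarith
    · intro A hA i x hx
      simp only [sub_sub_cancel]
      exact abs_le_one_of_sum (x := fun a => X a (τ x)) (h.hX _) i
    · intro s h0 h1 A hA x hx
      obtain ⟨a, ha⟩ := line_nz (fun a => X a x) (fun a => X a (τ x)) (h.hX _) (h.hX _)
        (hA.2 x hx) (by positivity) h0 h1
      refine ⟨a, ?_⟩
      have : (1 - s) * X a x + s * (X a x - X a (τ x)) = X a x - s * X a (τ x) := by ring
      simp only [this]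
      exact ha
  obtain ⟨E, hE1, hE2⟩ := key
  refine ⟨h.I.tr E, h.I.tr_loc1 hE1, h.I.tr_t E, ?_⟩
  have := h.I.tr_heq h.MX_T hE2
  intro n m hn A hA z hz
  have e := this n m hn A hA z hz
  rw [LinearMap.add_apply, ← lSC_S]
  exact e

/-- homotopy on the almost fixed part. -/
lemma null_VX (h : ISet X Y τ Ω D ρ δ) : ∃ E : Ch V →ₗ[ZMod 2] Ch V, (lSC V).Loc1 k E ∧
    (∀ z, E (h.I.t z) = h.I.t (E z)) ∧
    ∀ (n m : ℕ), m + k = n → ∀ A ∈ h.VX, ∀ z ∈ (lSC V).gr n A,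
      h.I.tr (Sop (sgs X)) z = bd (E z) + E (bd z) := by
  have hk0 : (0 : ℝ) ≤ (k : ℝ) := by positivity
  have hk1 : (0 : ℝ) < (k : ℝ) + 1 := by positivity
  have hδ1 := h.δ_le
  have hδ2 := h.δ_pos
  have hδ3 := h.δ_le'
  have hρ := h.hρ
  have hρ1 := h.hρ1
  set c : ℝ := 1 / (2 * ((k : ℝ) + 1)) with hc
  have hp : 0 < c := by positivity
  have hc2 : 1 / ((k : ℝ) + 1) = 2 * c := by rw [hc]; field_simp
  have key : (lSC V).HEq h.VX k ((lSC V).S (List.ofFn fun a => sgn (X a)))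
      ((lSC V).S (List.ofFn fun a => sgn (fun x => X a x + X a (τ x)))) := by
    refine SC.HEq_line (lSC V) X (fun a x => X a x + X a (τ x)) _ _ hp (K := 1) ?_ ?_ ?_ ?_ ?_ ?_
    · intro A hA i
      exact sgn_adp (X i) (by positivity) A
    · intro A hA i
      exact sgn_adp _ (by positivity) A
    · intro A hA i x hx y hy
      have := (h.hDc x y (hA.1.2 x hx y hy) i).1
      linarith
    · intro A hA i x hx y hy
      have h1 := abs_lt.1 (h.hDc x y (hA.1.2 x hx y hy) i).1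
      have h2 := abs_lt.1 (h.hDc _ _ (h.hD x y (hA.1.2 x hx y hy)) i).1
      rw [abs_lt]
      constructor <;> linarith
    · intro A hA i x hx
      have : X i x - (X i x + X i (τ x)) = - X i (τ x) := by ring
      simp only [this, abs_neg]
      exact abs_le_one_of_sum (x := fun a => X a (τ x)) (h.hX _) i
    · intro s h0 h1 A hA x hx
      obtain ⟨a, ha⟩ := big_coord (fun a => X a x) (h.hX x)
      refine ⟨a, ?_⟩
      have h3 := abs_lt.1 (hA.2 x hx a)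
      have e : (1 - s) * X a x + s * (X a x + X a (τ x)) =
        X a x + s * X a x - s * (X a x - X a (τ x)) := by ring
      simp only [e]
      rw [hc2] at ha
      rcases le_abs.1 ha with h4 | h4
      · refine le_trans ?_ (le_abs_self _); nlinarith
      · refine le_trans ?_ (neg_le_abs _); nlinarith
  obtain ⟨E, hE1, hE2⟩ := key
  refine ⟨h.I.tr E, h.I.tr_loc1 hE1, h.I.tr_t E, ?_⟩
  have := h.I.tr_heq h.VX_T hE2
  intro n m hn A hA z hz
  have e := this n m hn A hA z hz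
  have e0 : h.I.tr ((lSC V).S (List.ofFn fun a => sgn (fun x => X a x + X a (τ x)))) z = 0 := by
    rw [List.ofFn_succ, Invol.tr_apply, Invol.tS, h.I.tt]
    have : List.map (fun g : V → ZMod 2 => g ∘ h.I.T) (sgn (fun x => X 0 x + X 0 (τ x)) ::
        List.ofFn fun i : Fin k => sgn (fun x => X i.succ x + X i.succ (τ x))) =
        (sgn (fun x => X 0 x + X 0 (τ x)) ::
        List.ofFn fun i : Fin k => sgn (fun x => X i.succ x + X i.succ (τ x))) := by
      rw [List.map_cons, List.map_ofFn]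
      have hinv : ∀ a : Fin (k + 1), sgn (fun x => X a x + X a (τ x)) ∘ h.I.T =
          sgn (fun x => X a x + X a (τ x)) := by
        intro a
        funext x
        show (if 0 ≤ X a (τ x) + X a (τ (τ x)) then (1 : ZMod 2) else 0) = _
        rw [h.hτ, add_comm]
        rfl
      rw [hinv 0]
      congr 2
      funext i
      exact hinv i.succ
    rw [this, add_self']
  rw [e0, add_zero] at e
  rw [← lSC_S]
  exact e

end ISet

end

section

variable {V : Type*} {k : ℕ}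

namespace ISet

variable {X Y : Fin (k + 1) → V → ℝ} {τ : V → V} {Ω : Set V} {D : V → V → Prop} {ρ δ : ℝ}

lemma hδ4 (h : ISet X Y τ Ω D ρ δ) : δ ≤ 1 / (4 * ((k : ℝ) + 1)) := by
  have hk1 : (0 : ℝ) < (k : ℝ) + 1 := by positivity
  have h1 := h.δ_le'
  have h2 := h.hρ1
  have h3 := h.hρ
  have : 1 / (4 * ((k : ℝ) + 1)) = 1 / (2 * ((k : ℝ) + 1)) / 2 := by field_simp; norm_num
  rw [this]
  linarith

/-- commutation on arbitrary small chains. -/
lemma commX' (hX : ∀ v, ∑ a, X a v ^ 2 = 1) {D' : V → V → Prop} (hDc : ∀ x y, D' x y → Dc X Y δ x y)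
    (hδ4 : δ ≤ 1 / (4 * ((k : ℝ) + 1))) (Ω' : Set V) :
    (lSC V).Comm (SmS Ω' D') k (Sop (sgs X)) := by
  refine Comm_sgs X (fun A hA => ?_)
  have := sgs_cst X hX (W := V) id hδ4 (A := A)
    (fun a p hp q hq => (hDc _ _ (hA.2 p hp q hq) a).1)
  simpa using this

lemma commX (h : ISet X Y τ Ω D ρ δ) : (lSC V).Comm (SmS Ω D) k (Sop (sgs X)) :=
  commX' h.hX h.hDc h.hδ4 Ω

lemma loc0X : (lSC V).Loc0 k (Sop (sgs X)) := by
  obtain ⟨g, gs, e1, e2⟩ := sgs_cons X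
  rw [e1, ← lSC_S]
  have := (lSC V).Loc0_S g gs
  rwa [e2] at this

lemma loc0Sod : (lSC V).Loc0 k (Sod X τ) := by
  rw [Sod_eq]
  have := (lSC V).Loc0_S (odf X τ 0) (odl X τ)
  rwa [odl_length] at this

lemma commP (h : ISet X Y τ Ω D ρ δ) : (lSC V).Comm (SmS Ω D) k (h.I.tr (Sod X τ)) := by
  intro n m hn A hA z hz
  have hz' : z ∈ (lSC V).gr ((m + k) + 1) A := by rw [← hn] at hz; exact hz
  rw [h.PX_eq (n := m + k) (m := m) rfl hA ((lSC V).d_mem hz'),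
    h.PX_eq (n := n) (m := m + 1) (by omega) hA hz, SC.L_d]

lemma setT (h : ISet X Y τ Ω D ρ δ) : ∀ A ∈ SmS Ω D, h.I.T '' A ∈ SmS Ω D :=
  fun _ hA => h.small_T hA

/-- Evaluation of the operators on a tower of length `2k`. -/
theorem eval (h : ISet X Y τ Ω D ρ δ) {b : ℕ → Ch V} (hb : LTow τ (Sm Ω D) (2 * k) b)
    (hb0 : augL (b 0) = 1) :
    bd (b (2 * k) + mapL τ (b (2 * k))) = 0 ∧
    augL (Sop (sgs Y) (Sop (sgs X) (b (2 * k) + mapL τ (b (2 * k))) +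
      mapL τ (Sop (sgs X) (b (2 * k) + mapL τ (b (2 * k)))))) = 1 ∧
    augL (Sop (sgs X) (Sop (sgs X) (b (2 * k) + mapL τ (b (2 * k))) +
      mapL τ (Sop (sgs X) (b (2 * k) + mapL τ (b (2 * k)))))) = 0 := by
  have hk := h.hk
  obtain ⟨E₁, e₁, t₁, n₁⟩ := h.null_MX
  obtain ⟨E₂, e₂, t₂, n₂⟩ := h.symm.null_MX
  obtain ⟨E₃, e₃, t₃, n₃⟩ := h.null_VX
  set C := lSC V with hC
  set I := h.I with hI
  have hII : h.symm.I = I := rfl
  set TX := I.tr (Sop (sgs X)) with hTX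
  set TY := I.tr (Sop (sgs Y)) with hTY
  set PX := I.tr (Sod X τ) with hPX
  set PY := I.tr (Sod Y τ) with hPY
  have lX : C.Loc0 k (Sop (sgs X)) := loc0X
  have lY : C.Loc0 k (Sop (sgs Y)) := loc0X
  have lTX : C.Loc0 k TX := I.tr_loc0 lX
  have lTY : C.Loc0 k TY := I.tr_loc0 lY
  have lPX : C.Loc0 k PX := I.tr_loc0 loc0Sod
  have lPY : C.Loc0 k PY := I.tr_loc0 loc0Sod
  have cX : C.Comm (SmS Ω D) k (Sop (sgs X)) := h.commX
  have cY : C.Comm (SmS Ω D) k (Sop (sgs Y)) := h.symm.commX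
  have cTX : C.Comm (SmS Ω D) k TX := I.tr_comm h.setT cX
  have cTY : C.Comm (SmS Ω D) k TY := I.tr_comm h.setT cY
  have cPX : C.Comm (SmS Ω D) k PX := h.commP
  have cPY : C.Comm (SmS Ω D) k PY := h.symm.commP
  have tTX : ∀ z, TX (I.t z) = I.t (TX z) := I.tr_t _
  have tTY : ∀ z, TY (I.t z) = I.t (TY z) := I.tr_t _
  have tPX : ∀ z, PX (I.t z) = I.t (PX z) := I.tr_t _
  have tPY : ∀ z, PY (I.t z) = I.t (PY z) := I.tr_t _
  have tfX : ∀ z, (TX + PX) (I.t z) = I.t ((TX + PX) z) := by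
    intro z; rw [LinearMap.add_apply, LinearMap.add_apply, tTX, tPX, map_add]
  have tfY : ∀ z, (TY + PY) (I.t z) = I.t ((TY + PY) z) := by
    intro z; rw [LinearMap.add_apply, LinearMap.add_apply, tTY, tPY, map_add]
  have hbT : I.Tower (SmS Ω D) (2 * k) b := hb.tower h.hτ
  have hbm := hbT.mem (2 * k) le_rfl
  set B := b (2 * k) with hB
  obtain ⟨k', hk'⟩ : ∃ k', k = k' + 1 := ⟨k - 1, by omega⟩
  have hdB : bd B = b (2 * k - 1) + I.t (b (2 * k - 1)) := by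
    have := hb.bdry (2 * k - 1) (by omega)
    have e : 2 * k - 1 + 1 = 2 * k := by omega
    rw [e] at this
    exact this
  -- boundary of the top cycle
  set S := B + mapL τ B with hS
  have htS : I.t S = S := by
    show mapL τ (B + mapL τ B) = B + mapL τ B
    have : mapL τ (mapL τ B) = B := I.tt B
    rw [map_add, this, add_comm]
  have hdS : bd S = 0 := by
    have e1 : bd (mapL τ B) = mapL τ (bd B) := bd_mapL τ B
    have e2 : mapL τ (bd B) = bd B := by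
      rw [hdB]
      show I.t (b (2 * k - 1) + I.t (b (2 * k - 1))) = _
      rw [map_add, I.tt, add_comm]
    rw [hS, map_add, e1, e2, add_self']
  have hSm : S ∈ C.sm (SmS Ω D) (2 * k) := by
    refine Submodule.add_mem _ hbm ?_
    exact C.sm_map (f := I.t) (fun A hA z hz => C.gr_le_sm (h.small_T hA) (I.t_mem hz)) hbm
  -- vanishing from the Lusternik-Schnirelmann argument
  have LS : ∀ (f₁ f₂ F₁ F₂ : Ch V →ₗ[ZMod 2] Ch V) (𝒜₁ 𝒜₂ : Set (Set V)),
      (∀ A ∈ SmS Ω D, A ∈ 𝒜₁ ∨ A ∈ 𝒜₂) → C.Loc0 k f₁ → C.Loc0 k f₂ →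
      C.Comm (SmS Ω D) k f₁ → C.Comm (SmS Ω D) k f₂ → C.Loc1 k F₁ → C.Loc1 k F₂ →
      (∀ z, f₁ (I.t z) = I.t (f₁ z)) → (∀ z, f₂ (I.t z) = I.t (f₂ z)) →
      (∀ z, F₁ (I.t z) = I.t (F₁ z)) → (∀ z, F₂ (I.t z) = I.t (F₂ z)) →
      (∀ (n m : ℕ), m + k = n → ∀ A ∈ 𝒜₁, ∀ z ∈ C.gr n A, f₁ z = C.d (F₁ z) + F₁ (C.d z)) →
      (∀ (n m : ℕ), m + k = n → ∀ A ∈ 𝒜₂, ∀ z ∈ C.gr n A, f₂ z = C.d (F₂ z) + F₂ (C.d z)) →
      augL (f₁ (f₂ B)) = 0 := by
    intro f₁ f₂ F₁ F₂ 𝒜₁ 𝒜₂ hcov l₁ l₂ c₁ c₂ L₁ L₂ s₁ s₂ r₁ r₂ N₁ N₂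
    set G := C.lsG f₁ f₂ F₁ F₂ with hG
    have key : f₁ (f₂ B) = bd (G B) + G (bd B) := by
      have := C.sm_eq (𝒮 := SmS Ω D) (n := 2 * k) (f₁ ∘ₗ f₂) (bd ∘ₗ G + G ∘ₗ bd)
        (fun A hA z hz => C.ls hcov hk hk l₁ l₂ c₁ c₂ L₁ L₂ N₁ N₂ (m := 0) (by omega) hA hz) hbm
      exact this
    have hGt : ∀ z, G (I.t z) = I.t (G z) := I.lsG_t s₁ s₂ r₁ r₂
    rw [key, map_add, augL_bd, zero_add, hdB, map_add, hGt, map_add]
    have := I.taug (G (b (2 * k - 1)))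
    rw [lSC_aug, lSC_aug] at this
    rw [this, add_self']
  have LS1 : augL ((TY + PY) ((TX + PX) B)) = 0 :=
    LS (TY + PY) (TX + PX) E₂ E₁ h.symm.MX h.MX h.cov2 (lTY.add lPY) (lTX.add lPX)
      (SC.Comm.add _ cTY cPY) (SC.Comm.add _ cTX cPX) e₂ e₁ tfY tfX t₂ t₁ n₂ n₁
  have LS2 : augL (TX ((TX + PX) B)) = 0 :=
    LS TX (TX + PX) E₃ E₁ h.VX h.MX h.cov1 lTX (lTX.add lPX) cTX
      (SC.Comm.add _ cTX cPX) e₃ e₁ tTX tfX t₃ t₁ n₃ n₁
  -- the product of the odd operators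
  have hPXB : PX B = C.L (odl X τ) B := by
    refine C.sm_eq (𝒮 := SmS Ω D) (n := 2 * k) PX (C.L (odl X τ)) (fun A hA z hz => ?_) hbm
    exact h.PX_eq (m := k) (by omega) hA hz
  have hPYg : ∀ z ∈ C.sm (SmS Ω D) k, PY z = C.L (odl Y τ) z := by
    intro z hz
    refine C.sm_eq (𝒮 := SmS Ω D) (n := k) PY (C.L (odl Y τ)) (fun A hA z hz => ?_) hz
    exact h.symm.PX_eq (m := 0) (by omega) hA hz
  have hPXg : ∀ z ∈ C.sm (SmS Ω D) (2 * k), PX z = C.L (odl X τ) z := by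
    intro z hz
    refine C.sm_eq (𝒮 := SmS Ω D) (n := 2 * k) PX (C.L (odl X τ)) (fun A hA z hz => ?_) hz
    exact h.PX_eq (m := k) (by omega) hA hz
  have hmPX : PX B ∈ C.sm (SmS Ω D) k := C.sm_loc0 lPX (by omega) hbm
  have hmTX : TX B ∈ C.sm (SmS Ω D) k := C.sm_loc0 lTX (by omega) hbm
  have hodX : ∀ g ∈ odl X τ, I.Odd Ω g := by
    intro g hg
    rw [odl, List.mem_ofFn] at hg
    obtain ⟨a, rfl⟩ := hg
    exact h.odf_odd _
  have hodY : ∀ g ∈ odl Y τ, I.Odd Ω g := by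
    intro g hg
    rw [odl, List.mem_ofFn] at hg
    obtain ⟨a, rfl⟩ := hg
    exact h.symm.odf_odd _
  have hsub : ∀ A ∈ SmS Ω D, A ⊆ Ω := fun A hA => hA.1
  have V1 : augL (PY (PX B)) = 1 := by
    rw [hPYg _ hmPX, hPXB, ← SC.L_append]
    have hlen : (odl X τ ++ odl Y τ).length = 2 * k := by
      rw [List.length_append, odl_length, odl_length]; omega
    have := Invol.bu (I := I) (Ω := Ω) (odl X τ ++ odl Y τ) (by
      intro g hg
      rw [List.mem_append] at hg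
      rcases hg with hg | hg
      · exact hodX g hg
      · exact hodY g hg) hsub (b := b) (by rw [hlen]; exact hbT)
    rw [hlen] at this
    rw [← hb0]
    exact this
  have V2 : augL (PY (TX B)) = 0 := by
    have hc : I.Tower (SmS Ω D) k (fun j => TX (b (j + k))) := by
      refine ⟨fun j hj => C.sm_loc0 lTX rfl (hbT.mem (j + k) (by omega)), fun j hj => ?_⟩
      show bd (TX (b (j + 1 + k))) = TX (b (j + k)) + I.t (TX (b (j + k)))
      have e1 := C.Comm_sm cTX (n := j + 1 + k) (m := j) (by omega)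
        (hbT.mem (j + 1 + k) (by omega))
      have e2 := hb.bdry (j + k) (by omega)
      have e3 : j + k + 1 = j + 1 + k := by omega
      rw [e3] at e2
      have e1' : TX (bd (b (j + 1 + k))) = bd (TX (b (j + 1 + k))) := e1
      rw [← e1', e2, map_add]
      congr 1
      exact tTX _
    have hlen : (odl Y τ).length = k := odl_length
    have := Invol.bu (I := I) (Ω := Ω) (odl Y τ) hodY hsub (b := fun j => TX (b (j + k)))
      (by rw [hlen]; exact hc)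
    rw [hlen] at this
    have e0 : b (k + k) = B := by rw [hB]; congr 1; omega
    simp only [zero_add] at this
    rw [e0] at this
    rw [hPYg _ hmTX]
    refine Eq.trans this ?_
    -- augmentation of the bottom of the tower
    show augL (TX (b k)) = 0
    rw [hTX, Invol.tr_apply, map_add]
    have e4 : augL (I.t (Sop (sgs X) (I.t (b k)))) = augL (Sop (sgs X) (I.t (b k))) := I.taug _
    rw [e4, ← map_add, ← map_add]
    have e5 : b k + I.t (b k) = bd (b (k + 1)) := (hb.bdry k (by omega)).symm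
    rw [e5]
    have e6 := C.Comm_sm cX (n := k + 1) (m := 0) (by omega) (hbT.mem (k + 1) (by omega))
    have e6' : Sop (sgs X) (bd (b (k + 1))) = bd (Sop (sgs X) (b (k + 1))) := e6
    rw [e6', augL_bd]
  have V3 : ∀ (Z : Fin (k + 1) → V → ℝ), C.Loc0 k (Sop (sgs Z)) →
      C.Comm (SmS Ω D) k (Sop (sgs Z)) → augL (I.tr (Sop (sgs Z)) (PX B)) = 0 := by
    intro Z lZ cZ
    rw [Invol.tr_apply, map_add]
    have e4 : augL (I.t (Sop (sgs Z) (I.t (PX B)))) = augL (Sop (sgs Z) (I.t (PX B))) := I.taug _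
    rw [e4, ← tPX, ← map_add, ← map_add, ← map_add]
    show augL (Sop (sgs Z) (PX S)) = 0
    rw [hPXg S hSm]
    obtain ⟨g, gs, eg⟩ : ∃ g gs, odl X τ = g :: gs := by
      rcases hh : odl X τ with _ | ⟨g, gs⟩
      · have := congrArg List.length hh
        rw [odl_length] at this
        simp at this; omega
      · exact ⟨g, gs, rfl⟩
    have hgs : gs.length + 1 = k := by
      have := congrArg List.length eg
      rw [odl_length] at this
      simpa using this.symm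
    have e5 : C.L (odl X τ) S = bd (C.S (g :: gs) S) := by
      have := C.d_S g gs S
      have hd0 : C.d S = 0 := hdS
      rw [hd0, map_zero, zero_add] at this
      rw [eg]
      exact this.symm
    have e6 : C.S (g :: gs) S ∈ C.sm (SmS Ω D) (k + 1) := by
      exact C.sm_loc0 (C.Loc0_S g gs) (by omega) hSm
    have e7 := C.Comm_sm cZ (n := k + 1) (m := 0) (by omega) e6
    have e7' : Sop (sgs Z) (bd (C.S (g :: gs) S)) = bd (Sop (sgs Z) (C.S (g :: gs) S)) := e7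
    rw [e5, e7', augL_bd]
  have V4 : ∀ (Z : Fin (k + 1) → V → ℝ), augL (I.tr (Sop (sgs Z)) (TX B)) =
      augL (Sop (sgs Z) (Sop (sgs X) S + mapL τ (Sop (sgs X) S))) := by
    intro Z
    rw [Invol.tr_apply, map_add]
    have e4 : augL (I.t (Sop (sgs Z) (I.t (TX B)))) = augL (Sop (sgs Z) (I.t (TX B))) := I.taug _
    rw [e4, ← tTX, ← map_add, ← map_add, ← map_add]
    have : TX (B + I.t B) = Sop (sgs X) S + mapL τ (Sop (sgs X) S) := by
      show TX S = _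
      rw [hTX, Invol.tr_apply, htS]
      rfl
    rw [this]
  refine ⟨hdS, ?_, ?_⟩
  · rw [← V4 Y]
    have := LS1
    simp only [LinearMap.add_apply, map_add] at this
    have v3 := V3 Y lY cY
    rw [V1, V2] at this
    have v3' : augL (TY (PX B)) = 0 := v3
    rw [v3'] at this
    rw [add_zero, zero_add] at this
    have hh : ∀ x : ZMod 2, x + 1 = 0 → x = 1 := by decide
    exact hh _ this
  · rw [← V4 X]
    have := LS2
    simp only [LinearMap.add_apply, map_add] at this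
    have v3' : augL (TX (PX B)) = 0 := V3 X lX cX
    rw [v3', add_zero] at this
    exact this

/-- the index lemma: a tower of length `2k` cannot exist if middle dimensional cycles with zero
values bound. -/
theorem index (h : ISet X Y τ Ω D ρ δ) {D' : V → V → Prop}
    (hD'c : ∀ x y, D' x y → Dc X Y δ x y)
    (fill : ∀ z ∈ CK (Sm Set.univ D) (k + 1), bd z = 0 → augL (Sop (sgs X) z) = 0 →
      augL (Sop (sgs Y) z) = 0 → ∃ w ∈ CK (Sm Set.univ D') (k + 2), bd w = z)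
    (hD' : ∀ x y, D' x y → D' (τ x) (τ y)) : ¬ HasTow τ (Sm Ω D) (2 * k) := by
  rintro ⟨b, hb, hb0⟩
  obtain ⟨hdS, g1, g2⟩ := h.eval hb hb0
  obtain ⟨-, g1', g2'⟩ := h.symm.eval (b := b) hb hb0
  set S := b (2 * k) + mapL τ (b (2 * k)) with hS
  have hbm : b (2 * k) ∈ CK (Sm Set.univ D) (2 * k + 1) :=
    CK_mono (fun l hl => Sm_mono (Set.subset_univ _) (fun _ _ h => h) hl) _ (hb.mem (2 * k) le_rfl)
  have hTmem : ∀ n z, z ∈ CK (Sm Set.univ D) n → mapL τ z ∈ CK (Sm Set.univ D) n := by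
    intro n z hz
    refine mapL_mem_CK (fun l _ hl => ⟨fun _ _ => trivial, ?_⟩) hz
    intro x hx y hy
    rw [List.mem_map] at hx hy
    obtain ⟨x', hx', rfl⟩ := hx
    obtain ⟨y', hy', rfl⟩ := hy
    exact h.hD _ _ (hl.2 _ hx' _ hy')
  have hSm : S ∈ CK (Sm Set.univ D) (2 * k + 1) := Submodule.add_mem _ hbm (hTmem _ _ hbm)
  have hSub := Sm_subClosed (Set.univ : Set V) D
  set y := Sop (sgs X) S with hy
  set y' := Sop (sgs Y) S with hy'
  have ym : y ∈ CK (Sm Set.univ D) (k + 1) := Sgs_mem hSub X (by omega) hSm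
  have ym' : y' ∈ CK (Sm Set.univ D) (k + 1) := Sgs_mem hSub Y (by omega) hSm
  have hk := h.hk
  have cX := (commX' (D' := D) h.hX h.hDc h.hδ4 Set.univ)
  have cY := (commX' (D' := D) h.hY (fun x y hxy => h.symm.hDc x y hxy) h.hδ4 Set.univ)
  have hSm' : S ∈ (lSC V).sm (SmS Set.univ D) (2 * k) := by rw [← CK_Sm_eq]; exact hSm
  have yc : bd y = 0 := by
    have e : Sop (sgs X) (bd S) = bd (Sop (sgs X) S) :=
      (lSC V).Comm_sm cX (n := 2 * k) (m := k - 1) (by omega) hSm'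
    rw [hy, ← e, hdS, map_zero]
  have yc' : bd y' = 0 := by
    have e : Sop (sgs Y) (bd S) = bd (Sop (sgs Y) S) :=
      (lSC V).Comm_sm cY (n := 2 * k) (m := k - 1) (by omega) hSm'
    rw [hy', ← e, hdS, map_zero]
  set g := y + mapL τ y with hg
  set g' := y' + mapL τ y' with hg'
  have gm : g ∈ CK (Sm Set.univ D) (k + 1) := Submodule.add_mem _ ym (hTmem _ _ ym)
  have gm' : g' ∈ CK (Sm Set.univ D) (k + 1) := Submodule.add_mem _ ym' (hTmem _ _ ym')
  have gc : bd g = 0 := by rw [hg, map_add, bd_mapL, yc, map_zero, add_zero]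
  have gc' : bd g' = 0 := by rw [hg', map_add, bd_mapL, yc', map_zero, add_zero]
  set α := augL (Sop (sgs X) y) with hα
  set β := augL (Sop (sgs Y) y) with hβ
  obtain ⟨w, hw, hwb⟩ := fill (y + α • g' + β • g)
    (Submodule.add_mem _ (Submodule.add_mem _ ym (Submodule.smul_mem _ _ gm'))
      (Submodule.smul_mem _ _ gm))
    (by rw [map_add, map_add, map_smul, map_smul, yc, gc, gc', smul_zero, smul_zero, add_zero,
      add_zero])
    (by
      rw [map_add, map_add, map_add, map_add, map_smul, map_smul, map_smul, map_smul]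
      rw [g1', g2, smul_eq_mul, smul_eq_mul, mul_one, mul_zero, add_zero]
      exact add_self' _)
    (by
      rw [map_add, map_add, map_add, map_add, map_smul, map_smul, map_smul, map_smul]
      rw [g1, g2', smul_eq_mul, smul_eq_mul, mul_one, mul_zero, add_zero]
      exact add_self' _)
  have hττ : ∀ z : Ch V, mapL τ (mapL τ z) = z := fun z => h.I.tt z
  have hgt : mapL τ g = g := by rw [hg, map_add, hττ, add_comm]
  have hgt' : mapL τ g' = g' := by rw [hg', map_add, hττ, add_comm]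
  have e1 : bd (w + mapL τ w) = g := by
    rw [map_add, bd_mapL, hwb]
    simp only [map_add, map_smul, hgt, hgt']
    have : y + α • g' + β • g + (mapL τ y + α • g' + β • g) =
        (y + mapL τ y) + (α • g' + α • g') + (β • g + β • g) := by abel
    rw [this, add_self', add_self', add_zero, add_zero]
  have hw2 : w + mapL τ w ∈ CK (Sm Set.univ D') (k + 2) := by
    refine Submodule.add_mem _ hw (mapL_mem_CK (fun l _ hl => ⟨fun _ _ => trivial, ?_⟩) hw)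
    intro x hx y hy
    rw [List.mem_map] at hx hy
    obtain ⟨x', hx', rfl⟩ := hx
    obtain ⟨y', hy', rfl⟩ := hy
    exact hD' _ _ (hl.2 _ hx' _ hy')
  have cY' := (commX' (D' := D') (X := Y) (Y := X) h.hY
    (fun x y hxy a => (hD'c x y hxy a).symm) h.hδ4 Set.univ)
  have e2 : Sop (sgs Y) (bd (w + mapL τ w)) = bd (Sop (sgs Y) (w + mapL τ w)) := by
    refine (lSC V).Comm_sm cY' (n := k + 1) (m := 0) (by omega) ?_
    rw [← CK_Sm_eq]; exact hw2
  have e3 : augL (Sop (sgs Y) g) = 0 := by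
    rw [← e1, e2, augL_bd]
  rw [g1] at e3
  exact absurd e3 (by decide)

end ISet

end

end Pool.Agent.TightEmb
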