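import Pool.Agent.TightEmb.Iso

/-!
The isotropy relation for disjoint cycles.
-/

set_option linter.unusedSimpArgs false

namespace Pool.Agent.TightEmb

open Finsupp TensorProduct

namespace SC

variable {V Q : Type*} [AddCommGroup Q] [Module (ZMod 2) Q] (C : SC V Q)

lemma Comm_S {𝒮 : Set (Set V)} (h : V → ZMod 2) (hs : List (V → ZMod 2))
    (H : ∀ A ∈ 𝒮, ∃ g ∈ h :: hs, ∃ c : ZMod 2, ∀ a ∈ A, g a = c) :
    C.Comm 𝒮 hs.length (C.S (h :: hs)) := by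
  intro n m hn A hA z hz
  subst hn
  rw [d_S, C.L_vanish (n := m) (h :: hs) (by simpa [add_assoc] using hz) (H A hA), add_zero]

lemma Comm.add {𝒮 : Set (Set V)} {k : ℕ} {f g : Q →ₗ[ZMod 2] Q} (hf : C.Comm 𝒮 k f)
    (hg : C.Comm 𝒮 k g) : C.Comm 𝒮 k (f + g) := by
  intro n m hn A hA z hz
  simp only [LinearMap.add_apply, map_add, hf n m hn A hA z hz, hg n m hn A hA z hz]

end SC

section

variable {V : Type*} {k : ℕ}

/-- small sets of pairs whose `X` coordinates differ. -/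
def OffD (X : Fin (k + 1) → V → ℝ) (ρ ρ' : ℝ) : Set (Set (V × V)) :=
  {A | (∀ a, ∀ p ∈ A, ∀ q ∈ A, |X a p.1 - X a q.1| < ρ' ∧ |X a p.2 - X a q.2| < ρ') ∧
    ∀ p ∈ A, ∃ a, ρ ≤ |X a p.1 - X a p.2|}

lemma abs_le_one_of_sum {x : Fin (k + 1) → ℝ} (hx : ∑ a, x a ^ 2 = 1) (a : Fin (k + 1)) :
    |x a| ≤ 1 := by
  have : x a ^ 2 ≤ 1 := by
    rw [← hx]; exact Finset.single_le_sum (f := fun a => x a ^ 2) (fun i _ => sq_nonneg _)
      (Finset.mem_univ a)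
  exact (sq_le_one_iff_abs_le_one _).1 this

lemma D_null (hk : 1 ≤ k) (X : Fin (k + 1) → V → ℝ) (hX : ∀ v, ∑ a, X a v ^ 2 = 1) {ρ : ℝ}
    (hρ : 0 < ρ) :
    (pSC V V).HEq (OffD X ρ (ρ / (32 * ((k : ℝ) + 1)))) k
      ((pSC V V).S ((sgs X).map (· ∘ Prod.fst))) ((pSC V V).S ((sgs X).map (· ∘ Prod.snd))) := by
  set ρ₁ : ℝ := ρ / (4 * ((k : ℝ) + 1)) with hρ₁
  have hk0 : (0 : ℝ) < (k : ℝ) + 1 := by positivity
  have hp : 0 < ρ₁ := by positivity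
  have h8 : ρ / (32 * ((k : ℝ) + 1)) = ρ₁ / 8 := by rw [hρ₁]; field_simp; norm_num
  rw [h8]
  set 𝒜 := OffD X ρ (ρ₁ / 8) with h𝒜
  have b1 : ∀ v a, |X a v| ≤ 1 := fun v a => abs_le_one_of_sum (x := fun a => X a v) (hX v) a
  have e1 : (pSC V V).HEq 𝒜 k
      ((pSC V V).S (List.ofFn fun a => (fun p : V × V => sgn (X a) p.1)))
      ((pSC V V).S (List.ofFn fun a => sgn (fun p : V × V => X a p.1 - X a p.2))) := by
    refine SC.HEq_line (pSC V V) (fun a p => X a p.1) (fun a p => X a p.1 - X a p.2) _ _ hp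
      (K := 1) ?_ ?_ ?_ ?_ ?_ ?_
    · intro A hA i v hv
      exact sgn_adp (X i) (by positivity) (Set.univ) v.1 trivial
    · intro A hA i
      exact sgn_adp _ (by positivity) A
    · intro A hA i p hp q hq
      have := (hA.1 i p hp q hq).1
      linarith
    · intro A hA i p hp q hq
      have h1 := abs_lt.1 (hA.1 i p hp q hq).1
      have h2 := abs_lt.1 (hA.1 i p hp q hq).2
      rw [abs_lt]
      constructor <;> linarith
    · intro A hA i p hp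
      simp only [sub_sub_cancel]
      exact b1 _ _
    · intro s h0 h1 A hA p hp
      obtain ⟨a, ha⟩ := line_nz (fun a => X a p.1) (fun a => X a p.2) (hX _) (hX _) (hA.2 p hp) hρ
        h0 h1
      refine ⟨a, ?_⟩
      have : (1 - s) * X a p.1 + s * (X a p.1 - X a p.2) = X a p.1 - s * X a p.2 := by ring
      simp only [this]
      exact ha
  have e2 : (pSC V V).HEq 𝒜 k
      ((pSC V V).S (List.ofFn fun a => sgn (fun p : V × V => X a p.1 - X a p.2)))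
      ((pSC V V).S (List.ofFn fun a => (fun p : V × V => 1 + sgn (X a) p.2))) := by
    refine SC.HEq_line (pSC V V) (fun a p => X a p.1 - X a p.2) (fun a p => - X a p.2) _ _ hp
      (K := 1) ?_ ?_ ?_ ?_ ?_ ?_
    · intro A hA i
      exact sgn_adp _ (by positivity) A
    · intro A hA i v hv
      have := sgn_adp (X i) (c := ρ₁ / 2) (by positivity) (Set.univ) v.2 trivial
      refine ⟨fun h => ?_, fun h => ?_⟩
      · simp only
        rw [this.2 (by linarith), add_zero]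
      · simp only
        rw [this.1 (by linarith)]
        decide
    · intro A hA i p hp q hq
      have h1 := abs_lt.1 (hA.1 i p hp q hq).1
      have h2 := abs_lt.1 (hA.1 i p hp q hq).2
      rw [abs_lt]
      constructor <;> linarith
    · intro A hA i p hp q hq
      have h2 := abs_lt.1 (hA.1 i p hp q hq).2
      rw [abs_lt]
      constructor <;> linarith
    · intro A hA i p hp
      have : X i p.1 - X i p.2 - -X i p.2 = X i p.1 := by ring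
      simp only [this]
      exact b1 _ _
    · intro s h0 h1 A hA p hp
      have hh : ∃ a, ρ ≤ |X a p.2 - X a p.1| := by
        obtain ⟨a, ha⟩ := hA.2 p hp
        exact ⟨a, by rw [abs_sub_comm]; exact ha⟩
      obtain ⟨a, ha⟩ := line_nz (fun a => X a p.2) (fun a => X a p.1) (hX _) (hX _) hh hρ
        (s := 1 - s) (by linarith) (by linarith)
      refine ⟨a, ?_⟩
      have : (1 - s) * (X a p.1 - X a p.2) + s * (-X a p.2) = -(X a p.2 - (1 - s) * X a p.1) := by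
        ring
      simp only [this, abs_neg]
      exact ha
  obtain ⟨h0, h1, hs, hh, hl⟩ : ∃ h0 h1 hs, (sgs X).map (· ∘ (Prod.snd : V × V → V)) =
      h0 :: h1 :: hs ∧ hs.length + 1 = k := by
    obtain ⟨h, hs, e1, e2⟩ := sgs_cons X
    rcases hs with _ | ⟨h', hs⟩
    · simp at e2; omega
    · exact ⟨_, _, _, by rw [e1]; rfl, by simpa using e2⟩
  have e3 : (pSC V V).HEq 𝒜 k ((pSC V V).S ((sgs X).map (· ∘ Prod.snd)))
      ((pSC V V).S (((sgs X).map (· ∘ Prod.snd)).map (1 + ·))) := by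
    rw [hh, ← hl]
    exact SC.HEq_flip (pSC V V) 𝒜 h0 h1 hs
  have q1 : (sgs X).map (· ∘ (Prod.fst : V × V → V)) =
      List.ofFn fun a => (fun p : V × V => sgn (X a) p.1) := by
    rw [sgs, List.map_ofFn]; rfl
  have q2 : ((sgs X).map (· ∘ (Prod.snd : V × V → V))).map (1 + ·) =
      List.ofFn fun a => (fun p : V × V => 1 + sgn (X a) p.2) := by
    rw [sgs, List.map_ofFn, List.map_ofFn]; rfl
  rw [q2] at e3
  rw [q1]
  exact (e1.trans e2).trans e3.symm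

/-- closeness of two families of coordinates. -/
def Dc (X Y : Fin (k + 1) → V → ℝ) (δ : ℝ) (x y : V) : Prop :=
  ∀ a, |X a x - X a y| < δ ∧ |Y a x - Y a y| < δ

/-- difference operator. -/
noncomputable def DX (X : Fin (k + 1) → V → ℝ) : Ch2 V V →ₗ[ZMod 2] Ch2 V V :=
  (pSC V V).S ((sgs X).map (· ∘ Prod.fst)) + (pSC V V).S ((sgs X).map (· ∘ Prod.snd))

/-- small sets of pairs for the isotropy relation. -/
def SS (X Y : Fin (k + 1) → V → ℝ) (ρ δ : ℝ) : Set (Set (V × V)) :=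
  {A | (∀ p ∈ A, ∀ q ∈ A, Dc X Y δ p.1 q.1 ∧ Dc X Y δ p.2 q.2) ∧
    ∀ p ∈ A, ∃ a, ρ ≤ |X a p.1 - X a p.2| ∨ ρ ≤ |Y a p.1 - Y a p.2|}

lemma map_cons' {V W : Type*} {k : ℕ} (X : Fin (k + 1) → V → ℝ) (g : W → V) :
    ∃ h hs, (sgs X).map (· ∘ g) = h :: hs ∧ hs.length = k := by
  obtain ⟨h, hs, e1, e2⟩ := sgs_cons X
  exact ⟨_, _, by rw [e1]; rfl, by simpa using e2⟩

lemma DX_loc (X : Fin (k + 1) → V → ℝ) : (pSC V V).Loc0 k (DX X) := by
  obtain ⟨h, hs, e1, e2⟩ := map_cons' (W := V × V) X Prod.fst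
  obtain ⟨h', hs', e1', e2'⟩ := map_cons' (W := V × V) X Prod.snd
  rw [DX, e1, e1']
  have a1 := (pSC V V).Loc0_S h hs
  have a2 := (pSC V V).Loc0_S h' hs'
  rw [e2] at a1
  rw [e2'] at a2
  exact a1.add a2

lemma sgs_cst {W : Type*} {k : ℕ} (X : Fin (k + 1) → V → ℝ) (hX : ∀ v, ∑ a, X a v ^ 2 = 1)
    (g : W → V) {A : Set W} {δ : ℝ} (hδ : δ ≤ 1 / (4 * ((k : ℝ) + 1)))
    (hA : ∀ a, ∀ p ∈ A, ∀ q ∈ A, |X a (g p) - X a (g q)| < δ) :
    ∃ h ∈ (sgs X).map (· ∘ g), ∃ c : ZMod 2, ∀ a ∈ A, h a = c := by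
  rw [sgs, List.map_ofFn]
  refine cst_of_nz (ρ := 1 / ((k : ℝ) + 1)) (fun a p => X a (g p)) _ (by positivity) ?_ ?_ ?_
  · intro i v _
    exact sgn_adp (X i) (by positivity) Set.univ (g v) trivial
  · intro i p hp q hq
    have := hA i p hp q hq
    have h4 : 1 / ((k : ℝ) + 1) / 4 = 1 / (4 * ((k : ℝ) + 1)) := by field_simp
    rw [h4]
    exact lt_of_lt_of_le this hδ
  · intro p _
    exact big_coord _ (hX (g p))

lemma DX_comm (X : Fin (k + 1) → V → ℝ) (hX : ∀ v, ∑ a, X a v ^ 2 = 1) {𝒮 : Set (Set (V × V))}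
    {δ : ℝ} (hδ : δ ≤ 1 / (4 * ((k : ℝ) + 1)))
    (hS : ∀ A ∈ 𝒮, ∀ a, ∀ p ∈ A, ∀ q ∈ A, |X a p.1 - X a q.1| < δ ∧ |X a p.2 - X a q.2| < δ) :
    (pSC V V).Comm 𝒮 k (DX X) := by
  obtain ⟨h, hs, e1, e2⟩ := map_cons' (W := V × V) X Prod.fst
  obtain ⟨h', hs', e1', e2'⟩ := map_cons' (W := V × V) X Prod.snd
  have c1 : ∀ A ∈ 𝒮, ∃ g ∈ h :: hs, ∃ c : ZMod 2, ∀ a ∈ A, g a = c := by
    intro A hA
    have := sgs_cst (W := V × V) X hX Prod.fst hδ (fun a p hp q hq => (hS A hA a p hp q hq).1)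
    rwa [e1] at this
  have c2 : ∀ A ∈ 𝒮, ∃ g ∈ h' :: hs', ∃ c : ZMod 2, ∀ a ∈ A, g a = c := by
    intro A hA
    have := sgs_cst (W := V × V) X hX Prod.snd hδ (fun a p hp q hq => (hS A hA a p hp q hq).2)
    rwa [e1'] at this
  have a1 := (pSC V V).Comm_S h hs c1
  have a2 := (pSC V V).Comm_S h' hs' c2
  rw [e2] at a1
  rw [e2'] at a2
  rw [DX, e1, e1']
  exact SC.Comm.add _ a1 a2

lemma tmul_sm {X Y : Fin (k + 1) → V → ℝ} {ρ δ : ℝ} {A B : Set V}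
    (hAB : ∀ x ∈ A, ∀ y ∈ B, ∃ a, ρ ≤ |X a x - X a y| ∨ ρ ≤ |Y a x - Y a y|) {a b n : ℕ}
    (hn : a + b = n) {z w : Ch V} (hz : z ∈ CK (Sm A (Dc X Y δ)) (a + 1))
    (hw : w ∈ CK (Sm B (Dc X Y δ)) (b + 1)) :
    z ⊗ₜ[ZMod 2] w ∈ (pSC V V).sm (SS X Y ρ δ) n := by
  refine CK_induction ((TensorProduct.mk (ZMod 2) (Ch V) (Ch V)).flip w) _
    (fun σ h1 h2 => ?_) hz
  show single σ 1 ⊗ₜ[ZMod 2] w ∈ _
  refine CK_induction (TensorProduct.mk (ZMod 2) (Ch V) (Ch V) (single σ 1)) _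
    (fun τ h3 h4 => ?_) hw
  show single σ 1 ⊗ₜ[ZMod 2] single τ 1 ∈ _
  have hA : {p : V × V | p.1 ∈ σ ∧ p.2 ∈ τ} ∈ SS X Y ρ δ := by
    refine ⟨fun p hp q hq => ⟨h2.2 _ hp.1 _ hq.1, h4.2 _ hp.2 _ hq.2⟩, fun p hp => ?_⟩
    exact hAB _ (h2.1 _ hp.1) _ (h4.1 _ hp.2)
  refine (pSC V V).gr_le_sm hA ?_
  refine single2_mem ?_ ?_ (by omega) (fun x hx y hy => ⟨hx, hy⟩)
  · rintro rfl; simp at h1
  · rintro rfl; simp at h3

/-- main vanishing statement. -/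
theorem iso_main (hk : 1 ≤ k) (X Y : Fin (k + 1) → V → ℝ) (hX : ∀ v, ∑ a, X a v ^ 2 = 1)
    (hY : ∀ v, ∑ a, Y a v ^ 2 = 1) {ρ : ℝ} (hρ : 0 < ρ) (hρ1 : ρ ≤ 1) {δ : ℝ}
    (hδ : δ = ρ / (64 * ((k : ℝ) + 1))) {A B : Set V}
    (hAB : ∀ x ∈ A, ∀ y ∈ B, ∃ a, ρ ≤ |X a x - X a y| ∨ ρ ≤ |Y a x - Y a y|) {a b : ℕ}
    (hn : a + b = 2 * k) {z w : Ch V} (hz : z ∈ CK (Sm A (Dc X Y δ)) (a + 1))
    (hw : w ∈ CK (Sm B (Dc X Y δ)) (b + 1)) (cz : bdu z = 0) (cw : bdu w = 0) :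
    aug2 (DX X (DX Y (z ⊗ₜ[ZMod 2] w))) = 0 := by
  have hk0 : (0 : ℝ) < (k : ℝ) + 1 := by positivity
  have hk1 : (1 : ℝ) ≤ (k : ℝ) + 1 := by
    have : (0 : ℝ) ≤ k := by positivity
    linarith
  have hδ0 : 0 < δ := by rw [hδ]; positivity
  have hδρ : δ ≤ ρ / 64 := by
    rw [hδ]
    apply div_le_div_of_nonneg_left hρ.le (by norm_num)
    nlinarith
  have hδ1 : δ ≤ 1 / (4 * ((k : ℝ) + 1)) := by
    rw [hδ, div_le_div_iff₀ (by positivity) (by positivity)]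
    nlinarith
  have hhalf : (ρ / 2) / (32 * ((k : ℝ) + 1)) = δ := by rw [hδ]; field_simp; norm_num
  obtain ⟨E₁, e₁, n₁⟩ := D_null hk X hX (ρ := ρ / 2) (by positivity)
  obtain ⟨E₂, e₂, n₂⟩ := D_null hk Y hY (ρ := ρ / 2) (by positivity)
  rw [hhalf] at n₁ n₂
  have hcov : ∀ A ∈ SS X Y ρ δ, A ∈ OffD X (ρ / 2) δ ∨ A ∈ OffD Y (ρ / 2) δ := by
    intro A hA
    by_cases hne : ∃ p, p ∈ A
    · obtain ⟨p, hp⟩ := hne
      obtain ⟨a, ha | ha⟩ := hA.2 p hp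
      · left
        refine ⟨fun a p hp q hq => ⟨((hA.1 p hp q hq).1 a).1, ((hA.1 p hp q hq).2 a).1⟩,
          fun q hq => ⟨a, ?_⟩⟩
        have h1 := abs_lt.1 ((hA.1 p hp q hq).1 a).1
        have h2 := abs_lt.1 ((hA.1 p hp q hq).2 a).1
        rcases le_abs.1 ha with h | h
        · refine le_trans ?_ (le_abs_self _); linarith
        · refine le_trans ?_ (neg_le_abs _); linarith
      · right
        refine ⟨fun a p hp q hq => ⟨((hA.1 p hp q hq).1 a).2, ((hA.1 p hp q hq).2 a).2⟩,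
          fun q hq => ⟨a, ?_⟩⟩
        have h1 := abs_lt.1 ((hA.1 p hp q hq).1 a).2
        have h2 := abs_lt.1 ((hA.1 p hp q hq).2 a).2
        rcases le_abs.1 ha with h | h
        · refine le_trans ?_ (le_abs_self _); linarith
        · refine le_trans ?_ (neg_le_abs _); linarith
    · left
      exact ⟨fun a p hp => absurd ⟨p, hp⟩ hne, fun p hp => absurd ⟨p, hp⟩ hne⟩
  have c₁ : (pSC V V).Comm (SS X Y ρ δ) k (DX X) := DX_comm X hX hδ1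
    (fun A hA a p hp q hq => ⟨((hA.1 p hp q hq).1 a).1, ((hA.1 p hp q hq).2 a).1⟩)
  have c₂ : (pSC V V).Comm (SS X Y ρ δ) k (DX Y) := DX_comm Y hY hδ1
    (fun A hA a p hp q hq => ⟨((hA.1 p hp q hq).1 a).2, ((hA.1 p hp q hq).2 a).2⟩)
  have hsm := tmul_sm hAB hn hz hw
  have hdz : d2 (z ⊗ₜ[ZMod 2] w) = 0 := by rw [d2_tmul, cz, cw]; simp
  set G := (pSC V V).lsG (DX X) (DX Y) E₁ E₂ with hG
  have key : DX X (DX Y (z ⊗ₜ[ZMod 2] w)) = d2 (G (z ⊗ₜ[ZMod 2] w)) + G (d2 (z ⊗ₜ[ZMod 2] w)) := by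
    have := (pSC V V).sm_eq (𝒮 := SS X Y ρ δ) (n := 2 * k) (DX X ∘ₗ DX Y) (d2 ∘ₗ G + G ∘ₗ d2)
      (fun A hA z hz => (pSC V V).ls hcov hk hk (DX_loc X) (DX_loc Y) c₁ c₂ e₁ e₂ n₁ n₂
        (m := 0) (by omega) hA hz) hsm
    exact this
  rw [key, hdz, map_zero, add_zero]
  exact aug2_d2 _

end

section

variable {V : Type*} {k : ℕ}

lemma sgs_cons2 (hk : 1 ≤ k) (X : Fin (k + 1) → V → ℝ) :
    ∃ h h' hs, sgs X = h :: h' :: hs ∧ (h' :: hs).length = k := by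
  obtain ⟨h, hs, e1, e2⟩ := sgs_cons X
  rcases hs with _ | ⟨h', hs⟩
  · simp at e2; omega
  · exact ⟨h, h', hs, e1, e2⟩

lemma Sgs_mem {P : List V → Prop} (hP : SubClosed P) (X : Fin (k + 1) → V → ℝ) {n N : ℕ}
    (hN : N = n + k) {z : Ch V} (hz : z ∈ CK P N) : Sop (sgs X) z ∈ CK P n := by
  obtain ⟨h, hs, e1, e2⟩ := sgs_cons X
  subst hN
  rw [e1]
  rw [← e2] at hz
  exact Sop_mem_CK hP h hs hz

/-- isotropy: middle dimensional cycles. -/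
theorem iso_kk (hk : 1 ≤ k) (X Y : Fin (k + 1) → V → ℝ) (hX : ∀ v, ∑ a, X a v ^ 2 = 1)
    (hY : ∀ v, ∑ a, Y a v ^ 2 = 1) {ρ : ℝ} (hρ : 0 < ρ) (hρ1 : ρ ≤ 1) {δ : ℝ}
    (hδ : δ = ρ / (64 * ((k : ℝ) + 1))) {A B : Set V}
    (hAB : ∀ x ∈ A, ∀ y ∈ B, ∃ a, ρ ≤ |X a x - X a y| ∨ ρ ≤ |Y a x - Y a y|)
    {z w : Ch V} (hz : z ∈ CK (Sm A (Dc X Y δ)) (k + 1))
    (hw : w ∈ CK (Sm B (Dc X Y δ)) (k + 1)) (cz : bd z = 0) (cw : bd w = 0) :
    augL (Sop (sgs Y) z) * augL (Sop (sgs X) w) + augL (Sop (sgs X) z) * augL (Sop (sgs Y) w)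
      = 0 := by
  have cz' : bdu z = 0 := by rw [bdu_apply, augL_apply, cz]; simp
  have cw' : bdu w = 0 := by rw [bdu_apply, augL_apply, cw]; simp
  have main := iso_main hk X Y hX hY hρ hρ1 hδ hAB (by omega) hz hw cz' cw'
  have hPA := Sm_subClosed A (Dc X Y δ)
  have hPB := Sm_subClosed B (Dc X Y δ)
  obtain ⟨h, h', hs, e1, e2⟩ := sgs_cons2 hk X
  obtain ⟨g, g', gs, f1, f2⟩ := sgs_cons2 hk Y
  have hz0 : z ∈ CK (Sm A (Dc X Y δ)) (0 + (g' :: gs).length + 1) := by rw [f2, zero_add]; exact hz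
  have hw0 : w ∈ CK (Sm B (Dc X Y δ)) (0 + (g' :: gs).length + 1) := by rw [f2, zero_add]; exact hw
  have hz1 : z ∈ CK (Sm A (Dc X Y δ)) (0 + (h' :: hs).length + 1) := by rw [e2, zero_add]; exact hz
  have hw1 : w ∈ CK (Sm B (Dc X Y δ)) (0 + (h' :: hs).length + 1) := by rw [e2, zero_add]; exact hw
  have mz : Sop (sgs Y) z ∈ CK (Sm A (Dc X Y δ)) 1 := Sgs_mem hPA Y (by omega) hz
  have mw : Sop (sgs Y) w ∈ CK (Sm B (Dc X Y δ)) 1 := Sgs_mem hPB Y (by omega) hw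
  have E1 : DX Y (z ⊗ₜ[ZMod 2] w) = Sop (sgs Y) z ⊗ₜ w + z ⊗ₜ Sop (sgs Y) w := by
    rw [DX, LinearMap.add_apply, f1, S2_fst g (g' :: gs) hPA hPB hz0 hw,
      S2_snd g (g' :: gs) hPA hPB hw0 hz]
  have E2 : DX X (Sop (sgs Y) z ⊗ₜ[ZMod 2] w) = Sop (sgs Y) z ⊗ₜ Sop (sgs X) w := by
    rw [DX, LinearMap.add_apply, e1, S2_fst_zero h h' hs hPB mz hw,
      S2_snd h (h' :: hs) hPA hPB hw1 mz, zero_add]
  have E3 : DX X (z ⊗ₜ[ZMod 2] Sop (sgs Y) w) = Sop (sgs X) z ⊗ₜ Sop (sgs Y) w := by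
    rw [DX, LinearMap.add_apply, e1, S2_snd_zero h h' hs hPA mw hz,
      S2_fst h (h' :: hs) hPA hPB hz1 mw, add_zero]
  rw [E1, map_add, E2, E3, map_add, aug2_tmul, aug2_tmul] at main
  exact main

/-- the degree of a top dimensional cycle missing a point is zero. -/
theorem iso_top (hk : 1 ≤ k) (X Y : Fin (k + 1) → V → ℝ) (hX : ∀ v, ∑ a, X a v ^ 2 = 1)
    (hY : ∀ v, ∑ a, Y a v ^ 2 = 1) {ρ : ℝ} (hρ : 0 < ρ) (hρ1 : ρ ≤ 1) {δ : ℝ}
    (hδ : δ = ρ / (64 * ((k : ℝ) + 1))) {A : Set V} (q : V)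
    (hAq : ∀ x ∈ A, ∃ a, ρ ≤ |X a x - X a q| ∨ ρ ≤ |Y a x - Y a q|)
    {z : Ch V} (hz : z ∈ CK (Sm A (Dc X Y δ)) (2 * k + 1)) (cz : bd z = 0) :
    augL (Sop (sgs X) (Sop (sgs Y) z)) = 0 := by
  have cz' : bdu z = 0 := by rw [bdu_apply, augL_apply, cz]; simp
  have hδ0 : 0 < δ := by rw [hδ]; positivity
  have hw : single [q] (1 : ZMod 2) ∈ CK (Sm {q} (Dc X Y δ)) (0 + 1) := by
    refine single_mem_CK rfl ⟨?_, ?_⟩ 1
    · intro x hx
      simpa using hx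
    · intro x hx y hy
      rw [List.mem_singleton] at hx hy
      subst hx; subst hy
      intro a
      simp [hδ0]
  have cw' : bdu (single [q] (1 : ZMod 2)) = 0 := bdu_one (by simpa using hw)
  have main := iso_main hk X Y hX hY hρ hρ1 hδ (B := {q})
    (by intro x hx y hy; rw [Set.mem_singleton_iff] at hy; subst hy; exact hAq x hx)
    (by omega) hz hw cz' cw'
  have hPA := Sm_subClosed A (Dc X Y δ)
  have hPB := Sm_subClosed {q} (Dc X Y δ)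
  obtain ⟨h, h', hs, e1, e2⟩ := sgs_cons2 hk X
  obtain ⟨g, g', gs, f1, f2⟩ := sgs_cons2 hk Y
  have mz : Sop (sgs Y) z ∈ CK (Sm A (Dc X Y δ)) (k + 1) := Sgs_mem hPA Y (by omega) hz
  have E1 : DX Y (z ⊗ₜ[ZMod 2] single [q] 1) = Sop (sgs Y) z ⊗ₜ single [q] 1 := by
    rw [DX, LinearMap.add_apply, f1,
      S2_fst g (g' :: gs) (n := k) hPA hPB (by rw [f2]; convert hz using 2; omega) hw,
      S2_snd_zero g g' gs hPA (by simpa using hw) hz, add_zero]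
  have E2 : DX X (Sop (sgs Y) z ⊗ₜ[ZMod 2] single [q] 1) =
      Sop (sgs X) (Sop (sgs Y) z) ⊗ₜ single [q] 1 := by
    rw [DX, LinearMap.add_apply, e1,
      S2_fst h (h' :: hs) (n := 0) hPA hPB (by rw [e2, zero_add]; exact mz) hw,
      S2_snd_zero h h' hs hPA (by simpa using hw) mz, add_zero]
  rw [E1, E2, aug2_tmul, augL_single_one, mul_one] at main
  exact main

end

end Pool.Agent.TightEmb
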