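import Pool.Agent.TightEmb.Sign

/-!
The list complex as a sign complex; its involutions; general carrier lemma.
-/

set_option linter.unusedSimpArgs false

namespace Pool.Agent.TightEmb

open Finsupp

variable {V W : Type*}

lemma mL_add (h h' : V → ZMod 2) (z : Ch V) : mL (h + h') z = mL h z + mL h' z := by
  have : mL (h + h') = mL h + mL h' := by
    apply lin_ext
    intro l
    cases l with
    | nil => simp
    | cons x l =>
      simp only [mL_single_cons, LinearMap.add_apply, Pi.add_apply, add_smul]
  simpa using LinearMap.congr_fun this z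

lemma mL_mul (h h' : V → ZMod 2) (z : Ch V) : mL (h * h') z = mL h (mL h' z) := by
  have : mL (h * h') = mL h ∘ₗ mL h' := by
    apply lin_ext
    intro l
    cases l with
    | nil => simp
    | cons x l =>
      rw [LinearMap.comp_apply, mL_single_cons, mL_single_cons, map_smul, mL_single_cons,
        smul_smul, Pi.mul_apply, mul_comm]
  simpa using LinearMap.congr_fun this z

lemma mL_const {n : ℕ} {A : Set V} {z : Ch V} {h : V → ZMod 2} {c : ZMod 2}
    (hz : z ∈ CK (fun l => ∀ x ∈ l, x ∈ A) (n + 1)) (hc : ∀ a ∈ A, h a = c) :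
    mL h z = c • z := by
  refine CK_eq (mL h) (c • LinearMap.id) (fun l h1 h2 => ?_) hz
  cases l with
  | nil => simp at h1
  | cons x l =>
    rw [mL_single_cons, hc x (h2 x (by simp))]
    rfl

/-- augmentation: number of one element lists modulo two. -/
noncomputable def augL : Ch V →ₗ[ZMod 2] ZMod 2 := Finsupp.lapply [] ∘ₗ bd

lemma augL_apply (z : Ch V) : augL z = (bd z) [] := rfl

@[simp] lemma augL_single_one (x : V) (c : ZMod 2) : augL (single [x] c) = c := by
  rw [augL_apply, bd_single_cons]
  simp

lemma augL_bd (z : Ch V) : augL (bd z) = 0 := by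
  rw [augL_apply, bd_bd]; rfl

/-- the list complex. -/
noncomputable def lSC (V : Type*) : SC V (Ch V) where
  d := bd
  aug := augL
  m := mL
  gr := fun n A => CK (fun l => ∀ x ∈ l, x ∈ A) (n + 1)
  gr_mono := fun {_ _ _} h => CK_mono (fun _ hl x hx => h (hl x hx)) _
  d_mem := fun {_ _ _} hz => bd_mem_CK (fun _ _ h h' x hx => h' x (h.subset hx)) hz
  m_mem := fun {_ _ _} h hz => mL_mem_CK h hz
  dd := bd_bd
  aug_d := fun {_ _ z} _ => augL_bd z
  m_const := fun {_ _ _ _ _} hz hc => mL_const hz hc
  m_add := mL_add
  m_mul := mL_mul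

lemma lSC_L (hs : List (V → ZMod 2)) : (lSC V).L hs = Lw hs := by
  induction hs with
  | nil => rfl
  | cons h hs ih => rw [SC.L, ih]; rfl

lemma lSC_S (hs : List (V → ZMod 2)) : (lSC V).S hs = Sop hs := by
  cases hs with
  | nil => rfl
  | cons h hs => rw [SC.S, lSC_L]; rfl

@[simp] lemma lSC_d (z : Ch V) : (lSC V).d z = bd z := rfl
@[simp] lemma lSC_aug (z : Ch V) : (lSC V).aug z = augL z := rfl
@[simp] lemma lSC_m (h : V → ZMod 2) (z : Ch V) : (lSC V).m h z = mL h z := rfl

/-- the small sets inside `Ω`. -/
def SmS (Ω : Set V) (D : V → V → Prop) : Set (Set V) :=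
  {A | A ⊆ Ω ∧ ∀ x ∈ A, ∀ y ∈ A, D x y}

lemma CK_Sm_eq (Ω : Set V) (D : V → V → Prop) (n : ℕ) :
    CK (Sm Ω D) (n + 1) = (lSC V).sm (SmS Ω D) n := by
  apply le_antisymm
  · intro z hz
    have := CK_induction (P := Sm Ω D) (n := n + 1) LinearMap.id ((lSC V).sm (SmS Ω D) n)
      (fun l h1 h2 => by
        have hA : {x | x ∈ l} ∈ SmS Ω D := ⟨fun x hx => h2.1 x hx, fun x hx y hy => h2.2 x hx y hy⟩
        refine (lSC V).gr_le_sm hA ?_
        exact single_mem_CK h1 (fun x hx => hx) 1) hz
    exact this
  · refine (lSC V).sm_le (fun A hA => ?_)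
    refine CK_mono (fun l hl => ⟨fun x hx => hA.1 (hl x hx), fun x hx y hy => ?_⟩) (n + 1)
    exact hA.2 x (hl x hx) y (hl y hy)

lemma mapL_nil (g : V → W) (z : Ch V) : (mapL g z) [] = z [] := by
  have : Finsupp.lapply [] ∘ₗ mapL g = (Finsupp.lapply [] : Ch V →ₗ[ZMod 2] ZMod 2) := by
    apply lin_ext
    intro l
    cases l with
    | nil => simp
    | cons x l => simp [Finsupp.single_apply]
  exact LinearMap.congr_fun this z

lemma mapL_mL (g : V → W) (h : W → ZMod 2) (z : Ch V) :
    mL h (mapL g z) = mapL g (mL (h ∘ g) z) := by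
  have : mL h ∘ₗ mapL g = mapL g ∘ₗ mL (h ∘ g) := by
    apply lin_ext
    intro l
    cases l with
    | nil => simp
    | cons x l =>
      simp only [LinearMap.comp_apply, mapL_single, List.map_cons, mL_single_cons, map_smul,
        Function.comp_apply]
  exact LinearMap.congr_fun this z

lemma mapL_lL (g : V → W) (h : W → ZMod 2) (z : Ch V) :
    lL h (mapL g z) = mapL g (lL (h ∘ g) z) := by
  simp only [lL_apply, mapL_mL, bd_mapL, map_add]

lemma mapL_Lw (g : V → W) (hs : List (W → ZMod 2)) (z : Ch V) :
    Lw hs (mapL g z) = mapL g (Lw (hs.map (· ∘ g)) z) := by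
  induction hs generalizing z with
  | nil => rfl
  | cons h hs ih => simp only [Lw, LinearMap.comp_apply, List.map_cons, mapL_lL, ih]

lemma mapL_Sop (g : V → W) (hs : List (W → ZMod 2)) (z : Ch V) :
    Sop hs (mapL g z) = mapL g (Sop (hs.map (· ∘ g)) z) := by
  cases hs with
  | nil => rfl
  | cons h hs => simp only [Sop, LinearMap.comp_apply, List.map_cons, mapL_mL, mapL_Lw]

lemma augL_mapL (g : V → W) (z : Ch V) : augL (mapL g z) = augL z := by
  rw [augL_apply, bd_mapL, mapL_nil]; rfl

/-- the involution of the list complex induced by an involution of the vertices. -/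
noncomputable def lInv (T : V → V) (hT : ∀ v, T (T v) = v) : Invol (lSC V) where
  T := T
  t := mapL T
  TT := hT
  tt := by
    intro z
    rw [mapL_mapL]
    have : T ∘ T = id := by funext v; simp [hT]
    rw [this, mapL_id]
  td := fun z => (bd_mapL T z).symm
  tm := by
    intro h z
    show mapL T (mL h z) = mL (h ∘ T) (mapL T z)
    rw [mapL_mL]
    congr 3
    funext v
    simp [hT]
  taug := augL_mapL T
  t_mem := by
    intro n A z hz
    refine mapL_mem_CK (fun l _ hl => ?_) hz
    intro x hx
    rw [List.mem_map] at hx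
    obtain ⟨y, hy, rfl⟩ := hx
    exact ⟨y, hl y hy, rfl⟩

@[simp] lemma lInv_T (T : V → V) (hT : ∀ v, T (T v) = v) : (lInv T hT).T = T := rfl
@[simp] lemma lInv_t (T : V → V) (hT : ∀ v, T (T v) = v) (z : Ch V) :
    (lInv T hT).t z = mapL T z := rfl

/-! ### general carrier lemma -/

section gcl

variable {U Q : Type*} [AddCommGroup Q] [Module (ZMod 2) Q]

lemma mem_heads {P : List U → Prop} (hP : SubClosed P) {l : List U} (hl : P l) :
    bd (single l 1) ∈ CK (fun l' => P l' ∧ ∀ x ∈ l', x ∈ l) (l.length - 1) := by
  rw [mem_CK]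
  intro l' hl'
  obtain ⟨h3, h4⟩ := bd_single_mem l 1 l' hl'
  exact ⟨by omega, hP l l' h4 hl, fun x hx => h4.subset hx⟩

theorem gcl (d : Q →ₗ[ZMod 2] Q) (s : Q →ₗ[ZMod 2] ZMod 2) (q0 : Q)
    (T : U → U) (TT : ∀ u, T (T u) = u) (t : Q →ₗ[ZMod 2] Q)
    (tt : ∀ z, t (t z) = z) (td : ∀ z, t (d z) = d (t z)) (ts : ∀ z, s (t z) = s z)
    (tq0 : t q0 = q0) (P : List U → Prop) (hP : SubClosed P) (hPT : ∀ l, P l → P (l.map T))
    (F0 : Set U) (hF : (∀ u, u ∈ F0) ∨ (∀ u, P [u] → (u ∈ F0 ↔ T u ∉ F0)))
    (car : ℕ → U → Submodule (ZMod 2) Q) (hct : ∀ n u z, z ∈ car n u → t z ∈ car n (T u))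
    (base : ∀ u, P [u] → ∃ q ∈ car 0 u, d q = q0 ∧ s q = 1) (J : ℕ)
    (fill : ∀ n, n < J → ∀ (u : U) (l : List U), P (u :: l) → l.length = n + 1 →
      ∀ z ∈ ⨆ v ∈ {v | v ∈ u :: l}, car n v, d z = 0 → (n = 0 → s z = 0) →
      ∃ y ∈ car (n + 1) u, d y = z) :
    ∃ Φ : Ch U →ₗ[ZMod 2] Q, Φ (single [] 1) = q0 ∧
      (∀ n, n ≤ J → ∀ u l, P (u :: l) → l.length = n → Φ (single (u :: l) 1) ∈ car n u) ∧
      (∀ n, n ≤ J → ∀ z ∈ CK P (n + 1), d (Φ z) = Φ (bd z)) ∧
      (∀ u, P [u] → s (Φ (single [u] 1)) = 1) ∧
      ((∀ u, P [u] → (u ∈ F0 ↔ T u ∉ F0)) → ∀ n, n ≤ J → ∀ z ∈ CK P (n + 1),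
        Φ (mapL T z) = t (Φ z)) := by
  classical
  have hPh : ∀ u l, P (u :: l) → P [u] := fun u l h => hP _ _ (by simp) h
  induction J with
  | zero =>
    choose! q hq1 hq2 hq3 using base
    set g : List U → Q := fun l => match l with
      | [] => q0
      | [u] => if u ∈ F0 then q u else t (q (T u))
      | _ => 0 with hg
    have hgT : ∀ u, P [u] → P [T u] := fun u hu => by simpa using hPT [u] hu
    have key : ∀ l, Finsupp.linearCombination (ZMod 2) g (single l 1) = g l := by
      intro l; simp
    have kd : ∀ u, P [u] → d (g [u]) = q0 := by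
      intro u hu
      show d (if u ∈ F0 then q u else t (q (T u))) = q0
      split_ifs with h
      · exact hq2 u hu
      · rw [← td, hq2 _ (hgT u hu), tq0]
    refine ⟨Finsupp.linearCombination (ZMod 2) g, by rw [key], ?_, ?_, ?_, ?_⟩
    · intro n hn u l hl hln
      have : l = [] := List.eq_nil_of_length_eq_zero (by omega)
      subst this
      have : n = 0 := by omega
      subst this
      rw [key]
      show (if u ∈ F0 then q u else t (q (T u))) ∈ car 0 u
      split_ifs with h
      · exact hq1 u hl
      · have := hct 0 (T u) _ (hq1 (T u) (hgT u hl))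
        rwa [TT] at this
    · intro n hn z hz
      have : n = 0 := by omega
      subst this
      refine CK_eq (d ∘ₗ Finsupp.linearCombination (ZMod 2) g)
        (Finsupp.linearCombination (ZMod 2) g ∘ₗ bd) (fun l h1 h2 => ?_) hz
      obtain ⟨u, rfl⟩ : ∃ u, l = [u] := List.length_eq_one_iff.1 (by omega)
      simp only [LinearMap.comp_apply]
      rw [key, kd u h2, bd_single_cons, bd_single_nil, map_zero, add_zero, key]
    · intro u hu
      rw [key]
      show s (if u ∈ F0 then q u else t (q (T u))) = 1
      split_ifs with h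
      · exact hq3 u hu
      · rw [ts, hq3 _ (hgT u hu)]
    · intro hF' n hn z hz
      have : n = 0 := by omega
      subst this
      refine CK_eq (Finsupp.linearCombination (ZMod 2) g ∘ₗ mapL T)
        (t ∘ₗ Finsupp.linearCombination (ZMod 2) g) (fun l h1 h2 => ?_) hz
      obtain ⟨u, rfl⟩ : ∃ u, l = [u] := List.length_eq_one_iff.1 (by omega)
      simp only [LinearMap.comp_apply]
      rw [key, mapL_single, key]
      show (if T u ∈ F0 then q (T u) else t (q (T (T u)))) = t (if u ∈ F0 then q u else t (q (T u)))
      by_cases h : u ∈ F0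
      · rw [if_pos h, if_neg ((hF' u h2).1 h), TT]
      · rw [if_neg h, if_pos (by by_contra h'; exact h ((hF' u h2).2 h')), tt]
  | succ J ih =>
    obtain ⟨Φ, h1, h2, h3, h4, h5⟩ := ih (fun n hn => fill n (by omega))
    have hfl : ∀ l : List U, P l → l.length = J + 2 → ∀ u, l.head? = some u →
        ∃ y ∈ car (J + 1) u, d y = Φ (bd (single l 1)) := by
      intro l hl hlen u hu
      cases l with
      | nil => simp at hlen
      | cons v l =>
        simp only [List.head?_cons, Option.some.injEq] at hu
        subst hu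
        have hm := mem_heads hP hl
        have hm' : bd (single (v :: l) 1) ∈ CK P (J + 1) := by
          have : (v :: l).length - 1 = J + 1 := by omega
          rw [this] at hm
          exact CK_mono (fun _ h => h.1) _ hm
        refine fill J (by omega) v l hl (by simpa using hlen) _ ?_ ?_ ?_
        · refine CK_induction Φ _ (fun l' h1' h2' => ?_) hm
          cases l' with
          | nil =>
            simp at h1'
            simp at hlen
            omega
          | cons w l' =>
            have hw : w ∈ v :: l := h2'.2 w (by simp)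
            have := h2 J le_rfl w l' h2'.1 (by simp at h1' hlen; omega)
            exact Submodule.mem_iSup_of_mem w (Submodule.mem_iSup_of_mem hw this)
        · rw [h3 J le_rfl _ hm', bd_bd, map_zero]
        · intro hJ
          subst hJ
          obtain ⟨w, rfl⟩ : ∃ w, l = [w] := List.length_eq_one_iff.1 (by simpa using hlen)
          have e : bd (single [v, w] (1 : ZMod 2)) = single [w] 1 + single [v] 1 := by
            rw [bd_single_cons, bd_single_cons]
            simp
          rw [e, map_add, map_add, h4 w (hP _ _ (by simp) hl), h4 v (hP _ _ (by simp) hl),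
            add_self']
    choose! y hy1 hy2 using hfl
    set g : List U → Q := fun l => if l.length ≤ J + 1 then Φ (single l 1) else
      match l with
      | [] => 0
      | (u :: l') => if u ∈ F0 then y (u :: l') u else t (y ((u :: l').map T) (T u)) with hg
    have key : ∀ l, Finsupp.linearCombination (ZMod 2) g (single l 1) = g l := by
      intro l; simp
    have keyle : ∀ n, n ≤ J + 1 → ∀ z, ∀ P', z ∈ CK P' n →
        Finsupp.linearCombination (ZMod 2) g z = Φ z := by
      intro n hn z P' hz
      refine CK_eq _ _ (fun l h1' _ => ?_) hz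
      rw [key, hg]
      simp only
      rw [if_pos (by omega)]
    have gtop : ∀ u l, l.length = J + 1 → g (u :: l) =
        if u ∈ F0 then y (u :: l) u else t (y ((u :: l).map T) (T u)) := by
      intro u l hl
      rw [hg]
      simp only
      rw [if_neg (by simp; omega)]
    have hdtop : ∀ u l, P (u :: l) → l.length = J + 1 →
        d (g (u :: l)) = Φ (bd (single (u :: l) 1)) := by
      intro u l hl hlen
      rw [gtop u l hlen]
      split_ifs with h
      · exact hy2 (u :: l) hl (by simp; omega) u rfl
      · have hF' : ∀ u, P [u] → (u ∈ F0 ↔ T u ∉ F0) := by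
          rcases hF with hF | hF
          · exact absurd (hF u) h
          · exact hF
        rw [← td, hy2 ((u :: l).map T) (hPT _ hl) (by simp; omega) (T u) (by simp),
          ← mapL_single, bd_mapL, h5 hF' J le_rfl _ ?_, tt]
        have hm := mem_heads hP hl
        have : (u :: l).length - 1 = J + 1 := by simp; omega
        rw [this] at hm
        exact CK_mono (fun _ h => h.1) _ hm
    refine ⟨Finsupp.linearCombination (ZMod 2) g, ?_, ?_, ?_, ?_, ?_⟩
    · rw [key]
      show (if ([] : List U).length ≤ J + 1 then Φ (single [] 1) else _) = q0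
      rw [if_pos (by simp), h1]
    · intro n hn u l hl hlen
      rcases Nat.lt_or_ge n (J + 1) with hn' | hn'
      · rw [keyle (n + 1) (by omega) _ (fun _ => True) (single_mem_CK (by simp [hlen]) trivial 1)]
        exact h2 n (by omega) u l hl hlen
      · have : n = J + 1 := by omega
        subst this
        rw [key, gtop u l hlen]
        split_ifs with h
        · exact hy1 (u :: l) hl (by simp; omega) u rfl
        · have := hct (J + 1) (T u) _ (hy1 ((u :: l).map T) (hPT _ hl) (by simp; omega) (T u)
            (by simp))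
          rwa [TT] at this
    · intro n hn z hz
      rcases Nat.lt_or_ge n (J + 1) with hn' | hn'
      · rw [keyle (n + 1) (by omega) _ _ hz, keyle n (by omega) _ _ (bd_mem_CK hP hz)]
        exact h3 n (by omega) z hz
      · have : n = J + 1 := by omega
        subst this
        rw [keyle (J + 1) le_rfl _ _ (bd_mem_CK hP hz)]
        refine CK_eq (d ∘ₗ Finsupp.linearCombination (ZMod 2) g) (Φ ∘ₗ bd) (fun l h1' h2' => ?_) hz
        cases l with
        | nil => simp at h1'
        | cons u l =>
          simp only [LinearMap.comp_apply]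
          rw [key]
          exact hdtop u l h2' (by simpa using h1')
    · intro u hu
      rw [keyle 1 (by omega) _ (fun _ => True) (single_mem_CK (by simp) trivial 1)]
      exact h4 u hu
    · intro hF' n hn z hz
      have hzT : mapL T z ∈ CK P (n + 1) := mapL_mem_CK (fun l _ hl => hPT l hl) hz
      rcases Nat.lt_or_ge n (J + 1) with hn' | hn'
      · rw [keyle (n + 1) (by omega) _ _ hz, keyle (n + 1) (by omega) _ _ hzT]
        exact h5 hF' n (by omega) z hz
      · have : n = J + 1 := by omega
        subst this
        refine CK_eq (Finsupp.linearCombination (ZMod 2) g ∘ₗ mapL T)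
          (t ∘ₗ Finsupp.linearCombination (ZMod 2) g) (fun l h1' h2' => ?_) hz
        cases l with
        | nil => simp at h1'
        | cons u l =>
          have hlen : l.length = J + 1 := by simpa using h1'
          simp only [LinearMap.comp_apply]
          rw [key, mapL_single, key, List.map_cons, gtop _ _ hlen, gtop _ _ (by simpa using hlen)]
          have hu := hPh u l h2'
          have hTT : List.map T (T u :: List.map T l) = u :: l := by
            simp only [List.map_cons, TT, List.map_map]
            congr 1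
            conv_rhs => rw [← List.map_id l]
            apply List.map_congr_left
            intro a _
            simp [TT]
          by_cases h : u ∈ F0
          · rw [if_pos h, if_neg ((hF' u hu).1 h), hTT, TT]
          · rw [if_neg h, if_pos (by by_contra h'; exact h ((hF' u hu).2 h')), tt]
            simp only [List.map_cons]

end gcl

end Pool.Agent.TightEmb
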