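import Pool.Agent.TightEmb.Lists

/-!
The complex of pairs of lists (tensor product of the unaugmented list complexes), as a sign
complex on pairs of vertices; the swap involution; contraction onto a point.
-/

set_option linter.unusedSimpArgs false

namespace Pool.Agent.TightEmb

open Finsupp TensorProduct

variable {V W : Type*}

/-- forget the empty list. -/
noncomputable def nuL : Ch V →ₗ[ZMod 2] Ch V :=
  LinearMap.id + (Finsupp.lsingle []) ∘ₗ (Finsupp.lapply [])

lemma nuL_apply (z : Ch V) : nuL z = z + single [] (z []) := rfl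

/-- boundary of the unaugmented list complex. -/
noncomputable def bdu : Ch V →ₗ[ZMod 2] Ch V := nuL ∘ₗ bd

lemma bdu_apply (z : Ch V) : bdu z = bd z + single [] (augL z) := rfl

lemma bdu_bdu (z : Ch V) : bdu (bdu z) = 0 := by
  rw [bdu_apply, bdu_apply, map_add, bd_bd, bd_single_nil, zero_add, zero_add, augL_apply]
  rw [map_add, bd_bd, bd_single_nil]
  simp

lemma augL_bdu (z : Ch V) : augL (bdu z) = 0 := by
  rw [bdu_apply, map_add, augL_bd, augL_apply, bd_single_nil]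
  simp

lemma augL_CK {P : List V → Prop} {n : ℕ} {z : Ch V} (hz : z ∈ CK P (n + 2)) : augL z = 0 := by
  have : z ∈ CK P (n + 2) → augL z ∈ (⊥ : Submodule (ZMod 2) (ZMod 2)) :=
    CK_induction (augL : Ch V →ₗ[ZMod 2] ZMod 2) ⊥ (fun l h1 _ => by
      rw [Submodule.mem_bot]
      have h2 := bd_single_mem l (1 : ZMod 2)
      rw [augL_apply]
      by_contra hne
      have := h2 [] (by rw [Finsupp.mem_support_iff]; exact hne)
      simp at this
      omega)
  simpa using this hz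

lemma bdu_eq {P : List V → Prop} {n : ℕ} {z : Ch V} (hz : z ∈ CK P (n + 2)) : bdu z = bd z := by
  rw [bdu_apply, augL_CK hz]; simp

lemma bdu_one {P : List V → Prop} {z : Ch V} (hz : z ∈ CK P 1) : bdu z = 0 := by
  have : z ∈ CK P 1 → bdu z ∈ (⊥ : Submodule (ZMod 2) (Ch V)) :=
    CK_induction (bdu : Ch V →ₗ[ZMod 2] Ch V) ⊥ (fun l h1 _ => by
      obtain ⟨u, rfl⟩ : ∃ u, l = [u] := List.length_eq_one_iff.1 h1
      rw [Submodule.mem_bot, bdu_apply, bd_single_cons, bd_single_nil, map_zero, add_zero,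
        augL_single_one, add_self'])
  simpa using this hz

lemma bdu_mem {P : List V → Prop} (hP : SubClosed P) {n : ℕ} {z : Ch V} (hz : z ∈ CK P (n + 2)) :
    bdu z ∈ CK P (n + 1) := by
  rw [bdu_eq hz]; exact bd_mem_CK hP hz

lemma mapL_bdu (g : V → W) (z : Ch V) : bdu (mapL g z) = mapL g (bdu z) := by
  rw [bdu_apply, bdu_apply, map_add, bd_mapL, augL_mapL, mapL_single]; rfl

/-- pairs of lists. -/
abbrev Ch2 (V W : Type*) := Ch V ⊗[ZMod 2] Ch W

lemma add_self2 (z : Ch2 V W) : z + z = 0 := add_self' (M := Ch2 V W) z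

/-- boundary on pairs. -/
noncomputable def d2 : Ch2 V W →ₗ[ZMod 2] Ch2 V W :=
  TensorProduct.map bdu LinearMap.id + TensorProduct.map LinearMap.id bdu

@[simp] lemma d2_tmul (a : Ch V) (b : Ch W) : d2 (a ⊗ₜ[ZMod 2] b) = bdu a ⊗ₜ b + a ⊗ₜ bdu b := by
  simp [d2]

lemma ext2 {M : Type*} [AddCommMonoid M] [Module (ZMod 2) M] {f g : Ch2 V W →ₗ[ZMod 2] M}
    (h : ∀ σ τ, f (single σ 1 ⊗ₜ single τ 1) = g (single σ 1 ⊗ₜ single τ 1)) : f = g := by
  apply TensorProduct.ext
  apply lin_ext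
  intro σ
  apply lin_ext
  intro τ
  exact h σ τ

lemma d2_d2 (z : Ch2 V W) : d2 (d2 z) = 0 := by
  have : d2 ∘ₗ (d2 : Ch2 V W →ₗ[ZMod 2] Ch2 V W) = 0 := by
    apply TensorProduct.ext'
    intro a b
    simp only [LinearMap.comp_apply, d2_tmul, map_add, bdu_bdu, TensorProduct.zero_tmul,
      TensorProduct.tmul_zero, zero_add, add_zero, LinearMap.zero_apply]
    exact add_self' (M := Ch2 V W) _
  exact LinearMap.congr_fun this z

/-- augmentation on pairs. -/
noncomputable def aug2 : Ch2 V W →ₗ[ZMod 2] ZMod 2 :=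
  TensorProduct.lift ((LinearMap.mul (ZMod 2) (ZMod 2)).compl₁₂ augL augL)

@[simp] lemma aug2_tmul (a : Ch V) (b : Ch W) : aug2 (a ⊗ₜ[ZMod 2] b) = augL a * augL b := by
  simp [aug2]

lemma aug2_d2 (z : Ch2 V W) : aug2 (d2 z) = 0 := by
  have : aug2 ∘ₗ (d2 : Ch2 V W →ₗ[ZMod 2] Ch2 V W) = 0 := by
    apply TensorProduct.ext'
    intro a b
    simp only [LinearMap.comp_apply, d2_tmul, map_add, aug2_tmul, augL_bdu, zero_mul, mul_zero,
      add_zero, LinearMap.zero_apply]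
  exact LinearMap.congr_fun this z

/-- coefficient for the multiplication operator on pairs. -/
def kap (h : V × W → ZMod 2) : List V → List W → ZMod 2
  | x :: _, y :: _ => h (x, y)
  | _, _ => 0

/-- multiplication by the value of `h` at the heads. -/
noncomputable def m2 (h : V × W → ZMod 2) : Ch2 V W →ₗ[ZMod 2] Ch2 V W :=
  TensorProduct.lift (Finsupp.linearCombination (ZMod 2)
    (fun σ => Finsupp.linearCombination (ZMod 2)
      (fun τ => kap h σ τ • (single σ (1 : ZMod 2) ⊗ₜ[ZMod 2] single τ (1 : ZMod 2)))))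

lemma m2_single (h : V × W → ZMod 2) (σ : List V) (τ : List W) :
    m2 h (single σ 1 ⊗ₜ single τ 1) = kap h σ τ • (single σ 1 ⊗ₜ single τ 1) := by
  simp [m2]

/-- degree `n` chains of pairs supported in `A`. -/
noncomputable def gr2 (n : ℕ) (A : Set (V × W)) : Submodule (ZMod 2) (Ch2 V W) :=
  Submodule.span (ZMod 2) {q | ∃ (σ : List V) (τ : List W), σ ≠ [] ∧ τ ≠ [] ∧
    σ.length + τ.length = n + 2 ∧ (∀ x ∈ σ, ∀ y ∈ τ, (x, y) ∈ A) ∧
    q = single σ 1 ⊗ₜ single τ 1}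

lemma single2_mem {n : ℕ} {A : Set (V × W)} {σ : List V} {τ : List W} (h1 : σ ≠ []) (h2 : τ ≠ [])
    (h3 : σ.length + τ.length = n + 2) (h4 : ∀ x ∈ σ, ∀ y ∈ τ, (x, y) ∈ A) :
    single σ 1 ⊗ₜ single τ 1 ∈ gr2 n A := Submodule.subset_span ⟨σ, τ, h1, h2, h3, h4, rfl⟩

lemma gr2_le {n : ℕ} {A : Set (V × W)} {N : Submodule (ZMod 2) (Ch2 V W)}
    (h : ∀ (σ : List V) (τ : List W), σ ≠ [] → τ ≠ [] → σ.length + τ.length = n + 2 →
      (∀ x ∈ σ, ∀ y ∈ τ, (x, y) ∈ A) → single σ 1 ⊗ₜ single τ 1 ∈ N) : gr2 n A ≤ N := by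
  rw [gr2, Submodule.span_le]
  rintro _ ⟨σ, τ, h1, h2, h3, h4, rfl⟩
  exact h σ τ h1 h2 h3 h4

lemma gr2_eq {n : ℕ} {A : Set (V × W)} {M : Type*} [AddCommMonoid M] [Module (ZMod 2) M]
    (f g : Ch2 V W →ₗ[ZMod 2] M)
    (h : ∀ (σ : List V) (τ : List W), σ ≠ [] → τ ≠ [] → σ.length + τ.length = n + 2 →
      (∀ x ∈ σ, ∀ y ∈ τ, (x, y) ∈ A) → f (single σ 1 ⊗ₜ single τ 1) = g (single σ 1 ⊗ₜ single τ 1))
    {z : Ch2 V W} (hz : z ∈ gr2 n A) : f z = g z := by
  have : gr2 n A ≤ LinearMap.eqLocus f g := gr2_le fun σ τ h1 h2 h3 h4 => h σ τ h1 h2 h3 h4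
  exact this hz

lemma gr2_map {n : ℕ} {A : Set (V × W)} {M : Type*} [AddCommMonoid M] [Module (ZMod 2) M]
    {N : Submodule (ZMod 2) M} (f : Ch2 V W →ₗ[ZMod 2] M)
    (h : ∀ (σ : List V) (τ : List W), σ ≠ [] → τ ≠ [] → σ.length + τ.length = n + 2 →
      (∀ x ∈ σ, ∀ y ∈ τ, (x, y) ∈ A) → f (single σ 1 ⊗ₜ single τ 1) ∈ N)
    {z : Ch2 V W} (hz : z ∈ gr2 n A) : f z ∈ N := by
  have : gr2 n A ≤ N.comap f := gr2_le fun σ τ h1 h2 h3 h4 => h σ τ h1 h2 h3 h4
  exact this hz

lemma tmul_mem_gr2 {P : List V → Prop} {P' : List W → Prop} {a b n : ℕ} {A : Set (V × W)}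
    (h : ∀ σ, P σ → ∀ τ, P' τ → ∀ x ∈ σ, ∀ y ∈ τ, (x, y) ∈ A) (hn : a + b = n)
    {z : Ch V} {w : Ch W} (hz : z ∈ CK P (a + 1)) (hw : w ∈ CK P' (b + 1)) :
    z ⊗ₜ[ZMod 2] w ∈ gr2 n A := by
  refine CK_induction ((TensorProduct.mk (ZMod 2) (Ch V) (Ch W)).flip w) (gr2 n A)
    (fun σ h1 h2 => ?_) hz
  show single σ 1 ⊗ₜ[ZMod 2] w ∈ gr2 n A
  refine CK_induction (TensorProduct.mk (ZMod 2) (Ch V) (Ch W) (single σ 1)) (gr2 n A)
    (fun τ h3 h4 => ?_) hw
  show single σ 1 ⊗ₜ[ZMod 2] single τ 1 ∈ gr2 n A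
  refine single2_mem ?_ ?_ (by omega) (h σ h2 τ h4)
  · rintro rfl; simp at h1
  · rintro rfl; simp at h3

lemma single_self_CK (σ : List V) : single σ (1 : ZMod 2) ∈ CK (fun l => ∀ x ∈ l, x ∈ σ) σ.length :=
  single_mem_CK rfl (fun _ hx => hx) 1

lemma subClosed_mem (s : Set V) : SubClosed (fun l : List V => ∀ x ∈ l, x ∈ s) :=
  fun _ _ h h' x hx => h' x (h.subset hx)

lemma d2_mem {n : ℕ} {A : Set (V × W)} {z : Ch2 V W} (hz : z ∈ gr2 (n + 1) A) :
    d2 z ∈ gr2 n A := by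
  refine gr2_map d2 (fun σ τ h1 h2 h3 h4 => ?_) hz
  rw [d2_tmul]
  have hσ := single_self_CK σ
  have hτ := single_self_CK τ
  have e1 : 1 ≤ σ.length := by
    rcases σ with _ | ⟨x, σ⟩
    · exact absurd rfl h1
    · simp
  have e2 : 1 ≤ τ.length := by
    rcases τ with _ | ⟨x, τ⟩
    · exact absurd rfl h2
    · simp
  refine Submodule.add_mem _ ?_ ?_
  · rcases Nat.lt_or_ge σ.length 2 with h | h
    · have : σ.length = 1 := by omega
      rw [this] at hσ
      rw [bdu_one hσ, TensorProduct.zero_tmul]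
      exact Submodule.zero_mem _
    · obtain ⟨a, ha⟩ : ∃ a, σ.length = a + 2 := ⟨σ.length - 2, by omega⟩
      obtain ⟨b, hb⟩ : ∃ b, τ.length = b + 1 := ⟨τ.length - 1, by omega⟩
      rw [ha] at hσ
      rw [hb] at hτ
      exact tmul_mem_gr2 (fun σ' hσ' τ' hτ' x hx y hy => h4 x (hσ' x hx) y (hτ' y hy))
        (by omega) (bdu_mem (subClosed_mem {x | x ∈ σ}) hσ) hτ
  · rcases Nat.lt_or_ge τ.length 2 with h | h
    · have : τ.length = 1 := by omega
      rw [this] at hτ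
      rw [bdu_one hτ, TensorProduct.tmul_zero]
      exact Submodule.zero_mem _
    · obtain ⟨a, ha⟩ : ∃ a, σ.length = a + 1 := ⟨σ.length - 1, by omega⟩
      obtain ⟨b, hb⟩ : ∃ b, τ.length = b + 2 := ⟨τ.length - 2, by omega⟩
      rw [ha] at hσ
      rw [hb] at hτ
      exact tmul_mem_gr2 (fun σ' hσ' τ' hτ' x hx y hy => h4 x (hσ' x hx) y (hτ' y hy))
        (by omega) hσ (bdu_mem (subClosed_mem {x | x ∈ τ}) hτ)

/-- pairs of lists as a sign complex on pairs of vertices. -/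
noncomputable def pSC (V W : Type*) : SC (V × W) (Ch2 V W) where
  d := d2
  aug := aug2
  m := m2
  gr := gr2
  gr_mono := fun {_ _ _} h => gr2_le fun _ _ h1 h2 h3 h4 =>
    single2_mem h1 h2 h3 (fun x hx y hy => h (h4 x hx y hy))
  d_mem := fun {_ _ _} hz => d2_mem hz
  m_mem := fun {_ _ _} h hz => gr2_map (m2 h) (fun σ τ h1 h2 h3 h4 => by
    rw [m2_single]
    exact Submodule.smul_mem _ _ (single2_mem h1 h2 h3 h4)) hz
  dd := d2_d2
  aug_d := fun {_ _ _} _ => aug2_d2 _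
  m_const := by
    intro n A z h c hz hc
    refine gr2_eq (m2 h) (c • LinearMap.id) (fun σ τ h1 h2 h3 h4 => ?_) hz
    rw [m2_single]
    rcases σ with _ | ⟨x, σ⟩
    · exact absurd rfl h1
    rcases τ with _ | ⟨y, τ⟩
    · exact absurd rfl h2
    show h (x, y) • _ = _
    rw [hc (x, y) (h4 x (by simp) y (by simp))]
    rfl
  m_add := by
    intro h h' z
    have : m2 (h + h') = m2 h + m2 h' := by
      apply ext2
      intro σ τ
      rw [LinearMap.add_apply, m2_single, m2_single, m2_single, ← add_smul]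
      congr 1
      rcases σ with _ | ⟨x, σ⟩
      · simp [kap]
      rcases τ with _ | ⟨y, τ⟩
      · simp [kap]
      · simp [kap]
    exact LinearMap.congr_fun this z
  m_mul := by
    intro h h' z
    have : m2 (h * h') = m2 h ∘ₗ m2 h' := by
      apply ext2
      intro σ τ
      rw [LinearMap.comp_apply, m2_single, m2_single, map_smul, m2_single, smul_smul]
      congr 1
      rcases σ with _ | ⟨x, σ⟩
      · simp [kap]
      rcases τ with _ | ⟨y, τ⟩
      · simp [kap]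
      · simp [kap, mul_comm]
    exact LinearMap.congr_fun this z

@[simp] lemma pSC_d (z : Ch2 V W) : (pSC V W).d z = d2 z := rfl
@[simp] lemma pSC_aug (z : Ch2 V W) : (pSC V W).aug z = aug2 z := rfl
@[simp] lemma pSC_m (h : V × W → ZMod 2) (z : Ch2 V W) : (pSC V W).m h z = m2 h z := rfl

/-- the swap involution. -/
noncomputable def pInv (V : Type*) : Invol (pSC V V) where
  T := Prod.swap
  t := (TensorProduct.comm (ZMod 2) (Ch V) (Ch V)).toLinearMap
  TT := fun _ => rfl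
  tt := by
    intro z
    have : (TensorProduct.comm (ZMod 2) (Ch V) (Ch V)).toLinearMap ∘ₗ
        (TensorProduct.comm (ZMod 2) (Ch V) (Ch V)).toLinearMap = LinearMap.id := by
      apply TensorProduct.ext'
      intro a b
      simp
    exact LinearMap.congr_fun this z
  td := by
    intro z
    have : (TensorProduct.comm (ZMod 2) (Ch V) (Ch V)).toLinearMap ∘ₗ d2 =
        d2 ∘ₗ (TensorProduct.comm (ZMod 2) (Ch V) (Ch V)).toLinearMap := by
      apply TensorProduct.ext'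
      intro a b
      simp [add_comm]
    exact LinearMap.congr_fun this z
  tm := by
    intro h z
    have : (TensorProduct.comm (ZMod 2) (Ch V) (Ch V)).toLinearMap ∘ₗ m2 h =
        m2 (h ∘ Prod.swap) ∘ₗ (TensorProduct.comm (ZMod 2) (Ch V) (Ch V)).toLinearMap := by
      apply ext2
      intro σ τ
      simp only [LinearMap.comp_apply, m2_single, map_smul, LinearEquiv.coe_coe,
        TensorProduct.comm_tmul]
      congr 1
      rcases σ with _ | ⟨x, σ⟩
      · rcases τ with _ | ⟨y, τ⟩ <;> simp [kap]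
      rcases τ with _ | ⟨y, τ⟩
      · simp [kap]
      · simp [kap]
    exact LinearMap.congr_fun this z
  taug := by
    intro z
    have : aug2 ∘ₗ (TensorProduct.comm (ZMod 2) (Ch V) (Ch V)).toLinearMap = aug2 := by
      apply TensorProduct.ext'
      intro a b
      simp [mul_comm]
    exact LinearMap.congr_fun this z
  t_mem := by
    intro n A z hz
    refine gr2_map _ (fun σ τ h1 h2 h3 h4 => ?_) hz
    simp only [LinearEquiv.coe_coe, TensorProduct.comm_tmul]
    exact single2_mem h2 h1 (by omega) (fun x hx y hy => ⟨(y, x), h4 y hy x hx, rfl⟩)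

@[simp] lemma pInv_t_tmul (a b : Ch V) : (pInv V).t (a ⊗ₜ[ZMod 2] b) = b ⊗ₜ a := rfl

/-! ### contraction -/

lemma cone_u (p : V) {P : List V → Prop} {n : ℕ} {z : Ch V} (hz : z ∈ CK P (n + 1)) :
    bdu (consL p z) + consL p (bdu z) = z + augL z • single [p] 1 := by
  rcases n with _ | n
  · refine CK_eq (bdu ∘ₗ consL p + consL p ∘ₗ bdu) (LinearMap.id + (LinearMap.toSpanSingleton _ _
      (single [p] 1)) ∘ₗ augL) (fun l h1 _ => ?_) hz
    obtain ⟨u, rfl⟩ : ∃ u, l = [u] := List.length_eq_one_iff.1 h1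
    simp only [LinearMap.add_apply, LinearMap.comp_apply, consL_single, LinearMap.id_apply,
      augL_single_one, LinearMap.toSpanSingleton_apply, one_smul]
    have hu : bdu (single [u] (1 : ZMod 2)) = 0 :=
      bdu_one (P := fun _ => True) (single_mem_CK (by simp) trivial 1)
    rw [hu, map_zero, add_zero,
      bdu_eq (P := fun _ => True) (n := 0) (single_mem_CK (by simp) trivial 1), bd_single_cons,
      bd_single_cons, bd_single_nil]
    simp only [map_zero, add_zero, consL_single]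
  · rw [bdu_eq hz, augL_CK hz, zero_smul, add_zero]
    have : consL p z ∈ CK (fun _ => True) ((n + 1) + 2) :=
      consL_mem_CK (P' := fun _ => True) (fun _ _ _ => trivial) hz
    rw [bdu_eq this, bd_consL, add_assoc, add_self', add_zero]

/-- projection to a vertex. -/
noncomputable def epsL (p : V) : Ch V →ₗ[ZMod 2] Ch V :=
  (LinearMap.toSpanSingleton (ZMod 2) (Ch V) (single [p] 1)) ∘ₗ augL

lemma epsL_apply (p : V) (z : Ch V) : epsL p z = augL z • single [p] 1 := rfl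

/-- contraction of pairs. -/
noncomputable def cone2 (p : V) (q : W) : Ch2 V W →ₗ[ZMod 2] Ch2 V W :=
  TensorProduct.map (consL p) LinearMap.id + TensorProduct.map (epsL p) (consL q)

lemma cone2_formula (p : V) (q : W) {n : ℕ} {A : Set (V × W)} {z : Ch2 V W} (hz : z ∈ gr2 n A) :
    d2 (cone2 p q z) + cone2 p q (d2 z) = z + aug2 z • (single [p] 1 ⊗ₜ single [q] 1) := by
  refine gr2_eq (d2 ∘ₗ cone2 p q + cone2 p q ∘ₗ d2) (LinearMap.id +
    (LinearMap.toSpanSingleton _ _ (single [p] 1 ⊗ₜ single [q] 1)) ∘ₗ aug2)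
    (fun σ τ h1 h2 h3 h4 => ?_) hz
  obtain ⟨a, ha⟩ : ∃ a, σ.length = a + 1 := by
    rcases σ with _ | ⟨x, σ⟩
    · exact absurd rfl h1
    · exact ⟨σ.length, by simp⟩
  obtain ⟨b, hb⟩ : ∃ b, τ.length = b + 1 := by
    rcases τ with _ | ⟨x, τ⟩
    · exact absurd rfl h2
    · exact ⟨τ.length, by simp⟩
  have hσ := single_self_CK σ
  have hτ := single_self_CK τ
  rw [ha] at hσ
  rw [hb] at hτ
  have c1 := cone_u p hσ
  have c2 := cone_u q hτ
  have hp : bdu (single [p] (1 : ZMod 2)) = 0 :=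
    bdu_one (P := fun _ => True) (single_mem_CK (by simp) trivial 1)
  simp only [LinearMap.add_apply, LinearMap.comp_apply, LinearMap.id_apply, cone2, map_add,
    TensorProduct.map_tmul, d2_tmul, epsL_apply, map_smul, hp, smul_zero, TensorProduct.zero_tmul,
    zero_add, augL_bdu, zero_smul, add_zero, LinearMap.toSpanSingleton_apply, aug2_tmul]
  set s : Ch V := single σ 1
  set t : Ch W := single τ 1
  have e1 : bdu (consL p s) ⊗ₜ[ZMod 2] t + consL p (bdu s) ⊗ₜ[ZMod 2] t =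
      s ⊗ₜ t + (augL s • single [p] 1) ⊗ₜ t := by
    rw [← TensorProduct.add_tmul, c1, TensorProduct.add_tmul]
  have e2 : (augL s • single [p] (1 : ZMod 2)) ⊗ₜ[ZMod 2] bdu (consL q t) +
      (augL s • single [p] (1 : ZMod 2)) ⊗ₜ[ZMod 2] consL q (bdu t) =
      (augL s • single [p] 1) ⊗ₜ t + (augL s * augL t) • (single [p] 1 ⊗ₜ single [q] 1) := by
    rw [← TensorProduct.tmul_add, c2, TensorProduct.tmul_add, TensorProduct.smul_tmul_smul]
  have e3 : bdu (consL p s) ⊗ₜ[ZMod 2] t + consL p s ⊗ₜ[ZMod 2] bdu t +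
      (augL s • single [p] (1 : ZMod 2)) ⊗ₜ[ZMod 2] bdu (consL q t) +
      (consL p (bdu s) ⊗ₜ[ZMod 2] t + (consL p s ⊗ₜ[ZMod 2] bdu t +
      (augL s • single [p] (1 : ZMod 2)) ⊗ₜ[ZMod 2] consL q (bdu t))) =
      (bdu (consL p s) ⊗ₜ[ZMod 2] t + consL p (bdu s) ⊗ₜ[ZMod 2] t) +
      ((augL s • single [p] (1 : ZMod 2)) ⊗ₜ[ZMod 2] bdu (consL q t) +
      (augL s • single [p] (1 : ZMod 2)) ⊗ₜ[ZMod 2] consL q (bdu t)) +
      (consL p s ⊗ₜ[ZMod 2] bdu t + consL p s ⊗ₜ[ZMod 2] bdu t) := by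
    abel
  rw [e3, e1, e2, add_self2, add_zero]
  have e4 : ∀ x y w : Ch2 V W, x + y + (y + w) = x + w + (y + y) := by intros; abel
  rw [e4, add_self2, add_zero]

lemma cone2_mem {p : V} {q : W} {A : Set V} {B : Set W} (hp : p ∈ A) (hq : q ∈ B) {n : ℕ}
    {z : Ch2 V W} (hz : z ∈ gr2 n (A ×ˢ B)) : cone2 p q z ∈ gr2 (n + 1) (A ×ˢ B) := by
  refine gr2_map (cone2 p q) (fun σ τ h1 h2 h3 h4 => ?_) hz
  have hσA : ∀ x ∈ σ, x ∈ A := by
    rcases τ with _ | ⟨y, τ⟩
    · exact absurd rfl h2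
    · exact fun x hx => (h4 x hx y (by simp)).1
  have hτB : ∀ y ∈ τ, y ∈ B := by
    rcases σ with _ | ⟨x, σ⟩
    · exact absurd rfl h1
    · exact fun y hy => (h4 x (by simp) y hy).2
  simp only [cone2, LinearMap.add_apply, TensorProduct.map_tmul, LinearMap.id_apply, consL_single,
    epsL_apply]
  refine Submodule.add_mem _ ?_ ?_
  · refine single2_mem (by simp) h2 (by simp; omega) ?_
    intro x hx y hy
    rw [List.mem_cons] at hx
    rcases hx with rfl | hx
    · exact ⟨hp, hτB y hy⟩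
    · exact ⟨hσA x hx, hτB y hy⟩
  · by_cases hs : σ.length = 1
    · rw [← TensorProduct.smul_tmul']
      refine Submodule.smul_mem _ _ (single2_mem (by simp) (by simp) (by simp; omega) ?_)
      intro x hx y hy
      rw [List.mem_singleton] at hx
      subst hx
      rw [List.mem_cons] at hy
      rcases hy with rfl | hy
      · exact ⟨hp, hq⟩
      · exact ⟨hp, hτB y hy⟩
    · obtain ⟨a, ha⟩ : ∃ a, σ.length = a + 2 := by
        rcases σ with _ | ⟨x, σ⟩
        · exact absurd rfl h1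
        · exact ⟨σ.length - 1, by simp at hs ⊢; have := List.length_pos_iff.2 hs; omega⟩
      have hσ := single_self_CK σ
      rw [ha] at hσ
      rw [augL_CK hσ, zero_smul, TensorProduct.zero_tmul]
      exact Submodule.zero_mem _

lemma aug2_gr2 {n : ℕ} {A : Set (V × W)} {z : Ch2 V W} (hz : z ∈ gr2 (n + 1) A) : aug2 z = 0 := by
  have := gr2_eq (aug2 : Ch2 V W →ₗ[ZMod 2] ZMod 2) 0 (fun σ τ h1 h2 h3 h4 => by
    rw [aug2_tmul, LinearMap.zero_apply]
    have hσ := single_self_CK σ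
    have hτ := single_self_CK τ
    rcases Nat.lt_or_ge σ.length 2 with h | h
    · obtain ⟨b, hb⟩ : ∃ b, τ.length = b + 2 := ⟨τ.length - 2, by omega⟩
      rw [hb] at hτ
      rw [augL_CK hτ, mul_zero]
    · obtain ⟨b, hb⟩ : ∃ b, σ.length = b + 2 := ⟨σ.length - 2, by omega⟩
      rw [hb] at hσ
      rw [augL_CK hσ, zero_mul]) hz
  simpa using this

/-- cycles of pairs supported in a product set bound there. -/
lemma cone2_fill {A : Set V} {B : Set W} {p : V} {q : W} (hp : p ∈ A) (hq : q ∈ B) {n : ℕ}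
    {z : Ch2 V W} (hz : z ∈ gr2 n (A ×ˢ B)) (hc : d2 z = 0) (h0 : n = 0 → aug2 z = 0) :
    ∃ y ∈ gr2 (n + 1) (A ×ˢ B), d2 y = z := by
  refine ⟨cone2 p q z, cone2_mem hp hq hz, ?_⟩
  have h := cone2_formula p q hz
  have h1 : aug2 z = 0 := by
    rcases n with _ | n
    · exact h0 rfl
    · exact aug2_gr2 hz
  rw [hc, map_zero, add_zero, h1, zero_smul, add_zero] at h
  exact h

end Pool.Agent.TightEmb
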