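import Pool.Agent.TightEmb.Iso2
import Pool.Agent.TightEmb.Dual

/-!
No long towers where middle dimensional cycles are present.
-/

set_option linter.unusedSimpArgs false

namespace Pool.Agent.TightEmb

open Finsupp TensorProduct

section

variable {V : Type*} {k : ℕ}

lemma Sm_subset_Sms {A : Set V} {D : V → V → Prop} {l : List V} (h : Sm A D l) :
    Sm {x | x ∈ l} D l := ⟨fun _ hx => hx, h.2⟩

/-- points close to the pole of the `Y` sphere. -/
def Slice (Y : Fin (k + 1) → V → ℝ) (δ : ℝ) : Set V :=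
  {x | -δ < Y 0 x ∧ ∀ a, a ≠ 0 → |Y a x| < δ}

lemma Comm_sgs {𝒮 : Set (Set V)} (Y : Fin (k + 1) → V → ℝ)
    (H : ∀ A ∈ 𝒮, ∃ g ∈ sgs Y, ∃ c : ZMod 2, ∀ a ∈ A, g a = c) :
    (lSC V).Comm 𝒮 k (Sop (sgs Y)) := by
  obtain ⟨g, gs, e1, e2⟩ := sgs_cons Y
  rw [e1, ← lSC_S, ← e2]
  exact (lSC V).Comm_S g gs (by rwa [e1] at H)

lemma Sgs_slice (Y : Fin (k + 1) → V → ℝ) {D : V → V → Prop} {δ : ℝ}
    (hD : ∀ x y, D x y → ∀ a, |Y a x - Y a y| < δ) {A : Set V} {n N : ℕ} (hN : N = n + 1 + k)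
    {z : Ch V} (hz : z ∈ CK (Sm A D) N) : Sop (sgs Y) z ∈ CK (Sm (A ∩ Slice Y δ) D) (n + 1) := by
  refine CK_induction (Sop (sgs Y)) _ (fun l h1 h2 => ?_) hz
  have hl : single l (1 : ZMod 2) ∈ CK (Sm {x | x ∈ l} D) N :=
    single_mem_CK h1 (Sm_subset_Sms h2) 1
  by_cases hs : ∀ x ∈ l, x ∈ Slice Y δ
  · have := Sgs_mem (Sm_subClosed _ _) Y hN hl
    refine CK_mono (fun l' hl' => ?_) _ this
    exact ⟨fun x hx => ⟨h2.1 x (hl'.1 x hx), hs x (hl'.1 x hx)⟩, hl'.2⟩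
  · have : Sop (sgs Y) (single l 1) = 0 := by
      push Not at hs
      obtain ⟨x, hx, hxs⟩ := hs
      have hgr : single l (1 : ZMod 2) ∈ (lSC V).gr (n + k) {x | x ∈ l} :=
        single_mem_CK (by omega) (fun _ hy => hy) 1
      have e : sgs Y = sgn (Y 0) :: List.ofFn fun a : Fin k => sgn (Y a.succ) := by
        rw [sgs, List.ofFn_succ]
      rw [← lSC_S, e, SC.S_cons]
      have hx' : Y 0 x ≤ -δ ∨ ∃ a, a ≠ 0 ∧ δ ≤ |Y a x| := by
        by_contra hcon
        push Not at hcon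
        exact hxs ⟨hcon.1, hcon.2⟩
      rcases hx' with h | ⟨a, ha, h⟩
      · have : (lSC V).m (sgn (Y 0)) (single l 1) = 0 := by
          rw [(lSC V).m_const hgr (c := 0), zero_smul]
          intro y hy
          have := abs_lt.1 (hD x y (h2.2 x hx y hy) 0)
          rw [sgn, if_neg (by linarith)]
        rw [this, map_zero]
      · obtain ⟨b, rfl⟩ := Fin.exists_succ_eq.2 ha
        refine (lSC V).L_vanish (n := n) _ (A := {x | x ∈ l}) ?_ ?_
        · rw [List.length_ofFn]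
          exact (lSC V).m_mem _ hgr
        · refine ⟨sgn (Y b.succ), by rw [List.mem_ofFn]; exact ⟨b, rfl⟩, ?_⟩
          rcases le_abs.1 h with h3 | h3
          · refine ⟨1, fun y hy => ?_⟩
            have := abs_lt.1 (hD x y (h2.2 x hx y hy) b.succ)
            rw [sgn, if_pos (by linarith)]
          · refine ⟨0, fun y hy => ?_⟩
            have := abs_lt.1 (hD x y (h2.2 x hx y hy) b.succ)
            rw [sgn, if_neg (by linarith)]
    rw [this]
    exact Submodule.zero_mem _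

lemma slice_close (Y : Fin (k + 1) → V → ℝ) (hY : ∀ v, ∑ a, Y a v ^ 2 = 1) {δ ρ : ℝ}
    (hδ : 0 < δ) (h1 : ((k : ℝ) + 1) * δ ≤ 1 / 4) (h2 : 2 * ((k : ℝ) + 1) * δ < ρ) {x y : V}
    (hx : x ∈ Slice Y δ) (hy : y ∈ Slice Y δ) (a : Fin (k + 1)) : |Y a x - Y a y| < ρ := by
  have hk0 : (0 : ℝ) ≤ (k : ℝ) := by positivity
  by_cases ha : a = 0
  · subst ha
    have key : ∀ z ∈ Slice Y δ, 1 - (k : ℝ) * δ ≤ Y 0 z ∧ Y 0 z ≤ 1 := by
      intro z hz
      have hb := abs_le_one_of_sum (x := fun a => Y a z) (hY z) 0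
      have hs := hY z
      rw [Fin.sum_univ_succ] at hs
      have hs2 : ∑ i : Fin k, Y i.succ z ^ 2 ≤ (k : ℝ) * (δ * δ) := by
        calc ∑ i : Fin k, Y i.succ z ^ 2 ≤ ∑ i : Fin k, δ * δ := by
              apply Finset.sum_le_sum
              intro i _
              have := hz.2 i.succ (Fin.succ_ne_zero i)
              rw [← sq_abs, sq]
              exact mul_le_mul this.le this.le (abs_nonneg _) hδ.le
          _ = (k : ℝ) * (δ * δ) := by simp
      have hδ1 : δ ≤ 1 / 4 := by nlinarith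
      have h3 : 1 - (k : ℝ) * (δ * δ) ≤ Y 0 z ^ 2 := by linarith
      have h4 := hz.1
      have hb' := abs_le.1 hb
      refine ⟨?_, hb'.2⟩
      by_contra hcon
      push Not at hcon
      have h5 : 0 ≤ 1 - (k : ℝ) * δ := by nlinarith
      rcases le_or_gt 0 (Y 0 z) with h6 | h6
      · have : Y 0 z ^ 2 < (1 - (k : ℝ) * δ) := by nlinarith
        nlinarith
      · have : Y 0 z ^ 2 < δ * δ := by nlinarith
        nlinarith
    have kx := key x hx
    have ky := key y hy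
    rw [abs_lt]
    constructor <;> nlinarith
  · have h3 := abs_lt.1 (hx.2 a ha)
    have h4 := abs_lt.1 (hy.2 a ha)
    rw [abs_lt]
    constructor <;> nlinarith

/-- odd sign function attached to an odd real function. -/
noncomputable def osgn {W : Type*} (T : W → W) (f : W → ℝ) : W → ZMod 2 := by
  classical
  exact fun p => if 0 < f p then 1 else if f p < 0 then 0 else
    if WellOrderingRel p (T p) then 1 else 0

lemma osgn_odd {W : Type*} (T : W → W) (f : W → ℝ) (p : W) (hT : T (T p) = p) (hne : T p ≠ p)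
    (hf : f (T p) = - f p) : osgn T f (T p) = osgn T f p + 1 := by
  classical
  unfold osgn
  simp only [hf, hT]
  rcases lt_trichotomy (f p) 0 with h | h | h
  · rw [if_pos (by linarith), if_neg (by linarith), if_pos h]
    decide
  · simp only [h, neg_zero, lt_irrefl, if_false]
    rcases trichotomous_of WellOrderingRel p (T p) with h1 | h1 | h1
    · have h2 : ¬ WellOrderingRel (T p) p := asymm_of WellOrderingRel h1
      rw [if_neg h2, if_pos h1]; decide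
    · exact absurd h1.symm hne
    · have h2 : ¬ WellOrderingRel p (T p) := asymm_of WellOrderingRel h1
      rw [if_neg h2, if_pos h1]; decide
  · rw [if_neg (by linarith), if_pos (by linarith), if_pos h]
    decide

lemma osgn_adp {W : Type*} (T : W → W) (f : W → ℝ) {c : ℝ} (hc : 0 < c) (A : Set W) :
    SC.Adp (osgn T f) f c A := by
  classical
  intro v _
  unfold osgn
  refine ⟨fun h => ?_, fun h => ?_⟩
  · rw [if_pos (by linarith)]
  · rw [if_neg (by linarith), if_pos (by linarith)]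

end

section

variable {U V : Type*} [PseudoMetricSpace U] {k : ℕ}

/-- closeness relation. -/
def Nr (U : Type*) [PseudoMetricSpace U] (η : ℝ) : U → U → Prop := fun u v => dist u v < η

theorem noTow_prod (hk : 1 ≤ k) (X Y : Fin (k + 1) → V → ℝ) (hX : ∀ v, ∑ a, X a v ^ 2 = 1)
    (hY : ∀ v, ∑ a, Y a v ^ 2 = 1) {ρ δ : ℝ} (hρ : 0 < ρ) (hρ1 : ρ ≤ 1)
    (hδ : δ = ρ / (64 * ((k : ℝ) + 1)))
    (T : U → U) (hT : ∀ u, T (T u) = u) (hiso : ∀ u v, dist (T u) (T v) = dist u v)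
    (h : U → ZMod 2) (ho : ∀ u, h (T u) = h u + 1)
    (D₁ : Set U) (hD₁ : ∀ u ∈ D₁, T u ∈ D₁) (Reg : U → Set V) {η' : ℝ} (hη' : 0 < η')
    (Ψ : Ch U →ₗ[ZMod 2] Ch V)
    (Ψ1 : ∀ n, n ≤ k + 1 → ∀ u l, Sm D₁ (Nr U η') (u :: l) → l.length = n →
      Ψ (single (u :: l) 1) ∈ CK (Sm (Reg u) (Dc X Y δ)) (k + n + 1))
    (Ψ2 : ∀ n, n ≤ k → ∀ z ∈ CK (Sm D₁ (Nr U η')) (n + 2), bd (Ψ z) = Ψ (bd z))
    (Ψ3 : ∀ u ∈ D₁, bd (Ψ (single [u] 1)) = 0 ∧ augL (Sop (sgs Y) (Ψ (single [u] 1))) = 1)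
    (Sep : ∀ u ∈ D₁, ∀ v ∈ D₁, dist v (T u) < η' → ∀ x ∈ Reg u, ∀ y ∈ Reg v,
      ∃ a, ρ ≤ |X a x - X a y| ∨ ρ ≤ |Y a x - Y a y|) :
    ∃ η > 0, ¬ HasTow T (Sm D₁ (Nr U η)) (k + 1) := by
  classical
  have hk0 : (0 : ℝ) ≤ (k : ℝ) := by positivity
  have hδ0 : 0 < δ := by rw [hδ]; positivity
  have hδk : ((k : ℝ) + 1) * δ = ρ / 64 := by rw [hδ]; field_simp
  set η : ℝ := η' / (4 * ((k : ℝ) + 3)) with hη
  have hη0 : 0 < η := by positivity
  have hηk : 4 * ((k : ℝ) + 3) * η = η' := by rw [hη]; field_simp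
  refine ⟨η, hη0, ?_⟩
  rintro ⟨b, hb, hb0⟩
  -- balls
  set B : ℕ → U → Set U := fun n u => {v | v ∈ D₁ ∧ dist v u < ((n : ℝ) + 1) * η} with hB
  have hBT : ∀ n u, (B n u) ×ˢ (B n (T u)) = (B n u) ×ˢ (B n (T u)) := fun _ _ => rfl
  have hBmono : ∀ n u v, dist v u < η → B n v ⊆ B (n + 1) u := by
    intro n u v huv w hw
    refine ⟨hw.1, ?_⟩
    calc dist w u ≤ dist w v + dist v u := dist_triangle _ _ _
      _ < ((n : ℝ) + 1) * η + η := add_lt_add hw.2 huv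
      _ = (((n + 1 : ℕ) : ℝ) + 1) * η := by push_cast; ring
  have hself : ∀ n u, u ∈ D₁ → u ∈ B n u := by
    intro n u hu
    refine ⟨hu, ?_⟩
    rw [dist_self]
    positivity
  obtain ⟨Δ, -, Δ2, Δ3, Δ4, Δ5⟩ := gcl (U := U) (Q := Ch2 U U) d2 aug2 0 T hT (pInv U).t (pInv U).tt
    (pInv U).td (pInv U).taug (map_zero _) (Sm D₁ (Nr U η)) (Sm_subClosed _ _)
    (by
      intro l hl
      refine ⟨fun x hx => ?_, fun x hx y hy => ?_⟩
      · rw [List.mem_map] at hx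
        obtain ⟨x', hx', rfl⟩ := hx
        exact hD₁ _ (hl.1 _ hx')
      · rw [List.mem_map] at hx hy
        obtain ⟨x', hx', rfl⟩ := hx
        obtain ⟨y', hy', rfl⟩ := hy
        show dist (T x') (T y') < η
        rw [hiso]
        exact hl.2 _ hx' _ hy')
    {u | h u = 1}
    (Or.inr (fun u _ => by
      simp only [Set.mem_ofPred_eq, ho u]
      rcases zmod2_cases (h u) with h1 | h1 <;> rw [h1] <;> decide))
    (fun n u => gr2 n (B n u ×ˢ B n (T u)))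
    (by
      intro n u z hz
      rw [hT]
      have := (pInv U).t_mem hz
      refine (pSC U U).gr_mono ?_ this
      rintro _ ⟨⟨x, y⟩, hxy, rfl⟩
      exact ⟨hxy.2, hxy.1⟩)
    (by
      intro u hu
      have hu' : u ∈ D₁ := hu.1 u (by simp)
      refine ⟨single [u] 1 ⊗ₜ single [T u] 1, ?_, ?_, ?_⟩
      · refine single2_mem (by simp) (by simp) (by simp) ?_
        intro x hx y hy
        rw [List.mem_singleton] at hx hy
        subst hx; subst hy
        exact ⟨hself 0 _ hu', hself 0 _ (hD₁ _ hu')⟩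
      · have e : ∀ v : U, bdu (single [v] (1 : ZMod 2)) = 0 := fun v =>
          bdu_one (P := fun _ => True) (single_mem_CK (by simp) trivial 1)
        rw [d2_tmul, e, e]
        simp
      · simp)
    (k + 1)
    (by
      intro n hn u l hl hlen z hz hdz h0
      have hu : u ∈ D₁ := hl.1 u (by simp)
      have hz' : z ∈ gr2 n (B (n + 1) u ×ˢ B (n + 1) (T u)) := by
        refine (iSup₂_le (fun v hv => ?_) : (⨆ v ∈ {v | v ∈ u :: l}, gr2 n (B n v ×ˢ B n (T v))) ≤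
          gr2 n (B (n + 1) u ×ˢ B (n + 1) (T u))) hz
        have hvu : dist v u < η := hl.2 v hv u (by simp)
        refine (pSC U U).gr_mono ?_
        exact Set.prod_mono (hBmono n u v hvu) (hBmono n (T u) (T v) (by rw [hiso]; exact hvu))
      obtain ⟨y, hy, hyz⟩ := cone2_fill (hself (n + 1) u hu) (hself (n + 1) (T u) (hD₁ u hu)) hz'
        hdz h0
      exact ⟨y, hy, hyz⟩)
  have hodd : ∀ u, Sm D₁ (Nr U η) [u] → (u ∈ {u | h u = 1} ↔ T u ∉ {u | h u = 1}) := by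
    intro u _
    simp only [Set.mem_ofPred_eq, ho u]
    rcases zmod2_cases (h u) with h1 | h1 <;> rw [h1] <;> decide
  have Δ5' := Δ5 hodd
  -- the operator Ψ' and its properties
  set Ψ' : Ch U →ₗ[ZMod 2] Ch V := Sop (sgs Y) ∘ₗ Ψ with hΨ'
  have hDc : ∀ x y, Dc X Y δ x y → ∀ a, |Y a x - Y a y| < δ := fun x y hxy a => (hxy a).2
  have Ψ'1 : ∀ n, n ≤ k + 1 → ∀ u l, Sm D₁ (Nr U η') (u :: l) → l.length = n →
      Ψ' (single (u :: l) 1) ∈ CK (Sm (Reg u ∩ Slice Y δ) (Dc X Y δ)) (n + 1) := by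
    intro n hn u l hl hlen
    exact Sgs_slice Y hDc (by omega) (Ψ1 n hn u l hl hlen)
  have hδ4 : δ ≤ 1 / (4 * ((k : ℝ) + 1)) := by
    rw [hδ, div_le_div_iff₀ (by positivity) (by positivity)]
    nlinarith
  have Scomm : ∀ (A : Set V) (m : ℕ) (z : Ch V), z ∈ CK (Sm A (Dc X Y δ)) (m + k + 2) →
      Sop (sgs Y) (bd z) = bd (Sop (sgs Y) z) := by
    intro A m z hz
    have hc : (lSC V).Comm (SmS A (Dc X Y δ)) k (Sop (sgs Y)) := by
      refine Comm_sgs Y (fun A' hA' => ?_)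
      have := sgs_cst Y hY (W := V) id hδ4 (A := A')
        (fun a p hp q hq => hDc _ _ (hA'.2 p hp q hq) a)
      simpa using this
    have hz' : z ∈ (lSC V).sm (SmS A (Dc X Y δ)) (m + k + 1) := by
      rw [← CK_Sm_eq]; exact hz
    exact (lSC V).Comm_sm hc rfl hz'
  have Ψ'2 : ∀ σ, Sm D₁ (Nr U η') σ → σ ≠ [] → σ.length ≤ k + 2 →
      bdu (Ψ' (single σ 1)) = Ψ' (bdu (single σ 1)) := by
    intro σ hσ hne hlen
    rcases σ with _ | ⟨u, l⟩
    · exact absurd rfl hne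
    rcases l with _ | ⟨v, l⟩
    · rw [bdu_one (Ψ'1 0 (by omega) u [] hσ rfl),
        bdu_one (P := fun _ => True) (single_mem_CK (by simp) trivial 1), map_zero]
    · have hn : (v :: l).length = l.length + 1 := by simp
      have h1 := Ψ'1 (l.length + 1) (by simp at hlen; omega) u (v :: l) hσ hn
      have h2 := Ψ1 (l.length + 1) (by simp at hlen; omega) u (v :: l) hσ hn
      have h3 : single (u :: v :: l) (1 : ZMod 2) ∈ CK (Sm D₁ (Nr U η')) (l.length + 2) :=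
        single_mem_CK (by simp) hσ 1
      rw [bdu_eq h1, bdu_eq h3]
      show bd (Sop (sgs Y) (Ψ (single (u :: v :: l) 1))) = Sop (sgs Y) (Ψ (bd (single _ 1)))
      rw [← Ψ2 l.length (by simp at hlen; omega) _ h3]
      refine (Scomm (Reg u) l.length _ ?_).symm
      have : l.length + k + 2 = k + (l.length + 1) + 1 := by omega
      rw [this]; exact h2
  set Θ : Ch2 U U →ₗ[ZMod 2] Ch2 V V := TensorProduct.map Ψ' Ψ' with hΘ
  -- small families of pairs
  set 𝒮U : Set (Set (U × U)) := {A | ∃ u ∈ D₁, A = B (k + 1) u ×ˢ B (k + 1) (T u)} with h𝒮U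
  set 𝒮V : Set (Set (V × V)) := {A | (∀ p ∈ A, ∀ q ∈ A, Dc X Y δ p.1 q.1 ∧ Dc X Y δ p.2 q.2) ∧
    (∀ p ∈ A, ∃ a, ρ ≤ |X a p.1 - X a p.2|)} with h𝒮V
  have hBsm : ∀ u (σ : List U), (∀ x ∈ σ, x ∈ B (k + 1) u) → Sm D₁ (Nr U η') σ := by
    intro u σ hσ
    refine ⟨fun x hx => (hσ x hx).1, fun x hx y hy => ?_⟩
    show dist x y < η'
    have h1 := (hσ x hx).2
    have h2 := (hσ y hy).2
    calc dist x y ≤ dist x u + dist u y := dist_triangle _ _ _
      _ < (((k + 1 : ℕ) : ℝ) + 1) * η + (((k + 1 : ℕ) : ℝ) + 1) * η := by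
          rw [dist_comm u y]; exact add_lt_add h1 h2
      _ ≤ η' := by rw [← hηk]; push_cast; nlinarith
  have hcell : ∀ u ∈ D₁, ∀ (σ τ : List U), σ ≠ [] → τ ≠ [] →
      (∀ x ∈ σ, ∀ y ∈ τ, (x, y) ∈ B (k + 1) u ×ˢ B (k + 1) (T u)) →
      (∀ x ∈ σ, x ∈ B (k + 1) u) ∧ (∀ y ∈ τ, y ∈ B (k + 1) (T u)) := by
    intro u hu σ τ h1 h2 h4
    constructor
    · rcases τ with _ | ⟨y, τ⟩
      · exact absurd rfl h2
      · exact fun x hx => (h4 x hx y (by simp)).1
    · rcases σ with _ | ⟨x, σ⟩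
      · exact absurd rfl h1
      · exact fun y hy => (h4 x (by simp) y hy).2
  have Θmem : ∀ n, n ≤ k + 1 → ∀ z ∈ (pSC U U).sm 𝒮U n, Θ z ∈ (pSC V V).sm 𝒮V n := by
    intro n hn z hz
    have : (pSC U U).sm 𝒮U n ≤ ((pSC V V).sm 𝒮V n).comap Θ := by
      refine (pSC U U).sm_le (fun A hA => ?_)
      obtain ⟨u, hu, rfl⟩ := hA
      refine gr2_le (fun σ τ h1 h2 h3 h4 => ?_)
      obtain ⟨hσ, hτ⟩ := hcell u hu σ τ h1 h2 h4
      have sσ := hBsm u σ hσ
      have sτ := hBsm (T u) τ hτ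
      rcases σ with _ | ⟨x, σ⟩
      · exact absurd rfl h1
      rcases τ with _ | ⟨y, τ⟩
      · exact absurd rfl h2
      simp only [List.length_cons] at h3
      have m1 := Ψ'1 σ.length (by omega) x σ sσ rfl
      have m2' := Ψ'1 τ.length (by omega) y τ sτ rfl
      show Θ (single (x :: σ) 1 ⊗ₜ[ZMod 2] single (y :: τ) 1) ∈ (pSC V V).sm 𝒮V n
      rw [hΘ, TensorProduct.map_tmul]
      have hx := hσ x (by simp)
      have hy := hτ y (by simp)
      have hyx : dist y (T x) < η' := by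
        calc dist y (T x) ≤ dist y (T u) + dist (T u) (T x) := dist_triangle _ _ _
          _ < (((k + 1 : ℕ) : ℝ) + 1) * η + (((k + 1 : ℕ) : ℝ) + 1) * η := by
              rw [hiso, dist_comm u x]; exact add_lt_add hy.2 hx.2
          _ ≤ η' := by rw [← hηk]; push_cast; nlinarith
      have hsep := Sep x hx.1 y hy.1 hyx
      refine CK_induction ((TensorProduct.mk (ZMod 2) (Ch V) (Ch V)).flip
        (Ψ' (single (y :: τ) 1))) _ (fun σ' s1 s2 => ?_) m1
      show single σ' 1 ⊗ₜ[ZMod 2] Ψ' (single (y :: τ) 1) ∈ _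
      refine CK_induction (TensorProduct.mk (ZMod 2) (Ch V) (Ch V) (single σ' 1)) _
        (fun τ' t1 t2 => ?_) m2'
      show single σ' 1 ⊗ₜ[ZMod 2] single τ' 1 ∈ _
      have hA : {p : V × V | p.1 ∈ σ' ∧ p.2 ∈ τ'} ∈ 𝒮V := by
        refine ⟨fun p hp q hq => ⟨s2.2 _ hp.1 _ hq.1, t2.2 _ hp.2 _ hq.2⟩, fun p hp => ?_⟩
        obtain ⟨a, ha | ha⟩ := hsep _ (s2.1 _ hp.1).1 _ (t2.1 _ hp.2).1
        · exact ⟨a, ha⟩
        · exfalso
          have := slice_close Y hY hδ0 (by rw [hδk]; linarith) (ρ := ρ)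
            (by rw [mul_assoc, hδk]; linarith) (s2.1 _ hp.1).2 (t2.1 _ hp.2).2 a
          linarith
      refine (pSC V V).gr_le_sm hA ?_
      refine single2_mem ?_ ?_ (by omega) (fun x hx y hy => ⟨hx, hy⟩)
      · rintro rfl; simp at s1
      · rintro rfl; simp at t1
    exact this hz
  have Θd : ∀ n, n + 1 ≤ k + 1 → ∀ z ∈ (pSC U U).sm 𝒮U (n + 1), d2 (Θ z) = Θ (d2 z) := by
    intro n hn z hz
    refine (pSC U U).sm_eq (d2 ∘ₗ Θ) (Θ ∘ₗ d2) (fun A hA z hz => ?_) hz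
    obtain ⟨u, hu, rfl⟩ := hA
    refine gr2_eq (d2 ∘ₗ Θ) (Θ ∘ₗ d2) (fun σ τ h1 h2 h3 h4 => ?_) hz
    obtain ⟨hσ, hτ⟩ := hcell u hu σ τ h1 h2 h4
    have sσ := hBsm u σ hσ
    have sτ := hBsm (T u) τ hτ
    simp only [LinearMap.comp_apply, hΘ, TensorProduct.map_tmul, d2_tmul, map_add]
    have l1 : 1 ≤ σ.length := List.length_pos_iff.2 h1
    have l2 : 1 ≤ τ.length := List.length_pos_iff.2 h2
    rw [Ψ'2 σ sσ h1 (by omega), Ψ'2 τ sτ h2 (by omega)]
  have Θt : ∀ z, Θ ((pInv U).t z) = (pInv V).t (Θ z) := by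
    intro z
    have : Θ ∘ₗ (pInv U).t = (pInv V).t ∘ₗ Θ := by
      apply TensorProduct.ext'
      intro a b
      simp only [LinearMap.comp_apply, pInv_t_tmul, hΘ, TensorProduct.map_tmul]
    exact LinearMap.congr_fun this z
  have Δmem : ∀ n, n ≤ k + 1 → ∀ z ∈ CK (Sm D₁ (Nr U η)) (n + 1), Δ z ∈ (pSC U U).sm 𝒮U n := by
    intro n hn z hz
    refine CK_induction Δ _ (fun l h1 h2 => ?_) hz
    rcases l with _ | ⟨u, l⟩
    · simp at h1
    have hu : u ∈ D₁ := h2.1 u (by simp)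
    have h3 := Δ2 n hn u l h2 (by simpa using h1)
    have hA : B (k + 1) u ×ˢ B (k + 1) (T u) ∈ 𝒮U := ⟨u, hu, rfl⟩
    refine (pSC U U).gr_le_sm hA ((pSC U U).gr_mono ?_ h3)
    have hsub : ∀ v, B n v ⊆ B (k + 1) v := by
      intro v w hw
      refine ⟨hw.1, lt_of_lt_of_le hw.2 ?_⟩
      apply mul_le_mul_of_nonneg_right _ hη0.le
      have : (n : ℝ) ≤ ((k + 1 : ℕ) : ℝ) := by exact_mod_cast hn
      linarith
    exact Set.prod_mono (hsub u) (hsub (T u))
  have tower : (pInv V).Tower 𝒮V (k + 1) (fun j => Θ (Δ (b j))) := by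
    refine ⟨fun j hj => Θmem j hj _ (Δmem j hj _ (hb.mem j hj)), fun j hj => ?_⟩
    show d2 (Θ (Δ (b (j + 1)))) = Θ (Δ (b j)) + (pInv V).t (Θ (Δ (b j)))
    rw [Θd j (by omega) _ (Δmem (j + 1) (by omega) _ (hb.mem (j + 1) (by omega))),
      Δ3 (j + 1) (by omega) _ (hb.mem (j + 1) (by omega)), hb.bdry j hj, map_add, map_add,
      Δ5' j (by omega) _ (hb.mem j (by omega)), Θt]
  -- Borsuk-Ulam
  set hs : List (V × V → ZMod 2) := List.ofFn fun a : Fin (k + 1) =>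
    osgn Prod.swap (fun p : V × V => X a p.1 - X a p.2) with hhs
  have hlen : hs.length = k + 1 := by rw [hhs, List.length_ofFn]
  have hS : ∀ A ∈ 𝒮V, A ⊆ {p : V × V | p.swap ≠ p} := by
    intro A hA p hp heq
    obtain ⟨a, ha⟩ := hA.2 p hp
    have : p.1 = p.2 := by
      have := congrArg Prod.snd heq
      exact this
    rw [this, sub_self, abs_zero] at ha
    linarith
  have bu := Invol.bu (I := pInv V) (Ω := {p : V × V | p.swap ≠ p}) hs (by
    intro g hg p hp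
    rw [hhs, List.mem_ofFn] at hg
    obtain ⟨a, rfl⟩ := hg
    exact osgn_odd Prod.swap _ p rfl hp (by simp)) (𝒮 := 𝒮V) hS
    (b := fun j => Θ (Δ (b j))) (by rw [hlen]; exact tower)
  rw [hlen] at bu
  have hvan : (pSC V V).L hs (Θ (Δ (b (k + 1)))) = 0 := by
    refine (pSC V V).sm_eq (𝒮 := 𝒮V) (n := k + 1) ((pSC V V).L hs) 0 (fun A hA z hz => ?_)
      (Θmem (k + 1) le_rfl _ (Δmem (k + 1) le_rfl _ (hb.mem (k + 1) le_rfl)))
    rw [LinearMap.zero_apply]
    refine (pSC V V).L_vanish (n := 0) hs (A := A) (by rw [hlen, zero_add]; exact hz) ?_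
    refine cst_of_nz (ρ := ρ) (fun a (p : V × V) => X a p.1 - X a p.2) _ hρ ?_ ?_ (hA.2)
    · intro i
      exact osgn_adp _ _ (by positivity) A
    · intro i p hp q hq
      have h1 := abs_lt.1 ((hA.1 p hp q hq).1 i).1
      have h2 := abs_lt.1 ((hA.1 p hp q hq).2 i).1
      have h3 : δ ≤ ρ / 64 := by rw [← hδk]; nlinarith
      rw [abs_lt]
      constructor <;> linarith
  rw [hvan, map_zero] at bu
  have haug : aug2 (Θ (Δ (b 0))) = 1 := by
    have hb00 := hb.mem 0 (by omega)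
    have e1 : aug2 (Θ (Δ (b 0))) = augL (b 0) := by
      refine CK_eq (aug2 ∘ₗ Θ ∘ₗ Δ) augL (fun l h1 h2 => ?_) hb00
      obtain ⟨u, rfl⟩ : ∃ u, l = [u] := List.length_eq_one_iff.1 h1
      simp only [LinearMap.comp_apply]
      rw [augL_single_one]
      have h3 := Δmem 0 (by omega) (single [u] 1) (single_mem_CK rfl h2 1)
      refine Eq.trans ((pSC U U).sm_eq (aug2 ∘ₗ Θ) aug2 (fun A hA z hz => ?_) h3) (Δ4 u h2)
      obtain ⟨v, hv, rfl⟩ := hA
      refine gr2_eq (aug2 ∘ₗ Θ) aug2 (fun σ τ h1 h2 h3 h4 => ?_) hz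
      obtain ⟨hσ, hτ⟩ := hcell v hv σ τ h1 h2 h4
      have l1 : 1 ≤ σ.length := List.length_pos_iff.2 h1
      have l2 : 1 ≤ τ.length := List.length_pos_iff.2 h2
      obtain ⟨x, rfl⟩ : ∃ u, σ = [u] := List.length_eq_one_iff.1 (by omega)
      obtain ⟨y, rfl⟩ : ∃ u, τ = [u] := List.length_eq_one_iff.1 (by omega)
      simp only [LinearMap.comp_apply, hΘ, TensorProduct.map_tmul, aug2_tmul, augL_single_one]
      have hx := (Ψ3 x (hσ x (by simp)).1).2
      have hy := (Ψ3 y (hτ y (by simp)).1).2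
      show augL (Sop (sgs Y) (Ψ (single [x] 1))) * augL (Sop (sgs Y) (Ψ (single [y] 1))) = _
      rw [hx, hy]
    rw [e1, hb0]
  have : (0 : ZMod 2) = 1 := bu.trans haug
  exact absurd this (by decide)

end

end Pool.Agent.TightEmb
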