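import Pool.Agent.TightEmb.Base

/-!
Abstract sign complexes: a chain complex over `ZMod 2` together with multiplication operators
by `ZMod 2`-valued functions on a vertex set.
-/

set_option linter.unusedSimpArgs false

namespace Pool.Agent.TightEmb

structure SC (V : Type*) (Q : Type*) [AddCommGroup Q] [Module (ZMod 2) Q] where
  d : Q →ₗ[ZMod 2] Q
  aug : Q →ₗ[ZMod 2] ZMod 2
  m : (V → ZMod 2) → (Q →ₗ[ZMod 2] Q)
  gr : ℕ → Set V → Submodule (ZMod 2) Q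
  gr_mono : ∀ {n : ℕ} {A B : Set V}, A ⊆ B → gr n A ≤ gr n B
  d_mem : ∀ {n : ℕ} {A : Set V} {z : Q}, z ∈ gr (n + 1) A → d z ∈ gr n A
  m_mem : ∀ {n : ℕ} {A : Set V} {z : Q} (h : V → ZMod 2), z ∈ gr n A → m h z ∈ gr n A
  dd : ∀ z, d (d z) = 0
  aug_d : ∀ {n : ℕ} {A : Set V} {z : Q}, z ∈ gr (n + 1) A → aug (d z) = 0
  m_const : ∀ {n : ℕ} {A : Set V} {z : Q} {h : V → ZMod 2} {c : ZMod 2}, z ∈ gr n A →
    (∀ a ∈ A, h a = c) → m h z = c • z
  m_add : ∀ (h h' : V → ZMod 2) (z : Q), m (h + h') z = m h z + m h' z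
  m_mul : ∀ (h h' : V → ZMod 2) (z : Q), m (h * h') z = m h (m h' z)

namespace SC

variable {V Q : Type*} [AddCommGroup Q] [Module (ZMod 2) Q] (C : SC V Q)

/-- the operator `[d, m h]`. -/
def l (h : V → ZMod 2) : Q →ₗ[ZMod 2] Q := C.d ∘ₗ C.m h + C.m h ∘ₗ C.d

lemma l_apply (h : V → ZMod 2) (z : Q) : C.l h z = C.d (C.m h z) + C.m h (C.d z) := rfl

/-- `L [h₁, …, h_k] = l h_k ∘ … ∘ l h₁`. -/
def L : List (V → ZMod 2) → (Q →ₗ[ZMod 2] Q)
  | [] => LinearMap.id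
  | (h :: hs) => L hs ∘ₗ C.l h

/-- `S [h₀, …, h_k] = l h_k ∘ … ∘ l h₁ ∘ m h₀`. -/
def S : List (V → ZMod 2) → (Q →ₗ[ZMod 2] Q)
  | [] => LinearMap.id
  | (h :: hs) => C.L hs ∘ₗ C.m h

@[simp] lemma L_nil (z : Q) : C.L [] z = z := rfl
lemma L_cons (h : V → ZMod 2) (hs : List (V → ZMod 2)) (z : Q) :
    C.L (h :: hs) z = C.L hs (C.l h z) := rfl
lemma S_cons (h : V → ZMod 2) (hs : List (V → ZMod 2)) (z : Q) :
    C.S (h :: hs) z = C.L hs (C.m h z) := rfl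

lemma l_d (h : V → ZMod 2) (z : Q) : C.l h (C.d z) = C.d (C.l h z) := by
  simp only [l_apply, map_add, C.dd, map_zero, add_zero, zero_add]

lemma L_d (hs : List (V → ZMod 2)) (z : Q) : C.L hs (C.d z) = C.d (C.L hs z) := by
  induction hs generalizing z with
  | nil => rfl
  | cons h hs ih => rw [L_cons, L_cons, l_d, ih]

lemma l_mem {n : ℕ} {A : Set V} {z : Q} (h : V → ZMod 2) (hz : z ∈ C.gr (n + 1) A) :
    C.l h z ∈ C.gr n A :=
  Submodule.add_mem _ (C.d_mem (C.m_mem h hz)) (C.m_mem h (C.d_mem hz))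

lemma L_mem {n : ℕ} {A : Set V} {z : Q} (hs : List (V → ZMod 2))
    (hz : z ∈ C.gr (n + hs.length) A) : C.L hs z ∈ C.gr n A := by
  induction hs generalizing z with
  | nil => exact hz
  | cons h hs ih =>
    rw [L_cons]
    exact ih (C.l_mem h (by simpa [add_assoc] using hz))

lemma S_mem {n : ℕ} {A : Set V} {z : Q} (h : V → ZMod 2) (hs : List (V → ZMod 2))
    (hz : z ∈ C.gr (n + hs.length) A) : C.S (h :: hs) z ∈ C.gr n A :=
  C.L_mem hs (C.m_mem h hz)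

lemma l_const {n : ℕ} {A : Set V} {z : Q} {h : V → ZMod 2} {c : ZMod 2}
    (hz : z ∈ C.gr (n + 1) A) (hc : ∀ a ∈ A, h a = c) : C.l h z = 0 := by
  rw [l_apply, C.m_const hz hc, C.m_const (C.d_mem hz) hc, map_smul, add_self']

lemma L_append (hs hs' : List (V → ZMod 2)) (z : Q) :
    C.L (hs ++ hs') z = C.L hs' (C.L hs z) := by
  induction hs generalizing z with
  | nil => rfl
  | cons h hs ih => rw [List.cons_append, L_cons, L_cons, ih]

lemma L_vanish {n : ℕ} {A : Set V} {z : Q} (hs : List (V → ZMod 2))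
    (hz : z ∈ C.gr (n + hs.length) A)
    (h : ∃ h ∈ hs, ∃ c : ZMod 2, ∀ a ∈ A, h a = c) : C.L hs z = 0 := by
  induction hs generalizing z with
  | nil => obtain ⟨h, h1, _⟩ := h; simp at h1
  | cons g hs ih =>
    obtain ⟨h, h1, c, hc⟩ := h
    have hz' : z ∈ C.gr ((n + hs.length) + 1) A := by simpa [add_assoc] using hz
    rw [L_cons]
    rw [List.mem_cons] at h1
    rcases h1 with rfl | h1
    · rw [C.l_const hz' hc, map_zero]
    · exact ih (C.l_mem g hz') ⟨h, h1, c, hc⟩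

lemma l_add (h h' : V → ZMod 2) (z : Q) : C.l (h + h') z = C.l h z + C.l h' z := by
  simp only [l_apply, C.m_add, map_add]
  abel

lemma m_congr {n : ℕ} {A : Set V} {z : Q} {h h' : V → ZMod 2}
    (hz : z ∈ C.gr n A) (hc : ∀ a ∈ A, h a = h' a) : C.m h z = C.m h' z := by
  apply eq_of_add_zero
  rw [← C.m_add, C.m_const hz (c := 0), zero_smul]
  intro a ha
  rw [Pi.add_apply, hc a ha]
  exact add_self' _

/-- formula for the boundary of `S`. -/
lemma d_S (h : V → ZMod 2) (hs : List (V → ZMod 2)) (z : Q) :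
    C.d (C.S (h :: hs) z) = C.S (h :: hs) (C.d z) + C.L (h :: hs) z := by
  rw [S_cons, S_cons, L_cons, ← L_d, l_apply, map_add]
  abel_nf
  simp only [two_ns, two_zs, add_zero, zero_add]

lemma aug_L_d {A : Set V} {z : Q} (hs : List (V → ZMod 2))
    (hz : z ∈ C.gr (1 + hs.length) A) : C.aug (C.L hs (C.d z)) = 0 := by
  rw [L_d]
  exact C.aug_d (n := 0) (C.L_mem (n := 1) hs hz)

/-- replacement of one (non initial) sign function. -/
lemma S_change (h0 : V → ZMod 2) (pre post : List (V → ZMod 2)) (h h' : V → ZMod 2) (z : Q) :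
    C.S (h0 :: (pre ++ h :: post)) z + C.S (h0 :: (pre ++ h' :: post)) z =
      C.d (C.L post (C.m (h + h') (C.L pre (C.m h0 z)))) +
      C.L post (C.m (h + h') (C.L pre (C.m h0 (C.d z)))) +
      C.L post (C.m (h + h') (C.L pre (C.l h0 z))) := by
  rw [S_cons, S_cons, L_append, L_append, L_cons, L_cons, ← map_add, ← l_add, l_apply (C := C) (h + h'),
    map_add, ← L_d, ← L_d, l_apply (C := C) h0 z, map_add, map_add, map_add]
  abel_nf
  simp only [two_ns, two_zs, add_zero, zero_add]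

/-! ### chain homotopy of operators on small chains -/

/-- `E` is local and takes degree `n` to degree `m` whenever `m + k = n + 1`. -/
def Loc1 (k : ℕ) (E : Q →ₗ[ZMod 2] Q) : Prop :=
  ∀ (n m : ℕ) (A : Set V) (z : Q), m + k = n + 1 → z ∈ C.gr n A → E z ∈ C.gr m A

/-- `f` is local and lowers degree by `k`. -/
def Loc0 (k : ℕ) (f : Q →ₗ[ZMod 2] Q) : Prop :=
  ∀ (n m : ℕ) (A : Set V) (z : Q), m + k = n → z ∈ C.gr n A → f z ∈ C.gr m A

lemma Loc0_L (hs : List (V → ZMod 2)) : C.Loc0 hs.length (C.L hs) := by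
  intro n m A z h hz
  subst h
  exact C.L_mem hs hz

lemma Loc0_S (h : V → ZMod 2) (hs : List (V → ZMod 2)) : C.Loc0 hs.length (C.S (h :: hs)) := by
  intro n m A z h' hz
  subst h'
  exact C.S_mem h hs hz

lemma Loc1_S (h : V → ZMod 2) (hs : List (V → ZMod 2)) :
    C.Loc1 (hs.length + 1) (C.S (h :: hs)) := by
  intro n m A z h' hz
  have : m + hs.length = n := by omega
  subst this
  exact C.S_mem h hs hz

variable {C}

lemma Loc1.add {k : ℕ} {E E' : Q →ₗ[ZMod 2] Q} (h : C.Loc1 k E) (h' : C.Loc1 k E') :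
    C.Loc1 k (E + E') := fun n m A z hz hm =>
  Submodule.add_mem _ (h n m A z hz hm) (h' n m A z hz hm)

lemma Loc0.add {k : ℕ} {E E' : Q →ₗ[ZMod 2] Q} (h : C.Loc0 k E) (h' : C.Loc0 k E') :
    C.Loc0 k (E + E') := fun n m A z hz hm =>
  Submodule.add_mem _ (h n m A z hz hm) (h' n m A z hz hm)

lemma Loc1.zero {k : ℕ} : C.Loc1 k (0 : Q →ₗ[ZMod 2] Q) := fun _ _ _ _ _ _ =>
  Submodule.zero_mem _

variable (C)

/-- `f` and `g` are chain homotopic on chains supported on members of `𝒜`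
(`k` = degree by which they lower). -/
def HEq (𝒜 : Set (Set V)) (k : ℕ) (f g : Q →ₗ[ZMod 2] Q) : Prop :=
  ∃ E : Q →ₗ[ZMod 2] Q, C.Loc1 k E ∧
    ∀ (n m : ℕ), m + k = n → ∀ A ∈ 𝒜, ∀ z ∈ C.gr n A, f z + g z = C.d (E z) + E (C.d z)

lemma HEq.refl (𝒜 : Set (Set V)) (k : ℕ) (f : Q →ₗ[ZMod 2] Q) : C.HEq 𝒜 k f f :=
  ⟨0, Loc1.zero, fun _ _ _ _ _ _ _ => by simp [add_self']⟩

variable {C}

lemma HEq.symm {𝒜 : Set (Set V)} {k : ℕ} {f g : Q →ₗ[ZMod 2] Q} (h : C.HEq 𝒜 k f g) :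
    C.HEq 𝒜 k g f := by
  obtain ⟨E, h1, h2⟩ := h
  exact ⟨E, h1, fun n m hm A hA z hz => by rw [add_comm, h2 n m hm A hA z hz]⟩

lemma HEq.trans {𝒜 : Set (Set V)} {k : ℕ} {f g g' : Q →ₗ[ZMod 2] Q} (h : C.HEq 𝒜 k f g)
    (h' : C.HEq 𝒜 k g g') : C.HEq 𝒜 k f g' := by
  obtain ⟨E, h1, h2⟩ := h
  obtain ⟨E', h1', h2'⟩ := h'
  refine ⟨E + E', h1.add h1', ?_⟩
  intro n m hm A hA z hz
  have e1 := h2 n m hm A hA z hz
  have e2 := h2' n m hm A hA z hz
  have : f z + g' z = (f z + g z) + (g z + g' z) := by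
    abel_nf
    simp only [two_ns, two_zs, add_zero, zero_add]
  rw [this, e1, e2]
  simp only [LinearMap.add_apply, map_add]
  abel

lemma HEq.mono {𝒜 𝒜' : Set (Set V)} (hA : 𝒜' ⊆ 𝒜) {k : ℕ} {f g : Q →ₗ[ZMod 2] Q}
    (h : C.HEq 𝒜 k f g) : C.HEq 𝒜' k f g := by
  obtain ⟨E, h1, h2⟩ := h
  exact ⟨E, h1, fun n m hm A hA' z hz => h2 n m hm A (hA hA') z hz⟩

lemma HEq.add {𝒜 : Set (Set V)} {k : ℕ} {f g f' g' : Q →ₗ[ZMod 2] Q} (h : C.HEq 𝒜 k f g)
    (h' : C.HEq 𝒜 k f' g') : C.HEq 𝒜 k (f + f') (g + g') := by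
  obtain ⟨E, h1, h2⟩ := h
  obtain ⟨E', h1', h2'⟩ := h'
  refine ⟨E + E', h1.add h1', ?_⟩
  intro n m hm A hA z hz
  have e1 := h2 n m hm A hA z hz
  have e2 := h2' n m hm A hA z hz
  have : (f + f') z + (g + g') z = (f z + g z) + (f' z + g' z) := by
    simp only [LinearMap.add_apply]; abel
  rw [this, e1, e2]
  simp only [LinearMap.add_apply, map_add]
  abel

variable (C)

/-- a function is constant on a set. -/
def Cst (h : V → ZMod 2) (A : Set V) : Prop := ∃ c : ZMod 2, ∀ a ∈ A, h a = c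

lemma HEq_change {𝒜 : Set (Set V)} (h0 : V → ZMod 2) (pre post : List (V → ZMod 2))
    (h h' : V → ZMod 2)
    (H : ∀ A ∈ 𝒜, (∀ a ∈ A, h a = h' a) ∨ Cst h0 A ∨ ∃ g ∈ pre ++ post, Cst g A) :
    C.HEq 𝒜 (pre.length + post.length + 1) (C.S (h0 :: (pre ++ h :: post)))
      (C.S (h0 :: (pre ++ h' :: post))) := by
  refine ⟨C.L post ∘ₗ C.m (h + h') ∘ₗ C.L pre ∘ₗ C.m h0, ?_, ?_⟩
  · intro N n A z hN hz
    refine C.L_mem post (C.m_mem _ (C.L_mem pre (C.m_mem _ ?_)))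
    have : n + post.length + pre.length = N := by omega
    rw [this]; exact hz
  · intro N n hN A hA z hz
    subst hN
    rw [S_change]
    have hz1 : z ∈ C.gr ((n + post.length + pre.length) + 1) A := by
      have : (n + post.length + pre.length) + 1 = n + (pre.length + post.length + 1) := by omega
      rw [this]; exact hz
    have : C.L post (C.m (h + h') (C.L pre (C.l h0 z))) = 0 := by
      have hl : C.l h0 z ∈ C.gr (n + post.length + pre.length) A := C.l_mem h0 hz1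
      rcases H A hA with h1 | ⟨c, hc⟩ | ⟨g, hg, c, hc⟩
      · have := C.L_mem (n := n + post.length) pre hl
        rw [C.m_const this (c := 0), zero_smul, map_zero]
        intro a ha
        rw [Pi.add_apply, h1 a ha, add_self']
      · rw [C.l_const hz1 hc, map_zero, map_zero, map_zero]
      · rw [List.mem_append] at hg
        rcases hg with hg | hg
        · rw [C.L_vanish (n := n + post.length) pre hl ⟨g, hg, c, hc⟩, map_zero, map_zero]
        · exact C.L_vanish (n := n) post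
            (C.m_mem _ (C.L_mem (n := n + post.length) pre hl)) ⟨g, hg, c, hc⟩
    rw [this, add_zero]
    rfl

lemma HEq_change0 {𝒜 : Set (Set V)} (h0 h0' : V → ZMod 2) (hs : List (V → ZMod 2))
    (H : ∀ A ∈ 𝒜, (∀ a ∈ A, h0 a = h0' a) ∨ ∃ g ∈ hs, Cst g A) :
    C.HEq 𝒜 hs.length (C.S (h0 :: hs)) (C.S (h0' :: hs)) := by
  refine ⟨0, Loc1.zero, ?_⟩
  intro N n hN A hA z hz
  subst hN
  simp only [LinearMap.zero_apply, map_zero, add_zero]
  rw [S_cons, S_cons, ← map_add, ← C.m_add]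
  rcases H A hA with h1 | ⟨g, hg, c, hc⟩
  · rw [C.m_const hz (c := 0), zero_smul, map_zero]
    intro a ha
    rw [Pi.add_apply, h1 a ha, add_self']
  · exact C.L_vanish (n := n) hs (C.m_mem _ hz) ⟨g, hg, c, hc⟩

lemma HEq_mix {𝒜 : Set (Set V)} {k : ℕ} (hs hs' : List (V → ZMod 2)) (hk : hs.length = k + 1)
    (hk' : hs'.length = k + 1)
    (H : ∀ A ∈ 𝒜, ∀ j, (hj : j < k + 1) → (∀ a ∈ A, hs[j] a = hs'[j] a) ∨
      ∃ i, ∃ (hi : i < k + 1), i ≠ j ∧ Cst hs[i] A ∧ Cst hs'[i] A) :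
    ∀ j, j ≤ k + 1 → C.HEq 𝒜 k (C.S hs) (C.S (hs'.take j ++ hs.drop j)) := by
  intro j
  induction j with
  | zero => intro _; simpa using HEq.refl C 𝒜 k (C.S hs)
  | succ j ih =>
    intro hj
    refine (ih (by omega)).trans ?_
    have e1 : hs.drop j = hs[j] :: hs.drop (j + 1) := List.drop_eq_getElem_cons (by omega)
    have e2 : hs'.take (j + 1) = hs'.take j ++ [hs'[j]] := by
      rw [List.take_succ_eq_append_getElem (by omega)]
    rw [e1, e2, List.append_assoc, List.singleton_append]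
    rcases Nat.eq_zero_or_pos j with rfl | hj0
    · simp only [List.take_zero, List.nil_append]
      have hl : (hs.drop (0 + 1)).length = k := by simp [hk]
      have := C.HEq_change0 (𝒜 := 𝒜) hs[0] hs'[0] (hs.drop (0+1)) (fun A hA => by
        rcases H A hA 0 (by omega) with h | ⟨i, hi, h1, h2, h3⟩
        · exact Or.inl h
        · refine Or.inr ⟨hs[i], ?_, h2⟩
          rw [List.mem_iff_getElem]
          refine ⟨i - 1, by simp; omega, ?_⟩
          rw [List.getElem_drop]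
          congr 1
          omega)
      rwa [hl] at this
    · obtain ⟨h0, pre, hpre⟩ : ∃ h0 pre, hs'.take j = h0 :: pre := by
        cases h : hs'.take j with
        | nil =>
          have h2 := congrArg List.length h
          rw [List.length_take, List.length_nil] at h2
          omega
        | cons a b => exact ⟨a, b, rfl⟩
      rw [hpre, List.cons_append, List.cons_append]
      have hl1 : pre.length + 1 = j := by
        have : (hs'.take j).length = j := by simp; omega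
        rw [hpre] at this; simpa using this
      have hl : pre.length + (hs.drop (j + 1)).length + 1 = k := by simp; omega
      have := C.HEq_change (𝒜 := 𝒜) h0 pre (hs.drop (j+1)) hs[j] hs'[j] (fun A hA => by
        rcases H A hA j (by omega) with h | ⟨i, hi, h1, h2, h3⟩
        · exact Or.inl h
        · right
          rcases Nat.lt_or_ge i j with hij | hij
          · have hm : hs'[i] ∈ hs'.take j := by
              rw [List.mem_iff_getElem]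
              exact ⟨i, by simp; omega, by rw [List.getElem_take]⟩
            rw [hpre, List.mem_cons] at hm
            rcases hm with hm | hm
            · left; rw [← hm]; exact h3
            · right; exact ⟨_, List.mem_append_left _ hm, h3⟩
          · right
            refine ⟨hs[i], List.mem_append_right _ ?_, h2⟩
            rw [List.mem_iff_getElem]
            refine ⟨i - (j + 1), by simp; omega, ?_⟩
            rw [List.getElem_drop]
            congr 1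
            omega)
      rwa [hl] at this

/-- `h` is a sign function of `f` with tolerance `c` on `A`. -/
def Adp (h : V → ZMod 2) (f : V → ℝ) (c : ℝ) (A : Set V) : Prop :=
  ∀ v ∈ A, (c ≤ f v → h v = 1) ∧ (f v ≤ -c → h v = 0)

lemma HEq_close {𝒜 : Set (Set V)} {k : ℕ} (f f' : Fin (k + 1) → V → ℝ)
    (h h' : Fin (k + 1) → V → ZMod 2) {ρ : ℝ} (hρ : 0 < ρ)
    (hh : ∀ A ∈ 𝒜, ∀ i, Adp (h i) (f i) (ρ / 2) A)
    (hh' : ∀ A ∈ 𝒜, ∀ i, Adp (h' i) (f' i) (ρ / 2) A)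
    (var : ∀ A ∈ 𝒜, ∀ i, ∀ a ∈ A, ∀ b ∈ A, |f i a - f i b| < ρ / 4)
    (close : ∀ A ∈ 𝒜, ∀ i, ∀ a ∈ A, |f i a - f' i a| < ρ / 4)
    (nz : ∀ A ∈ 𝒜, ∀ a ∈ A, ∃ i, ρ ≤ |f i a|) :
    C.HEq 𝒜 k (C.S (List.ofFn h)) (C.S (List.ofFn h')) := by
  have key := C.HEq_mix (𝒜 := 𝒜) (k := k) (List.ofFn h) (List.ofFn h') (by simp) (by simp) ?_
    (k + 1) le_rfl
  · rw [List.take_of_length_le (by simp), List.drop_of_length_le (by simp), List.append_nil] at key
    exact key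
  · intro A hA j hj
    simp only [List.getElem_ofFn]
    by_cases hall : ∀ a ∈ A, h ⟨j, hj⟩ a = h' ⟨j, hj⟩ a
    · exact Or.inl hall
    · right
      push Not at hall
      obtain ⟨a, ha, hne⟩ := hall
      obtain ⟨i, hi⟩ := nz A hA a ha
      have h1 := hh A hA
      have h2 := hh' A hA
      have hij : i ≠ ⟨j, hj⟩ := by
        rintro rfl
        apply hne
        have hc := abs_lt.1 (close A hA ⟨j, hj⟩ a ha)
        rcases le_abs.1 hi with h3 | h3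
        · rw [(h1 ⟨j, hj⟩ a ha).1 (by linarith), (h2 ⟨j, hj⟩ a ha).1 (by linarith)]
        · rw [(h1 ⟨j, hj⟩ a ha).2 (by linarith), (h2 ⟨j, hj⟩ a ha).2 (by linarith)]
      refine ⟨i, i.2, fun hh => hij (Fin.ext hh), ?_⟩
      rcases le_abs.1 hi with h3 | h3
      · refine ⟨⟨1, fun b hb => ?_⟩, ⟨1, fun b hb => ?_⟩⟩
        · have hv := abs_lt.1 (var A hA i a ha b hb)
          exact (h1 i b hb).1 (by linarith)
        · have hv := abs_lt.1 (var A hA i a ha b hb)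
          have hc := abs_lt.1 (close A hA i b hb)
          exact (h2 i b hb).1 (by linarith)
      · refine ⟨⟨0, fun b hb => ?_⟩, ⟨0, fun b hb => ?_⟩⟩
        · have hv := abs_lt.1 (var A hA i a ha b hb)
          exact (h1 i b hb).2 (by linarith)
        · have hv := abs_lt.1 (var A hA i a ha b hb)
          have hc := abs_lt.1 (close A hA i b hb)
          exact (h2 i b hb).2 (by linarith)

lemma HEq_line {𝒜 : Set (Set V)} {k : ℕ} (f f' : Fin (k + 1) → V → ℝ)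
    (h h' : Fin (k + 1) → V → ZMod 2) {ρ K : ℝ} (hρ : 0 < ρ)
    (hh : ∀ A ∈ 𝒜, ∀ i, Adp (h i) (f i) (ρ / 2) A)
    (hh' : ∀ A ∈ 𝒜, ∀ i, Adp (h' i) (f' i) (ρ / 2) A)
    (var : ∀ A ∈ 𝒜, ∀ i, ∀ a ∈ A, ∀ b ∈ A, |f i a - f i b| < ρ / 4)
    (var' : ∀ A ∈ 𝒜, ∀ i, ∀ a ∈ A, ∀ b ∈ A, |f' i a - f' i b| < ρ / 4)
    (bdd : ∀ A ∈ 𝒜, ∀ i, ∀ a ∈ A, |f i a - f' i a| ≤ K)
    (nz : ∀ s : ℝ, 0 ≤ s → s ≤ 1 → ∀ A ∈ 𝒜, ∀ a ∈ A, ∃ i, ρ ≤ |(1 - s) * f i a + s * f' i a|) :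
    C.HEq 𝒜 k (C.S (List.ofFn h)) (C.S (List.ofFn h')) := by
  obtain ⟨L, hL⟩ : ∃ L : ℕ, 4 * |K| / ρ < L := exists_nat_gt _
  have hL0 : (0 : ℝ) < L := lt_of_le_of_lt (by positivity) hL
  have hL1 : L ≠ 0 := by rintro rfl; simp at hL0
  have hstep : |K| / L < ρ / 4 := by
    rw [div_lt_div_iff₀ hL0 (by norm_num)]
    rw [div_lt_iff₀ hρ] at hL
    linarith
  set F : ℕ → Fin (k + 1) → V → ℝ := fun t i v => (1 - (t : ℝ) / L) * f i v + ((t : ℝ) / L) * f' i v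
    with hF
  set H : ℕ → Fin (k + 1) → V → ZMod 2 := fun t i v =>
    if t = 0 then h i v else if t = L then h' i v else if 0 < F t i v then 1 else 0 with hH
  have hs : ∀ t, t ≤ L → 0 ≤ (t : ℝ) / L ∧ (t : ℝ) / L ≤ 1 := by
    intro t ht
    refine ⟨by positivity, ?_⟩
    rw [div_le_one hL0]
    exact_mod_cast ht
  have hadp : ∀ t, t ≤ L → ∀ A ∈ 𝒜, ∀ i, Adp (H t i) (F t i) (ρ / 2) A := by
    intro t ht A hA i v hv
    by_cases h0 : t = 0
    · subst h0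
      have e1 : F 0 i v = f i v := by simp [hF]
      have e2 : H 0 i v = h i v := by simp [hH]
      rw [e1, e2]
      exact hh A hA i v hv
    by_cases h1 : t = L
    · subst h1
      have e1 : F t i v = f' i v := by simp [hF, div_self hL0.ne']
      have e2 : H t i v = h' i v := by simp [hH, hL1]
      rw [e1, e2]
      exact hh' A hA i v hv
    · have e2 : H t i v = if 0 < F t i v then 1 else 0 := by simp [hH, h0, h1]
      rw [e2]
      refine ⟨fun h => ?_, fun h => ?_⟩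
      · rw [if_pos (by linarith)]
      · rw [if_neg (by linarith)]
  have hvar : ∀ t, t ≤ L → ∀ A ∈ 𝒜, ∀ i, ∀ a ∈ A, ∀ b ∈ A, |F t i a - F t i b| < ρ / 4 := by
    intro t ht A hA i a ha b hb
    obtain ⟨s0, s1⟩ := hs t ht
    have e : F t i a - F t i b = (1 - (t:ℝ)/L) * (f i a - f i b) + ((t:ℝ)/L) * (f' i a - f' i b) := by
      simp only [hF]; ring
    rw [e]
    have v1 := abs_lt.1 (var A hA i a ha b hb)
    have v2 := abs_lt.1 (var' A hA i a ha b hb)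
    set s := (t:ℝ)/L
    rw [abs_lt]
    constructor
    · rcases eq_or_lt_of_le s0 with h | h
      · rw [← h]; linarith
      · nlinarith
    · rcases eq_or_lt_of_le s0 with h | h
      · rw [← h]; linarith
      · nlinarith
  have hclose : ∀ t, t + 1 ≤ L → ∀ A ∈ 𝒜, ∀ i, ∀ a ∈ A, |F t i a - F (t+1) i a| < ρ / 4 := by
    intro t ht A hA i a ha
    have e : F t i a - F (t+1) i a = (f i a - f' i a) / L := by
      simp only [hF]
      push_cast
      field_simp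
      ring
    rw [e, abs_div, abs_of_pos hL0]
    refine lt_of_le_of_lt ?_ hstep
    exact div_le_div_of_nonneg_right ((bdd A hA i a ha).trans (le_abs_self K)) hL0.le
  have hnz : ∀ t, t ≤ L → ∀ A ∈ 𝒜, ∀ a ∈ A, ∃ i, ρ ≤ |F t i a| := by
    intro t ht A hA a ha
    obtain ⟨s0, s1⟩ := hs t ht
    exact nz _ s0 s1 A hA a ha
  have main : ∀ t, t ≤ L → C.HEq 𝒜 k (C.S (List.ofFn (H 0))) (C.S (List.ofFn (H t))) := by
    intro t
    induction t with
    | zero => intro _; exact HEq.refl C _ _ _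
    | succ t ih =>
      intro ht
      refine (ih (by omega)).trans ?_
      exact C.HEq_close (F t) (F (t+1)) (H t) (H (t+1)) hρ (hadp t (by omega)) (hadp (t+1) ht)
        (hvar t (by omega)) (hclose t ht) (hnz t (by omega))
  have := main L le_rfl
  have e0 : H 0 = h := by funext i v; simp [hH]
  have e1 : H L = h' := by funext i v; simp [hH, hL1]
  rwa [e0, e1] at this

/-! ### small chains and the product of two null homotopic operators -/

/-- small chains: sums of chains supported on members of `𝒮`. -/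
def sm (𝒮 : Set (Set V)) (n : ℕ) : Submodule (ZMod 2) Q := ⨆ A ∈ 𝒮, C.gr n A

lemma gr_le_sm {𝒮 : Set (Set V)} {n : ℕ} {A : Set V} (hA : A ∈ 𝒮) : C.gr n A ≤ C.sm 𝒮 n :=
  le_iSup₂_of_le A hA le_rfl

lemma sm_le {𝒮 : Set (Set V)} {n : ℕ} {N : Submodule (ZMod 2) Q}
    (h : ∀ A ∈ 𝒮, C.gr n A ≤ N) : C.sm 𝒮 n ≤ N := iSup₂_le h

lemma sm_le_gr {𝒮 : Set (Set V)} {n : ℕ} {Ω : Set V} (h : ∀ A ∈ 𝒮, A ⊆ Ω) :
    C.sm 𝒮 n ≤ C.gr n Ω := C.sm_le fun A hA => C.gr_mono (h A hA)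

lemma sm_map {𝒮 𝒮' : Set (Set V)} {n m : ℕ} {f : Q →ₗ[ZMod 2] Q}
    (h : ∀ A ∈ 𝒮, ∀ z ∈ C.gr n A, f z ∈ C.sm 𝒮' m) {z : Q} (hz : z ∈ C.sm 𝒮 n) :
    f z ∈ C.sm 𝒮' m := by
  have : C.sm 𝒮 n ≤ (C.sm 𝒮' m).comap f := C.sm_le fun A hA z hz => h A hA z hz
  exact this hz

lemma sm_eq {𝒮 : Set (Set V)} {n : ℕ} {M : Type*} [AddCommMonoid M] [Module (ZMod 2) M]
    (f g : Q →ₗ[ZMod 2] M) (h : ∀ A ∈ 𝒮, ∀ z ∈ C.gr n A, f z = g z) {z : Q}
    (hz : z ∈ C.sm 𝒮 n) : f z = g z := by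
  have : C.sm 𝒮 n ≤ LinearMap.eqLocus f g := C.sm_le fun A hA z hz => h A hA z hz
  exact this hz

lemma sm_d {𝒮 : Set (Set V)} {n : ℕ} {z : Q} (hz : z ∈ C.sm 𝒮 (n + 1)) : C.d z ∈ C.sm 𝒮 n :=
  C.sm_map (fun _ hA _ hz => C.gr_le_sm hA (C.d_mem hz)) hz

lemma sm_loc0 {𝒮 : Set (Set V)} {n m k : ℕ} {f : Q →ₗ[ZMod 2] Q} (hf : C.Loc0 k f)
    (h : m + k = n) {z : Q} (hz : z ∈ C.sm 𝒮 n) : f z ∈ C.sm 𝒮 m :=
  C.sm_map (fun A hA _ hz => C.gr_le_sm hA (hf n m A _ h hz)) hz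

lemma sm_loc1 {𝒮 : Set (Set V)} {n m k : ℕ} {f : Q →ₗ[ZMod 2] Q} (hf : C.Loc1 k f)
    (h : m + k = n + 1) {z : Q} (hz : z ∈ C.sm 𝒮 n) : f z ∈ C.sm 𝒮 m :=
  C.sm_map (fun A hA _ hz => C.gr_le_sm hA (hf n m A _ h hz)) hz

lemma aug_d_sm {𝒮 : Set (Set V)} {z : Q} (hz : z ∈ C.sm 𝒮 1) : C.aug (C.d z) = 0 := by
  have := C.sm_eq (𝒮 := 𝒮) (n := 1) (C.aug ∘ₗ C.d) 0
    (fun A _ z hz => by
      simp only [LinearMap.comp_apply, LinearMap.zero_apply]
      exact C.aug_d hz) hz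
  simpa using this

/-- `f` commutes with the boundary on small chains. -/
def Comm (𝒮 : Set (Set V)) (k : ℕ) (f : Q →ₗ[ZMod 2] Q) : Prop :=
  ∀ (n m : ℕ), m + k + 1 = n → ∀ A ∈ 𝒮, ∀ z ∈ C.gr n A, f (C.d z) = C.d (f z)

lemma Comm_sm {𝒮 : Set (Set V)} {k : ℕ} {f : Q →ₗ[ZMod 2] Q} (hf : C.Comm 𝒮 k f) {n m : ℕ}
    (h : m + k + 1 = n) {z : Q} (hz : z ∈ C.sm 𝒮 n) : f (C.d z) = C.d (f z) := by
  have := C.sm_eq (𝒮 := 𝒮) (n := n) (f ∘ₗ C.d) (C.d ∘ₗ f) (fun A hA z hz => hf n m h A hA z hz) hz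
  simpa using this

/-- the remainder operator `f + d E + E d`. -/
def rem (f E : Q →ₗ[ZMod 2] Q) : Q →ₗ[ZMod 2] Q := f + C.d ∘ₗ E + E ∘ₗ C.d

lemma rem_apply (f E : Q →ₗ[ZMod 2] Q) (z : Q) :
    C.rem f E z = f z + C.d (E z) + E (C.d z) := rfl

lemma rem_mem {k : ℕ} (hk : 1 ≤ k) {f E : Q →ₗ[ZMod 2] Q} (l : C.Loc0 k f) (e : C.Loc1 k E)
    {n m : ℕ} {A : Set V} {z : Q} (h : m + k = n) (hz : z ∈ C.gr n A) :
    C.rem f E z ∈ C.gr m A := by
  obtain ⟨n', rfl⟩ : ∃ n', n = n' + 1 := ⟨n - 1, by omega⟩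
  refine Submodule.add_mem _ (Submodule.add_mem _ (l _ _ A z h hz) ?_) ?_
  · exact C.d_mem (e _ (m + 1) A z (by omega) hz)
  · exact e n' m A _ (by omega) (C.d_mem hz)

/-- the homotopy for the product of two null homotopic operators. -/
def lsG (f₁ f₂ E₁ E₂ : Q →ₗ[ZMod 2] Q) : Q →ₗ[ZMod 2] Q :=
  E₁ ∘ₗ C.rem f₂ E₂ + C.rem f₁ E₁ ∘ₗ E₂ + E₁ ∘ₗ (C.d ∘ₗ E₂ + E₂ ∘ₗ C.d)

theorem ls {𝒮 𝒜₁ 𝒜₂ : Set (Set V)} (hcov : ∀ A ∈ 𝒮, A ∈ 𝒜₁ ∨ A ∈ 𝒜₂) {k₁ k₂ : ℕ}
    (hk₁ : 1 ≤ k₁) (hk₂ : 1 ≤ k₂) {f₁ f₂ E₁ E₂ : Q →ₗ[ZMod 2] Q}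
    (l₁ : C.Loc0 k₁ f₁) (l₂ : C.Loc0 k₂ f₂) (c₁ : C.Comm 𝒮 k₁ f₁) (c₂ : C.Comm 𝒮 k₂ f₂)
    (e₁ : C.Loc1 k₁ E₁) (e₂ : C.Loc1 k₂ E₂)
    (n₁ : ∀ (n m : ℕ), m + k₁ = n → ∀ A ∈ 𝒜₁, ∀ z ∈ C.gr n A,
      f₁ z = C.d (E₁ z) + E₁ (C.d z))
    (n₂ : ∀ (n m : ℕ), m + k₂ = n → ∀ A ∈ 𝒜₂, ∀ z ∈ C.gr n A,
      f₂ z = C.d (E₂ z) + E₂ (C.d z))
    {n m : ℕ} (h : m + (k₁ + k₂) = n) {A : Set V} (hA : A ∈ 𝒮) {z : Q} (hz : z ∈ C.gr n A) :
    f₁ (f₂ z) = C.d (C.lsG f₁ f₂ E₁ E₂ z) + C.lsG f₁ f₂ E₁ E₂ (C.d z) := by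
  obtain ⟨n', rfl⟩ : ∃ n', n = n' + 1 := ⟨n - 1, by omega⟩
  have hr2 : C.rem f₂ E₂ z ∈ C.gr (m + k₁) A := C.rem_mem hk₂ l₂ e₂ (by omega) hz
  have hRR : C.rem f₁ E₁ (C.rem f₂ E₂ z) = 0 := by
    rcases hcov A hA with h1 | h1
    · rw [rem_apply, n₁ _ m rfl A h1 _ hr2, add_assoc, add_self']
    · have : C.rem f₂ E₂ z = 0 := by
        rw [rem_apply, n₂ _ (m + k₁) (by omega) A h1 _ hz, add_assoc, add_self']
      rw [this, map_zero]
  have hE2 : E₂ z ∈ C.gr (m + k₁ + 1) A := e₂ _ _ A z (by omega) hz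
  have q1 : f₁ (C.d (E₂ z)) = C.d (f₁ (E₂ z)) := c₁ _ m rfl A hA _ hE2
  have q2 : f₂ (C.d z) = C.d (f₂ z) := c₂ _ (m + k₁ - 1) (by omega) A hA _ hz
  simp only [lsG, rem_apply, map_add, LinearMap.add_apply, LinearMap.comp_apply, C.dd, map_zero,
    add_zero, zero_add] at hRR ⊢
  rw [q1, q2] at *
  have : f₁ (f₂ z) = f₁ (f₂ z) + 0 := by rw [add_zero]
  rw [this, ← hRR]
  abel_nf
  simp only [two_ns, two_zs, three_ns, three_zs, add_zero, zero_add]

lemma lsG_mem {k₁ k₂ : ℕ} (hk₁ : 1 ≤ k₁) (hk₂ : 1 ≤ k₂) {f₁ f₂ E₁ E₂ : Q →ₗ[ZMod 2] Q}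
    (l₁ : C.Loc0 k₁ f₁) (l₂ : C.Loc0 k₂ f₂) (e₁ : C.Loc1 k₁ E₁) (e₂ : C.Loc1 k₂ E₂)
    {n m : ℕ} (h : m + (k₁ + k₂) = n) {A : Set V} {z : Q} (hz : z ∈ C.gr n A) :
    C.lsG f₁ f₂ E₁ E₂ z ∈ C.gr (m + 1) A := by
  obtain ⟨n', rfl⟩ : ∃ n', n = n' + 1 := ⟨n - 1, by omega⟩
  have hr2 : C.rem f₂ E₂ z ∈ C.gr (m + k₁) A := C.rem_mem hk₂ l₂ e₂ (by omega) hz
  have hE2 : E₂ z ∈ C.gr (m + k₁ + 1) A := e₂ _ _ A z (by omega) hz
  refine Submodule.add_mem _ (Submodule.add_mem _ ?_ ?_) ?_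
  · exact e₁ _ _ A _ (by omega) hr2
  · exact C.rem_mem hk₁ l₁ e₁ (by omega) hE2
  · refine e₁ (m + k₁) _ A _ (by omega) (Submodule.add_mem _ ?_ ?_)
    · exact C.d_mem hE2
    · exact e₂ n' _ A _ (by omega) (C.d_mem hz)

end SC

end Pool.Agent.TightEmb

namespace Pool.Agent.TightEmb

/-- an involution of a sign complex. -/
structure Invol {V Q : Type*} [AddCommGroup Q] [Module (ZMod 2) Q] (C : SC V Q) where
  T : V → V
  t : Q →ₗ[ZMod 2] Q
  TT : ∀ v, T (T v) = v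
  tt : ∀ z, t (t z) = z
  td : ∀ z, t (C.d z) = C.d (t z)
  tm : ∀ (h : V → ZMod 2) (z : Q), t (C.m h z) = C.m (h ∘ T) (t z)
  taug : ∀ z, C.aug (t z) = C.aug z
  t_mem : ∀ {n : ℕ} {A : Set V} {z : Q}, z ∈ C.gr n A → t z ∈ C.gr n (T '' A)

namespace Invol

variable {V Q : Type*} [AddCommGroup Q] [Module (ZMod 2) Q] {C : SC V Q} (I : Invol C)

/-- `h` is odd on `Ω`. -/
def Odd (Ω : Set V) (h : V → ZMod 2) : Prop := ∀ v ∈ Ω, h (I.T v) = h v + 1

/-- a tower of length `m`: small chains `b 0, …, b m` with `d b (j+1) = b j + t (b j)`. -/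
structure Tower (𝒮 : Set (Set V)) (m : ℕ) (b : ℕ → Q) : Prop where
  mem : ∀ j, j ≤ m → b j ∈ C.sm 𝒮 j
  bdry : ∀ j, j < m → C.d (b (j + 1)) = b j + I.t (b j)

variable {I}

lemma Tower.mono {𝒮 𝒮' : Set (Set V)} {m m' : ℕ} {b : ℕ → Q} (h : I.Tower 𝒮 m b) (hm : m' ≤ m)
    (hS : ∀ n, C.sm 𝒮 n ≤ C.sm 𝒮' n) : I.Tower 𝒮' m' b :=
  ⟨fun j hj => hS j (h.mem j (by omega)), fun j hj => h.bdry j (by omega)⟩

lemma tl (h : V → ZMod 2) (z : Q) : I.t (C.l h z) = C.l (h ∘ I.T) (I.t z) := by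
  simp only [SC.l_apply, map_add, I.td, I.tm]

lemma tL (hs : List (V → ZMod 2)) (z : Q) :
    I.t (C.L hs z) = C.L (hs.map (· ∘ I.T)) (I.t z) := by
  induction hs generalizing z with
  | nil => rfl
  | cons h hs ih => rw [SC.L_cons, ih, tl, List.map_cons, SC.L_cons]

lemma tS (h : V → ZMod 2) (hs : List (V → ZMod 2)) (z : Q) :
    I.t (C.S (h :: hs) z) = C.S ((h :: hs).map (· ∘ I.T)) (I.t z) := by
  rw [SC.S_cons, tL, I.tm, List.map_cons, SC.S_cons]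

lemma l_odd {Ω : Set V} {h : V → ZMod 2} (ho : I.Odd Ω h) {n : ℕ} {z : Q}
    (hz : z ∈ C.gr (n + 1) Ω) : C.l (h ∘ I.T) z = C.l h z := by
  have e : C.l (h ∘ I.T) z + C.l h z = 0 := by
    rw [← C.l_add, C.l_const hz (c := 1)]
    intro a ha
    rw [Pi.add_apply, Function.comp_apply, ho a ha, add_assoc, add_comm 1, ← add_assoc,
      add_self', zero_add]
  exact eq_of_add_zero e

lemma L_t {Ω : Set V} (hs : List (V → ZMod 2)) (ho : ∀ h ∈ hs, I.Odd Ω h)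
    {n : ℕ} {z : Q} (hz : z ∈ C.gr (n + hs.length) Ω) :
    C.L hs (I.t z) = I.t (C.L hs z) := by
  induction hs generalizing z with
  | nil => rfl
  | cons h hs ih =>
    have hz1 : z ∈ C.gr ((n + hs.length) + 1) Ω := by simpa [add_assoc] using hz
    rw [SC.L_cons, SC.L_cons]
    have e : C.l h (I.t z) = I.t (C.l h z) := by
      have h1 : I.t (C.l (h ∘ I.T) z) = C.l h (I.t z) := by
        rw [tl]
        congr 2
        funext v
        simp [I.TT]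
      rw [← h1, l_odd (ho h (by simp)) hz1]
    rw [e]
    exact ih (fun g hg => ho g (by simp [hg])) (C.l_mem h hz1)

/-- the Borsuk-Ulam evaluation. -/
theorem bu {Ω : Set V} (hs : List (V → ZMod 2)) (ho : ∀ h ∈ hs, I.Odd Ω h)
    {𝒮 : Set (Set V)} (hS : ∀ A ∈ 𝒮, A ⊆ Ω)
    {b : ℕ → Q} (hb : I.Tower 𝒮 hs.length b) : C.aug (C.L hs (b hs.length)) = C.aug (b 0) := by
  induction hs generalizing b with
  | nil => rfl
  | cons h hs ih =>
    have hb' : I.Tower 𝒮 hs.length b := hb.mono (by simp) (fun _ => le_rfl)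
    have ho' : ∀ g ∈ hs, I.Odd Ω g := fun g hg => ho g (by simp [hg])
    have hm : b hs.length ∈ C.gr hs.length Ω := C.sm_le_gr hS (hb.mem _ (by simp))
    have hm' : b (hs.length + 1) ∈ C.gr (hs.length + 1) Ω := C.sm_le_gr hS (hb.mem _ (by simp))
    have hh := ho h (by simp)
    rw [SC.L_cons]
    show C.aug (C.L hs (C.l h (b (hs.length + 1)))) = C.aug (b 0)
    rw [SC.l_apply, hb.bdry hs.length (by simp), map_add, map_add]
    have e1 : C.aug (C.L hs (C.d (C.m h (b (hs.length + 1))))) = 0 := by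
      apply C.aug_L_d (A := Ω) hs
      rw [add_comm]
      exact C.m_mem h hm'
    rw [e1, zero_add]
    have e2 : C.m h (I.t (b hs.length)) = I.t (C.m h (b hs.length)) + I.t (b hs.length) := by
      have h1 : I.t (C.m (h ∘ I.T) (b hs.length)) = C.m h (I.t (b hs.length)) := by
        rw [I.tm]
        congr 2
        funext v
        simp [I.TT]
      have h2 : C.m (h ∘ I.T) (b hs.length) = C.m h (b hs.length) + b hs.length := by
        have h3 : C.m (h ∘ I.T) (b hs.length) + C.m h (b hs.length) = b hs.length := by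
          rw [← C.m_add, C.m_const hm (c := 1), one_smul]
          intro a ha
          rw [Pi.add_apply, Function.comp_apply, hh a ha, add_assoc, add_comm 1, ← add_assoc,
            add_self', zero_add]
        apply eq_of_add_zero
        rw [← add_assoc, h3, add_self']
      rw [← h1, h2, map_add]
    rw [map_add (C.m h), e2]
    have hmm : C.m h (b hs.length) ∈ C.gr (0 + hs.length) Ω := by
      rw [zero_add]; exact C.m_mem h hm
    have hb0 : b hs.length ∈ C.gr (0 + hs.length) Ω := by rw [zero_add]; exact hm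
    simp only [map_add]
    rw [L_t hs ho' hmm, L_t hs ho' hb0, I.taug, I.taug, ih ho' hb', ← add_assoc, add_self',
      zero_add]

end Invol

end Pool.Agent.TightEmb
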