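import Pool.Agent.TightEmb.Lists

/-!
Chains of mixed degree and homotopies at small scale.
-/

set_option linter.unusedSimpArgs false

namespace Pool.Agent.TightEmb

open Finsupp

variable {V W : Type*}

/-- chains (of mixed degree) on lists satisfying `P`. -/
noncomputable def CA (P : List V → Prop) : Submodule (ZMod 2) (Ch V) :=
  Finsupp.supported (ZMod 2) (ZMod 2) {l | P l}

lemma single_mem_CA {P : List V → Prop} {l : List V} (h2 : P l) (c : ZMod 2) :
    single l c ∈ CA P := Finsupp.single_mem_supported _ _ h2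

lemma mem_CA {P : List V → Prop} {z : Ch V} : z ∈ CA P ↔ ∀ l ∈ z.support, P l := by
  rw [CA, Finsupp.mem_supported]
  rfl

lemma CA_induction {P : List V → Prop} {M : Type*} [AddCommMonoid M] [Module (ZMod 2) M]
    (f : Ch V →ₗ[ZMod 2] M) (N : Submodule (ZMod 2) M)
    (h : ∀ l : List V, P l → f (single l 1) ∈ N) {z : Ch V} (hz : z ∈ CA P) :
    f z ∈ N := by
  rw [CA, Finsupp.supported_eq_span_single] at hz
  have : Submodule.span (ZMod 2) ((fun i => single i (1 : ZMod 2)) '' {l | P l}) ≤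
      N.comap f := by
    rw [Submodule.span_le]
    rintro _ ⟨l, h1, rfl⟩
    exact h l h1
  exact this hz

lemma CA_eq {P : List V → Prop} {M : Type*} [AddCommMonoid M] [Module (ZMod 2) M]
    (f g : Ch V →ₗ[ZMod 2] M)
    (h : ∀ l : List V, P l → f (single l 1) = g (single l 1)) {z : Ch V}
    (hz : z ∈ CA P) : f z = g z :=
  CA_induction LinearMap.id (LinearMap.eqLocus f g) (fun l h2 => h l h2) hz

lemma CA_mono {P P' : List V → Prop} (h : ∀ l, P l → P' l) : CA P ≤ CA P' :=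
  Finsupp.supported_mono h

lemma CK_le_CA {P : List V → Prop} {n : ℕ} : CK P n ≤ CA P := by
  intro z hz
  rw [mem_CK] at hz
  rw [mem_CA]
  exact fun l hl => (hz l hl).2

lemma bd_mem_CA {P : List V → Prop} (hP : SubClosed P) {z : Ch V} (hz : z ∈ CA P) :
    bd z ∈ CA P := by
  refine CA_induction bd _ (fun l h2 => ?_) hz
  rw [mem_CA]
  intro l' hl'
  exact hP l l' (bd_single_mem l 1 l' hl').2 h2

lemma mapL_mem_CA {P : List V → Prop} {P' : List W → Prop} {g : V → W}
    (h : ∀ l, P l → P' (l.map g)) {z : Ch V} (hz : z ∈ CA P) : mapL g z ∈ CA P' := by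
  refine CA_induction (mapL g) _ (fun l h2 => ?_) hz
  rw [mapL_single]
  exact single_mem_CA (h l h2) 1

lemma mL_mem_CA {P : List V → Prop} (h : V → ZMod 2) {z : Ch V} (hz : z ∈ CA P) :
    mL h z ∈ CA P := by
  refine CA_induction (mL h) _ (fun l h2 => ?_) hz
  cases l with
  | nil => simp
  | cons x l =>
    rw [mL_single_cons]
    exact Submodule.smul_mem _ _ (single_mem_CA h2 1)

lemma lL_mem_CA {P : List V → Prop} (hP : SubClosed P) (h : V → ZMod 2) {z : Ch V}
    (hz : z ∈ CA P) : lL h z ∈ CA P :=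
  Submodule.add_mem _ (bd_mem_CA hP (mL_mem_CA h hz)) (mL_mem_CA h (bd_mem_CA hP hz))

lemma Lw_mem_CA {P : List V → Prop} (hP : SubClosed P) (hs : List (V → ZMod 2)) {z : Ch V}
    (hz : z ∈ CA P) : Lw hs z ∈ CA P := by
  induction hs generalizing z with
  | nil => exact hz
  | cons h hs ih =>
    simp only [Lw, LinearMap.comp_apply]
    exact ih (lL_mem_CA hP h hz)

lemma Sop_mem_CA {P : List V → Prop} (hP : SubClosed P) (hs : List (V → ZMod 2)) {z : Ch V}
    (hz : z ∈ CA P) : Sop hs z ∈ CA P := by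
  cases hs with
  | nil => exact hz
  | cons h hs => exact Lw_mem_CA hP hs (mL_mem_CA h hz)

lemma prism_mem_CA {P : List V → Prop} {P' : List W → Prop} {g g' : V → W}
    (h : ∀ l, P l → ∀ l' : List W, (∀ y ∈ l', ∃ x ∈ l, y = g x ∨ y = g' x) → P' l')
    {z : Ch V} (hz : z ∈ CA P) : prism g g' z ∈ CA P' := by
  refine CA_induction (prism g g') _ (fun l h2 => ?_) hz
  rw [mem_CA]
  intro l' hl'
  exact h l h2 l' (prism_single_mem g g' l 1 l' hl').2

lemma steps_CA {P : List V → Prop} {A : Set W} {D : W → W → Prop} (g : ℕ → V → W) (L : ℕ)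
    (hA : ∀ i, i ≤ L → ∀ l, P l → ∀ x ∈ l, g i x ∈ A)
    (hD : ∀ i, i < L → ∀ l, P l → ∀ x ∈ l, ∀ y ∈ l,
      D (g i x) (g i y) ∧ D (g i x) (g (i+1) y) ∧ D (g (i+1) x) (g i y) ∧
        D (g (i+1) x) (g (i+1) y))
    {z : Ch V} (hz : z ∈ CA P) (hc : bd z = 0) :
    ∃ y ∈ CA (Sm A D), bd y = mapL (g 0) z + mapL (g L) z := by
  induction L with
  | zero => exact ⟨0, Submodule.zero_mem _, by rw [map_zero, add_self']⟩
  | succ L ih =>
    obtain ⟨y, hy, hyb⟩ := ih (fun i hi => hA i (by omega)) (fun i hi => hD i (by omega))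
    refine ⟨y + prism (g L) (g (L+1)) z, Submodule.add_mem _ hy ?_, ?_⟩
    · refine prism_mem_CA (fun l hl l' hl' => ⟨?_, ?_⟩) hz
      · intro y hy
        obtain ⟨x, hx, hxy⟩ := hl' y hy
        rcases hxy with rfl | rfl
        · exact hA L (by omega) l hl x hx
        · exact hA (L+1) le_rfl l hl x hx
      · intro y hy y' hy'
        obtain ⟨x, hx, hxy⟩ := hl' y hy
        obtain ⟨x', hx', hxy'⟩ := hl' y' hy'
        obtain ⟨h1, h2, h3, h4⟩ := hD L (by omega) l hl x hx x' hx'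
        rcases hxy with rfl | rfl <;> rcases hxy' with rfl | rfl <;> assumption
    · have h := prism_formula (g L) (g (L+1)) z
      rw [hc, map_zero, add_zero] at h
      rw [map_add, hyb, h]
      abel_nf
      simp only [two_ns, two_zs, add_zero, zero_add]

/-- lists with entries in `A` of mutual distance less than `δ`. -/
def Sd [PseudoMetricSpace V] (A : Set V) (δ : ℝ) : List V → Prop := Sm A (fun x y => dist x y < δ)

lemma Sd_sub [PseudoMetricSpace V] (A : Set V) (δ : ℝ) : SubClosed (Sd A δ) := Sm_subClosed _ _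

lemma Sd_mono [PseudoMetricSpace V] {A A' : Set V} {δ δ' : ℝ} (hA : A ⊆ A') (hδ : δ ≤ δ')
    {l : List V} (h : Sd A δ l) : Sd A' δ' l := Sm_mono hA (fun _ _ h => lt_of_lt_of_le h hδ) h

/-- push forward by a uniformly continuous map. -/
lemma unif_push [PseudoMetricSpace V] [PseudoMetricSpace W] {S : Set V} (hS : IsCompact S)
    {g : V → W} (hg : ContinuousOn g S) {ε : ℝ} (hε : 0 < ε) {B : Set W} (hB : Set.MapsTo g S B) :
    ∃ δ > 0, ∀ l, Sd S δ l → Sd B ε (l.map g) := by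
  have h := hS.uniformContinuousOn_of_continuous hg
  rw [Metric.uniformContinuousOn_iff] at h
  obtain ⟨δ, hδ, h⟩ := h ε hε
  refine ⟨δ, hδ, fun l hl => ⟨?_, ?_⟩⟩
  · intro x hx
    rw [List.mem_map] at hx
    obtain ⟨x', hx', rfl⟩ := hx
    exact hB (hl.1 _ hx')
  · intro x hx y hy
    rw [List.mem_map] at hx hy
    obtain ⟨x', hx', rfl⟩ := hx
    obtain ⟨y', hy', rfl⟩ := hy
    exact h _ (hl.1 _ hx') _ (hl.1 _ hy') (hl.2 _ hx' _ hy')

/-- homotopies act on small cycles. -/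
theorem soft_homotopy [PseudoMetricSpace V] [PseudoMetricSpace W] {S : Set V} (hS : IsCompact S)
    (H : ℝ → V → W) (hH : ContinuousOn (fun p : ℝ × V => H p.1 p.2) (Set.Icc 0 1 ×ˢ S))
    {B : Set W} (hB : ∀ s ∈ Set.Icc (0 : ℝ) 1, ∀ x ∈ S, H s x ∈ B) {ε : ℝ} (hε : 0 < ε) :
    ∃ δ > 0, ∀ z ∈ CA (Sd S δ), bd z = 0 →
      ∃ y ∈ CA (Sd B ε), bd y = mapL (H 0) z + mapL (H 1) z := by
  have h := (isCompact_Icc.prod hS).uniformContinuousOn_of_continuous hH
  rw [Metric.uniformContinuousOn_iff] at h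
  obtain ⟨δ, hδ, h⟩ := h ε hε
  obtain ⟨L, hL⟩ : ∃ L : ℕ, 1 / δ < L := exists_nat_gt _
  have hL0 : (0 : ℝ) < L := lt_trans (by positivity) hL
  have hLδ : 1 / (L : ℝ) < δ := by
    rw [div_lt_iff₀ hL0]
    rw [div_lt_iff₀ hδ] at hL
    linarith
  refine ⟨δ, hδ, fun z hz hc => ?_⟩
  have hs : ∀ i : ℕ, i ≤ L → (i : ℝ) / L ∈ Set.Icc (0 : ℝ) 1 := by
    intro i hi
    refine ⟨by positivity, ?_⟩
    rw [div_le_one hL0]
    exact_mod_cast hi
  have key : ∀ i j : ℕ, i ≤ L → j ≤ L → |(i : ℝ) - j| ≤ 1 → ∀ x ∈ S, ∀ y ∈ S, dist x y < δ →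
      dist (H ((i : ℝ) / L) x) (H ((j : ℝ) / L) y) < ε := by
    intro i j hi hj hij x hx y hy hxy
    refine h ((i : ℝ) / L, x) ⟨hs i hi, hx⟩ ((j : ℝ) / L, y) ⟨hs j hj, hy⟩ ?_
    rw [Prod.dist_eq, max_lt_iff]
    refine ⟨?_, hxy⟩
    show dist ((i : ℝ) / L) ((j : ℝ) / L) < δ
    rw [Real.dist_eq, ← sub_div, abs_div, abs_of_pos hL0]
    refine lt_of_le_of_lt ?_ hLδ
    exact div_le_div_of_nonneg_right hij hL0.le
  have := steps_CA (P := Sd S δ) (A := B) (D := fun x y => dist x y < ε)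
    (fun i x => H ((i : ℝ) / L) x) L
    (fun i hi l hl x hx => hB _ (hs i hi) x (hl.1 x hx))
    (fun i hi l hl x hx y hy => by
      have hx' := hl.1 x hx
      have hy' := hl.1 y hy
      have hxy := hl.2 x hx y hy
      refine ⟨key i i hi.le hi.le (by simp) x hx' y hy' hxy,
        key i (i + 1) hi.le hi (by push_cast; simp) x hx' y hy' hxy,
        key (i + 1) i hi hi.le (by push_cast; simp) x hx' y hy' hxy,
        key (i + 1) (i + 1) hi hi (by simp) x hx' y hy' hxy⟩) hz hc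
  obtain ⟨y, hy, hyb⟩ := this
  refine ⟨y, hy, ?_⟩
  rw [hyb]
  have e0 : (fun x => H (((0 : ℕ) : ℝ) / L) x) = H 0 := by funext x; simp
  have e1 : (fun x => H ((L : ℝ) / L) x) = H 1 := by funext x; rw [div_self hL0.ne']
  rw [e0, e1]

/-- a chain bounds at scale `P`. -/
def Bds (P : List V → Prop) (z : Ch V) : Prop := ∃ y ∈ CA P, bd y = z

lemma Bds.add {P : List V → Prop} {z w : Ch V} (h : Bds P z) (h' : Bds P w) : Bds P (z + w) := by
  obtain ⟨y, hy, h1⟩ := h
  obtain ⟨y', hy', h1'⟩ := h'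
  exact ⟨y + y', Submodule.add_mem _ hy hy', by rw [map_add, h1, h1']⟩

lemma Bds.mono {P P' : List V → Prop} (hP : ∀ l, P l → P' l) {z : Ch V} (h : Bds P z) :
    Bds P' z := by
  obtain ⟨y, hy, h1⟩ := h
  exact ⟨y, CA_mono hP hy, h1⟩

lemma Bds.map {P : List V → Prop} {P' : List W → Prop} {g : V → W}
    (hg : ∀ l, P l → P' (l.map g)) {z : Ch V} (h : Bds P z) : Bds P' (mapL g z) := by
  obtain ⟨y, hy, h1⟩ := h
  exact ⟨mapL g y, mapL_mem_CA hg hy, by rw [bd_mapL, h1]⟩

/-- projection to lists of a given length. -/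
noncomputable def lenL (n : ℕ) : Ch V →ₗ[ZMod 2] Ch V :=
  Finsupp.linearCombination (ZMod 2) (fun l => if l.length = n then single l 1 else 0)

lemma lenL_single (n : ℕ) (l : List V) :
    lenL n (single l (1 : ZMod 2)) = if l.length = n then single l 1 else 0 := by
  simp [lenL]

lemma lenL_CK {P : List V → Prop} {n : ℕ} {z : Ch V} (hz : z ∈ CK P n) : lenL n z = z := by
  refine CK_eq (lenL n) LinearMap.id (fun l h1 _ => ?_) hz
  rw [lenL_single, if_pos h1]; rfl

lemma lenL_CK' {P : List V → Prop} {n m : ℕ} {z : Ch V} (hz : z ∈ CK P n) (hnm : n ≠ m) :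
    lenL m z = 0 := by
  refine CK_eq (lenL m) 0 (fun l h1 _ => ?_) hz
  rw [lenL_single, if_neg (by omega)]; rfl

lemma bd_lenL (n : ℕ) (z : Ch V) : bd (lenL (n + 1) z) = lenL n (bd z) := by
  have : bd ∘ₗ lenL (n + 1) = lenL n ∘ₗ (bd : Ch V →ₗ[ZMod 2] Ch V) := by
    apply lin_ext
    intro l
    simp only [LinearMap.comp_apply]
    rw [lenL_single]
    have hb : bd (single l (1 : ZMod 2)) ∈ CK (fun _ => True) (l.length - 1) := by
      rw [mem_CK]
      intro l' hl'
      have := bd_single_mem l 1 l' hl'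
      exact ⟨by omega, trivial⟩
    split_ifs with h
    · rw [h] at hb
      exact (lenL_CK hb).symm
    · rw [map_zero]
      rcases Nat.eq_zero_or_pos l.length with h0 | h0
      · have : l = [] := List.eq_nil_of_length_eq_zero h0
        subst this
        simp
      · exact (lenL_CK' hb (by omega)).symm
  exact LinearMap.congr_fun this z

lemma lenL_mem {P : List V → Prop} {n : ℕ} {z : Ch V} (hz : z ∈ CA P) : lenL n z ∈ CK P n := by
  refine CA_induction (lenL n) _ (fun l h2 => ?_) hz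
  rw [lenL_single]
  split_ifs with h
  · exact single_mem_CK h h2 1
  · exact Submodule.zero_mem _

lemma Bds.pure {P P' : List V → Prop} {n : ℕ} {z : Ch V} (hz : z ∈ CK P n) (h : Bds P' z) :
    ∃ y ∈ CK P' (n + 1), bd y = z := by
  obtain ⟨y, hy, h1⟩ := h
  exact ⟨lenL (n + 1) y, lenL_mem hy, by rw [bd_lenL, h1, lenL_CK hz]⟩

end Pool.Agent.TightEmb
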